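import Pool.Agent.UTL.Fin

set_option autoImplicit false

/-! The two-sided bound at a fixed power of `x`. -/

namespace Pool.Agent.UTL

open Real

theorem g1_pos' : 0 < g1 := by
  have : 0 < Real.log (4 / 3) := Real.log_pos (by norm_num)
  unfold g1; positivity

theorem VV_pos' : 0 < VV := by
  have h1 : 0 < Real.log (4 / 3) := Real.log_pos (by norm_num)
  have h2 : 0 < Real.log 3 := Real.log_pos (by norm_num)
  unfold VV; positivity

/-- Two-sided bound at the level `x ^ δ`. -/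
theorem main_Exp (ε δ : ℝ) (hε : 0 < ε) (hε1 : ε < 1) (hδ : 0 < δ) (hδ1 : δ < 1) :
    ∃ s₀ : ℝ, 0 < s₀ ∧ ∀ s : ℝ, 0 < s → s ≤ s₀ → ∃ x₀ : ℝ, ∀ x : ℝ, x₀ ≤ x →
      x ^ (1 - (1 + ε) * (1 - δ) * s ^ 2 / (2 * VV)) ≤
        (Nx x (x ^ δ) ((g1 + s) * ((1 - δ) * Real.log x)) : ℝ) ∧
      (Nx x (x ^ δ) ((g1 + s) * ((1 - δ) * Real.log x)) : ℝ) ≤
        x ^ (1 - (1 - ε) * (1 - δ) * s ^ 2 / (2 * VV)) := by
  obtain ⟨C, c, hc, hU⟩ := main_U (ε / 2) δ (by linarith) hδ hδ1
  obtain ⟨c', hc', hL⟩ := main_Lower ε δ hε hδ hδ1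
  have hV := VV_pos'
  have hd : 0 < 1 - δ := by linarith
  -- the condition on `s`
  set A : ℝ := c * δ * (2 * VV) / (1 - δ) with hA
  have hA0 : 0 < A := by positivity
  refine ⟨min c' (min 1 A), by positivity, fun s hs hs0 => ?_⟩
  have hsc : s ≤ c' := hs0.trans (min_le_left _ _)
  have hs1 : s ≤ 1 := hs0.trans ((min_le_right _ _).trans (min_le_left _ _))
  have hsA : s ≤ A := hs0.trans ((min_le_right _ _).trans (min_le_right _ _))
  obtain ⟨x₁, hx₁⟩ := hL s hs hsc
  -- growth conditions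
  have hlog : Filter.Tendsto Real.log Filter.atTop Filter.atTop := Real.tendsto_log_atTop
  have hll : Filter.Tendsto (fun x : ℝ => Real.log (Real.log x) ^ 2 / Real.log x)
      Filter.atTop (nhds 0) := by
    have h := (Real.isLittleO_pow_log_id_atTop (n := 2)).tendsto_div_nhds_zero
    exact h.comp hlog
  set η : ℝ := min (δ / (|C| + 1)) (s ^ 2 * (1 - δ) / (|C| + 1) ^ 2) with hη
  have hη0 : 0 < η := by positivity
  have hev : ∀ᶠ x : ℝ in Filter.atTop, Real.log (Real.log x) ^ 2 / Real.log x < η :=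
    hll.eventually (gt_mem_nhds hη0)
  have hev2 : ∀ᶠ x : ℝ in Filter.atTop,
      Real.log 2 * (2 * (2 * VV)) / (ε * (1 - δ) * s ^ 2) ≤ Real.log x :=
    hlog.eventually (Filter.eventually_ge_atTop _)
  have hev3 : ∀ᶠ x : ℝ in Filter.atTop, 1 ≤ Real.log x :=
    hlog.eventually (Filter.eventually_ge_atTop _)
  obtain ⟨x₂, hx₂⟩ := Filter.eventually_atTop.1 (hev.and (hev2.and hev3))
  refine ⟨max (max x₁ x₂) (max C 2), fun x hx => ?_⟩
  have hxx1 : x₁ ≤ x := ((le_max_left _ _).trans (le_max_left _ _)).trans hx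
  have hxx2 : x₂ ≤ x := ((le_max_right _ _).trans (le_max_left _ _)).trans hx
  have hxC : C ≤ x := ((le_max_left _ _).trans (le_max_right _ _)).trans hx
  have hx2 : 2 ≤ x := ((le_max_right _ _).trans (le_max_right _ _)).trans hx
  have hx0 : 0 < x := by linarith
  obtain ⟨h1, h2, h3⟩ := hx₂ x hxx2
  set u := Real.log x with hu
  have hu0 : 0 < u := by linarith
  have hM1 : 1 ≤ x ^ δ := Real.one_le_rpow (by linarith) hδ.le
  have hM0 : 0 < x ^ δ := by linarith
  have hlM : Real.log (x ^ δ) = δ * u := Real.log_rpow hx0 δ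
  have hL' : Real.log (x / x ^ δ) = (1 - δ) * u := by
    rw [Real.log_div hx0.ne' hM0.ne', hlM]; ring
  have hrp : ∀ z : ℝ, x ^ z = Real.exp (z * u) := by
    intro z
    rw [Real.rpow_def_of_pos hx0, ← hu, mul_comm]
  have h1' : Real.log u ^ 2 ≤ η * u := by
    have := (div_lt_iff₀ hu0).1 h1
    exact this.le
  constructor
  · have h := hx₁ x (x ^ δ) hxx1 hM1 le_rfl
    rw [hL'] at h
    refine le_trans (le_of_eq ?_) h
    rw [hrp, show x * Real.exp (-(1 + ε) * s ^ 2 * ((1 - δ) * u) / (2 * VV)) =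
      Real.exp u * Real.exp (-(1 + ε) * s ^ 2 * ((1 - δ) * u) / (2 * VV)) by
        rw [hu, Real.exp_log hx0], ← Real.exp_add]
    congr 1
    ring
  · have hcond1 : Real.exp (C * Real.log u ^ 2) ≤ x ^ δ := by
      rw [hrp]
      apply Real.exp_le_exp.2
      have e1 : C * Real.log u ^ 2 ≤ (|C| + 1) * Real.log u ^ 2 :=
        mul_le_mul_of_nonneg_right ((le_abs_self C).trans (by linarith)) (sq_nonneg _)
      have e2 : (|C| + 1) * Real.log u ^ 2 ≤ (|C| + 1) * (η * u) :=
        mul_le_mul_of_nonneg_left h1' (by positivity)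
      have e3 : (|C| + 1) * (η * u) ≤ δ * u := by
        have e4 : η ≤ δ / (|C| + 1) := min_le_left _ _
        have e5 : η * (|C| + 1) ≤ δ := by
          rwa [le_div_iff₀ (by positivity)] at e4
        calc (|C| + 1) * (η * u) = (η * (|C| + 1)) * u := by ring
          _ ≤ δ * u := mul_le_mul_of_nonneg_right e5 hu0.le
      linarith
    have hcond2 : C * Real.log u * √((1 - δ) * u) ≤ s * ((1 - δ) * u) := by
      have f1 : C * Real.log u ≤ (|C| + 1) * |Real.log u| := by
        calc C * Real.log u ≤ |C * Real.log u| := le_abs_self _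
          _ = |C| * |Real.log u| := abs_mul _ _
          _ ≤ (|C| + 1) * |Real.log u| :=
            mul_le_mul_of_nonneg_right (by linarith) (abs_nonneg _)
      have f2 : (|C| + 1) * |Real.log u| ≤ s * √((1 - δ) * u) := by
        have g2 : ((|C| + 1) * |Real.log u|) ^ 2 ≤ (s * √((1 - δ) * u)) ^ 2 := by
          rw [mul_pow, mul_pow, sq_abs, Real.sq_sqrt (by positivity)]
          have e4 : η ≤ s ^ 2 * (1 - δ) / (|C| + 1) ^ 2 := min_le_right _ _
          have e5 : η * (|C| + 1) ^ 2 ≤ s ^ 2 * (1 - δ) := by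
            rwa [le_div_iff₀ (by positivity)] at e4
          calc (|C| + 1) ^ 2 * Real.log u ^ 2 ≤ (|C| + 1) ^ 2 * (η * u) :=
                mul_le_mul_of_nonneg_left h1' (by positivity)
            _ = (η * (|C| + 1) ^ 2) * u := by ring
            _ ≤ (s ^ 2 * (1 - δ)) * u := mul_le_mul_of_nonneg_right e5 hu0.le
            _ = s ^ 2 * ((1 - δ) * u) := by ring
        exact le_of_sq_le_sq g2 (by positivity)
      have f3 : √((1 - δ) * u) * √((1 - δ) * u) = (1 - δ) * u :=
        Real.mul_self_sqrt (by positivity)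
      calc C * Real.log u * √((1 - δ) * u)
          ≤ (s * √((1 - δ) * u)) * √((1 - δ) * u) :=
            mul_le_mul_of_nonneg_right (f1.trans f2) (Real.sqrt_nonneg _)
        _ = s * ((1 - δ) * u) := by rw [mul_assoc, f3]
    have h := hU x (x ^ δ) (s * ((1 - δ) * u)) hxC hcond1 le_rfl (by rw [hL']; exact hcond2)
    rw [hL'] at h
    have hbound : (Nx x (x ^ δ) ((g1 + s) * ((1 - δ) * u)) : ℝ) ≤
        x * Real.exp (-(1 - ε / 2) * (s * ((1 - δ) * u)) ^ 2 / (2 * VV * ((1 - δ) * u))) +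
          x * (x ^ δ) ^ (-c) := by
      have e : (g1 + s) * ((1 - δ) * u) = g1 * ((1 - δ) * u) + s * ((1 - δ) * u) := by ring
      rw [e]; exact h
    refine hbound.trans ?_
    have e1 : -(1 - ε / 2) * (s * ((1 - δ) * u)) ^ 2 / (2 * VV * ((1 - δ) * u)) =
        -(1 - ε / 2) * (1 - δ) * s ^ 2 / (2 * VV) * u := by
      field_simp
    have e2 : (x ^ δ) ^ (-c) = Real.exp (-(c * δ) * u) := by
      rw [← Real.rpow_mul hx0.le, hrp]; congr 1; ring
    rw [e1, e2, hrp]
    have e3 : Real.exp (-(c * δ) * u) ≤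
        Real.exp (-(1 - ε / 2) * (1 - δ) * s ^ 2 / (2 * VV) * u) := by
      apply Real.exp_le_exp.2
      apply mul_le_mul_of_nonneg_right _ hu0.le
      have k1 : s ^ 2 ≤ A := by nlinarith
      have k2 : (1 - δ) * s ^ 2 / (2 * VV) ≤ c * δ := by
        rw [div_le_iff₀ (by positivity)]
        have : (1 - δ) * A = c * δ * (2 * VV) := by rw [hA]; field_simp
        nlinarith
      have k3 : (1 - ε / 2) * ((1 - δ) * s ^ 2 / (2 * VV)) ≤ 1 * (c * δ) := by
        apply mul_le_mul (by linarith) k2 (by positivity) (by norm_num)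
      have k4 : -(1 - ε / 2) * (1 - δ) * s ^ 2 / (2 * VV) =
        -((1 - ε / 2) * ((1 - δ) * s ^ 2 / (2 * VV))) := by ring
      rw [k4]; linarith
    have e4 : x = Real.exp u := by rw [hu, Real.exp_log hx0]
    calc x * Real.exp (-(1 - ε / 2) * (1 - δ) * s ^ 2 / (2 * VV) * u) +
        x * Real.exp (-(c * δ) * u)
        ≤ x * Real.exp (-(1 - ε / 2) * (1 - δ) * s ^ 2 / (2 * VV) * u) +
          x * Real.exp (-(1 - ε / 2) * (1 - δ) * s ^ 2 / (2 * VV) * u) := by
          have := mul_le_mul_of_nonneg_left e3 hx0.le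
          linarith
      _ = Real.exp (Real.log 2) * (Real.exp u *
          Real.exp (-(1 - ε / 2) * (1 - δ) * s ^ 2 / (2 * VV) * u)) := by
          rw [Real.exp_log (by norm_num : (0:ℝ) < 2), ← e4]; ring
      _ = Real.exp (Real.log 2 + (u + -(1 - ε / 2) * (1 - δ) * s ^ 2 / (2 * VV) * u)) := by
          rw [← Real.exp_add, ← Real.exp_add]
      _ ≤ Real.exp ((1 - (1 - ε) * (1 - δ) * s ^ 2 / (2 * VV)) * u) := by
          apply Real.exp_le_exp.2
          have m1 : Real.log 2 * (2 * (2 * VV)) ≤ u * (ε * (1 - δ) * s ^ 2) :=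
            (div_le_iff₀ (by positivity)).1 h2
          have m2 : Real.log 2 ≤ ε / 2 * ((1 - δ) * s ^ 2 / (2 * VV)) * u := by
            rw [show ε / 2 * ((1 - δ) * s ^ 2 / (2 * VV)) * u =
              u * (ε * (1 - δ) * s ^ 2) / (2 * (2 * VV)) by field_simp,
              le_div_iff₀ (by positivity)]
            exact m1
          have m3 : (1 - (1 - ε) * (1 - δ) * s ^ 2 / (2 * VV)) * u -
            (u + -(1 - ε / 2) * (1 - δ) * s ^ 2 / (2 * VV) * u) =
              ε / 2 * ((1 - δ) * s ^ 2 / (2 * VV)) * u := by ring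
          linarith

end Pool.Agent.UTL
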