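import Pool.Agent.UTL.Chain

set_option autoImplicit false

/-! The number of arrivals; the bad integers of the chain. -/

namespace Pool.Agent.UTL

open Finset
open Pool.Agent.Collatz3.Mix (words mem_words)
open Pool.Agent.Collatz3.PD (rd en Per A)
open Pool.Agent.Helper27 (T J two_mul_T J_add)

theorem sum_two_le {Y : ℝ} (hY : 0 ≤ Y) (n : ℕ) :
    ∑ s ∈ range n, (if (2 : ℝ) ^ s ≤ Y then (2 : ℝ) ^ s else 0) ≤ 2 * Y := by
  have h1 : ∀ n : ℕ, ∑ s ∈ range n, (if (2 : ℝ) ^ s ≤ Y then (2 : ℝ) ^ s else 0) ≤ 2 ^ n := by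
    intro n
    induction n with
    | zero => simp
    | succ n ih =>
      rw [sum_range_succ, pow_succ]
      have : (0 : ℝ) < 2 ^ n := by positivity
      split_ifs <;> linarith
  induction n with
  | zero => simp; linarith
  | succ n ih =>
    rw [sum_range_succ]
    split_ifs with h
    · have := h1 n
      linarith
    · linarith

theorem thm_Arr : St_Arr := by
  classical
  intro y X K b hX hb hK
  have hb0 : (0 : ℝ) < b := by exact_mod_cast hb
  obtain ⟨I, hI⟩ : ∃ I : ℕ, 2 * 3 ^ K * X / b ≤ 2 ^ I := by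
    obtain ⟨n, hn⟩ := pow_unbounded_of_one_lt (2 * 3 ^ K * X / b) (by norm_num : (1 : ℝ) < 2)
    exact ⟨n, hn.le⟩
  obtain ⟨G, hG⟩ : ∃ G : Finset (List ℕ), G = (range (K + 1)).biUnion
    fun j => (BW I j).filter (fun w => rd w b) := ⟨_, rfl⟩
  have hcov := sum_le_cover (Pre y X K b) (G ×ˢ range (I + 1)) (fun _ => (1 : ℝ))
    (fun p => if (2 : ℝ) ^ (p.1.sum + p.2) * b ≤ 2 * 3 ^ p.1.length * X then 1 else 0)
    (fun p => ((2 : ℤ) ^ p.2 * en p.1 b).toNat)
    (fun p _ => by split_ifs <;> norm_num) (by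
      intro n hn
      rw [mem_Pre hX] at hn
      obtain ⟨hn1, hn2, k, hP, hJ⟩ := hn
      obtain ⟨w, z, w1, w2, w3, w4, w5, w6, w7⟩ := thm_Wrd y n k b hn2 hP
        (le_trans (by exact_mod_cast hJ) hK)
      have hk : (2 : ℝ) ^ k * b ≤ 2 * 3 ^ (J k n) * X :=
        w7.trans (mul_le_mul_of_nonneg_left hn1 (by positivity))
      have hkI : k ≤ I := by
        have e1 : (2 : ℝ) ^ k ≤ 2 ^ I := by
          refine le_trans ?_ hI
          rw [le_div_iff₀ hb0]
          refine hk.trans ?_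
          apply mul_le_mul_of_nonneg_right _ hX
          apply mul_le_mul_of_nonneg_left _ (by norm_num)
          exact pow_le_pow_right₀ (by norm_num) hJ
        exact (pow_le_pow_iff_right₀ (by norm_num)).1 e1
      refine ⟨(w, z), ?_, ?_, ?_⟩
      · rw [mem_product, hG, mem_biUnion, mem_range]
        refine ⟨⟨w.length, ?_, ?_⟩, by simp only; omega⟩
        · rw [mem_range, w1]
          omega
        · rw [mem_filter, mem_BW, mem_words]
          refine ⟨⟨⟨rfl, fun i hi => ⟨w2 i hi, ?_⟩⟩, w6⟩, w4⟩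
          have h9 : i ≤ w.sum := List.single_le_sum (fun _ _ => Nat.zero_le _) i hi
          omega
      · simp only
        rw [w5]
        simp
      · simp only
        rw [w3, w1, if_pos hk])
  rw [sum_const, nsmul_eq_mul, mul_one] at hcov
  refine hcov.trans ?_
  rw [sum_product, hG]
  refine (sum_biUnion_le' _ _ _ fun w => sum_nonneg fun z _ => by split_ifs <;> norm_num).trans ?_
  have hj : ∀ j ∈ range (K + 1), ∑ w ∈ (BW I j).filter (fun w => rd w b), ∑ z ∈ range (I + 1),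
      (if (2 : ℝ) ^ (w.sum + z) * b ≤ 2 * 3 ^ w.length * X then (1 : ℝ) else 0) ≤
        8 * (K + 1) * X / b := by
    intro j hjK
    rw [mem_range] at hjK
    rw [sum_comm]
    have hz : ∀ z ∈ range (I + 1), ∑ w ∈ (BW I j).filter (fun w => rd w b),
        (if (2 : ℝ) ^ (w.sum + z) * b ≤ 2 * 3 ^ w.length * X then (1 : ℝ) else 0) ≤
          4 * (j + 1) * X / b * (1 / 2) ^ z := by
      intro z _
      obtain ⟨Y, hY⟩ : ∃ Y : ℝ, Y = 2 * 3 ^ j * X / (b * 2 ^ z) := ⟨_, rfl⟩
      have hY0 : 0 ≤ Y := by rw [hY]; positivity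
      obtain ⟨n, hn⟩ : ∃ n : ℕ, n = ((BW I j).filter fun w => rd w b).sup List.sum + 1 := ⟨_, rfl⟩
      rw [← sum_fiberwise_of_maps_to (t := range n) (g := fun w : List ℕ => w.sum) (by
        intro w hw
        rw [mem_range, hn, Nat.lt_succ_iff]
        exact le_sup (f := List.sum) hw)]
      have hs : ∀ s ∈ range n, ∑ w ∈ ((BW I j).filter fun w => rd w b).filter
          (fun w => w.sum = s), (if (2 : ℝ) ^ (w.sum + z) * b ≤ 2 * 3 ^ w.length * X then
            (1 : ℝ) else 0) ≤ (j + 1) / 3 ^ j * (if (2 : ℝ) ^ s ≤ Y then (2 : ℝ) ^ s else 0) := by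
        intro s _
        have e1 : ∀ w ∈ ((BW I j).filter fun w => rd w b).filter (fun w => w.sum = s),
            (if (2 : ℝ) ^ (w.sum + z) * b ≤ 2 * 3 ^ w.length * X then (1 : ℝ) else 0) =
              if (2 : ℝ) ^ s ≤ Y then 1 else 0 := by
          intro w hw
          rw [mem_filter, mem_filter] at hw
          rw [hw.2, BW_length hw.1.1]
          congr 1
          rw [hY, le_div_iff₀ (by positivity), pow_add, eq_iff_iff]
          constructor <;> intro h <;> linarith
        rw [sum_congr rfl e1, sum_const, nsmul_eq_mul]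
        have e2 : ((BW I j).filter fun w => rd w b).filter (fun w => w.sum = s) =
            (BW I j).filter (fun w => w.sum = s ∧ rd w b) := by
          rw [filter_filter]
          apply filter_congr
          intro w _
          exact and_comm
        rw [e2]
        have e3 := thm_Cnt I j s b
        split_ifs
        · rw [mul_one]
          refine e3.trans (le_of_eq ?_)
          ring
        · simp
      refine (sum_le_sum hs).trans ?_
      rw [← mul_sum]
      refine (mul_le_mul_of_nonneg_left (sum_two_le hY0 n) (by positivity)).trans (le_of_eq ?_)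
      rw [hY, one_div, inv_pow]
      field_simp
      ring
    refine (sum_le_sum hz).trans ?_
    rw [← mul_sum]
    have e1 := sum_geom_le (η := 1 / 2) (by norm_num) (by norm_num) (I + 1)
    have e2 : (j : ℝ) ≤ K := by exact_mod_cast (by omega : j ≤ K)
    calc 4 * ((j : ℝ) + 1) * X / b * ∑ i ∈ range (I + 1), (1 / 2) ^ i
        ≤ 4 * ((j : ℝ) + 1) * X / b * (1 / (1 - 1 / 2)) :=
          mul_le_mul_of_nonneg_left e1 (by positivity)
      _ = 8 * ((j : ℝ) + 1) * (X / b) := by ring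
      _ ≤ 8 * ((K : ℝ) + 1) * (X / b) :=
          mul_le_mul_of_nonneg_right (by linarith) (by positivity)
      _ = _ := by ring
  refine (sum_le_sum hj).trans (le_of_eq ?_)
  rw [sum_const, card_range, nsmul_eq_mul]
  push_cast
  ring

theorem GS_J {Y : ℕ → ℝ} {K : ℕ → ℕ} (hY0 : 0 ≤ Y 0) : ∀ i : ℕ,
    (∀ j < i, 1 ≤ Y (j + 1) ∧ Y (j + 1) ≤ Y j / 2) → ∀ n ∈ GS Y K i,
      J (tau (Y i) n) n ≤ ∑ j ∈ range i, K j := by
  classical
  intro i
  induction i with
  | zero =>
    intro _ n hn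
    have hn' : n ∈ Lv (Y 0) := hn
    rw [mem_Lv hY0] at hn'
    have hP : Pas (Y 0) n 0 n := ⟨rfl, hn'.1, fun j hj => absurd hj (by omega)⟩
    rw [hP.tau_eq]
    simp [J]
  | succ i ih =>
    intro hY n hn
    have hn' : n ∈ (GS Y K i).filter fun n => ∃ k b, Pas (Y (i + 1)) (pt Y i n) k b ∧
      J k (pt Y i n) ≤ K i := hn
    rw [mem_filter] at hn'
    obtain ⟨h1, k, b, hP, hJ⟩ := hn'
    obtain ⟨h2, h3⟩ := GS_spec hY0 i (fun j hj => hY j (by omega)) n h1
    obtain ⟨h4, h5⟩ := hY i (by omega)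
    have hYi : 0 ≤ Y i := by linarith
    have h6 := h2.trans (by linarith) hP
    rw [h6.tau_eq, add_comm k, J_add, sum_range_succ]
    have h7 := ih (fun j hj => hY j (by omega)) n h1
    have h8 : T^[tau (Y i) n] n = pt Y i n := rfl
    rw [h8]
    omega

theorem thm_BadSum : St_BadSum := by
  classical
  intro Y K R hY hK
  obtain ⟨Ks, hKs⟩ : ∃ Ks : ℕ, Ks = ∑ j ∈ range R, K j := ⟨_, rfl⟩
  rw [← hKs] at hK ⊢
  have hY0 : 0 ≤ Y 0 := (Nat.cast_nonneg Ks).trans (hK 0 (Nat.zero_le _))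
  have hsub : Lv (Y 0) \ GS Y K R ⊆ (range R).biUnion fun i =>
      (Bd (Y i) (Y (i + 1)) (K i)).biUnion fun b => Pre (Y i) (Y 0) Ks b := by
    intro n hn
    rw [mem_sdiff] at hn
    have hex : ∃ i, n ∉ GS Y K i := ⟨R, hn.2⟩
    obtain ⟨i, hi, hmin⟩ : ∃ i, n ∉ GS Y K i ∧ ∀ i' < i, ¬ n ∉ GS Y K i' :=
      ⟨Nat.find hex, Nat.find_spec hex, fun i' h => Nat.find_min hex h⟩
    have hiR : i ≤ R := by
      by_contra hc
      exact hmin R (by omega) hn.2
    rcases i with _ | i
    · exact absurd hn.1 hi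
    · have h1 : n ∈ GS Y K i := by
        by_contra hc
        exact hmin i (by omega) hc
      have hYj : ∀ j < i, 1 ≤ Y (j + 1) ∧ Y (j + 1) ≤ Y j / 2 := fun j hj => hY j (by omega)
      obtain ⟨h2, h3⟩ := GS_spec hY0 i hYj n h1
      have h4 := GS_J hY0 i hYj n h1
      have h5 : ¬ ∃ k b, Pas (Y (i + 1)) (pt Y i n) k b ∧ J k (pt Y i n) ≤ K i := by
        intro hc
        apply hi
        change n ∈ (GS Y K i).filter fun n => ∃ k b, Pas (Y (i + 1)) (pt Y i n) k b ∧
          J k (pt Y i n) ≤ K i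
        rw [mem_filter]
        exact ⟨h1, hc⟩
      rw [mem_biUnion]
      refine ⟨i, by rw [mem_range]; omega, ?_⟩
      rw [mem_biUnion]
      refine ⟨pt Y i n, ?_, ?_⟩
      · unfold Bd
        rw [mem_filter]
        exact ⟨h3, h5⟩
      · rw [mem_Pre hY0]
        have h6 := hn.1
        rw [mem_Lv hY0] at h6
        refine ⟨h6.1, ?_, tau (Y i) n, h2, ?_⟩
        · have : (0 : ℝ) < n := by linarith [h6.2]
          exact_mod_cast this
        · refine h4.trans ?_
          rw [hKs]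
          exact sum_le_sum_of_subset (range_mono (by omega))
  have h1 : (Lv (Y 0) \ GS Y K R).card ≤ ∑ i ∈ range R,
      ∑ b ∈ Bd (Y i) (Y (i + 1)) (K i), (Pre (Y i) (Y 0) Ks b).card :=
    (card_le_card hsub).trans (card_biUnion_le.trans (sum_le_sum fun i _ => card_biUnion_le))
  have h2 : ((Lv (Y 0) \ GS Y K R).card : ℝ) ≤ ∑ i ∈ range R,
      ∑ b ∈ Bd (Y i) (Y (i + 1)) (K i), ((Pre (Y i) (Y 0) Ks b).card : ℝ) := by
    exact_mod_cast h1
  refine h2.trans (sum_le_sum ?_)
  intro i hi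
  rw [mem_range] at hi
  have hYi : 0 < Y i := by
    have := hY i hi
    linarith [this.1, this.2]
  have h3 : ∀ b ∈ Bd (Y i) (Y (i + 1)) (K i), ((Pre (Y i) (Y 0) Ks b).card : ℝ) ≤
      16 * (Ks + 1) ^ 2 * Y 0 / Y i := by
    intro b hb
    unfold Bd at hb
    rw [mem_filter, mem_Lv hYi.le] at hb
    have hb2 := hb.1.2
    have hb0 : (0 : ℝ) < b := by linarith
    refine (thm_Arr (Y i) (Y 0) Ks b hY0 (by exact_mod_cast hb0) (hK i (by omega))).trans ?_
    rw [div_le_div_iff₀ hb0 hYi]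
    have h5 : 0 ≤ 8 * ((Ks : ℝ) + 1) ^ 2 * Y 0 := by positivity
    calc 8 * ((Ks : ℝ) + 1) ^ 2 * Y 0 * Y i ≤ 8 * ((Ks : ℝ) + 1) ^ 2 * Y 0 * (2 * b) :=
          mul_le_mul_of_nonneg_left (by linarith) h5
      _ = _ := by ring
  refine (sum_le_sum h3).trans (le_of_eq ?_)
  rw [sum_const, nsmul_eq_mul]

end Pool.Agent.UTL
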