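import Mathlib
import Pool.Agent.Collatz3.FWPass

set_option autoImplicit false

/-!
Transport of the density of a set which is stable under the 3x+1 map above a level.
-/

namespace Pool.Agent.UTL

open Finset Filter
open Pool.Agent.Collatz3.Mix (words mem_words)
open Pool.Agent.Collatz3.PD
open Pool.Agent.Collatz3.FW
open Pool.Agent.Helper14 (T)

/-- `A` is stable under the map above `Z`. -/
def Stab (Z : ℝ) (A : Set ℤ) : Prop := ∀ n : ℤ, Z < |(n : ℝ)| → (n ∈ A ↔ T n ∈ A)

theorem Stab.iter {Z : ℝ} {A : Set ℤ} (h : Stab Z A) (s : ℕ) : ∀ n : ℤ,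
    (∀ j < s, Z < |((T^[j] n : ℤ) : ℝ)|) → (n ∈ A ↔ T^[s] n ∈ A) := by
  induction s with
  | zero => intro n _; simp
  | succ s ih =>
    intro n hn
    rw [Function.iterate_succ_apply]
    have h0 := hn 0 (Nat.succ_pos _)
    rw [Function.iterate_zero, id_eq] at h0
    rw [h n h0]
    exact ih (T n) fun j hj => by
      have := hn (j + 1) (by omega)
      rwa [Function.iterate_succ_apply] at this

theorem abs_T_le (n : ℤ) : |((T n : ℤ) : ℝ)| ≤ 2 * |(n : ℝ)| := by
  have h : |T n| ≤ 2 * |n| := by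
    unfold T
    split_ifs with h
    · obtain ⟨m, rfl⟩ := h
      rw [Int.mul_ediv_cancel_left _ (by norm_num), abs_mul]
      have := abs_nonneg m
      norm_num
      linarith
    · have h1 : (3 * n + 1) / 2 * 2 = 3 * n + 1 := Int.ediv_mul_cancel (by omega)
      have h2 : 2 * |(3 * n + 1) / 2| = |3 * n + 1| := by
        rw [← h1, abs_mul, Int.mul_ediv_cancel _ (by norm_num)]
        norm_num
        ring
      rcases le_or_gt 0 n with h3 | h3
      · rw [abs_of_nonneg (by omega : 0 ≤ 3 * n + 1)] at h2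
        rw [abs_of_nonneg h3]
        omega
      · rw [abs_of_nonpos (by omega : 3 * n + 1 ≤ 0)] at h2
        rw [abs_of_neg h3]
        omega
  exact_mod_cast h

theorem abs_iter_le (j : ℕ) (n : ℤ) : |((T^[j] n : ℤ) : ℝ)| ≤ 2 ^ j * |(n : ℝ)| := by
  induction j generalizing n with
  | zero => simp
  | succ j ih =>
    rw [Function.iterate_succ_apply]
    have h1 := abs_T_le n
    have h2 := ih (T n)
    have h3 : (2 : ℝ) ^ j * |((T n : ℤ) : ℝ)| ≤ 2 ^ j * (2 * |(n : ℝ)|) :=
      mul_le_mul_of_nonneg_left h1 (by positivity)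
    rw [pow_succ]
    linarith

open Classical in
theorem F_split {e : ℤ} (he : e = 1 ∨ e = -1) (A : Set ℤ) (X : ℝ) {W : ℝ} (hW : 0 ≤ W) :
    F e A X ≤ F e (A ∩ {n | W < |(n : ℝ)|}) X + (W + 1) / 2 := by
  refine le_trans ?_ (add_le_add_right (card_small he X hW) _)
  unfold F
  have h6 : (Od e X).filter (fun n => n ∈ A) ⊆
      (Od e X).filter (fun n => n ∈ A ∩ {n : ℤ | W < |(n : ℝ)|}) ∪
      (Od e X).filter (fun n : ℤ => |(n : ℝ)| ≤ W) := by
    intro m hm
    rw [mem_filter] at hm
    rw [mem_union, mem_filter, mem_filter]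
    rcases le_or_gt |(m : ℝ)| W with h7 | h7
    · exact Or.inr ⟨hm.1, h7⟩
    · exact Or.inl ⟨hm.1, hm.2, h7⟩
  exact_mod_cast (card_le_card h6).trans (card_union_le _ _)

/-- Transport of an upper bound for the density. -/
theorem transport {k₀ : ℕ} (hk₀ : ∀ k, k₀ ≤ k → NumT (3 / 4) k) {Z X₀ a₀ : ℝ}
    (hX₀ : 2 ^ (10 * (k₀ + 1)) ≤ X₀) (hZX : 32 * Z ≤ X₀) (ha₀ : 0 ≤ a₀) {A : Set ℤ}
    (hA : Stab Z A) {e : ℤ} (he : e = 1 ∨ e = -1)
    (hbase : ∀ X : ℝ, X₀ ≤ X → X ≤ X₀ ^ 2 → F e A X ≤ a₀ * (X / 2)) (n : ℕ) : ∀ X : ℝ, X₀ ≤ X →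
      Real.log X ≤ n →
      F e A X ≤ (a₀ + 2 / Real.log X₀ ^ 5 - 1 / Real.log X ^ 5) * (X / 2) := by
  have hX3 : (2 : ℝ) ^ 10 ≤ X₀ := (pow_le_pow_right₀ (by norm_num) (by omega)).trans hX₀
  have hl6 : 6 < Real.log X₀ := by
    have h1 := Real.log_le_log (by positivity) hX3
    rw [Real.log_pow] at h1
    push_cast at h1
    have h2 := Real.log_two_gt_d9
    linarith
  have hX1 : 1 < X₀ := by linarith
  induction n with
  | zero =>
    intro X hX hn
    exfalso
    have h1 : 0 < Real.log X := Real.log_pos (by linarith)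
    push_cast at hn
    linarith
  | succ n ih =>
    intro X hX hn
    have hX0 : 0 < X := by linarith
    have hLM : Real.log X₀ ≤ Real.log X := Real.log_le_log (by linarith) hX
    have hlM0 : 0 < Real.log X₀ := by linarith
    have hlX0 : 0 < Real.log X := by linarith
    have hp0 : 0 < 1 / Real.log X₀ ^ 5 := by positivity
    have h2p : 2 / Real.log X₀ ^ 5 = 2 * (1 / Real.log X₀ ^ 5) := by ring
    have hpX : 1 / Real.log X ^ 5 ≤ 1 / Real.log X₀ ^ 5 :=
      one_div_le_one_div_of_le (by positivity) (pow_le_pow_left₀ hlM0.le hLM 5)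
    rcases le_or_gt X (X₀ ^ 2) with hcase | hcase
    · refine (hbase X hX hcase).trans ?_
      apply mul_le_mul_of_nonneg_right _ (by positivity)
      linarith
    obtain ⟨k, hk1, hk2⟩ := exists_stage (by linarith : 1 ≤ X)
    have hkk : k₀ ≤ k := by
      by_contra hcon
      have h1 : (2 : ℝ) ^ (10 * (k + 1)) ≤ 2 ^ (10 * (k₀ + 1)) :=
        pow_le_pow_right₀ (by norm_num) (by omega)
      linarith
    have hN := hk₀ k hkk
    have hbig := hN.big
    have hkr : (2000 : ℝ) ≤ k := by exact_mod_cast hbig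
    obtain ⟨hlk, -⟩ := log_bounds hk1 hk2
    have hX4 : (2 : ℝ) ^ (4 * k) ≤ X := (pow_le_pow_right₀ (by norm_num) (by omega)).trans hk1
    have hZk : Z < 2 ^ (5 * k) := by
      have h1 : X₀ < 2 ^ (5 * (k + 1)) := by
        have h2 : X₀ ^ 2 < (2 ^ (5 * (k + 1))) ^ 2 := by
          rw [← pow_mul, show 5 * (k + 1) * 2 = 10 * (k + 1) by ring]
          exact hcase.trans hk2
        exact lt_of_pow_lt_pow_left₀ 2 (by positivity) h2
      rw [mul_add, pow_add] at h1
      norm_num at h1
      linarith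
    obtain ⟨a, ha⟩ : ∃ a : ℝ, a = a₀ + 2 / Real.log X₀ ^ 5 - 1 / (59 / 60 * Real.log X) ^ 5 :=
      ⟨_, rfl⟩
    have hq : 1 / (59 / 60 * Real.log X) ^ 5 ≤ 6 / 5 * (1 / Real.log X₀ ^ 5) := by
      have h5 : (59 / 60 * Real.log X₀) ^ 5 ≤ (59 / 60 * Real.log X) ^ 5 :=
        pow_le_pow_left₀ (by positivity) (by linarith) 5
      have h6 : 1 / (59 / 60 * Real.log X) ^ 5 ≤ 1 / (59 / 60 * Real.log X₀) ^ 5 :=
        one_div_le_one_div_of_le (by positivity) h5
      refine h6.trans ?_
      rw [mul_pow, one_div, mul_inv, one_div]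
      apply mul_le_mul_of_nonneg_right _ (by positivity)
      norm_num
    have ha0 : 0 ≤ a := by
      rw [ha]
      linarith
    have hstep := bound_step hN hk1 hk2
    have hW := F_split he A X (W := (2 : ℝ) ^ (9 * k)) (by positivity)
    have h5 := stage' hN.n1 hN.e1 hX4 he (A ∩ {n : ℤ | (2 : ℝ) ^ (9 * k) < |(n : ℝ)|})
      (fun _ => A ∩ {n : ℤ | (2 : ℝ) ^ (6 * k) < |(n : ℝ)|}) (fun _ => A)
      (fun w hw b _ hr hen => by
        obtain ⟨hen1, hen2⟩ := hen
        change (2 : ℝ) ^ (9 * k) < |((en w b : ℤ) : ℝ)| at hen2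
        have hT := T_en hr fun i hi => ((mem_words.1 (goodV_subset _ _ _ hw)).2 i hi).1
        have hs := (goodV_bounds hw).2.1
        have hlow : ∀ j ≤ w.sum, (2 : ℝ) ^ (6 * k) < |((T^[j] (en w b) : ℤ) : ℝ)| := by
          intro j hj
          have h6 := abs_iter_ge j (en w b)
          have h7 : (2 : ℝ) ^ j ≤ 2 ^ (3 * k) := pow_le_pow_right₀ (by norm_num) (by omega)
          have h8 : (2 : ℝ) ^ (9 * k) = 2 ^ (3 * k) * 2 ^ (6 * k) := by rw [← pow_add]; congr 1; ring
          by_contra hcon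
          push Not at hcon
          have h9 : (2 : ℝ) ^ j * |((T^[j] (en w b) : ℤ) : ℝ)| ≤ 2 ^ (3 * k) * 2 ^ (6 * k) :=
            mul_le_mul h7 hcon (abs_nonneg _) (by positivity)
          linarith
        have hst := hA.iter w.sum (en w b) fun j hj => by
          refine lt_trans (hZk.trans_le ?_) (hlow j hj.le)
          exact pow_le_pow_right₀ (by norm_num) (by omega)
        rw [hT] at hst
        refine ⟨hst.1 hen1, ?_⟩
        have := hlow w.sum le_rfl
        rw [hT] at this
        exact this)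
      (fun u hu s b _ hr hb => by
        obtain ⟨hb1, hb2⟩ := hb
        change (2 : ℝ) ^ (6 * k) < |((b : ℤ) : ℝ)| at hb2
        have hT := T_en hr fun i hi => ((mem_words.1 (goodV_subset _ _ _ hu)).2 i hi).1
        have hs := (goodV_bounds hu).2.1
        refine (hA.iter u.sum (en u b) fun j hj => ?_).2 (by rw [hT]; exact hb1)
        refine hZk.trans ?_
        have h6 := abs_iter_le (u.sum - j) (T^[j] (en u b))
        rw [← Function.iterate_add_apply, Nat.sub_add_cancel hj.le, hT] at h6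
        have h7 : (2 : ℝ) ^ (u.sum - j) ≤ 2 ^ k := pow_le_pow_right₀ (by norm_num) (by omega)
        have h8 : (2 : ℝ) ^ (6 * k) = 2 ^ k * 2 ^ (5 * k) := by rw [← pow_add]; congr 1; ring
        by_contra hcon
        push Not at hcon
        have h9 : (2 : ℝ) ^ (u.sum - j) * |((T^[j] (en u b) : ℤ) : ℝ)| ≤ 2 ^ k * 2 ^ (5 * k) :=
          mul_le_mul h7 hcon (abs_nonneg _) (by positivity)
        linarith)
      (fun _ => min a 1) (fun _ => min_le_right _ _)
      (Y := 1 * 2 ^ (201 * (k / 20) / 100) + 1) (by positivity)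
      (extra_small hN le_rfl (by
        rw [le_div_iff₀ (by positivity), one_mul]
        exact (pow_le_pow_right₀ (by norm_num) (by omega)).trans hX4))
      (fun v hv => by
        obtain ⟨hv1, hv2, -⟩ := goodV_bounds hv
        obtain ⟨y, hy⟩ : ∃ y, y = 3 ^ (k - k / 20) * X / 2 ^ v.sum + 2 ^ k := ⟨_, rfl⟩
        rw [← hy]
        have hypos : 0 < y := by rw [hy]; positivity
        have hY1 : (1 : ℝ) ≤ 1 * 2 ^ (201 * (k / 20) / 100) := by
          rw [one_mul]
          exact one_le_pow₀ (by norm_num)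
        have hyX : X₀ ≤ y := by
          have h6 : X / 2 ^ (3 * k) ≤ y := by
            have h7 : X / 2 ^ (3 * k) ≤ 3 ^ (k - k / 20) * X / 2 ^ v.sum := by
              rw [div_le_div_iff₀ (by positivity) (by positivity)]
              have h8 : (2 : ℝ) ^ v.sum ≤ 2 ^ (3 * k) := pow_le_pow_right₀ (by norm_num) (by omega)
              have h9 : (1 : ℝ) ≤ 3 ^ (k - k / 20) := one_le_pow₀ (by norm_num)
              calc X * 2 ^ v.sum ≤ X * 2 ^ (3 * k) := mul_le_mul_of_nonneg_left h8 hX0.le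
                _ = 1 * (X * 2 ^ (3 * k)) := (one_mul _).symm
                _ ≤ 3 ^ (k - k / 20) * (X * 2 ^ (3 * k)) :=
                    mul_le_mul_of_nonneg_right h9 (by positivity)
                _ = _ := by ring
            have h8 : (0 : ℝ) < 2 ^ k := by positivity
            rw [hy]
            linarith
          have h7 : X₀ ^ 2 ≤ (X / 2 ^ (3 * k)) ^ 2 := by
            have h8 : (X / 2 ^ (3 * k)) ^ 2 = X * (X / 2 ^ (6 * k)) := by
              rw [div_pow, ← pow_mul, show 3 * k * 2 = 6 * k by ring]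
              ring
            have h9 : 1 ≤ X / 2 ^ (6 * k) := by
              rw [le_div_iff₀ (by positivity), one_mul]
              exact (pow_le_pow_right₀ (by norm_num) (by omega)).trans hk1
            rw [h8]
            nlinarith
          exact (le_of_pow_le_pow_left₀ (by norm_num) (by positivity) h7).trans h6
        have h7 : y ≤ X / 2 ^ (k / 4) := by
          rw [hy]
          exact size_le (by omega) hX4 hv1
        have h8 := log_decay hN hk1 hk2 hypos h7
        have hylog : 0 < Real.log y := Real.log_pos (by linarith)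
        rcases le_or_gt a 1 with ha1 | ha1
        · rw [min_eq_left ha1]
          have h10 := ih y hyX (by push_cast at hn; linarith)
          have h11 : a₀ + 2 / Real.log X₀ ^ 5 - 1 / Real.log y ^ 5 ≤ a := by
            rw [ha]
            have h12 : 1 / (59 / 60 * Real.log X) ^ 5 ≤ 1 / Real.log y ^ 5 :=
              one_div_le_one_div_of_le (by positivity) (pow_le_pow_left₀ hylog.le h8 5)
            linarith
          have h13 := mul_le_mul_of_nonneg_right h11 (by positivity : 0 ≤ y / 2)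
          linarith
        · rw [min_eq_right ha1.le]
          have h6 := F_le he A hypos.le
          linarith)
    have h6 : ∑ v ∈ goodV (II k) k (k - k / 20), (1 / 2 : ℝ) ^ v.sum * min a 1 ≤ a := by
      rw [← sum_mul]
      have h3 : ∑ v ∈ goodV (II k) k (k - k / 20), (1 / 2 : ℝ) ^ v.sum ≤ 1 := by
        have h4 : P (goodV (II k) k (k - k / 20)) ≤ 1 := by
          refine (P_mono (goodV_subset _ _ _)).trans ?_
          rw [P_words]
          exact pow_le_one₀ (Z_nonneg _) (Z_le_one _)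
        exact h4
      have h4 : 0 ≤ min a 1 := le_min ha0 zero_le_one
      calc (∑ v ∈ goodV (II k) k (k - k / 20), (1 / 2 : ℝ) ^ v.sum) * min a 1 ≤ 1 * min a 1 :=
            mul_le_mul_of_nonneg_right h3 h4
        _ ≤ a := by rw [one_mul]; exact min_le_left _ _
    have h7 := mul_le_mul_of_nonneg_left h6 (by positivity : 0 ≤ X / 2)
    have h8 : ((2 : ℝ) ^ (9 * k) + 1) / 2 ≤ X / 2 / (k : ℝ) ^ 7 := by
      have e2 := hN.e2
      have hk7 : (0 : ℝ) < (k : ℝ) ^ 7 := by positivity
      rw [le_div_iff₀ hk7]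
      have e3 : (k : ℝ) ^ 7 ≤ 2 ^ k / 2 := by
        have e4 : (1 : ℝ) ≤ (2 * (403 / 566)) ^ k := one_le_pow₀ (by norm_num)
        rw [mul_pow] at e4
        have e5 := mul_le_mul_of_nonneg_left e2 (by positivity : (0 : ℝ) ≤ 2 ^ k)
        have e6 := mul_le_mul_of_nonneg_right e4 hk7.le
        linarith
      have e7 : (2 : ℝ) ^ (9 * k) * 2 ^ k = 2 ^ (10 * k) := by rw [← pow_add]; congr 1; ring
      have e8 : (1 : ℝ) ≤ 2 ^ (9 * k) := one_le_pow₀ (by norm_num)
      have e9 := mul_le_mul_of_nonneg_left e3 (by positivity : (0 : ℝ) ≤ 2 ^ (9 * k))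
      have e10 := mul_le_mul_of_nonneg_right e8 hk7.le
      linarith
    have h9 : (a₀ + 2 / Real.log X₀ ^ 5 - 1 / Real.log X ^ 5) * (X / 2) -
        (X / 2 * a + 4 * (X / (k : ℝ) ^ 7) + X / 2 / (k : ℝ) ^ 7) =
        (1 / (59 / 60 * Real.log X) ^ 5 - (1 / Real.log X ^ 5 + 9 / (k : ℝ) ^ 7)) * (X / 2) := by
      rw [ha]
      ring
    have h10 : 0 ≤ (1 / (59 / 60 * Real.log X) ^ 5 -
        (1 / Real.log X ^ 5 + 9 / (k : ℝ) ^ 7)) * (X / 2) :=
      mul_nonneg (by linarith) (by positivity)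
    linarith

end Pool.Agent.UTL
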