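import Mathlib
import Pool.Agent.UTL.Tra
import Pool.Agent.UTL.Arr
import Pool.Agent.Collatz3.UNFinal

set_option autoImplicit false

/-!
First passage points which stay above `M` for a long time.
-/

namespace Pool.Agent.UTL

open Finset Filter
open Pool.Agent.Helper27 (T J J_le)
open Pool.Agent.Collatz3.FW (Od mem_Od F_le NumT numT_all card_small card_Od oc_le)

theorem T_cast (n : ℕ) : Pool.Agent.Helper14.T (n : ℤ) = ((T n : ℕ) : ℤ) := by
  unfold Pool.Agent.Helper14.T T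
  split_ifs <;> omega

theorem iter_cast (j n : ℕ) : Pool.Agent.Helper14.T^[j] (n : ℤ) = ((T^[j] n : ℕ) : ℤ) := by
  induction j generalizing n with
  | zero => rfl
  | succ j ih => rw [Function.iterate_succ_apply, Function.iterate_succ_apply, T_cast, ih]

/-- The integers whose first passage point below `y` stays above `M` up to the time `t`. -/
def QQ (y M t : ℝ) (n : ℕ) : Prop :=
  ∃ k b : ℕ, Pas y n k b ∧ ∀ j : ℕ, (j : ℝ) ≤ t → M < (T^[j] b : ℝ)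

/-- The integers coming from the naturals with a property. -/
def AA (Q : ℕ → Prop) : Set ℤ := {n | ∃ m : ℕ, n = m ∧ Q m}

theorem stab_AA {Q : ℕ → Prop} {Z : ℝ} (_hZ : 0 ≤ Z) (hQ : ∀ m : ℕ, Z < m → (Q m ↔ Q (T m))) :
    Stab Z (AA Q) := by
  intro n hn
  rcases le_or_gt 0 n with h | h
  · obtain ⟨m, rfl⟩ := Int.eq_ofNat_of_zero_le h
    have hm : Z < m := by
      rw [Int.cast_natCast, abs_of_nonneg (Nat.cast_nonneg _)] at hn
      exact hn
    have h1 := hQ m hm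
    rw [T_cast]
    constructor
    · rintro ⟨m', h2, h3⟩
      have : m = m' := by exact_mod_cast h2
      subst this
      exact ⟨T m, rfl, h1.1 h3⟩
    · rintro ⟨m', h2, h3⟩
      have : T m = m' := by exact_mod_cast h2
      subst this
      exact ⟨m, rfl, h1.2 h3⟩
  · constructor
    · rintro ⟨m, h2, -⟩
      omega
    · rintro ⟨m, h2, -⟩
      exfalso
      unfold Pool.Agent.Helper14.T at h2
      split_ifs at h2 <;> omega

theorem QQ_stable {y M t : ℝ} {m : ℕ} (hm : y < m) : QQ y M t m ↔ QQ y M t (T m) := by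
  constructor
  · rintro ⟨k, b, ⟨h1, h2, h3⟩, h4⟩
    obtain ⟨k, rfl⟩ : ∃ k', k = k' + 1 := by
      rcases k with - | k
      · exfalso
        rw [Function.iterate_zero, id_eq] at h1
        rw [← h1] at h2
        linarith
      · exact ⟨k, rfl⟩
    rw [Function.iterate_succ_apply] at h1
    refine ⟨k, b, ⟨h1, h2, fun j hj => ?_⟩, h4⟩
    have := h3 (j + 1) (by omega)
    rwa [Function.iterate_succ_apply] at this
  · rintro ⟨k, b, ⟨h1, h2, h3⟩, h4⟩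
    refine ⟨k + 1, b, ⟨by rw [Function.iterate_succ_apply]; exact h1, h2, fun j hj => ?_⟩, h4⟩
    rcases j with - | j
    · rw [Function.iterate_zero, id_eq]
      exact hm
    · rw [Function.iterate_succ_apply]
      exact h3 j (by omega)

theorem QQ_above {y M t : ℝ} (hM : M ≤ y) {n : ℕ} (h : QQ y M t n) :
    ∀ j : ℕ, (j : ℝ) ≤ t → M < (T^[j] n : ℝ) := by
  obtain ⟨k, b, ⟨h1, -, h3⟩, h4⟩ := h
  intro j hj
  rcases le_or_gt k j with hk | hk
  · have h5 := h4 (j - k) (by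
      have : ((j - k : ℕ) : ℝ) ≤ j := by exact_mod_cast Nat.sub_le j k
      linarith)
    rw [← h1, ← Function.iterate_add_apply, Nat.sub_add_cancel hk] at h5
    exact h5
  · exact hM.trans_lt (h3 j hk)

theorem stable_pow {Q : ℕ → Prop} {Z : ℝ} (hQ : ∀ m : ℕ, Z < m → (Q m ↔ Q (T m))) {m : ℕ}
    (hm : Z < m) (i : ℕ) : Q (2 ^ i * m) ↔ Q m := by
  induction i with
  | zero => simp
  | succ i ih =>
    rw [← ih]
    have h1 : (m : ℝ) ≤ ((2 ^ (i + 1) * m : ℕ) : ℝ) := by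
      exact_mod_cast Nat.le_mul_of_pos_left m (by positivity)
    rw [hQ _ (hm.trans_le h1)]
    have h2 : T (2 ^ (i + 1) * m) = 2 ^ i * m := by
      have e : 2 ^ (i + 1) * m = 2 * (2 ^ i * m) := by ring
      unfold T
      rw [if_pos (by omega)]
      omega
    rw [h2]

theorem count_nat {Q : ℕ → Prop} {Z X₀ R : ℝ} (hZ : 0 ≤ Z) (hZX : Z ≤ X₀)
    (hQ : ∀ m : ℕ, Z < m → (Q m ↔ Q (T m))) (hR : 0 ≤ R)
    (h : ∀ X : ℝ, X₀ ≤ X → Pool.Agent.Collatz3.FW.F 1 (AA Q) X ≤ R * (X / 2)) {X : ℝ} (hX : 1 ≤ X) :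
    (({n : ℕ | 1 ≤ n ∧ (n : ℝ) ≤ X ∧ Q n}.ncard : ℕ) : ℝ) ≤
      R * X + (2 * Real.log X + 1) * (X₀ + 1) := by
  classical
  have hX0 : (0 : ℝ) < X := by linarith
  have hX₀ : 0 ≤ X₀ := hZ.trans hZX
  obtain ⟨N, hN1, hN2⟩ : ∃ N : ℕ, (2 : ℝ) ^ N ≤ X ∧ X < 2 ^ (N + 1) :=
    exists_nat_pow_near hX (by norm_num)
  have hNl : (N : ℝ) ≤ 2 * Real.log X := by
    have h1 := Real.log_le_log (by positivity) hN1
    rw [Real.log_pow] at h1
    have h2 := Real.log_two_gt_d9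
    have h3 : (0 : ℝ) ≤ N := Nat.cast_nonneg _
    nlinarith
  obtain ⟨U, hU⟩ : ∃ U : ℕ → Finset ℕ, U = fun i =>
      (((Od 1 (X / 2 ^ i)).filter fun n => n ∈ AA Q) ∪ Od 1 Z).image
        fun m => 2 ^ i * m.toNat := ⟨_, rfl⟩
  have hsub : {n : ℕ | 1 ≤ n ∧ (n : ℝ) ≤ X ∧ Q n} ⊆
      (((range (N + 1)).biUnion U : Finset ℕ) : Set ℕ) := by
    rintro n ⟨hn1, hn2, hn3⟩
    obtain ⟨i, m, hm, hnm⟩ := Nat.exists_eq_pow_mul_and_not_dvd (show n ≠ 0 by omega) 2 (by decide)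
    have hm0 : m ≠ 0 := by rintro rfl; simp at hm
    have hnR : (n : ℝ) = 2 ^ i * m := by rw [hnm]; push_cast; rfl
    have hm1 : (1 : ℝ) ≤ m := by exact_mod_cast Nat.one_le_iff_ne_zero.2 hm0
    have hmX : (m : ℝ) ≤ X / 2 ^ i := by
      rw [le_div_iff₀ (by positivity), mul_comm, ← hnR]
      exact hn2
    have hiN : i < N + 1 := by
      by_contra hcon
      push Not at hcon
      have h2 : (2 : ℝ) ^ (N + 1) ≤ 2 ^ i := pow_le_pow_right₀ (by norm_num) hcon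
      have h3 : (2 : ℝ) ^ i * 1 ≤ 2 ^ i * m := mul_le_mul_of_nonneg_left hm1 (by positivity)
      rw [hnR] at hn2
      linarith
    rw [mem_coe, mem_biUnion]
    refine ⟨i, mem_range.2 hiN, ?_⟩
    rw [hU]
    simp only [mem_image, mem_union, mem_filter]
    refine ⟨(m : ℤ), ?_, by rw [Int.toNat_natCast]; exact hnm.symm⟩
    rcases le_or_gt (m : ℝ) Z with hmZ | hmZ
    · right
      rw [mem_Od (Or.inl rfl)]
      refine ⟨by omega, by omega, ?_⟩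
      push_cast
      linarith
    · left
      refine ⟨?_, m, rfl, ?_⟩
      · rw [mem_Od (Or.inl rfl)]
        refine ⟨by omega, by omega, ?_⟩
        push_cast
        linarith
      · rw [hnm] at hn3
        exact (stable_pow hQ hmZ i).1 hn3
  have h1 := Set.ncard_le_ncard hsub (finite_toSet _)
  rw [Set.ncard_coe_finset] at h1
  have h2 : ∀ i ∈ range (N + 1), ((U i).card : ℝ) ≤ R * (X / 2) * (1 / 2) ^ i + (X₀ + 1) := by
    intro i _
    have h3 : ((U i).card : ℝ) ≤ Pool.Agent.Collatz3.FW.F 1 (AA Q) (X / 2 ^ i) + ((Od 1 Z).card : ℝ) := by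
      rw [hU]
      unfold Pool.Agent.Collatz3.FW.F
      exact_mod_cast card_image_le.trans (card_union_le _ _)
    have h4 : ((Od 1 Z).card : ℝ) ≤ (Z + 1) / 2 := by
      rw [card_Od (Or.inl rfl)]
      exact oc_le hZ
    have h5 : Pool.Agent.Collatz3.FW.F 1 (AA Q) (X / 2 ^ i) ≤ R * (X / 2) * (1 / 2) ^ i + (X₀ + 1) / 2 := by
      have h6 : R * (X / 2 ^ i / 2) = R * (X / 2) * (1 / 2) ^ i := by
        rw [one_div, inv_pow]
        field_simp
      have h7 : 0 ≤ R * (X / 2) * (1 / 2) ^ i := by positivity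
      rcases le_or_gt X₀ (X / 2 ^ i) with hc | hc
      · have := h _ hc
        rw [h6] at this
        linarith
      · have := F_le (Or.inl rfl : (1 : ℤ) = 1 ∨ (1 : ℤ) = -1) (AA Q)
          (by positivity : 0 ≤ X / 2 ^ i)
        linarith
    linarith
  have h3 : ((((range (N + 1)).biUnion U).card : ℕ) : ℝ) ≤
      ∑ i ∈ range (N + 1), (R * (X / 2) * (1 / 2) ^ i + (X₀ + 1)) := by
    have h4 : (((range (N + 1)).biUnion U).card : ℝ) ≤ ∑ i ∈ range (N + 1), ((U i).card : ℝ) := by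
      exact_mod_cast card_biUnion_le
    exact h4.trans (sum_le_sum h2)
  rw [sum_add_distrib, sum_const, card_range, nsmul_eq_mul, ← mul_sum] at h3
  have h4 : ∑ i ∈ range (N + 1), (1 / 2 : ℝ) ^ i ≤ 2 := by
    rw [geom_sum_eq (by norm_num)]
    have h5 : (0 : ℝ) < (1 / 2) ^ (N + 1) := by positivity
    have h6 : ((1 / 2 : ℝ) ^ (N + 1) - 1) / (1 / 2 - 1) = 2 * (1 - (1 / 2) ^ (N + 1)) := by ring
    rw [h6]
    linarith
  have h5 : R * (X / 2) * ∑ i ∈ range (N + 1), (1 / 2 : ℝ) ^ i ≤ R * (X / 2) * 2 :=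
    mul_le_mul_of_nonneg_left h4 (by positivity)
  have h6 : ((N + 1 : ℕ) : ℝ) * (X₀ + 1) ≤ (2 * Real.log X + 1) * (X₀ + 1) := by
    apply mul_le_mul_of_nonneg_right _ (by positivity)
    push_cast
    linarith
  have h7 : (({n : ℕ | 1 ≤ n ∧ (n : ℝ) ≤ X ∧ Q n}.ncard : ℕ) : ℝ) ≤
      ((((range (N + 1)).biUnion U).card : ℕ) : ℝ) := by exact_mod_cast h1
  linarith

/-- The uniform barrier for the naturals. -/
theorem final_nat : ∃ κ : ℝ, 0 < κ ∧ κ ≤ 1 ∧ ∃ C : ℝ, 1 ≤ C ∧ ∀ M X t : ℝ, 1 ≤ M → 1 ≤ X →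
    C * (Real.log X + Real.log M) ≤ t →
      (({n : ℕ | 1 ≤ n ∧ (n : ℝ) ≤ X ∧ ∀ j : ℕ, (j : ℝ) ≤ t → M < (T^[j] n : ℝ)}.ncard : ℕ) : ℝ) ≤
        C * X * M ^ (-κ) := by
  obtain ⟨c, hc, h⟩ := Pool.Agent.Collatz3.UN.final
  obtain ⟨C, hC, h1⟩ := h 1 one_pos
  obtain ⟨κ, hκ⟩ : ∃ κ : ℝ, κ = 1 - Pool.Agent.Collatz3.PB.Hn / Real.log 2 + c := ⟨_, rfl⟩
  have hl2 : 0 < Real.log 2 := Real.log_pos (by norm_num)
  have hκ0 : 0 < κ := by
    have h1 : Pool.Agent.Collatz3.PB.Hn ≤ Real.log 2 := Real.binEntropy_le_log_two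
    have h2 : Pool.Agent.Collatz3.PB.Hn / Real.log 2 ≤ 1 := by rw [div_le_one hl2]; exact h1
    rw [hκ]
    linarith
  rw [← hκ] at h1
  have l43p : 0 < Real.log (4 / 3) := Real.log_pos (by norm_num)
  have hg : 0 < 2 / Real.log (4 / 3) := by positivity
  refine ⟨min κ 1, lt_min hκ0 one_pos, min_le_right _ _, C + (2 / Real.log (4 / 3) + 1), by
    have : 1 ≤ 2 / Real.log (4 / 3) + 1 := by linarith
    linarith, ?_⟩
  intro M X t hM hX ht
  have hlM := Real.log_nonneg hM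
  have hlX := Real.log_nonneg hX
  have h2 := h1 M hM X hX
  have hfin : {n : ℤ | |(n : ℝ)| ≤ X ∧ ∀ j : ℕ,
      (j : ℝ) ≤ (2 / Real.log (4 / 3) + 1) * Real.log X + C * Real.log M →
        M < |((Pool.Agent.Helper14.T^[j] n : ℤ) : ℝ)|}.Finite :=
    (Pool.Agent.Helper14.abs_le_finite X).subset fun _ h => h.1
  have h3 : (({n : ℕ | 1 ≤ n ∧ (n : ℝ) ≤ X ∧
      ∀ j : ℕ, (j : ℝ) ≤ t → M < (T^[j] n : ℝ)}.ncard : ℕ) : ℝ) ≤
      (({n : ℤ | |(n : ℝ)| ≤ X ∧ ∀ j : ℕ,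
      (j : ℝ) ≤ (2 / Real.log (4 / 3) + 1) * Real.log X + C * Real.log M →
        M < |((Pool.Agent.Helper14.T^[j] n : ℤ) : ℝ)|}.ncard : ℕ) : ℝ) := by
    rw [← Set.ncard_image_of_injective _ (Nat.cast_injective (R := ℤ))]
    have h4 : ((Nat.cast : ℕ → ℤ) '' {n : ℕ | 1 ≤ n ∧ (n : ℝ) ≤ X ∧
        ∀ j : ℕ, (j : ℝ) ≤ t → M < (T^[j] n : ℝ)}) ⊆ {n : ℤ | |(n : ℝ)| ≤ X ∧ ∀ j : ℕ,
        (j : ℝ) ≤ (2 / Real.log (4 / 3) + 1) * Real.log X + C * Real.log M →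
        M < |((Pool.Agent.Helper14.T^[j] n : ℤ) : ℝ)|} := by
      rintro _ ⟨n, ⟨hn1, hn2, hn3⟩, rfl⟩
      refine ⟨by rw [Int.cast_natCast, abs_of_nonneg (Nat.cast_nonneg _)]; exact hn2, ?_⟩
      intro j hj
      rw [iter_cast, Int.cast_natCast, abs_of_nonneg (Nat.cast_nonneg _)]
      apply hn3
      refine hj.trans (le_trans ?_ ht)
      have e1 : 0 ≤ C * Real.log X := by positivity
      have e2 : 0 ≤ (2 / Real.log (4 / 3) + 1) * Real.log M := by positivity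
      linarith
    exact_mod_cast Set.ncard_le_ncard h4 hfin
  refine h3.trans (h2.trans ?_)
  have h5 : 0 < M ^ (-κ) := Real.rpow_pos_of_pos (by linarith) _
  have h6 : 0 ≤ (2 / Real.log (4 / 3) + 1) * X * M ^ (-κ) := by positivity
  have h7 : M ^ (-κ) ≤ M ^ (-(min κ 1)) :=
    Real.rpow_le_rpow_of_exponent_le hM (neg_le_neg (min_le_left _ _))
  have h8 := mul_le_mul_of_nonneg_left h7
    (show 0 ≤ (C + (2 / Real.log (4 / 3) + 1)) * X by positivity)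
  linarith

theorem F_QQ {κ C : ℝ} (h : ∀ M X t : ℝ, 1 ≤ M → 1 ≤ X →
    C * (Real.log X + Real.log M) ≤ t →
      (({n : ℕ | 1 ≤ n ∧ (n : ℝ) ≤ X ∧ ∀ j : ℕ, (j : ℝ) ≤ t → M < (T^[j] n : ℝ)}.ncard : ℕ) : ℝ) ≤
        C * X * M ^ (-κ)) {y M X t : ℝ} (hM : 1 ≤ M) (hMy : M ≤ y) (hX : 1 ≤ X)
    (ht : C * (Real.log X + Real.log M) ≤ t) :
    Pool.Agent.Collatz3.FW.F 1 (AA (QQ y M t)) X ≤ (2 * C * M ^ (-κ)) * (X / 2) := by
  classical
  refine le_trans ?_ ((h M X t hM hX ht).trans (le_of_eq (by ring)))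
  have hfin : {n : ℕ | 1 ≤ n ∧ (n : ℝ) ≤ X ∧ ∀ j : ℕ, (j : ℝ) ≤ t → M < (T^[j] n : ℝ)}.Finite := by
    refine (Set.finite_Iic ⌊X⌋₊).subset ?_
    rintro n ⟨_, h, _⟩
    exact Nat.le_floor h
  unfold Pool.Agent.Collatz3.FW.F
  rw [← Set.ncard_coe_finset]
  have h4 : (((Od 1 X).filter fun n => n ∈ AA (QQ y M t) : Finset ℤ) : Set ℤ) ⊆
      (Nat.cast : ℕ → ℤ) '' {n : ℕ | 1 ≤ n ∧ (n : ℝ) ≤ X ∧
        ∀ j : ℕ, (j : ℝ) ≤ t → M < (T^[j] n : ℝ)} := by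
    intro n hn
    rw [mem_coe, mem_filter, mem_Od (Or.inl rfl)] at hn
    obtain ⟨⟨h5, h6, h7⟩, m, rfl, h8⟩ := hn
    refine ⟨m, ⟨by omega, ?_, QQ_above hMy h8⟩, rfl⟩
    rw [one_mul, Int.cast_natCast] at h7
    exact h7
  have h5 := Set.ncard_le_ncard h4 (hfin.image _)
  rw [Set.ncard_image_of_injective _ (Nat.cast_injective (R := ℤ))] at h5
  exact_mod_cast h5

end Pool.Agent.UTL
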