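import Pool.Agent.UTL.Upper3

set_option autoImplicit false

/-! The upper bound for all times. -/

namespace Pool.Agent.UTL

open Finset
open Pool.Agent.Helper27 (T)

theorem Nx_anti (x M : ℝ) {s s' : ℝ} (h : s ≤ s') : Nx x M s' ≤ Nx x M s := by
  unfold Nx
  apply Set.ncard_le_ncard
  · rintro n ⟨h1, h2, h3⟩
    exact ⟨h1, h2, fun k hk => h3 k (hk.trans h)⟩
  · refine (Set.finite_Iic ⌊x⌋₊).subset ?_
    rintro n ⟨_, h, _⟩
    exact Nat.le_floor h

theorem thm_U (hU : St_Upper) : St_U := by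
  intro ε δ hε hδ hδ1
  obtain ⟨ε', hε'⟩ : ∃ ε' : ℝ, ε' = min ε (1 / 2) := ⟨_, rfl⟩
  have he0 : 0 < ε' := by rw [hε']; positivity
  have he1 : ε' ≤ 1 / 2 := by rw [hε']; exact min_le_right _ _
  have he2 : ε' ≤ ε := by rw [hε']; exact min_le_left _ _
  obtain ⟨C, hC1, h⟩ := hU ε' δ he0 hδ hδ1
  have hV := VV_ge_one
  have hV0 : 0 < VV := by linarith
  have hC0 : 0 < C := by linarith
  refine ⟨max (C ^ 3) (Real.exp 3), (1 - ε') / (2 * VV * C), ?_, ?_⟩
  · have : 0 < 1 - ε' := by linarith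
    positivity
  intro x M t hx hMl hMx ht
  have hx1 : C ^ 3 ≤ x := (le_max_left _ _).trans hx
  have hx2 : Real.exp 3 ≤ x := (le_max_right _ _).trans hx
  have hCC : C ≤ C ^ 3 := by
    calc C = C ^ 1 := (pow_one _).symm
      _ ≤ C ^ 3 := pow_le_pow_right₀ hC1 (by norm_num)
  have hx0 : 0 < x := by linarith
  obtain ⟨u, hu⟩ : ∃ u : ℝ, u = Real.log x := ⟨_, rfl⟩
  obtain ⟨lam, hlam⟩ : ∃ lam : ℝ, lam = Real.log u := ⟨_, rfl⟩
  obtain ⟨L, hL⟩ : ∃ L : ℝ, L = Real.log (x / M) := ⟨_, rfl⟩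
  obtain ⟨v, hv⟩ : ∃ v : ℝ, v = Real.log M := ⟨_, rfl⟩
  rw [← hu, ← hlam] at hMl ht
  rw [← hL] at ht ⊢
  have hu3 : 3 ≤ u := by
    rw [hu, Real.le_log_iff_exp_le hx0]
    exact hx2
  have hu0 : 0 < u := by linarith
  have hlam0 : 0 < lam := by rw [hlam]; exact Real.log_pos (by linarith)
  have hCm : C ^ 3 ≤ max (C ^ 3) (Real.exp 3) := le_max_left _ _
  have hM1 : 1 ≤ M := by
    refine le_trans (Real.one_le_exp ?_) hMl
    have : 0 < C ^ 3 := by positivity
    have : 0 < max (C ^ 3) (Real.exp 3) := by linarith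
    positivity
  have hM0 : 0 < M := by linarith
  have hLuv : L = u - v := by rw [hL, hu, hv, Real.log_div hx0.ne' hM0.ne']
  have hvC : C ^ 3 * lam ^ 2 ≤ v := by
    rw [hv, Real.le_log_iff_exp_le hM0]
    refine le_trans (Real.exp_le_exp.2 ?_) hMl
    exact mul_le_mul_of_nonneg_right hCm (by positivity)
  have hv0 : 0 ≤ v := by
    have : 0 ≤ C ^ 3 * lam ^ 2 := by positivity
    linarith
  have hvu : v ≤ δ * u := by
    have h1 := Real.log_le_log hM0 hMx
    rw [Real.log_rpow hx0] at h1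
    rw [hu, hv]
    exact h1
  have hL0 : 0 < L := by
    rw [hLuv]
    have : 0 < (1 - δ) * u := mul_pos (by linarith) hu0
    linarith
  have hsL : 0 < √L := Real.sqrt_pos.2 hL0
  have htC : C * lam * √L ≤ t := by
    refine le_trans ?_ ht
    apply mul_le_mul_of_nonneg_right _ hsL.le
    exact mul_le_mul_of_nonneg_right (hCC.trans hCm) hlam0.le
  have ht0 : 0 < t := lt_of_lt_of_le (by positivity) htC
  have hMc : 0 < M ^ (-((1 - ε') / (2 * VV * C))) := Real.rpow_pos_of_pos hM0 _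
  rcases le_or_gt (C * t ^ 2) (v * L) with hc | hc
  · have h1 := h x M t (hCC.trans hx1) hM1 hMx (by rw [← hu, ← hlam, ← hL]; exact htC)
      (by rw [← hv, ← hL]; exact hc)
    rw [← hL] at h1
    have h2 : x * Real.exp (-(1 - ε') * t ^ 2 / (2 * VV * L)) ≤
        x * Real.exp (-(1 - ε) * t ^ 2 / (2 * VV * L)) := by
      apply mul_le_mul_of_nonneg_left _ hx0.le
      apply Real.exp_le_exp.2
      apply div_le_div_of_nonneg_right _ (by positivity)
      apply mul_le_mul_of_nonneg_right _ (sq_nonneg t)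
      linarith
    have h3 : 0 < x * M ^ (-((1 - ε') / (2 * VV * C))) := by positivity
    linarith
  · obtain ⟨t₀, ht₀⟩ : ∃ t₀ : ℝ, t₀ = √(v * L / C) := ⟨_, rfl⟩
    have ht₀2 : t₀ ^ 2 = v * L / C := by rw [ht₀, Real.sq_sqrt (by positivity)]
    have ht₀0 : 0 ≤ t₀ := by rw [ht₀]; exact Real.sqrt_nonneg _
    have ht₀t : t₀ ≤ t := by
      have h1 : t₀ ^ 2 ≤ t ^ 2 := by
        rw [ht₀2, div_le_iff₀ hC0]
        linarith
      exact (pow_le_pow_iff_left₀ ht₀0 ht0.le (by norm_num)).1 h1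
    have h1 := h x M t₀ (hCC.trans hx1) hM1 hMx (by
      rw [← hu, ← hlam, ← hL]
      have h2 : (C * lam * √L) ^ 2 ≤ t₀ ^ 2 := by
        rw [ht₀2, le_div_iff₀ hC0, mul_pow, mul_pow, Real.sq_sqrt hL0.le]
        calc C ^ 2 * lam ^ 2 * L * C = (C ^ 3 * lam ^ 2) * L := by ring
          _ ≤ v * L := mul_le_mul_of_nonneg_right hvC hL0.le
      exact (pow_le_pow_iff_left₀ (by positivity) ht₀0 (by norm_num)).1 h2)
      (by
        rw [← hv, ← hL, ht₀2]
        apply le_of_eq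
        field_simp)
    rw [← hL, ht₀2] at h1
    have h2 : (Nx x M (g1 * L + t) : ℝ) ≤ (Nx x M (g1 * L + t₀) : ℝ) := by
      exact_mod_cast Nx_anti x M (by linarith)
    have h3 : x * Real.exp (-(1 - ε') * (v * L / C) / (2 * VV * L)) =
        x * M ^ (-((1 - ε') / (2 * VV * C))) := by
      rw [Real.rpow_def_of_pos hM0, ← hv]
      congr 2
      field_simp
    have h4 : 0 < x * Real.exp (-(1 - ε) * t ^ 2 / (2 * VV * L)) := by positivity
    rw [h3] at h1
    linarith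

end Pool.Agent.UTL
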