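import Mathlib
import Pool.Agent.UTL.TraN
import Pool.Agent.UTL.Uall

set_option autoImplicit false

/-! Bad arrivals at the level `exp √log x`. -/

namespace Pool.Agent.UTL

open Finset Filter
open Pool.Agent.Helper27 (T J J_le)
open Pool.Agent.Collatz3.FW (NumT numT_all)

/-- The hypothesis of the uniform barrier. -/
def Brr (κ C : ℝ) : Prop := ∀ M X t : ℝ, 1 ≤ M → 1 ≤ X → C * (Real.log X + Real.log M) ≤ t →
  (({n : ℕ | 1 ≤ n ∧ (n : ℝ) ≤ X ∧ ∀ j : ℕ, (j : ℝ) ≤ t → M < (T^[j] n : ℝ)}.ncard : ℕ) : ℝ) ≤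
    C * X * M ^ (-κ)

theorem log_sq_le {r : ℝ} (hr : 1 ≤ r) : Real.log (r ^ 2) ≤ 4 * √r := by
  have h0 : 0 < r := by linarith
  have h1 : 0 < √r := Real.sqrt_pos.2 h0
  have h2 := Real.log_le_sub_one_of_pos h1
  have h3 : Real.log (r ^ 2) = 4 * Real.log √r := by
    nth_rewrite 1 [← Real.sq_sqrt h0.le]
    rw [← pow_mul, Real.log_pow]
    push_cast
    ring
  linarith

theorem exp_ge_32 {r : ℝ} (hr : 11 ≤ r) : 32 ≤ Real.exp r := by
  have h2 : Real.exp 11 ≤ Real.exp r := Real.exp_le_exp.2 hr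
  have h4 := Real.add_one_le_exp (1 : ℝ)
  have h3 : (2 : ℝ) ^ 11 ≤ Real.exp 11 := by
    calc (2 : ℝ) ^ 11 ≤ (Real.exp 1) ^ 11 := pow_le_pow_left₀ (by norm_num) (by linarith) _
      _ = Real.exp 11 := by rw [← Real.exp_nat_mul]; norm_num
  have h5 : (32 : ℝ) ≤ 2 ^ 11 := by norm_num
  linarith

/-- Bad arrivals, small levels. -/
theorem arrive_small {κ C : ℝ} (hC : 1 ≤ C) (h : Brr κ C) {B : ℝ} (hB : 0 < B) :
    ∃ w₀ : ℝ, ∀ x M t r : ℝ, w₀ ≤ r → x = Real.exp (r ^ 2) → 1 ≤ M →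
      Real.log M ≤ B * Real.log (r ^ 2) → 7 * C * r ≤ t →
        (({n : ℕ | 1 ≤ n ∧ (n : ℝ) ≤ x ∧ QQ (Real.exp r) M t n}.ncard : ℕ) : ℝ) ≤
          (2 * C + 2) * x * M ^ (-(min κ (2 / B))) := by
  obtain ⟨k₀, hk₀⟩ := eventually_atTop.1 (numT_all (show (1 : ℝ) / 2 < 3 / 4 by norm_num))
  refine ⟨max 11 (max (16 * B ^ 2) ((10 * (k₀ + 1)) * Real.log 2)), ?_⟩
  intro x M t r hr hx hM hMB ht
  have hr11 : 11 ≤ r := (le_max_left _ _).trans hr
  have hr2 : 16 * B ^ 2 ≤ r := ((le_max_left _ _).trans (le_max_right _ _)).trans hr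
  have hr3 : (10 * (k₀ + 1)) * Real.log 2 ≤ r :=
    ((le_max_right _ _).trans (le_max_right _ _)).trans hr
  have hr0 : 0 < r := by linarith
  have hu121 : 121 ≤ r ^ 2 := by nlinarith
  obtain ⟨u, hu⟩ : ∃ u : ℝ, u = r ^ 2 := ⟨_, rfl⟩
  have hlr := log_sq_le (show 1 ≤ r by linarith)
  rw [← hu] at hMB hu121 hlr hx
  have hx0 : 0 < x := by rw [hx]; exact Real.exp_pos _
  have hx1 : 1 ≤ x := by rw [hx]; exact Real.one_le_exp (by linarith)
  have hlx : Real.log x = u := by rw [hx, Real.log_exp]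
  have hlu0 : 0 ≤ Real.log u := Real.log_nonneg (by linarith)
  have hsr : √r * √r = r := Real.mul_self_sqrt hr0.le
  have hsr0 : 0 ≤ √r := Real.sqrt_nonneg _
  have hsr1 : 1 ≤ √r := by
    rw [Real.one_le_sqrt]
    linarith
  have hM0 : 0 < M := by linarith
  have hlM : 0 ≤ Real.log M := Real.log_nonneg hM
  obtain ⟨y, hy⟩ : ∃ y : ℝ, y = Real.exp r := ⟨_, rfl⟩
  rw [← hy]
  have hly : Real.log y = r := by rw [hy, Real.log_exp]
  have hy0 : 0 < y := by rw [hy]; exact Real.exp_pos _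
  have hy1 : 32 ≤ y := by rw [hy]; exact exp_ge_32 hr11
  -- the level M is at most y
  have hlMr : Real.log M ≤ r := by
    refine hMB.trans ?_
    have h1 : 4 * B ≤ √r := by
      apply Real.le_sqrt_of_sq_le
      nlinarith
    have h2 : B * Real.log u ≤ B * (4 * √r) := mul_le_mul_of_nonneg_left hlr hB.le
    have h3 : 4 * B * √r ≤ √r * √r := mul_le_mul_of_nonneg_right h1 hsr0
    linarith
  have hMy : M ≤ y := by
    rw [hy, ← Real.log_le_iff_le_exp hM0]
    exact hlMr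
  have hy3 : Real.log (y ^ 3) = 3 * r := by
    rw [Real.log_pow, hly]
    norm_num
  have hy31 : 1 ≤ y ^ 3 := one_le_pow₀ (by linarith)
  obtain ⟨A, hA⟩ : ∃ A : Set ℤ, A = AA (QQ y M t) := ⟨_, rfl⟩
  have hstab : Stab y A := by
    rw [hA]
    exact stab_AA hy0.le fun m hm => QQ_stable hm
  have hMκ : 0 < M ^ (-κ) := Real.rpow_pos_of_pos hM0 _
  have htr := transport hk₀ (Z := y) (X₀ := y ^ 3) (a₀ := 2 * C * M ^ (-κ)) (A := A)
    (by
      rw [← Real.log_le_log_iff (by positivity) (by positivity), Real.log_pow, hy3]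
      push_cast
      linarith)
    (by
      have h1 : y * 32 ≤ y * y ^ 2 := mul_le_mul_of_nonneg_left (by nlinarith) hy0.le
      calc 32 * y = y * 32 := by ring
        _ ≤ y * y ^ 2 := h1
        _ = y ^ 3 := by ring)
    (by positivity) hstab (Or.inl rfl)
    (fun X hX1 hX2 => by
      rw [hA]
      refine F_QQ h hM hMy (hy31.trans hX1) ?_
      refine le_trans ?_ ht
      have h1 := Real.log_le_log (by linarith) hX2
      rw [Real.log_pow, hy3] at h1
      push_cast at h1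
      have h2 : C * (Real.log X + Real.log M) ≤ C * (6 * r + r) :=
        mul_le_mul_of_nonneg_left (by linarith) (by linarith)
      linarith)
  obtain ⟨R, hR⟩ : ∃ R : ℝ, R = 2 * C * M ^ (-κ) + 2 / (3 * r) ^ 5 := ⟨_, rfl⟩
  have hR0 : 0 ≤ R := by rw [hR]; positivity
  have hcount := count_nat (Q := QQ y M t) (Z := y) (X₀ := y ^ 3) (R := R) hy0.le
    (by
      calc y = y * 1 := (mul_one _).symm
        _ ≤ y * y ^ 2 := mul_le_mul_of_nonneg_left (one_le_pow₀ (by linarith)) hy0.le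
        _ = y ^ 3 := by ring)
    (fun m hm => QQ_stable hm) hR0
    (fun X hX => by
      obtain ⟨N, hN⟩ := exists_nat_ge (Real.log X)
      have h1 := htr N X hX hN
      rw [hA, hy3] at h1
      refine h1.trans ?_
      have hX0 : 0 < X := by linarith
      apply mul_le_mul_of_nonneg_right _ (by positivity)
      rw [hR]
      have : 0 ≤ 1 / Real.log X ^ 5 := by
        have : 0 ≤ Real.log X := Real.log_nonneg (by linarith)
        positivity
      linarith) hx1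
  refine hcount.trans ?_
  rw [hlx]
  -- comparison
  obtain ⟨c, hc⟩ : ∃ c : ℝ, c = min κ (2 / B) := ⟨_, rfl⟩
  rw [← hc]
  have hc1 : c ≤ κ := by rw [hc]; exact min_le_left _ _
  have hc2 : c * B ≤ 2 := by
    have : c ≤ 2 / B := by rw [hc]; exact min_le_right _ _
    rw [le_div_iff₀ hB] at this
    exact this
  have hMc : M ^ (-κ) ≤ M ^ (-c) := Real.rpow_le_rpow_of_exponent_le hM (by linarith)
  have hMc2 : 1 / u ^ 2 ≤ M ^ (-c) := by
    rw [Real.rpow_def_of_pos hM0]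
    have h1 : 1 / u ^ 2 = Real.exp (-(2 * Real.log u)) := by
      have hu0 : 0 < u := by linarith
      rw [Real.exp_neg, show 2 * Real.log u = Real.log (u ^ 2) by
        rw [Real.log_pow]; norm_num, Real.exp_log (by positivity), one_div]
    rw [h1]
    apply Real.exp_le_exp.2
    have h2 : c * Real.log M ≤ 2 * Real.log u := by
      rcases le_or_gt c 0 with h3 | h3
      · have : c * Real.log M ≤ 0 := mul_nonpos_of_nonpos_of_nonneg h3 hlM
        linarith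
      · calc c * Real.log M ≤ c * (B * Real.log u) := mul_le_mul_of_nonneg_left hMB h3.le
          _ = c * B * Real.log u := by ring
          _ ≤ 2 * Real.log u := mul_le_mul_of_nonneg_right hc2 hlu0
    linarith
  have h5 : 2 / (3 * r) ^ 5 ≤ 1 / u ^ 2 := by
    rw [hu, ← pow_mul, div_le_div_iff₀ (by positivity) (by positivity), one_mul]
    have h6 : (3 * r) ^ 5 = 243 * r * r ^ 4 := by ring
    have h7 : r ^ (2 * 2) = r ^ 4 := by norm_num
    rw [h6, h7]
    apply mul_le_mul_of_nonneg_right _ (by positivity)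
    linarith
  have h6 : (2 * u + 1) * (y ^ 3 + 1) ≤ x * (1 / u ^ 2) := by
    have hu0 : 0 < u := by linarith
    have h7 : (2 * u + 1) * (y ^ 3 + 1) ≤ 6 * u * y ^ 3 := by
      have h8 : (2 * u + 1) * (y ^ 3 + 1) ≤ (3 * u) * (2 * y ^ 3) :=
        mul_le_mul (by linarith) (by linarith) (by positivity) (by positivity)
      linarith
    refine h7.trans ?_
    rw [mul_one_div, le_div_iff₀ (by positivity)]
    have h9 : 6 * u * y ^ 3 * u ^ 2 = Real.exp (Real.log 6 + 3 * r + 3 * Real.log u) := by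
      rw [Real.exp_add, Real.exp_add, Real.exp_log (by norm_num)]
      have e1 : Real.exp (3 * r) = y ^ 3 := by
        rw [hy, ← Real.exp_nat_mul]
        norm_num
      have e2 : Real.exp (3 * Real.log u) = u ^ 3 := by
        rw [show 3 * Real.log u = Real.log (u ^ 3) by rw [Real.log_pow]; norm_num,
          Real.exp_log (by positivity)]
      rw [e1, e2]
      ring
    rw [h9, hx]
    apply Real.exp_le_exp.2
    have h10 : Real.log 6 ≤ 5 := by
      have := Real.log_le_sub_one_of_pos (show (0 : ℝ) < 6 by norm_num)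
      linarith
    have h11 : √r ≤ r / 3 := by
      have h12 : 3 ≤ √r := by
        apply Real.le_sqrt_of_sq_le
        linarith
      have h13 := mul_le_mul_of_nonneg_right h12 hsr0
      rw [hsr] at h13
      linarith
    have h14 : r ^ 2 = u := hu.symm
    nlinarith
  have h7 : R * x ≤ (2 * C * M ^ (-c) + M ^ (-c)) * x := by
    apply mul_le_mul_of_nonneg_right _ hx0.le
    rw [hR]
    have h8 : 2 * C * M ^ (-κ) ≤ 2 * C * M ^ (-c) :=
      mul_le_mul_of_nonneg_left hMc (by linarith)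
    linarith
  have h8 : x * (1 / u ^ 2) ≤ x * M ^ (-c) := mul_le_mul_of_nonneg_left hMc2 hx0.le
  linarith

/-- Bad arrivals, large levels. -/
theorem arrive_large {κ C : ℝ} (hκ : 0 < κ) (hκ1 : κ ≤ 1) (hC : 1 ≤ C) (h : Brr κ C) {E : ℝ}
    (hE : 0 < E) : ∃ w₀ : ℝ, ∀ x M s t r : ℝ, w₀ ≤ r → x = Real.exp (r ^ 2) → 1 ≤ M →
      M ≤ Real.exp r → 4 / κ * Real.log (r ^ 2) ≤ Real.log M → s ≤ E * r ^ 2 → 2 * C * r ≤ t →
        (({n : ℕ | 1 ≤ n ∧ (n : ℝ) ≤ x ∧ ∃ k b : ℕ, (k : ℝ) ≤ s ∧ Pas (Real.exp r) n k b ∧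
          ∀ j : ℕ, (j : ℝ) ≤ t → M < (T^[j] b : ℝ)}.ncard : ℕ) : ℝ) ≤
          (1 + 16 * C * (E + 1) ^ 2) * x * M ^ (-(κ / 2)) := by
  classical
  obtain ⟨w₁, hw₁⟩ : ∃ w₁ : ℝ, ∀ r : ℝ, w₁ ≤ r → E * r ^ 2 ≤ Real.exp r := by
    have h1 := (isLittleO_pow_exp_pos_mul_atTop (k := 2) (b := 1) one_pos).def
      (show (0 : ℝ) < 1 / E by positivity)
    obtain ⟨w₁, hw₁⟩ := eventually_atTop.1 h1
    refine ⟨w₁, fun r hr => ?_⟩
    have h2 := hw₁ r hr
    rw [Real.norm_of_nonneg (by positivity), Real.norm_of_nonneg (Real.exp_pos _).le,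
      one_mul] at h2
    rw [one_div, ← div_eq_inv_mul, le_div_iff₀ hE] at h2
    linarith
  refine ⟨max 11 w₁, ?_⟩
  intro x M s t r hr hx hM hMy hMl hs ht
  have hr11 : 11 ≤ r := (le_max_left _ _).trans hr
  have hr2 := hw₁ r ((le_max_right _ _).trans hr)
  have hr0 : 0 < r := by linarith
  have hu121 : 121 ≤ r ^ 2 := by nlinarith
  obtain ⟨u, hu⟩ : ∃ u : ℝ, u = r ^ 2 := ⟨_, rfl⟩
  obtain ⟨y, hy⟩ : ∃ y : ℝ, y = Real.exp r := ⟨_, rfl⟩
  rw [← hy] at hMy hr2 ⊢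
  rw [← hu] at hMl hs hr2 hu121 hx
  have hly : Real.log y = r := by rw [hy, Real.log_exp]
  have hy0 : 0 < y := by rw [hy]; exact Real.exp_pos _
  have hy1 : 32 ≤ y := by rw [hy]; exact exp_ge_32 hr11
  have hx0 : 0 < x := by rw [hx]; exact Real.exp_pos _
  have hM0 : 0 < M := by linarith
  have hlM : 0 ≤ Real.log M := Real.log_nonneg hM
  have hlMr : Real.log M ≤ r := by rw [← hly]; exact Real.log_le_log hM0 hMy
  have hu0 : 0 < u := by linarith
  obtain ⟨K, hK⟩ : ∃ K : ℕ, K = ⌊E * u⌋₊ := ⟨_, rfl⟩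
  have hKr : (K : ℝ) ≤ E * u := by rw [hK]; exact Nat.floor_le (by positivity)
  obtain ⟨V, hV⟩ : ∃ V : Finset ℕ, V = (range (⌊y⌋₊ + 1)).filter
      (fun b : ℕ => y / 2 < (b : ℝ) ∧ ∀ j : ℕ, (j : ℝ) ≤ t → M < (T^[j] b : ℝ)) := ⟨_, rfl⟩
  have hVc : (V.card : ℝ) ≤ C * y * M ^ (-κ) := by
    have h1 := h M y t hM (by linarith) (by
      rw [hly]
      have : C * (r + Real.log M) ≤ C * (r + r) :=
        mul_le_mul_of_nonneg_left (by linarith) (by linarith)
      linarith)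
    refine le_trans ?_ h1
    rw [← Set.ncard_coe_finset]
    have hfin : {n : ℕ | 1 ≤ n ∧ (n : ℝ) ≤ y ∧
        ∀ j : ℕ, (j : ℝ) ≤ t → M < (T^[j] n : ℝ)}.Finite := by
      refine (Set.finite_Iic ⌊y⌋₊).subset ?_
      rintro n ⟨_, h, _⟩
      exact Nat.le_floor h
    have h2 : (V : Set ℕ) ⊆ {n : ℕ | 1 ≤ n ∧ (n : ℝ) ≤ y ∧
        ∀ j : ℕ, (j : ℝ) ≤ t → M < (T^[j] n : ℝ)} := by
      intro b hb
      rw [mem_coe, hV, mem_filter, mem_range] at hb
      obtain ⟨b1, b2, b3⟩ := hb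
      refine ⟨?_, ?_, b3⟩
      · have : (0 : ℝ) < b := by linarith
        exact_mod_cast this
      · exact (Nat.le_floor_iff hy0.le).1 (by omega)
    exact_mod_cast Set.ncard_le_ncard h2 hfin
  -- the covering
  have hsub : {n : ℕ | 1 ≤ n ∧ (n : ℝ) ≤ x ∧ ∃ k b : ℕ, (k : ℝ) ≤ s ∧ Pas y n k b ∧
      ∀ j : ℕ, (j : ℝ) ≤ t → M < (T^[j] b : ℝ)} ⊆
      ((Finset.Icc 1 ⌊y⌋₊ ∪ V.biUnion fun b => Pre y x K b : Finset ℕ) : Set ℕ) := by
    rintro n ⟨n1, n2, k, b, n3, ⟨n4, n5, n6⟩, n7⟩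
    rw [mem_coe, mem_union]
    rcases le_or_gt (n : ℝ) y with hny | hny
    · left
      rw [mem_Icc]
      exact ⟨n1, Nat.le_floor hny⟩
    · right
      rw [mem_biUnion]
      have hk0 : k ≠ 0 := by
        rintro rfl
        rw [Function.iterate_zero, id_eq] at n4
        rw [← n4] at n5
        linarith
      have hb2 : y / 2 < (b : ℝ) := by
        obtain ⟨k', rfl⟩ := Nat.exists_eq_succ_of_ne_zero hk0
        have h1 := n6 k' (Nat.lt_succ_self _)
        rw [Nat.succ_eq_add_one, Function.iterate_succ_apply'] at n4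
        have h2 : T^[k'] n ≤ 2 * T (T^[k'] n) := by
          unfold T
          split_ifs <;> omega
        rw [n4] at h2
        have h3 : ((T^[k'] n : ℕ) : ℝ) ≤ 2 * b := by exact_mod_cast h2
        linarith
      refine ⟨b, ?_, ?_⟩
      · rw [hV, mem_filter, mem_range]
        exact ⟨Nat.lt_succ_of_le (Nat.le_floor n5), hb2, n7⟩
      · unfold Pre
        rw [mem_filter, mem_range]
        refine ⟨Nat.lt_succ_of_le (Nat.le_floor n2), n1, k, ⟨n4, n5, n6⟩, ?_⟩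
        refine (J_le k n).trans ?_
        rw [hK]
        exact Nat.le_floor (n3.trans hs)
  have h1 := Set.ncard_le_ncard hsub (finite_toSet _)
  rw [Set.ncard_coe_finset] at h1
  have h2 := h1.trans (card_union_le _ _)
  rw [Nat.card_Icc, Nat.add_sub_cancel] at h2
  have h3 : (({n : ℕ | 1 ≤ n ∧ (n : ℝ) ≤ x ∧ ∃ k b : ℕ, (k : ℝ) ≤ s ∧ Pas y n k b ∧
      ∀ j : ℕ, (j : ℝ) ≤ t → M < (T^[j] b : ℝ)}.ncard : ℕ) : ℝ) ≤
      y + ∑ b ∈ V, ((Pre y x K b).card : ℝ) := by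
    have e1 : ((⌊y⌋₊ : ℕ) : ℝ) ≤ y := Nat.floor_le hy0.le
    have e2 : (((V.biUnion fun b => Pre y x K b).card : ℕ) : ℝ) ≤
        ∑ b ∈ V, ((Pre y x K b).card : ℝ) := by exact_mod_cast card_biUnion_le
    have e3 : (({n : ℕ | 1 ≤ n ∧ (n : ℝ) ≤ x ∧ ∃ k b : ℕ, (k : ℝ) ≤ s ∧ Pas y n k b ∧
      ∀ j : ℕ, (j : ℝ) ≤ t → M < (T^[j] b : ℝ)}.ncard : ℕ) : ℝ) ≤
        ((⌊y⌋₊ + (V.biUnion fun b => Pre y x K b).card : ℕ) : ℝ) := by exact_mod_cast h2
    push_cast at e3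
    linarith
  refine h3.trans ?_
  have h4 : ∑ b ∈ V, ((Pre y x K b).card : ℝ) ≤ V.card * (16 * (K + 1) ^ 2 * x / y) := by
    rw [← nsmul_eq_mul, ← sum_const]
    refine sum_le_sum fun b hb => ?_
    rw [hV, mem_filter] at hb
    have hb0 : (0 : ℝ) < b := by linarith [hb.2.1]
    refine (thm_Arr y x K b hx0.le (by exact_mod_cast hb0) (hKr.trans hr2)).trans ?_
    rw [div_le_div_iff₀ hb0 hy0]
    have e1 : y ≤ 2 * b := by linarith [hb.2.1]
    have e2 : 8 * ((K : ℝ) + 1) ^ 2 * x * y ≤ 8 * ((K : ℝ) + 1) ^ 2 * x * (2 * b) :=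
      mul_le_mul_of_nonneg_left e1 (by positivity)
    linarith
  have hMκ : 0 < M ^ (-κ) := Real.rpow_pos_of_pos hM0 _
  have h5 : (V.card : ℝ) * (16 * (K + 1) ^ 2 * x / y) ≤
      16 * C * ((K : ℝ) + 1) ^ 2 * x * M ^ (-κ) := by
    refine (mul_le_mul_of_nonneg_right hVc (by positivity)).trans (le_of_eq ?_)
    field_simp
  have h6 : ((K : ℝ) + 1) ^ 2 ≤ (E + 1) ^ 2 * M ^ (κ / 2) := by
    have e1 : (K : ℝ) + 1 ≤ (E + 1) * u := by linarith
    have e2 : ((K : ℝ) + 1) ^ 2 ≤ ((E + 1) * u) ^ 2 := pow_le_pow_left₀ (by positivity) e1 2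
    rw [mul_pow] at e2
    refine e2.trans (mul_le_mul_of_nonneg_left ?_ (by positivity))
    rw [Real.rpow_def_of_pos hM0]
    have e3 : u ^ 2 = Real.exp (2 * Real.log u) := by
      rw [show 2 * Real.log u = Real.log (u ^ 2) by rw [Real.log_pow]; norm_num,
        Real.exp_log (by positivity)]
    rw [e3]
    apply Real.exp_le_exp.2
    have e4 := mul_le_mul_of_nonneg_left hMl (show 0 ≤ κ / 2 by positivity)
    have e5 : κ / 2 * (4 / κ * Real.log u) = 2 * Real.log u := by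
      field_simp
      ring
    linarith
  have h7 : 16 * C * ((K : ℝ) + 1) ^ 2 * x * M ^ (-κ) ≤
      16 * C * (E + 1) ^ 2 * x * M ^ (-(κ / 2)) := by
    have e1 : M ^ (κ / 2) * M ^ (-κ) = M ^ (-(κ / 2)) := by
      rw [← Real.rpow_add hM0]
      congr 1
      ring
    rw [← e1]
    have e2 : 16 * C * x * M ^ (-κ) * ((K : ℝ) + 1) ^ 2 ≤
        16 * C * x * M ^ (-κ) * ((E + 1) ^ 2 * M ^ (κ / 2)) :=
      mul_le_mul_of_nonneg_left h6 (by positivity)
    linarith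
  have h8 : y ≤ x * M ^ (-(κ / 2)) := by
    have e1 : M ^ (κ / 2) ≤ M := by
      calc M ^ (κ / 2) ≤ M ^ (1 : ℝ) := Real.rpow_le_rpow_of_exponent_le hM (by linarith)
        _ = M := Real.rpow_one _
    have e2 : y * M ^ (κ / 2) ≤ x := by
      calc y * M ^ (κ / 2) ≤ y * y := mul_le_mul_of_nonneg_left (e1.trans hMy) hy0.le
        _ = Real.exp (r + r) := by rw [hy, Real.exp_add]
        _ ≤ x := by
            rw [hx]
            apply Real.exp_le_exp.2
            rw [hu]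
            nlinarith
    rw [Real.rpow_neg hM0.le, ← div_eq_mul_inv, le_div_iff₀ (Real.rpow_pos_of_pos hM0 _)]
    exact e2
  linarith

end Pool.Agent.UTL
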