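import Mathlib
import Pool.Agent.UTL.Arv

set_option autoImplicit false

/-! The upper bound for all levels. -/

namespace Pool.Agent.UTL

open Finset Filter
open Pool.Agent.Helper27 (T J J_le)

/-- The upper bound for all times and all levels. -/
def St_V : Prop := ∀ ε δ : ℝ, 0 < ε → 0 < δ → δ < 1 → ∃ C c : ℝ, 0 < c ∧
  ∀ x M t : ℝ, C ≤ x → 1 ≤ M → M ≤ x ^ δ →
    C * Real.log (Real.log x) * √(Real.log (x / M)) ≤ t →
      (Nx x M (g1 * Real.log (x / M) + t) : ℝ) ≤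
        x * Real.exp (-(1 - ε) * t ^ 2 / (2 * VV * Real.log (x / M))) + C * x * M ^ (-c)

theorem rfacts {r : ℝ} (hr : 11 ≤ r) : 121 ≤ r ^ 2 ∧ 11 * r ≤ r ^ 2 ∧ (r / 2) ^ 2 = r ^ 2 / 4 := by
  refine ⟨by nlinarith, by nlinarith, by ring⟩

theorem cube_aux {e : ℝ} (_h0 : 0 ≤ e) (h1 : e ≤ 1) : 1 - 3 * e ≤ (1 - e) * (1 - e) ^ 2 := by
  have h2 : 0 ≤ e ^ 2 * (3 - e) := by
    have : 0 ≤ 3 - e := by linarith
    positivity
  linarith [show (1 - e) * (1 - e) ^ 2 = 1 - 3 * e + e ^ 2 * (3 - e) by ring]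

theorem frac_aux {e L V : ℝ} (h1 : e ≤ 1 / 2) (hL : 0 < L) (hV : 0 < V) :
    1 / (4 * V) * L ≤ (1 - e) * L / (2 * V) := by
  have h2 : 1 / (4 * V) * L = 1 / 2 * L / (2 * V) := by
    field_simp
    ring
  rw [h2]
  apply div_le_div_of_nonneg_right _ (by positivity)
  exact mul_le_mul_of_nonneg_right (by linarith) hL.le

theorem exp_one_le {z : ℝ} (h : 121 ≤ z) : Real.exp 1 ≤ z := by
  have := Real.exp_one_lt_d9
  linarith

/-- Splitting at the first passage below `y`. -/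
theorem Nx_split {x y M s t s' : ℝ} (h : s' + t ≤ s) :
    (Nx x M s : ℝ) ≤ (Nx x y s' : ℝ) +
      (({n : ℕ | 1 ≤ n ∧ (n : ℝ) ≤ x ∧ ∃ k b : ℕ, (k : ℝ) ≤ s' ∧ Pas y n k b ∧
        ∀ j : ℕ, (j : ℝ) ≤ t → M < (T^[j] b : ℝ)}.ncard : ℕ) : ℝ) := by
  have hfin : ∀ P : ℕ → Prop, {n : ℕ | 1 ≤ n ∧ (n : ℝ) ≤ x ∧ P n}.Finite := by
    intro P
    refine (Set.finite_Iic ⌊x⌋₊).subset ?_
    rintro n ⟨_, h, _⟩
    exact Nat.le_floor h
  have hsub : {n : ℕ | 1 ≤ n ∧ (n : ℝ) ≤ x ∧ ∀ k : ℕ, (k : ℝ) ≤ s → M < (T^[k] n : ℝ)} ⊆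
      {n : ℕ | 1 ≤ n ∧ (n : ℝ) ≤ x ∧ ∀ k : ℕ, (k : ℝ) ≤ s' → y < (T^[k] n : ℝ)} ∪
      {n : ℕ | 1 ≤ n ∧ (n : ℝ) ≤ x ∧ ∃ k b : ℕ, (k : ℝ) ≤ s' ∧ Pas y n k b ∧
        ∀ j : ℕ, (j : ℝ) ≤ t → M < (T^[j] b : ℝ)} := by
    rintro n ⟨n1, n2, n3⟩
    by_cases hc : ∀ k : ℕ, (k : ℝ) ≤ s' → y < (T^[k] n : ℝ)
    · exact Or.inl ⟨n1, n2, hc⟩
    · right
      push Not at hc
      obtain ⟨k₁, hk1, hk2⟩ := hc
      have hex : ∃ k : ℕ, (T^[k] n : ℝ) ≤ y := ⟨k₁, hk2⟩
      classical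
      refine ⟨n1, n2, Nat.find hex, T^[Nat.find hex] n, ?_, ⟨rfl, Nat.find_spec hex, ?_⟩, ?_⟩
      · have : Nat.find hex ≤ k₁ := Nat.find_min' hex hk2
        have h2 : ((Nat.find hex : ℕ) : ℝ) ≤ k₁ := by exact_mod_cast this
        linarith
      · intro j hj
        exact lt_of_not_ge (Nat.find_min hex hj)
      · intro j hj
        rw [← Function.iterate_add_apply]
        apply n3
        have : Nat.find hex ≤ k₁ := Nat.find_min' hex hk2
        have h2 : ((Nat.find hex : ℕ) : ℝ) ≤ k₁ := by exact_mod_cast this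
        push_cast
        linarith
  unfold Nx
  have h1 := Set.ncard_le_ncard hsub ((hfin _).union (hfin _))
  exact_mod_cast h1.trans (Set.ncard_union_le _ _)

/-- The bound for the levels below `exp √log x`, moderate times. -/
theorem small_level (hU : St_U) {ε : ℝ} (hε : 0 < ε) (hε1 : ε ≤ 1 / 2) : ∃ C c : ℝ, 1 ≤ C ∧
    0 < c ∧ ∀ x M t r : ℝ, C ≤ r → x = Real.exp (r ^ 2) → 1 ≤ M → M ≤ Real.exp r →
      C * Real.log (r ^ 2) * √(Real.log (x / M)) ≤ t → t ≤ Real.log (x / M) →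
        (Nx x M (g1 * Real.log (x / M) + t) : ℝ) ≤
          x * Real.exp (-(1 - ε) * t ^ 2 / (2 * VV * Real.log (x / M))) + C * x * M ^ (-c) := by
  obtain ⟨κ, hκ, hκ1, C₂, hC₂, hB⟩ := final_nat
  obtain ⟨ε₁, hε₁⟩ : ∃ ε₁ : ℝ, ε₁ = ε / 3 := ⟨_, rfl⟩
  have hε₁0 : 0 < ε₁ := by rw [hε₁]; positivity
  have hε₁1 : ε₁ ≤ 1 / 6 := by rw [hε₁]; linarith
  obtain ⟨C₁, c₁, hc₁, h1⟩ := hU ε₁ (1 / 2) hε₁0 (by norm_num) (by norm_num)
  obtain ⟨w₁, hs⟩ := arrive_small hC₂ hB (show 0 < 4 / κ by positivity)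
  have hg1 : 0 < g1 := by
    unfold g1
    have : 0 < Real.log (4 / 3) := Real.log_pos (by norm_num)
    positivity
  obtain ⟨w₂, hl⟩ := arrive_large hκ hκ1 hC₂ hB (show 0 < g1 + 1 by linarith)
  obtain ⟨w₃, hw₃⟩ : ∃ w₃ : ℝ, ∀ r : ℝ, w₃ ≤ r → (|C₁| + 1) * Real.log (r ^ 2) ^ 2 ≤ r := by
    have h2 := (Real.isLittleO_pow_log_id_atTop (n := 2)).def
      (show (0 : ℝ) < 1 / (4 * (|C₁| + 1)) by positivity)
    obtain ⟨w₃, hw₃⟩ := eventually_atTop.1 h2
    refine ⟨max w₃ 1, fun r hr => ?_⟩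
    have h3 := hw₃ r ((le_max_left _ _).trans hr)
    have hr1 : 1 ≤ r := (le_max_right _ _).trans hr
    rw [Real.norm_of_nonneg (by positivity), id_eq, Real.norm_of_nonneg (by linarith),
      one_div, ← div_eq_inv_mul, le_div_iff₀ (by positivity)] at h3
    rw [Real.log_pow]
    push_cast
    linarith
  obtain ⟨D, hD⟩ : ∃ D : ℝ, D = 1 + (2 * C₂ + 2) + (1 + 16 * C₂ * ((g1 + 1) + 1) ^ 2) +
    max 11 (max w₁ (max w₂ (max w₃ (max |C₁| 1)))) + 2 * |C₁| + 14 * C₂ / ε₁ := ⟨_, rfl⟩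
  obtain ⟨W, hW⟩ : ∃ W : ℝ, W = max 11 (max w₁ (max w₂ (max w₃ (max |C₁| 1)))) := ⟨_, rfl⟩
  rw [← hW] at hD
  have hW11 : 11 ≤ W := by rw [hW]; exact le_max_left _ _
  have hWw1 : w₁ ≤ W := by rw [hW]; exact (le_max_left _ _).trans (le_max_right _ _)
  have hWw2 : w₂ ≤ W := by
    rw [hW]; exact ((le_max_left _ _).trans (le_max_right _ _)).trans (le_max_right _ _)
  have hWw3 : w₃ ≤ W := by
    rw [hW]
    exact (((le_max_left _ _).trans (le_max_right _ _)).trans (le_max_right _ _)).trans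
      (le_max_right _ _)
  have hWC : |C₁| ≤ W := by
    rw [hW]
    exact ((((le_max_left _ _).trans (le_max_right _ _)).trans (le_max_right _ _)).trans
      (le_max_right _ _)).trans (le_max_right _ _)
  have ha : 0 ≤ |C₁| := abs_nonneg _
  have hb : 0 ≤ 14 * C₂ / ε₁ := by positivity
  have hd : 0 ≤ 16 * C₂ * ((g1 + 1) + 1) ^ 2 := by positivity
  obtain ⟨c, hc⟩ : ∃ c : ℝ, c = min c₁ (min (min κ (2 / (4 / κ))) (κ / 2)) := ⟨_, rfl⟩
  have hc0 : 0 < c := by rw [hc]; positivity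
  have hcc₁ : c ≤ c₁ := by rw [hc]; exact min_le_left _ _
  have hcc₂ : c ≤ min κ (2 / (4 / κ)) := by
    rw [hc]; exact (min_le_right _ _).trans (min_le_left _ _)
  have hcc₃ : c ≤ κ / 2 := by rw [hc]; exact (min_le_right _ _).trans (min_le_right _ _)
  refine ⟨D, c, by rw [hD]; linarith, hc0, ?_⟩
  intro x M t r hr hx hM hMy ht htL
  have hrW : W ≤ r := by
    rw [hD] at hr
    linarith
  have hr11 : 11 ≤ r := hW11.trans hrW
  have hr0 : 0 < r := by linarith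
  have hx0 : 0 < x := by rw [hx]; exact Real.exp_pos _
  have hM0 : 0 < M := by linarith
  have hlx : Real.log x = r ^ 2 := by rw [hx, Real.log_exp]
  have hlM : 0 ≤ Real.log M := Real.log_nonneg hM
  have hlMr : Real.log M ≤ r := by
    rw [Real.log_le_iff_le_exp hM0]
    exact hMy
  obtain ⟨L, hL⟩ : ∃ L : ℝ, L = Real.log (x / M) := ⟨_, rfl⟩
  have hLr : L = r ^ 2 - Real.log M := by rw [hL, Real.log_div hx0.ne' hM0.ne', hlx]
  rw [← hL] at ht htL ⊢
  obtain ⟨y, hy⟩ : ∃ y : ℝ, y = Real.exp r := ⟨_, rfl⟩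
  have hy0 : 0 < y := by rw [hy]; exact Real.exp_pos _
  have hly : Real.log y = r := by rw [hy, Real.log_exp]
  obtain ⟨L', hL'⟩ : ∃ L' : ℝ, L' = Real.log (x / y) := ⟨_, rfl⟩
  have hLr' : L' = r ^ 2 - r := by rw [hL', Real.log_div hx0.ne' hy0.ne', hlx, hly]
  have hLL : L' ≤ L := by rw [hLr, hLr']; linarith
  obtain ⟨rf1, rf2, rf3⟩ := rfacts hr11
  have hL'0 : 0 < L' := by rw [hLr']; linarith
  have hL0 : 0 < L := hL'0.trans_le hLL
  have hLup : L ≤ r ^ 2 := by rw [hLr]; linarith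
  have hlow : (r / 2) ^ 2 ≤ L := by
    refine le_trans ?_ hLL
    rw [hLr', rf3]
    linarith
  obtain ⟨lam, hlam⟩ : ∃ lam : ℝ, lam = Real.log (r ^ 2) := ⟨_, rfl⟩
  rw [← hlam] at ht
  have hlam1 : 1 ≤ lam := by
    rw [hlam, Real.le_log_iff_exp_le (by positivity)]
    exact exp_one_le rf1
  have hsL : 0 ≤ √L := Real.sqrt_nonneg _
  have hsLr : r / 2 ≤ √L := Real.le_sqrt_of_sq_le hlow
  have hV := VV_ge_one
  -- the time is large
  have hDC : 2 * |C₁| ≤ D := by rw [hD]; linarith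
  have hDε : 14 * C₂ / ε₁ ≤ D := by rw [hD]; linarith
  have hD0 : 0 < D := by rw [hD]; linarith
  have ht0 : 0 < t := by
    refine lt_of_lt_of_le ?_ ht
    have : 0 < √L := Real.sqrt_pos.2 hL0
    positivity
  obtain ⟨t₁, ht₁⟩ : ∃ t₁ : ℝ, t₁ = (1 - ε₁) * t := ⟨_, rfl⟩
  have ht₁0 : 0 < t₁ := by rw [ht₁]; exact mul_pos (by linarith) ht0
  have htε : 7 * C₂ * r ≤ ε₁ * t := by
    have e1 : 14 * C₂ / ε₁ * 1 * (r / 2) ≤ D * lam * √L :=
      mul_le_mul (mul_le_mul hDε hlam1 (by norm_num) hD0.le) hsLr (by positivity) (by positivity)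
    have e2 := mul_le_mul_of_nonneg_left (e1.trans ht) hε₁0.le
    have e3 : ε₁ * (14 * C₂ / ε₁ * 1 * (r / 2)) = 7 * C₂ * r := by
      field_simp
      ring
    rw [e3] at e2
    exact e2
  have hstep := Nx_split (x := x) (y := y) (M := M) (s := g1 * L + t) (t := ε₁ * t)
    (s' := g1 * L' + t₁) (by
      have : g1 * L' ≤ g1 * L := mul_le_mul_of_nonneg_left hLL hg1.le
      rw [ht₁]
      linarith)
  have hMc : 0 < M ^ (-c) := Real.rpow_pos_of_pos hM0 _
  -- the first part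
  have hpart1 : (Nx x y (g1 * L' + t₁) : ℝ) ≤
      x * Real.exp (-(1 - ε) * t ^ 2 / (2 * VV * L)) + x * M ^ (-c) := by
    have h2 := h1 x y t₁ (by
        have e1 := Real.add_one_le_exp (r ^ 2)
        have e2 := le_abs_self C₁
        rw [hx]
        linarith) (by
        rw [hlx, hy]
        apply Real.exp_le_exp.2
        have e1 := hw₃ r (hWw3.trans hrW)
        have e2 : C₁ * Real.log (r ^ 2) ^ 2 ≤ (|C₁| + 1) * Real.log (r ^ 2) ^ 2 :=
          mul_le_mul_of_nonneg_right (by linarith [le_abs_self C₁]) (sq_nonneg _)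
        linarith) (by
        rw [Real.rpow_def_of_pos hx0, hlx, hy]
        apply Real.exp_le_exp.2
        linarith) (by
        rw [hlx, ← hL', ← hlam]
        have e1 : √L' ≤ √L := Real.sqrt_le_sqrt hLL
        have e2 : C₁ * lam * √L' ≤ |C₁| * lam * √L := by
          have e3 : C₁ * lam ≤ |C₁| * lam :=
            mul_le_mul_of_nonneg_right (le_abs_self _) (by linarith)
          have e4 : C₁ * lam * √L' ≤ |C₁| * lam * √L' :=
            mul_le_mul_of_nonneg_right e3 (Real.sqrt_nonneg _)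
          have e5 : |C₁| * lam * √L' ≤ |C₁| * lam * √L :=
            mul_le_mul_of_nonneg_left e1 (by positivity)
          linarith
        have e3 : 2 * |C₁| * (lam * √L) ≤ D * (lam * √L) :=
          mul_le_mul_of_nonneg_right hDC (by positivity)
        have e4 : 1 / 2 * t ≤ t₁ := by
          rw [ht₁]
          exact mul_le_mul_of_nonneg_right (by linarith) ht0.le
        linarith)
    rw [← hL'] at h2
    refine h2.trans ?_
    have e1 : x * Real.exp (-(1 - ε₁) * t₁ ^ 2 / (2 * VV * L')) ≤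
        x * Real.exp (-(1 - ε) * t ^ 2 / (2 * VV * L)) := by
      apply mul_le_mul_of_nonneg_left _ hx0.le
      apply Real.exp_le_exp.2
      have e2 : (1 - ε) * t ^ 2 ≤ (1 - ε₁) * t₁ ^ 2 := by
        rw [ht₁, mul_pow, ← mul_assoc]
        apply mul_le_mul_of_nonneg_right _ (sq_nonneg t)
        have e3 : ε = 3 * ε₁ := by rw [hε₁]; ring
        rw [e3]
        exact cube_aux hε₁0.le (by linarith)
      have e3 : (1 - ε) * t ^ 2 / (2 * VV * L) ≤ (1 - ε₁) * t₁ ^ 2 / (2 * VV * L') := by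
        apply div_le_div₀ _ e2 (by positivity)
        · exact mul_le_mul_of_nonneg_left hLL (by positivity)
        · have : 0 ≤ 1 - ε₁ := by linarith
          positivity
      have e4 : -(1 - ε₁) * t₁ ^ 2 / (2 * VV * L') = -((1 - ε₁) * t₁ ^ 2 / (2 * VV * L')) := by
        ring
      have e5 : -(1 - ε) * t ^ 2 / (2 * VV * L) = -((1 - ε) * t ^ 2 / (2 * VV * L)) := by ring
      rw [e4, e5]
      linarith
    have e2 : x * y ^ (-c₁) ≤ x * M ^ (-c) := by
      apply mul_le_mul_of_nonneg_left _ hx0.le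
      rw [Real.rpow_def_of_pos hy0, Real.rpow_def_of_pos hM0, hly]
      apply Real.exp_le_exp.2
      have e3 : Real.log M * c ≤ r * c₁ := mul_le_mul hlMr hcc₁ hc0.le hr0.le
      linarith
    linarith
  -- the second part
  have hpart2 : (({n : ℕ | 1 ≤ n ∧ (n : ℝ) ≤ x ∧ ∃ k b : ℕ, (k : ℝ) ≤ g1 * L' + t₁ ∧ Pas y n k b ∧
        ∀ j : ℕ, (j : ℝ) ≤ ε₁ * t → M < (T^[j] b : ℝ)}.ncard : ℕ) : ℝ) ≤
      ((2 * C₂ + 2) + (1 + 16 * C₂ * ((g1 + 1) + 1) ^ 2)) * x * M ^ (-c) := by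
    rcases le_or_gt (Real.log M) (4 / κ * Real.log (r ^ 2)) with hcase | hcase
    · have h2 := hs x M (ε₁ * t) r (hWw1.trans hrW) hx hM hcase htε
      rw [← hy] at h2
      have h3 : (({n : ℕ | 1 ≤ n ∧ (n : ℝ) ≤ x ∧ ∃ k b : ℕ, (k : ℝ) ≤ g1 * L' + t₁ ∧
          Pas y n k b ∧ ∀ j : ℕ, (j : ℝ) ≤ ε₁ * t → M < (T^[j] b : ℝ)}.ncard : ℕ) : ℝ) ≤
          (({n : ℕ | 1 ≤ n ∧ (n : ℝ) ≤ x ∧ QQ y M (ε₁ * t) n}.ncard : ℕ) : ℝ) := by
        have hfin : {n : ℕ | 1 ≤ n ∧ (n : ℝ) ≤ x ∧ QQ y M (ε₁ * t) n}.Finite := by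
          refine (Set.finite_Iic ⌊x⌋₊).subset ?_
          rintro n ⟨_, h, _⟩
          exact Nat.le_floor h
        exact_mod_cast Set.ncard_le_ncard (by
          rintro n ⟨n1, n2, k, b, -, n3, n4⟩
          exact ⟨n1, n2, k, b, n3, n4⟩) hfin
      refine h3.trans (h2.trans ?_)
      have e1 : M ^ (-(min κ (2 / (4 / κ)))) ≤ M ^ (-c) :=
        Real.rpow_le_rpow_of_exponent_le hM (neg_le_neg hcc₂)
      have e2 := mul_le_mul_of_nonneg_left e1 (show 0 ≤ (2 * C₂ + 2) * x by positivity)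
      have e3 : 0 ≤ (1 + 16 * C₂ * ((g1 + 1) + 1) ^ 2) * x * M ^ (-c) := by positivity
      linarith
    · have h2 := hl x M (g1 * L' + t₁) (ε₁ * t) r (hWw2.trans hrW) hx hM hMy hcase.le (by
        have e1 : g1 * L' ≤ g1 * r ^ 2 := mul_le_mul_of_nonneg_left (hLL.trans hLup) hg1.le
        have e2 : t₁ ≤ t := by
          rw [ht₁]
          exact mul_le_of_le_one_left ht0.le (by linarith)
        linarith) (by
        have : 0 ≤ C₂ * r := by positivity
        linarith)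
      rw [← hy] at h2
      refine h2.trans ?_
      have e1 : M ^ (-(κ / 2)) ≤ M ^ (-c) :=
        Real.rpow_le_rpow_of_exponent_le hM (neg_le_neg hcc₃)
      have e2 := mul_le_mul_of_nonneg_left e1
        (show 0 ≤ (1 + 16 * C₂ * ((g1 + 1) + 1) ^ 2) * x by positivity)
      have e3 : 0 ≤ (2 * C₂ + 2) * x * M ^ (-c) := by positivity
      linarith
  have hDD : ((1 + (2 * C₂ + 2)) + (1 + 16 * C₂ * ((g1 + 1) + 1) ^ 2)) * (x * M ^ (-c)) ≤
      D * (x * M ^ (-c)) := by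
    apply mul_le_mul_of_nonneg_right _ (by positivity)
    rw [hD]
    linarith
  linarith

theorem thm_V (hU : St_U) : St_V := by
  intro ε δ hε hδ hδ1
  obtain ⟨ε', hε'⟩ : ∃ ε' : ℝ, ε' = min ε (1 / 2) := ⟨_, rfl⟩
  have he0 : 0 < ε' := by rw [hε']; exact lt_min hε (by norm_num)
  have he1 : ε' ≤ 1 / 2 := by rw [hε']; exact min_le_right _ _
  have he2 : ε' ≤ ε := by rw [hε']; exact min_le_left _ _
  obtain ⟨C₁, c₁, hc₁, h1⟩ := hU ε δ hε hδ hδ1
  obtain ⟨C₂, c₂, hC₂, hc₂, h2⟩ := small_level hU he0 he1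
  have hV := VV_ge_one
  have hV0 : 0 < VV := by linarith
  -- thresholds
  have hfun : ∀ᶠ r : ℝ in atTop, |C₁| * Real.log (r ^ 2) ^ 2 ≤ r ∧
      C₂ * Real.log (r ^ 2) ≤ r / 2 ∧ max 11 C₂ ≤ r := by
    have h3 := (Real.isLittleO_pow_log_id_atTop (n := 2)).def
      (show (0 : ℝ) < 1 / (4 * (|C₁| + 4 * C₂ + 1)) by positivity)
    filter_upwards [h3, eventually_ge_atTop (max 11 C₂)] with r h4 h5
    have hr11 : 11 ≤ r := (le_max_left _ _).trans h5
    rw [Real.norm_of_nonneg (by positivity), id_eq, Real.norm_of_nonneg (by linarith),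
      one_div, ← div_eq_inv_mul, le_div_iff₀ (by positivity)] at h4
    have hlr : 1 ≤ Real.log r := by
      rw [Real.le_log_iff_exp_le (by linarith)]
      have := Real.exp_one_lt_d9
      linarith
    have hlr2 : Real.log r ≤ Real.log r ^ 2 := le_self_pow₀ hlr (by norm_num)
    have e1 : Real.log (r ^ 2) = 2 * Real.log r := by
      rw [Real.log_pow]
      norm_num
    have ha : 0 ≤ |C₁| := abs_nonneg _
    have hsq : 0 ≤ Real.log r ^ 2 := sq_nonneg _
    refine ⟨?_, ?_, h5⟩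
    · rw [e1]
      have : 0 ≤ Real.log r ^ 2 * (16 * C₂ + 4) := by positivity
      linarith
    · rw [e1]
      have e2 : C₂ * Real.log r ≤ C₂ * Real.log r ^ 2 :=
        mul_le_mul_of_nonneg_left hlr2 (by linarith)
      have e3 : 0 ≤ Real.log r ^ 2 * (4 * |C₁| + 4) := by positivity
      linarith
  obtain ⟨W, hW⟩ := eventually_atTop.1 hfun
  obtain ⟨W', hW'⟩ : ∃ W' : ℝ, W' = max W 1 := ⟨_, rfl⟩
  have hW'1 : 1 ≤ W' := by rw [hW']; exact le_max_right _ _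
  obtain ⟨c, hc⟩ : ∃ c : ℝ, c = min c₁ (min c₂ (1 / (4 * VV))) := ⟨_, rfl⟩
  have hc0 : 0 < c := by rw [hc]; positivity
  have hcc₁ : c ≤ c₁ := by rw [hc]; exact min_le_left _ _
  have hcc₂ : c ≤ c₂ := by rw [hc]; exact (min_le_right _ _).trans (min_le_left _ _)
  have hcc₃ : c ≤ 1 / (4 * VV) := by rw [hc]; exact (min_le_right _ _).trans (min_le_right _ _)
  obtain ⟨C, hC⟩ : ∃ C : ℝ, C = max (|C₁| + (C₂ + 1)) (Real.exp (W' ^ 2)) := ⟨_, rfl⟩
  have ha : 0 ≤ |C₁| := abs_nonneg _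
  have hCC : |C₁| + (C₂ + 1) ≤ C := by rw [hC]; exact le_max_left _ _
  have hCW : Real.exp (W' ^ 2) ≤ C := by rw [hC]; exact le_max_right _ _
  have hC1 : C₁ ≤ C := by linarith [le_abs_self C₁]
  refine ⟨C, c, hc0, ?_⟩
  intro x M t hx hM hMx ht
  have hxW : Real.exp (W' ^ 2) ≤ x := hCW.trans hx
  have hx0 : 0 < x := lt_of_lt_of_le (Real.exp_pos _) hxW
  have hM0 : 0 < M := by linarith
  have hlM : 0 ≤ Real.log M := Real.log_nonneg hM
  obtain ⟨r, hr⟩ : ∃ r : ℝ, r = √(Real.log x) := ⟨_, rfl⟩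
  have hlxW : W' ^ 2 ≤ Real.log x := by
    rw [Real.le_log_iff_exp_le hx0]
    exact hxW
  have hlx0 : 0 < Real.log x := lt_of_lt_of_le (by positivity) hlxW
  have hWr' : W' ≤ r := by
    rw [hr]
    exact Real.le_sqrt_of_sq_le hlxW
  have hWr : W ≤ r := le_trans (by rw [hW']; exact le_max_left _ _) hWr'
  obtain ⟨g1', g2', g3'⟩ := hW r hWr
  have hr11 : 11 ≤ r := (le_max_left _ _).trans g3'
  have hrC₂ : C₂ ≤ r := (le_max_right _ _).trans g3'
  obtain ⟨rf1, rf2, rf3⟩ := rfacts hr11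
  have hlx : Real.log x = r ^ 2 := by rw [hr, Real.sq_sqrt hlx0.le]
  have hxr : x = Real.exp (r ^ 2) := by rw [← hlx, Real.exp_log hx0]
  have hMc : 0 < M ^ (-c) := Real.rpow_pos_of_pos hM0 _
  have hMc₁ : M ^ (-c₁) ≤ M ^ (-c) := Real.rpow_le_rpow_of_exponent_le hM (neg_le_neg hcc₁)
  have hMc₂ : M ^ (-c₂) ≤ M ^ (-c) := Real.rpow_le_rpow_of_exponent_le hM (neg_le_neg hcc₂)
  obtain ⟨lam, hlam⟩ : ∃ lam : ℝ, lam = Real.log (r ^ 2) := ⟨_, rfl⟩
  have hlam1 : 1 ≤ lam := by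
    rw [hlam, Real.le_log_iff_exp_le (by positivity)]
    exact exp_one_le rf1
  obtain ⟨L, hL⟩ : ∃ L : ℝ, L = Real.log (x / M) := ⟨_, rfl⟩
  have hLr : L = r ^ 2 - Real.log M := by rw [hL, Real.log_div hx0.ne' hM0.ne', hlx]
  rcases le_or_gt M (Real.exp r) with hcase | hcase
  · -- small levels
    have hlMr : Real.log M ≤ r := by
      rw [Real.log_le_iff_le_exp hM0]
      exact hcase
    have hL0 : 0 < L := by rw [hLr]; linarith
    have hLh : r ^ 2 / 2 ≤ L := by rw [hLr]; linarith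
    have hLM : Real.log M ≤ L := by linarith
    have hsr : r / 2 ≤ √L := by
      apply Real.le_sqrt_of_sq_le
      rw [rf3]
      linarith
    have hsq : √L * √L = L := Real.mul_self_sqrt hL0.le
    have hs0 : 0 ≤ √L := Real.sqrt_nonneg _
    rw [hlx, ← hlam, ← hL] at ht
    rw [← hL]
    have htC₂ : C₂ * lam * √L ≤ t := by
      refine le_trans ?_ ht
      apply mul_le_mul_of_nonneg_right _ hs0
      exact mul_le_mul_of_nonneg_right (by linarith) (by linarith)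
    have ht0 : 0 ≤ t := by
      refine le_trans ?_ htC₂
      have : 0 ≤ C₂ := by linarith
      positivity
    have hmono : x * Real.exp (-(1 - ε') * t ^ 2 / (2 * VV * L)) ≤
        x * Real.exp (-(1 - ε) * t ^ 2 / (2 * VV * L)) := by
      apply mul_le_mul_of_nonneg_left _ hx0.le
      apply Real.exp_le_exp.2
      apply div_le_div_of_nonneg_right _ (by positivity)
      apply mul_le_mul_of_nonneg_right _ (sq_nonneg t)
      linarith
    rcases le_or_gt t L with htL | htL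
    · have h3 := h2 x M t r hrC₂ hxr hM hcase (by rw [← hlam, ← hL]; exact htC₂)
        (by rw [← hL]; exact htL)
      rw [← hL] at h3
      have e1 : C₂ * x * M ^ (-c₂) ≤ C * x * M ^ (-c) :=
        mul_le_mul (mul_le_mul_of_nonneg_right (by linarith) hx0.le) hMc₂
          (Real.rpow_pos_of_pos hM0 _).le (mul_nonneg (by linarith) hx0.le)
      linarith
    · have h3 := h2 x M L r hrC₂ hxr hM hcase (by
          rw [← hlam, ← hL]
          have e1 : C₂ * lam ≤ √L := by rw [hlam]; linarith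
          calc C₂ * lam * √L ≤ √L * √L := mul_le_mul_of_nonneg_right e1 hs0
            _ = L := hsq) (by rw [← hL])
      rw [← hL] at h3
      have e0 : (Nx x M (g1 * L + t) : ℝ) ≤ (Nx x M (g1 * L + L) : ℝ) := by
        exact_mod_cast Nx_anti x M (by linarith)
      have e1 : C₂ * x * M ^ (-c₂) ≤ C₂ * x * M ^ (-c) :=
        mul_le_mul_of_nonneg_left hMc₂ (by
          have : 0 ≤ C₂ := by linarith
          positivity)
      have e2 : x * Real.exp (-(1 - ε') * L ^ 2 / (2 * VV * L)) ≤ x * M ^ (-c) := by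
        apply mul_le_mul_of_nonneg_left _ hx0.le
        rw [Real.rpow_def_of_pos hM0]
        apply Real.exp_le_exp.2
        have e3 : -(1 - ε') * L ^ 2 / (2 * VV * L) = -((1 - ε') * L / (2 * VV)) := by
          field_simp
        rw [e3]
        have e4 : 1 / (4 * VV) * L ≤ (1 - ε') * L / (2 * VV) := frac_aux he1 hL0 hV0
        have e5 : c * Real.log M ≤ 1 / (4 * VV) * L :=
          mul_le_mul hcc₃ hLM hlM (by positivity)
        linarith
      have e3 : (C₂ + 1) * (x * M ^ (-c)) ≤ C * (x * M ^ (-c)) :=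
        mul_le_mul_of_nonneg_right (by linarith) (by positivity)
      have e4 : 0 < x * Real.exp (-(1 - ε) * t ^ 2 / (2 * VV * L)) := by positivity
      linarith
  · -- large levels
    have h3 := h1 x M t (hC1.trans hx) (by
        refine le_trans (Real.exp_le_exp.2 ?_) hcase.le
        rw [hlx]
        have e1 : C₁ * Real.log (r ^ 2) ^ 2 ≤ |C₁| * Real.log (r ^ 2) ^ 2 :=
          mul_le_mul_of_nonneg_right (le_abs_self _) (sq_nonneg _)
        linarith) hMx (by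
        refine le_trans ?_ ht
        apply mul_le_mul_of_nonneg_right _ (Real.sqrt_nonneg _)
        rw [hlx, ← hlam]
        exact mul_le_mul_of_nonneg_right hC1 (by linarith))
    refine h3.trans ?_
    have e1 : x * M ^ (-c₁) ≤ C * x * M ^ (-c) := by
      have e2 : x * M ^ (-c₁) ≤ x * M ^ (-c) := mul_le_mul_of_nonneg_left hMc₁ hx0.le
      have e3 : 1 * (x * M ^ (-c)) ≤ C * (x * M ^ (-c)) :=
        mul_le_mul_of_nonneg_right (by linarith) (by positivity)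
      linarith
    linarith

end Pool.Agent.UTL
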