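import Pool.Agent.UTL.Fin
import Pool.Agent.UTL.Vall

set_option autoImplicit false

/-! The upper bound for all levels: assembly. -/

namespace Pool.Agent.UTL

theorem main_V : St_V := thm_V main_U

end Pool.Agent.UTL
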