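import Mathlib
import Pool.Agent.Collatz3.PDTree
import Pool.Agent.Collatz3.PDMixB
import Pool.Agent.Helper27.Basic

set_option autoImplicit false

/-!
Upper tail of the stopping time of the 3x+1 map: definitions and statements of the modules.
-/

namespace Pool.Agent.UTL

open Finset
open Pool.Agent.Collatz3 (cw)
open Pool.Agent.Collatz3.Mix (words Vn)
open Pool.Agent.Collatz3.PD (rd en Per A)
open Pool.Agent.Helper27 (T J)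

/-! ### Part A: the weighted inverse tree over the 3-adic residues -/

/-- The weight of one halving, `z = e^(-σ) / 2`. -/
noncomputable def zz (σ : ℝ) : ℝ := Real.exp (-σ) / 2

/-- The weight of a word; `2 e^σ - 1 = (1 - z) / z`. -/
noncomputable def wt (σ : ℝ) (w : List ℕ) : ℝ := (2 * Real.exp σ - 1) ^ w.length * zz σ ^ w.sum

/-- Total weight. -/
noncomputable def mass (σ : ℝ) (G : Finset (List ℕ)) : ℝ := ∑ w ∈ G, wt σ w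

/-- The barrier: all nonempty prefixes lead upwards. -/
def Bar (w : List ℕ) : Prop := ∀ v u : List ℕ, v ++ u = w → v ≠ [] → 3 ^ v.length < 2 ^ v.sum

open Classical in
/-- The words of `k` letters in `1, ..., I` with the barrier. -/
noncomputable def BW (I k : ℕ) : Finset (List ℕ) := (words I k).filter Bar

/-- Weighted sum of `f` over the end points of the words of `G` readable at `x`. -/
noncomputable def Et (σ : ℝ) (G : Finset (List ℕ)) (f : ℤ → ℝ) (x : ℤ) : ℝ :=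
  ∑ w ∈ G.filter (fun w => rd w x), 3 ^ w.length * wt σ w * f (en w x)

/-- The partition function of the barrier words. -/
noncomputable def Z (σ : ℝ) (I k : ℕ) (x : ℤ) : ℝ := Et σ (BW I k) (fun _ => 1) x

/-- Average over the lifts modulo `3 ^ N` of the residue modulo `3 ^ l`. -/
noncomputable def Ex (N l : ℕ) (f : ℤ → ℝ) (x : ℤ) : ℝ :=
  (∑ t ∈ range (3 ^ (N - l)), f (x + 3 ^ l * (t : ℤ))) / 3 ^ (N - l)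

open Classical in
/-- The barrier words of `m + r` letters without a cut in `[m, m + r)`. -/
noncomputable def EC (I m r : ℕ) : Finset (List ℕ) :=
  (BW I (m + r)).filter fun w => ∀ i, m ≤ i → i < m + r → ¬ Bar (w.drop i)

/-! ### Part B: the integers -/

noncomputable def kap (σ : ℝ) : ℝ := Real.log (2 * Real.exp σ - 1) / Real.log 3

noncomputable def th (σ : ℝ) : ℝ := kap σ * Real.log 2 - σ

/-- `b` is the first point of the orbit of `n` which is at most `y`, at time `k`. -/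
def Pas (y : ℝ) (n k b : ℕ) : Prop := T^[k] n = b ∧ (b : ℝ) ≤ y ∧ ∀ j < k, y < (T^[j] n : ℝ)

/-- The first time at which the orbit is at most `y`. -/
noncomputable def tau (y : ℝ) (n : ℕ) : ℕ := sInf {k : ℕ | (T^[k] n : ℝ) ≤ y}

/-- The integers in `(y / 2, y]`. -/
noncomputable def Lv (y : ℝ) : Finset ℕ := (range (⌊y⌋₊ + 1)).filter fun b : ℕ => y / 2 < (b : ℝ)

open Classical in
/-- The integers `n ≤ X` with first passage point `b` below `y` after at most `K` odd steps. -/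
noncomputable def Pre (y X : ℝ) (K b : ℕ) : Finset ℕ :=
  (range (⌊X⌋₊ + 1)).filter fun n => 1 ≤ n ∧ ∃ k, Pas y n k b ∧ J k n ≤ K

noncomputable def F (σ : ℝ) (I K : ℕ) (x : ℤ) : ℝ := ∑ j ∈ range (K + 1), Z σ I j x

/-- The point of the orbit at the level `Y i`. -/
noncomputable def pt (Y : ℕ → ℝ) (i n : ℕ) : ℕ := T^[tau (Y i) n] n

open Classical in
/-- The integers whose first `i` stages are good. -/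
noncomputable def GS (Y : ℕ → ℝ) (K : ℕ → ℕ) : ℕ → Finset ℕ
  | 0 => Lv (Y 0)
  | i + 1 => (GS Y K i).filter fun n => ∃ k b, Pas (Y (i + 1)) (pt Y i n) k b ∧
      J k (pt Y i n) ≤ K i

open Classical in
/-- The bad points of a stage. -/
noncomputable def Bd (y y' : ℝ) (K : ℕ) : Finset ℕ :=
  (Lv y).filter fun n => ¬ ∃ k b, Pas y' n k b ∧ J k n ≤ K

noncomputable def g1 : ℝ := 2 / Real.log (4 / 3)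

noncomputable def VV : ℝ := 2 * Real.log 3 ^ 2 / Real.log (4 / 3) ^ 3

/-- The number of the `n ≤ x` which stay above `M` for all times `k ≤ s`. -/
noncomputable def Nx (x M s : ℝ) : ℕ :=
  {n : ℕ | 1 ≤ n ∧ (n : ℝ) ≤ x ∧ ∀ k : ℕ, (k : ℝ) ≤ s → M < (T^[k] n : ℝ)}.ncard

/-! ### Statements, part A -/

def St_Alg : Prop := ∀ x : ℝ, 0 ≤ x → 2 * x - x ^ 2 ≤ Real.log (2 * Real.exp x - 1) ∧
  Real.log (2 * Real.exp x - 1) ≤ 2 * x - x ^ 2 + x ^ 3 ∧ Real.log (2 * Real.exp x - 1) ≤ 2 * x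

def St_Mgf : Prop := ∀ σ a : ℝ, 0 ≤ σ → 1 < 2 * Real.exp (σ + a) → ∀ I k : ℕ,
  ∑ w ∈ words I k, wt σ w * Real.exp (-a * w.sum) ≤
    ((2 * Real.exp σ - 1) / (2 * Real.exp (σ + a) - 1)) ^ k

def St_Mass : Prop := ∀ σ : ℝ, 0 ≤ σ → ∀ I k : ℕ, mass σ (words I k) ≤ 1

def St_Big : Prop := ∀ σ : ℝ, 0 ≤ σ → ∀ I I' k : ℕ,
  mass σ ((words I k).filter fun w => ∃ i ∈ w, I' < i) ≤ k / 2 ^ I'

def St_Tail : Prop := ∀ σ : ℝ, 0 ≤ σ → σ ≤ 1 / 100 → ∀ I k : ℕ,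
  mass σ ((words I k).filter fun w => 2 ^ w.sum ≤ 3 ^ k) ≤ (97 / 100) ^ k

def St_Cnt : Prop := ∀ (I k s : ℕ) (x : ℤ),
  (((BW I k).filter fun w => w.sum = s ∧ rd w x).card : ℝ) ≤ (k + 1) * 2 ^ s / 3 ^ k

def St_Sup : Prop := ∀ σ : ℝ, 0 < σ → σ ≤ 1 → ∀ (I k s : ℕ) (x : ℤ),
  Et σ ((BW I k).filter fun w => s ≤ w.sum) (fun _ => 1) x ≤
    2 * (k + 1) / σ * Real.exp (σ * (2 * k - s))

def St_SupZ : Prop := ∀ σ : ℝ, 0 < σ → σ ≤ 1 → ∀ (I k : ℕ) (x : ℤ),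
  Z σ I k x ≤ 2 * (k + 1) / σ * Real.exp (σ * k / 2)

/-- mean of a sum over words -/
def St_Avg : Prop := ∀ (σ : ℝ) (G : Finset (List ℕ)) (j N : ℕ) (f : ℤ → ℝ),
  (∀ w ∈ G, w.length = j) → Per N f → A (j + N) (Et σ G f) = mass σ G * A N f

def St_Jen : Prop := ∀ (σ : ℝ) (G : Finset (List ℕ)) (j N q : ℕ) (f : ℤ → ℝ), 0 ≤ σ → 1 ≤ q →
  (∀ w ∈ G, w.length = j) → (∀ x, 0 ≤ f x) → Per N f →
    A (j + N) (fun x => Et σ G f x ^ q) ≤ A j (fun x => Et σ G (fun _ => 1) x ^ q) *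
      A N (fun x => f x ^ q)

def St_Cond : Prop := ∀ (σ : ℝ) (G : Finset (List ℕ)) (j l N : ℕ) (f : ℤ → ℝ),
  (∀ w ∈ G, w.length = j) → j ≤ l → l ≤ N → Per (N - j) f → ∀ x : ℤ,
    Ex N l (Et σ G f) x = Et σ G (Ex (N - j) (l - j) f) x

/-- contraction of the conditional mean; the conditional mean of the partition function -/
def St_Ctr : Prop := (∀ (N l : ℕ) (f : ℤ → ℝ), l ≤ N → Per N f →
    A N (fun x => |Ex N l f x|) ≤ A N fun x => |f x|) ∧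
  ∀ (σ : ℝ) (I k l : ℕ) (x : ℤ), 0 ≤ σ → l ≤ k → Ex k l (Z σ I k) x ≤ Z σ I l x

def St_Crude : Prop := ∀ σ : ℝ, 0 < σ → σ ≤ 1 → ∀ (q I k : ℕ), 1 ≤ q →
  A k (fun x => Z σ I k x ^ q) ≤ (4 * (k + 1) ^ 2 / σ * Real.exp (4 * q * σ ^ 2 * k)) ^ q

def St_Vdec : Prop := ∀ B : ℕ, ∃ σ₀ : ℝ, 0 < σ₀ ∧ ∃ C I₀ : ℕ, 1 ≤ C ∧ 1 ≤ I₀ ∧
  ∀ σ : ℝ, 0 ≤ σ → σ ≤ σ₀ → ∀ I n : ℕ, I₀ ≤ I → 1 ≤ n →
    Vn (zz σ) I n ≤ ((C * I : ℝ) / n) ^ B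

def St_Mix : Prop := ∀ σ : ℝ, 0 ≤ σ → ∀ I l j : ℕ, 1 ≤ I →
  A (l + j) (fun x => |Et σ (words I (l + j)) (fun _ => 1) x -
    Ex (l + j) l (Et σ (words I (l + j)) (fun _ => 1)) x|) ≤
      2 * √(2 * ∑ i ∈ range j, Vn (zz σ) I (l + i))

def St_L1 : Prop := ∀ a : ℕ, ∃ σ₀ : ℝ, 0 < σ₀ ∧ ∃ m₀ : ℕ, ∀ σ : ℝ, 0 ≤ σ → σ ≤ σ₀ →
  ∀ m : ℕ, m₀ ≤ m → ∀ I k : ℕ, m ≤ I → m ≤ k → k ≤ 2 * m → ∃ l : ℕ, l ≤ k ∧ l ^ 3 ≤ 64 * m ∧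
    A k (fun x => |Z σ I k x - Ex k l (Z σ I k) x|) ≤ 1 / (m : ℝ) ^ a

def St_Fine : Prop := ∀ (q : ℕ) (B : ℝ), 1 ≤ q → 1 ≤ B → ∃ m₀ : ℕ, ∀ m : ℕ, m₀ ≤ m →
  ∀ σ : ℝ, 0 < σ → B * Real.log m ≤ σ ^ 2 * m → σ ^ 2 * m ≤ 2 * B * Real.log m →
    ∀ I k : ℕ, m ≤ k → k ≤ 2 * m → A k (fun x => Z σ I k x ^ q) ≤ (m : ℝ) ^ (3 * q)

def St_CutM : Prop := ∀ σ : ℝ, 0 ≤ σ → σ ≤ 1 / 100 → ∀ I m r : ℕ,
  mass σ (EC I m r) ≤ (97 / 100) ^ r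

def St_CutD : Prop := ∀ σ : ℝ, 0 ≤ σ → ∀ (I m k : ℕ) (x : ℤ), m ≤ k →
  Z σ I k x ≤ ∑ r ∈ range (k - m + 1), Et σ (EC I m r) (Z σ I (k - m - r)) x

def St_ThmA : Prop := ∀ (q : ℕ) (ε : ℝ), 0 < ε → ∃ σ₀ : ℝ, 0 < σ₀ ∧ ∃ C : ℝ, 0 < C ∧
  ∀ σ : ℝ, 0 < σ → σ ≤ σ₀ → ∀ I k : ℕ,
    A k (fun x => Z σ I k x ^ q) ≤ σ ^ (-C) * Real.exp (ε * σ ^ 2 * k)

/-! ### Statements, part B -/

def St_Num : Prop := ∀ s σ σ' : ℝ, 1 ≤ s → 0 < σ → s * σ ≤ 1 / 200 →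
  σ' = s * σ + 3 * s * (s - 1) * σ ^ 2 + 3 * s * σ ^ 3 →
    s * th σ ≤ th σ' ∧ kap σ' / s ≤ kap σ + 7 * (s - 1) * σ ^ 2 + 8 * σ ^ 3 ∧
      σ' ≤ 2 * (s * σ) ∧ 0 < th σ

/-- Words and first passages. -/
def St_Wrd : Prop := ∀ (y : ℝ) (n k b : ℕ), 1 ≤ n → Pas y n k b → (J k n : ℝ) ≤ y →
  ∃ (w : List ℕ) (z : ℕ), w.length = J k n ∧ (∀ i ∈ w, 1 ≤ i) ∧ w.sum + z = k ∧ rd w b ∧
    (2 : ℤ) ^ z * en w b = n ∧ Bar w ∧ (2 : ℝ) ^ k * b ≤ 2 * 3 ^ (J k n) * n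

def St_StgB : Prop := ∀ (σ y X : ℝ) (K b I : ℕ), 0 < σ → σ ≤ 1 / 100 → 1 ≤ y → y ≤ X →
  (K : ℝ) ≤ y → b ∈ Lv y → 4 * 3 ^ K * (X / y) ≤ 2 ^ I →
    ∑ n ∈ Pre y X K b, Real.exp (th σ * tau y n) ≤ 32 * (X / y) ^ (1 + kap σ) * F σ I K b

def St_Equid : Prop := ∀ (y : ℝ) (K : ℕ) (f : ℤ → ℝ), (∀ x, 0 ≤ f x) → Per K f →
  4 * 3 ^ K ≤ y → ∑ b ∈ Lv y, f b ≤ y * A K f

def St_Step : Prop := ∀ (σ σ' s p P y y' N B : ℝ) (q K : ℕ) (W W' : ℕ → ℝ),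
  0 < σ' → σ' ≤ 1 / 100 → 1 ≤ p → p < P → s = P / (P - 1) → p * (P - 1) / (P - p) ≤ q →
  s * th σ ≤ th σ' → 1 ≤ y' → y' ≤ y / 2 → (K : ℝ) ≤ y' → 4 * 3 ^ K ≤ y' →
  (∀ n, 0 ≤ W n) → (∀ n ∉ Lv y, W n = 0) → 0 ≤ N → ∑ n ∈ Lv y, W n ^ P ≤ y * N ^ P →
  1 ≤ B → (∀ I : ℕ, A K (fun x => (1 + F σ' I K x) ^ q) ≤ B ^ q) →
  (∀ b ∈ Lv y', 0 ≤ W' b ∧ W' b ≤ ∑ n ∈ Pre y' y K b, Real.exp (th σ * tau y' n) * W n) →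
    ∑ b ∈ Lv y', W' b ^ p ≤ y' * (32 * B * (y / y') ^ (1 + kap σ' / s) * N) ^ p

/-- The whole chain of stages. -/
def St_Chain : Prop := ∀ (σ : ℝ) (Y : ℕ → ℝ) (K : ℕ → ℕ) (R q : ℕ) (p s σ' B : ℕ → ℝ),
  0 < σ → 1 ≤ R → p R = 1 →
  (∀ i < R, 0 < σ' i ∧ σ' i ≤ 1 / 100 ∧ 1 ≤ p (i + 1) ∧ p (i + 1) < p i ∧
    s i = p i / (p i - 1) ∧ p (i + 1) * (p i - 1) / (p i - p (i + 1)) ≤ q ∧
    s i * th σ ≤ th (σ' i) ∧ 1 ≤ Y (i + 1) ∧ Y (i + 1) ≤ Y i / 2 ∧ (K i : ℝ) ≤ Y (i + 1) ∧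
    4 * 3 ^ (K i) ≤ Y (i + 1) ∧ 1 ≤ B i ∧
    ∀ I : ℕ, A (K i) (fun x => (1 + F (σ' i) I (K i) x) ^ q) ≤ B i ^ q) →
  ∑ n ∈ GS Y K R, Real.exp (th σ * tau (Y R) n) ≤
    Y R * ∏ i ∈ range R, (32 * B i * (Y i / Y (i + 1)) ^ (1 + kap (σ' i) / s i))

/-- The bad points of one stage. -/
def St_Bad : Prop := ∃ c : ℝ, 0 < c ∧ ∃ y₀ : ℝ, 1 ≤ y₀ ∧ ∀ (y y' : ℝ) (K : ℕ), y₀ ≤ y →
  K = ⌊Real.log y / 50⌋₊ → y * Real.exp (-(K : ℝ) / 8) ≤ y' → y' ≤ y →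
    ((Bd y y' K).card : ℝ) ≤ y ^ (1 - c)

/-- The number of arrivals. -/
def St_Arr : Prop := ∀ (y X : ℝ) (K b : ℕ), 0 ≤ X → 1 ≤ b → (K : ℝ) ≤ y →
  ((Pre y X K b).card : ℝ) ≤ 8 * (K + 1) ^ 2 * X / b

def St_BadSum : Prop := ∀ (Y : ℕ → ℝ) (K : ℕ → ℕ) (R : ℕ),
  (∀ i < R, 1 ≤ Y (i + 1) ∧ Y (i + 1) ≤ Y i / 2) →
  (∀ i ≤ R, ((∑ j ∈ range R, K j : ℕ) : ℝ) ≤ Y i) →
    ((Lv (Y 0) \ GS Y K R).card : ℝ) ≤ ∑ i ∈ range R, ((Bd (Y i) (Y (i + 1)) (K i)).card : ℝ) *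
      (16 * ((∑ j ∈ range R, K j : ℕ) + 1) ^ 2 * Y 0 / Y i)

/-- Moments of the sum of the partition functions. -/
def St_FB : Prop := ∀ (q : ℕ) (ε : ℝ), 0 < ε → ∃ σ₀ : ℝ, 0 < σ₀ ∧ ∃ C : ℝ, 0 < C ∧
  ∀ σ : ℝ, 0 < σ → σ ≤ σ₀ → ∀ I K : ℕ, A K (fun x => (1 + F σ I K x) ^ q) ≤
    ((K + 2) * σ ^ (-C) * Real.exp (ε * σ ^ 2 * K)) ^ q

/-- The choice of the levels and moments. -/
def St_Geo : Prop := ∀ δ ε : ℝ, 0 < δ → δ < 1 → 0 < ε → ∃ D Q C : ℝ, 1 ≤ D ∧ 1 ≤ Q ∧ 1 ≤ C ∧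
  ∀ u v : ℝ, C ≤ v → v ≤ δ * u → ∃ (R : ℕ) (ρ : ℝ) (p s : ℕ → ℝ), 1 ≤ R ∧ 1 < ρ ∧
    ρ ≤ 1 + 1 / 500 ∧ v * ρ ^ R = u ∧ R ≤ C * Real.log u ∧ p R = 1 ∧
    (∀ i < R, 1 ≤ p (i + 1) ∧ p (i + 1) < p i ∧ s i = p i / (p i - 1) ∧ 1 ≤ s i ∧
      s i ≤ 1 + (u / v) ^ (1 / 4 : ℝ) ∧ p (i + 1) * (p i - 1) / (p i - p (i + 1)) ≤ Q ∧
      1 ≤ u / ρ ^ i - u / ρ ^ (i + 1) ∧ u / ρ ^ i - u / ρ ^ (i + 1) ≤ (u / ρ ^ i) / 500) ∧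
    ∑ i ∈ range R, u / ρ ^ i ≤ C * u ∧
    ∑ i ∈ range R, (s i - 1) * (u / ρ ^ i - u / ρ ^ (i + 1)) ≤ ε * u ∧
    ∑ i ∈ range R, s i ^ 2 * (u / ρ ^ i) ≤ C * u

/-- The good integers of one dyadic block. -/
def St_Block : Prop := ∃ c : ℝ, 0 < c ∧ ∀ ε δ : ℝ, 0 < ε → 0 < δ → δ < 1 → ∃ C : ℝ, 1 ≤ C ∧
  ∀ X M σ : ℝ, 0 < X → C ≤ M → M ≤ X ^ δ → Real.log X ^ 2 ≤ M → 0 < σ → 1 ≤ σ * Real.log X →
    C * σ ^ 2 * Real.log X ≤ Real.log M → ∃ G : Finset ℕ, G ⊆ Lv X ∧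
      (∀ n ∈ G, ∃ k : ℕ, (T^[k] n : ℝ) ≤ M) ∧
      ((Lv X \ G).card : ℝ) ≤ X * M ^ (-c) * Real.log X ^ C ∧
      ∑ n ∈ G, Real.exp (th σ * tau M n) ≤ X * Real.exp (kap σ * Real.log (X / M) +
        ε * σ ^ 2 * Real.log X + C * Real.log (Real.log X) ^ 2)

/-- The upper bound. -/
def St_Upper : Prop := ∀ ε δ : ℝ, 0 < ε → 0 < δ → δ < 1 → ∃ C : ℝ, 1 ≤ C ∧
  ∀ x M t : ℝ, C ≤ x → 1 ≤ M → M ≤ x ^ δ → C * Real.log (Real.log x) * √(Real.log (x / M)) ≤ t →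
    C * t ^ 2 ≤ Real.log M * Real.log (x / M) →
      (Nx x M (g1 * Real.log (x / M) + t) : ℝ) ≤
        x * Real.exp (-(1 - ε) * t ^ 2 / (2 * VV * Real.log (x / M)))

/-- The upper bound for all times. -/
def St_U : Prop := ∀ ε δ : ℝ, 0 < ε → 0 < δ → δ < 1 → ∃ C c : ℝ, 0 < c ∧
  ∀ x M t : ℝ, C ≤ x → Real.exp (C * Real.log (Real.log x) ^ 2) ≤ M → M ≤ x ^ δ →
    C * Real.log (Real.log x) * √(Real.log (x / M)) ≤ t →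
      (Nx x M (g1 * Real.log (x / M) + t) : ℝ) ≤
        x * Real.exp (-(1 - ε) * t ^ 2 / (2 * VV * Real.log (x / M))) + x * M ^ (-c)

/-! ### Statements, part C -/

/-- The count of slow integers above all levels. -/
def St_LowU : Prop := ∀ ρ δ r η κ : ℝ, 1 / 2 < ρ → ρ < Real.log 2 / Real.log 3 →
  ρ * Real.log 3 < Real.binEntropy ρ → 0 < δ → δ < 1 →
  r < (Real.binEntropy ρ - ρ * Real.log 3) / (Real.log 2 - ρ * Real.log 3) → 1 - r < η →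
  κ < 1 / (Real.log 2 - ρ * Real.log 3) - η / Real.log 2 →
    ∃ x₀ : ℝ, ∀ x M : ℝ, x₀ ≤ x → 1 ≤ M → M ≤ x ^ δ →
      x * Real.exp (-(1 - r) * Real.log (x / M)) ≤ (Nx x M (κ * Real.log (x / M)) : ℝ)

def St_LowN : Prop := ∀ ε : ℝ, 0 < ε → ∃ c : ℝ, 0 < c ∧ ∀ s : ℝ, 0 < s → s ≤ c →
  ∃ ρ r η : ℝ, 1 / 2 < ρ ∧ ρ < Real.log 2 / Real.log 3 ∧
    ρ * Real.log 3 < Real.binEntropy ρ ∧
    r < (Real.binEntropy ρ - ρ * Real.log 3) / (Real.log 2 - ρ * Real.log 3) ∧ 1 - r < η ∧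
    g1 + s < 1 / (Real.log 2 - ρ * Real.log 3) - η / Real.log 2 ∧
    1 - r ≤ (1 + ε) * s ^ 2 / (2 * VV)

/-- The lower bound. -/
def St_Lower : Prop := ∀ ε δ : ℝ, 0 < ε → 0 < δ → δ < 1 → ∃ c : ℝ, 0 < c ∧
  ∀ s : ℝ, 0 < s → s ≤ c → ∃ x₀ : ℝ, ∀ x M : ℝ, x₀ ≤ x → 1 ≤ M → M ≤ x ^ δ →
    x * Real.exp (-(1 + ε) * s ^ 2 * Real.log (x / M) / (2 * VV)) ≤
      (Nx x M ((g1 + s) * Real.log (x / M)) : ℝ)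

end Pool.Agent.UTL
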