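import Mathlib
import Pool.Agent.UTL.Defs
import Pool.Agent.Collatz3.SBFinD

set_option autoImplicit false

/-!
The lower bound for the upper tail, for all speeds and uniformly in the level.
-/

namespace Pool.Agent.UTL

open Finset Filter
open Pool.Agent.Helper27 (T)
open Pool.Agent.Collatz3 (T3)
open Pool.Agent.Collatz3.LT (jj wd ht hh wd_length node_le log2_pos log3_pos)
open Pool.Agent.Collatz3.SB (SS construction limits slope_of_slow le_pow_iter)

/-- logarithms of linear functions are small -/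
theorem log_lin_real {A B γ : ℝ} (hB : 0 < B) (hγ : 0 < γ) : ∀ᶠ X : ℝ in atTop,
    A + Real.log (B * X + 2) ≤ γ * X := by
  set m : ℝ := 2 * B / γ with hm
  have hm0 : 0 < m := by positivity
  filter_upwards [eventually_ge_atTop ((A + Real.log m + 2 / m) / (γ / 2)),
    eventually_ge_atTop 0] with X h1 h2
  have hy : 0 < B * X + 2 := by positivity
  have h3 := Real.log_le_sub_one_of_pos (show 0 < (B * X + 2) / m by positivity)
  rw [Real.log_div hy.ne' hm0.ne'] at h3
  rw [div_le_iff₀ (by positivity)] at h1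
  have h4 : (B * X + 2) / m = γ / 2 * X + 2 / m := by
    rw [hm]
    field_simp
  rw [h4] at h3
  linarith

theorem T3_eq_T : T3 = T := by
  funext n
  rfl

/-- The lower bound for the upper tail. -/
theorem low_all {β ε δ : ℝ} (hβ : ((1 / 2) * Real.log (4 / 3))⁻¹ ≤ β)
    (hβ1 : β * Pool.Agent.Collatz3.Leg.gL (1 / β) < 1) (hε : 0 < ε) (hδ1 : δ < 1) :
    ∃ x₀ : ℝ, ∀ x M : ℝ, x₀ ≤ x → 1 ≤ M → M ≤ x ^ δ →
      x * Real.exp (-(β * Pool.Agent.Collatz3.Leg.gL (1 / β) + ε) * Real.log (x / M)) ≤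
        (Nx x M (β * Real.log (x / M)) : ℝ) := by
  have l2 := log2_pos
  have l3 := log3_pos
  obtain ⟨ρ, r0', r1, hβ0, r2⟩ := slope_of_slow hβ
  have r0 : 0 < ρ := by linarith
  have hDρ : 0 < Real.log 2 - ρ * Real.log 3 := by rw [← r2]; positivity
  have hexp := Pool.Agent.Collatz3.Leg.exponent_eq r0 r1 r2 hDρ
  obtain ⟨I, hI⟩ : ∃ I : ℝ, I = β * Pool.Agent.Collatz3.Leg.gL (1 / β) := ⟨_, rfl⟩
  rw [← hI] at hβ1 hexp ⊢
  have hHρ : ρ * Real.log 3 < Real.binEntropy ρ := by
    have e1 : 0 < (Real.binEntropy ρ - ρ * Real.log 3) / (Real.log 2 - ρ * Real.log 3) := by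
      rw [← hexp]
      linarith
    rw [lt_div_iff₀ hDρ, zero_mul] at e1
    linarith
  -- choice of the slope
  have hcont : ContinuousAt (fun t : ℝ =>
      (Real.binEntropy t - t * Real.log 3) / (Real.log 2 - t * Real.log 3)) ρ := by
    apply ContinuousAt.div (by fun_prop) (by fun_prop)
    exact hDρ.ne'
  have hcont2 : ContinuousAt (fun t : ℝ => Real.binEntropy t - t * Real.log 3) ρ := by fun_prop
  have hcont3 : ContinuousAt (fun t : ℝ => Real.log 2 - t * Real.log 3) ρ := by fun_prop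
  have hev : ∀ᶠ t in nhdsWithin ρ (Set.Ioi ρ),
      (1 - I - ε < (Real.binEntropy t - t * Real.log 3) / (Real.log 2 - t * Real.log 3) ∧ t < 1 ∧
        0 < Real.binEntropy t - t * Real.log 3 ∧ 0 < Real.log 2 - t * Real.log 3) ∧ ρ < t := by
    have e1 : 1 - I - ε < (Real.binEntropy ρ - ρ * Real.log 3) / (Real.log 2 - ρ * Real.log 3) := by
      rw [← hexp]
      linarith
    have e2 := hcont.tendsto.eventually (lt_mem_nhds e1)
    have e3 : ∀ᶠ t in nhds ρ, t < 1 := gt_mem_nhds r1
    have e4 := hcont2.tendsto.eventually (lt_mem_nhds (a := 0) (by linarith))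
    have e5 := hcont3.tendsto.eventually (lt_mem_nhds (a := 0) hDρ)
    filter_upwards [(e2.and (e3.and (e4.and e5))).filter_mono nhdsWithin_le_nhds,
      self_mem_nhdsWithin] with t h8 h9
    exact ⟨h8, h9⟩
  obtain ⟨t, ⟨t1, t2, t4, hDt0⟩, t3⟩ := hev.exists
  have t0 : 0 < t := r0.trans t3
  have hDt : Real.log 2 - t * Real.log 3 < Real.log 2 - ρ * Real.log 3 := by
    have := mul_lt_mul_of_pos_right t3 l3
    linarith
  have hH : t * Real.log 3 < Real.binEntropy t := by linarith
  obtain ⟨hsl, hlim1, hlim2⟩ := limits t0 hDt0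
  rw [← hlim2] at t1
  obtain ⟨s, hs⟩ : ∃ s, s = Real.log 2 / t := ⟨_, rfl⟩
  obtain ⟨g, hg⟩ : ∃ g, g = Real.binEntropy t / t - Real.log 3 := ⟨_, rfl⟩
  rw [← hs] at hsl hlim1 t1
  rw [← hg] at t1
  have hg0 : 0 < g := by
    rw [hg, sub_pos, lt_div_iff₀ t0]
    linarith
  have hs0 : 0 < s := by rw [hs]; positivity
  -- choice of the small parameter
  have hev2 : ∀ᶠ η in nhdsWithin (0 : ℝ) (Set.Ioi 0),
      (1 - I - ε < (g - η) / (s + η - Real.log 3) ∧
        β * Real.log 2 < (s + η) / (s + η - Real.log 3) ∧ η < g) ∧ 0 < η := by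
    have c1 : ContinuousAt (fun η : ℝ => (g - η) / (s + η - Real.log 3)) 0 := by
      apply ContinuousAt.div (by fun_prop) (by fun_prop)
      simp only [add_zero]
      exact hsl.ne'
    have c2 : ContinuousAt (fun η : ℝ => (s + η) / (s + η - Real.log 3)) 0 := by
      apply ContinuousAt.div (by fun_prop) (by fun_prop)
      simp only [add_zero]
      exact hsl.ne'
    have e1 := c1.tendsto.eventually (lt_mem_nhds (a := 1 - I - ε) (by
      simp only [add_zero, sub_zero]
      exact t1))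
    have e2 := c2.tendsto.eventually (lt_mem_nhds (a := β * Real.log 2) (by
      simp only [add_zero]
      rw [hlim1, lt_div_iff₀ hDt0]
      have h6 : β * (Real.log 2 - ρ * Real.log 3) = 1 := by rw [← r2]; field_simp
      have h7 : β * (Real.log 2 - t * Real.log 3) < β * (Real.log 2 - ρ * Real.log 3) :=
        mul_lt_mul_of_pos_left hDt hβ0
      rw [h6] at h7
      have h8 := mul_lt_mul_of_pos_left h7 l2
      linarith))
    have e3 : ∀ᶠ η in nhds (0 : ℝ), η < g := gt_mem_nhds hg0
    filter_upwards [(e1.and (e2.and e3)).filter_mono nhdsWithin_le_nhds,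
      self_mem_nhdsWithin] with η h4 h5
    exact ⟨h4, h5⟩
  obtain ⟨d, ⟨η1, η2, η3⟩, d0⟩ := hev2.exists
  obtain ⟨D, hD⟩ : ∃ D, D = s + d - Real.log 3 := ⟨_, rfl⟩
  rw [← hD] at η1 η2
  have hD0 : 0 < D := by rw [hD]; linarith
  obtain ⟨N₀, hN₀⟩ := construction t0 t2 hH d0
  obtain ⟨B, hB⟩ : ∃ B, B = (s + d) / D / Real.log 2 := ⟨_, rfl⟩
  have hsd : 0 < s + d := by linarith
  have hB0 : 0 < B := by rw [hB]; positivity
  have hBβ : β < B := by
    rw [hB, lt_div_iff₀ l2]
    exact η2
  obtain ⟨α, hα⟩ : ∃ α, α = (g - d) / D := ⟨_, rfl⟩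
  rw [← hα] at η1
  have hα0 : 0 < α := by rw [hα]; exact div_pos (by linarith) hD0
  have hαD : α * D = g - d := by rw [hα]; exact div_mul_cancel₀ _ hD0.ne'
  have hBD : B * Real.log 2 * D = s + d := by
    rw [hB]
    field_simp
  -- the threshold
  have hthr : ∀ᶠ X : ℝ in atTop, 0 ≤ X ∧
      D * (N₀ + 1) + Real.log 24 + Real.log (B * X + 2) ≤ (1 - δ) * X ∧
      (B * Real.log 24 + B * D + 1) / B + Real.log (B * X + 2) ≤
        (B - β) * (1 - δ) / B * X ∧
      (α * Real.log 24 + α * D) / α + Real.log (B * X + 2) ≤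
        (α - (1 - I - ε)) * (1 - δ) / α * X := by
    have hδ0 : 0 < 1 - δ := by linarith
    have h1 : 0 < B - β := by linarith
    have h2 : 0 < α - (1 - I - ε) := by linarith
    filter_upwards [eventually_ge_atTop 0,
      log_lin_real (A := D * (N₀ + 1) + Real.log 24) hB0 hδ0,
      log_lin_real (A := (B * Real.log 24 + B * D + 1) / B) hB0
        (show 0 < (B - β) * (1 - δ) / B by positivity),
      log_lin_real (A := (α * Real.log 24 + α * D) / α) hB0
        (show 0 < (α - (1 - I - ε)) * (1 - δ) / α by positivity)] with X a1 a2 a3 a4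
    exact ⟨a1, a2, a3, a4⟩
  obtain ⟨X₀, hX₀⟩ := eventually_atTop.1 hthr
  refine ⟨Real.exp (max X₀ 0), ?_⟩
  intro x M hx hM hMx
  have hx0 : 0 < x := lt_of_lt_of_le (Real.exp_pos _) hx
  obtain ⟨X, hX⟩ : ∃ X, X = Real.log x := ⟨_, rfl⟩
  have hXX : max X₀ 0 ≤ X := by
    rw [hX, Real.le_log_iff_exp_le hx0]
    exact hx
  obtain ⟨a1, a2, a3, a4⟩ := hX₀ X ((le_max_left _ _).trans hXX)
  have hexX : Real.exp X = x := by rw [hX, Real.exp_log hx0]
  have hM0 : 0 < M := by linarith
  have hlM : 0 ≤ Real.log M := Real.log_nonneg hM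
  have hlMX : Real.log M ≤ δ * X := by
    have h1 := Real.log_le_log hM0 hMx
    rw [Real.log_rpow hx0, ← hX] at h1
    exact h1
  obtain ⟨L, hL⟩ : ∃ L, L = Real.log (x / M) := ⟨_, rfl⟩
  have hLX : L = X - Real.log M := by rw [hL, Real.log_div hx0.ne' hM0.ne', hX]
  have hL1 : (1 - δ) * X ≤ L := by rw [hLX]; linarith
  rw [← hL]
  -- parameters
  obtain ⟨lev, hlev⟩ : ∃ lev : ℕ, lev = ⌊M⌋₊ := ⟨_, rfl⟩
  have hlev1 : (lev : ℝ) ≤ M := by rw [hlev]; exact Nat.floor_le hM0.le
  have hlev2 : M < lev + 1 := by rw [hlev]; exact Nat.lt_floor_add_one _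
  obtain ⟨K, hK⟩ : ∃ K : ℕ, K = ⌊B * X⌋₊ := ⟨_, rfl⟩
  have hK1 : (K : ℝ) ≤ B * X := by rw [hK]; exact Nat.floor_le (by positivity)
  have hK2 : B * X < K + 1 := by rw [hK]; exact Nat.lt_floor_add_one _
  obtain ⟨M', hM'⟩ : ∃ M' : ℕ, M' = 6 * (lev + 1) * (K + 1) := ⟨_, rfl⟩
  have hM'R : (M' : ℝ) = 6 * (lev + 1) * (K + 1) := by rw [hM']; push_cast; ring
  have hM'0 : (0 : ℝ) < M' := by rw [hM'R]; positivity
  have hM'up : (2 : ℝ) * M' ≤ M * (24 * (B * X + 2)) := by
    rw [hM'R]
    have h1 : ((lev : ℝ) + 1) * (K + 1) ≤ (2 * M) * (B * X + 2) :=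
      mul_le_mul (by linarith) (by linarith) (by positivity) (by linarith)
    linarith
  have hBX0 : 0 < B * X + 2 := by positivity
  have hlM' : Real.log (2 * M') ≤ Real.log M + Real.log 24 + Real.log (B * X + 2) := by
    have h1 := Real.log_le_log (by positivity) hM'up
    rw [Real.log_mul hM0.ne' (by positivity), Real.log_mul (by norm_num) hBX0.ne'] at h1
    linarith
  obtain ⟨U, hU⟩ : ∃ U, U = X - Real.log (2 * M') := ⟨_, rfl⟩
  have hU1 : L - (Real.log 24 + Real.log (B * X + 2)) ≤ U := by rw [hU, hLX]; linarith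
  have hU0 : D * (N₀ + 1) ≤ U := by linarith
  have hUpos : 0 ≤ U / D := by
    have : (0 : ℝ) ≤ D * (N₀ + 1) := by positivity
    exact div_nonneg (by linarith) hD0.le
  obtain ⟨r, hr⟩ : ∃ r : ℕ, r = ⌊U / D⌋₊ := ⟨_, rfl⟩
  have hr1 : D * r ≤ U := by
    have : (r : ℝ) ≤ U / D := by rw [hr]; exact Nat.floor_le hUpos
    rw [le_div_iff₀ hD0] at this
    linarith
  have hr2 : U - D ≤ D * r := by
    have : U / D < r + 1 := by rw [hr]; exact Nat.lt_floor_add_one _
    rw [div_lt_iff₀ hD0] at this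
    linarith
  have hrN : N₀ ≤ r := by
    rw [hr]
    apply Nat.le_floor
    rw [le_div_iff₀ hD0]
    linarith
  obtain ⟨S, hS⟩ : ∃ S, S = SS t d r := ⟨_, rfl⟩
  have hS1 : S * Real.log 2 ≤ (s + d) * r := by
    have : (S : ℝ) ≤ (Real.log 2 / t + d) * r / Real.log 2 := by
      rw [hS, SS]
      exact Nat.floor_le (by positivity)
    rw [le_div_iff₀ l2, ← hs] at this
    exact this
  have hS2 : (s + d) * r - Real.log 2 ≤ S * Real.log 2 := by
    have : (Real.log 2 / t + d) * r / Real.log 2 < S + 1 := by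
      rw [hS, SS]
      exact Nat.lt_floor_add_one _
    rw [div_lt_iff₀ l2, ← hs] at this
    linarith
  have hUX : U ≤ X := by
    rw [hU]
    have h1 : (1 : ℝ) ≤ 2 * M' := by
      have : (1 : ℝ) ≤ M' := by exact_mod_cast Nat.one_le_iff_ne_zero.2 (by rw [hM']; positivity)
      linarith
    have := Real.log_nonneg h1
    linarith
  have hSK : S ≤ K := by
    rw [hK]
    apply Nat.le_floor
    have h1 : (s + d) * r ≤ B * Real.log 2 * X := by
      rw [← hBD]
      calc B * Real.log 2 * D * r = B * Real.log 2 * (D * r) := by ring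
        _ ≤ B * Real.log 2 * X := mul_le_mul_of_nonneg_left (hr1.trans hUX) (by positivity)
    have h2 : S * Real.log 2 ≤ B * X * Real.log 2 := by linarith
    exact le_of_mul_le_mul_right h2 l2
  have hcon := hN₀ r hrN M' lev (by
    rw [← hS, hM']
    exact Nat.mul_le_mul_left _ (Nat.succ_le_succ hSK))
  rw [← hS, ← hg] at hcon
  -- the slow integers
  have hsub : {b : ℕ | M' < T3^[S] b ∧ T3^[S] b ≤ 2 * M' ∧ jj (wd S b) = r ∧
      ∀ k ≤ S, lev < T3^[k] b} ⊆
      {n : ℕ | 1 ≤ n ∧ (n : ℝ) ≤ x ∧ ∀ k : ℕ, (k : ℝ) ≤ β * L → M < (T^[k] n : ℝ)} := by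
    rintro b ⟨b1, b2, b3, b4⟩
    have b5 := b4 0 (Nat.zero_le _)
    rw [Function.iterate_zero, id_eq] at b5
    refine ⟨by omega, ?_, ?_⟩
    · have hht : ht (wd S b) = S * Real.log 2 - r * Real.log 3 := by
        rw [ht, wd_length, b3, hh]
      have e1 := node_le S b
      rw [hht] at e1
      have b2' : ((T3^[S] b : ℕ) : ℝ) ≤ 2 * M' := by exact_mod_cast b2
      have e2 : (b : ℝ) ≤ Real.exp X := by
        calc (b : ℝ) ≤ (T3^[S] b : ℕ) * Real.exp (S * Real.log 2 - r * Real.log 3) := e1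
          _ ≤ (2 * M') * Real.exp (S * Real.log 2 - r * Real.log 3) :=
              mul_le_mul_of_nonneg_right b2' (Real.exp_pos _).le
          _ = Real.exp (Real.log (2 * M') + (S * Real.log 2 - r * Real.log 3)) := by
              rw [Real.exp_add, Real.exp_log (by positivity)]
          _ ≤ Real.exp X := by
              apply Real.exp_le_exp.2
              have e3 : D * r = (s + d) * r - r * Real.log 3 := by rw [hD]; ring
              linarith
      rw [hexX] at e2
      exact e2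
    · intro k hk
      have hkS : k ≤ S := by
        have e1 : β * L * Real.log 2 ≤ S * Real.log 2 := by
          have e2 : B * Real.log 2 * (U - D) ≤ (s + d) * r := by
            rw [← hBD]
            calc B * Real.log 2 * (U - D) ≤ B * Real.log 2 * (D * r) :=
                  mul_le_mul_of_nonneg_left hr2 (by positivity)
              _ = _ := by ring
          have e3 : B * Real.log 2 * (L - (Real.log 24 + Real.log (B * X + 2))) ≤
              B * Real.log 2 * U := mul_le_mul_of_nonneg_left hU1 (by positivity)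
          have e4 : B * Real.log 24 + B * D + 1 + B * Real.log (B * X + 2) ≤
              (B - β) * (1 - δ) * X := by
            have e5 := mul_le_mul_of_nonneg_left a3 hB0.le
            have e6 : B * ((B * Real.log 24 + B * D + 1) / B + Real.log (B * X + 2)) =
                B * Real.log 24 + B * D + 1 + B * Real.log (B * X + 2) := by
              field_simp
            have e7 : B * ((B - β) * (1 - δ) / B * X) = (B - β) * (1 - δ) * X := by
              field_simp
            rw [e6, e7] at e5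
            exact e5
          have e5 : (B - β) * ((1 - δ) * X) ≤ (B - β) * L :=
            mul_le_mul_of_nonneg_left hL1 (by linarith)
          have e6 : B * Real.log 24 + B * D + 1 + B * Real.log (B * X + 2) ≤ (B - β) * L := by
            linarith
          have e7 := mul_le_mul_of_nonneg_right e6 l2.le
          linarith
        have e2 : β * L ≤ S := le_of_mul_le_mul_right e1 l2
        exact_mod_cast hk.trans e2
      have b6 := b4 k hkS
      rw [T3_eq_T] at b6
      have b7 : (lev : ℝ) + 1 ≤ (T^[k] b : ℕ) := by exact_mod_cast b6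
      linarith
  have hfin : {n : ℕ | 1 ≤ n ∧ (n : ℝ) ≤ x ∧
      ∀ k : ℕ, (k : ℝ) ≤ β * L → M < (T^[k] n : ℝ)}.Finite := by
    refine (Set.finite_Iic ⌊x⌋₊).subset ?_
    rintro n ⟨_, h, _⟩
    exact Nat.le_floor h
  have hcard : (({b : ℕ | M' < T3^[S] b ∧ T3^[S] b ≤ 2 * M' ∧ jj (wd S b) = r ∧
      ∀ k ≤ S, lev < T3^[k] b}.ncard : ℕ) : ℝ) ≤ (Nx x M (β * L) : ℝ) := by
    unfold Nx
    exact_mod_cast Set.ncard_le_ncard hsub hfin
  refine le_trans ?_ (hcon.trans hcard)
  -- the count
  have hSR : (S : ℝ) ≤ K := by exact_mod_cast hSK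
  have h1 : M ≤ (M' : ℝ) / (4 * (S + 1)) := by
    rw [le_div_iff₀ (by positivity), hM'R]
    have e1 : M * (4 * ((S : ℝ) + 1)) ≤ (lev + 1) * (4 * (K + 1)) :=
      mul_le_mul hlev2.le (by linarith) (by positivity) (by positivity)
    have e2 : (0 : ℝ) ≤ (lev + 1) * (K + 1) := by positivity
    linarith
  have h2 : x * Real.exp (-(I + ε) * L) ≤ Real.exp ((g - d) * r) * M := by
    have e1 : x * Real.exp (-(I + ε) * L) = Real.exp (X - (I + ε) * L) := by
      rw [← hexX, ← Real.exp_add]
      congr 1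
      ring
    have e2 : Real.exp ((g - d) * r) * M = Real.exp ((g - d) * r + Real.log M) := by
      rw [Real.exp_add, Real.exp_log hM0]
    rw [e1, e2]
    apply Real.exp_le_exp.2
    have e3 : α * (U - D) ≤ (g - d) * r := by
      rw [← hαD]
      calc α * (U - D) ≤ α * (D * r) := mul_le_mul_of_nonneg_left hr2 hα0.le
        _ = _ := by ring
    have e4 : α * (L - (Real.log 24 + Real.log (B * X + 2))) ≤ α * U :=
      mul_le_mul_of_nonneg_left hU1 hα0.le
    have e5 : α * Real.log 24 + α * D + α * Real.log (B * X + 2) ≤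
        (α - (1 - I - ε)) * (1 - δ) * X := by
      have e6 := mul_le_mul_of_nonneg_left a4 hα0.le
      have e7 : α * ((α * Real.log 24 + α * D) / α + Real.log (B * X + 2)) =
          α * Real.log 24 + α * D + α * Real.log (B * X + 2) := by
        field_simp
      have e8 : α * ((α - (1 - I - ε)) * (1 - δ) / α * X) =
          (α - (1 - I - ε)) * (1 - δ) * X := by
        field_simp
      rw [e7, e8] at e6
      exact e6
    have e6 : (α - (1 - I - ε)) * ((1 - δ) * X) ≤ (α - (1 - I - ε)) * L :=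
      mul_le_mul_of_nonneg_left hL1 (by linarith)
    linarith
  refine h2.trans ?_
  calc Real.exp ((g - d) * r) * M ≤ Real.exp ((g - d) * r) * ((M' : ℝ) / (4 * (S + 1))) :=
        mul_le_mul_of_nonneg_left h1 (Real.exp_pos _).le
    _ = _ := by ring

end Pool.Agent.UTL
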