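import Pool.Agent.UTL.Upper

set_option autoImplicit false

/-! The parameters of the lower bound. -/

namespace Pool.Agent.UTL

open Finset

theorem log_ratio_gt : 1 / 2 + 1 / 10 < Real.log 2 / Real.log 3 := by
  have := lam_lo
  linarith

/-- the entropy near 1/2 -/
theorem entropy_low {w : ℝ} (h0 : 0 < w) (h1 : w ≤ 1 / 10) :
    Real.log 2 - Real.binEntropy (1 / 2 + w) ≤ 2 * w ^ 2 * (1 + 8 * w) := by
  obtain ⟨y, hy⟩ : ∃ y : ℝ, y = 2 * w := ⟨_, rfl⟩
  have hy0 : 0 < y := by rw [hy]; linarith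
  have hy1 : y ≤ 1 / 2 := by rw [hy]; linarith
  have e1 : 1 / 2 + w = (1 + y) / 2 := by rw [hy]; ring
  have e2 : 1 - (1 + y) / 2 = (1 - y) / 2 := by ring
  have hb : Real.binEntropy ((1 + y) / 2) = Real.log 2 -
      ((1 + y) * Real.log (1 + y) + (1 - y) * Real.log (1 - y)) / 2 := by
    unfold Real.binEntropy
    rw [Real.log_inv, Real.log_inv, e2, Real.log_div (by linarith) (by norm_num),
      Real.log_div (by linarith) (by norm_num)]
    ring
  have b1 := Real.abs_log_sub_add_sum_range_le (x := y) (by rw [abs_of_pos hy0]; linarith) 2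
  have b2 := Real.abs_log_sub_add_sum_range_le (x := -y) (by rw [abs_neg, abs_of_pos hy0]; linarith) 2
  rw [abs_of_pos hy0] at b1
  rw [abs_neg, abs_of_pos hy0] at b2
  simp only [sum_range_succ, sum_range_zero] at b1 b2
  norm_num at b1 b2
  have c1 := (abs_le.1 b1).2
  have c2 := (abs_le.1 b2).2
  have c3 : y ^ 3 / (1 - y) ≤ 2 * y ^ 3 := by
    rw [div_le_iff₀ (by linarith)]
    have : 0 < y ^ 3 := by positivity
    nlinarith
  have d1 : Real.log (1 - y) ≤ -y - y ^ 2 / 2 + 2 * y ^ 3 := by linarith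
  have d2 : Real.log (1 + y) ≤ y - y ^ 2 / 2 + 2 * y ^ 3 := by linarith
  have d3 : (1 + y) * Real.log (1 + y) ≤ (1 + y) * (y - y ^ 2 / 2 + 2 * y ^ 3) :=
    mul_le_mul_of_nonneg_left d2 (by linarith)
  have d4 : (1 - y) * Real.log (1 - y) ≤ (1 - y) * (-y - y ^ 2 / 2 + 2 * y ^ 3) :=
    mul_le_mul_of_nonneg_left d1 (by linarith)
  rw [e1, hb]
  have e3 : (1 + y) * (y - y ^ 2 / 2 + 2 * y ^ 3) + (1 - y) * (-y - y ^ 2 / 2 + 2 * y ^ 3) =
      y ^ 2 + 4 * y ^ 3 := by ring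
  have e4 : 2 * w ^ 2 * (1 + 8 * w) = (y ^ 2 + 4 * y ^ 3) / 2 := by rw [hy]; ring
  rw [e4]
  linarith

theorem thm_LowN : St_LowN := by
  intro ε hε
  obtain ⟨e, he⟩ : ∃ e : ℝ, e = min ε 1 / 64 := ⟨_, rfl⟩
  have he0 : 0 < e := by rw [he]; positivity
  have he1 : e ≤ 1 / 64 := by
    rw [he]
    have := min_le_right ε 1
    linarith
  have heε : 64 * e ≤ ε := by
    rw [he]
    have := min_le_left ε 1
    linarith
  have hA := aA_pos
  have hA1 := aA_lt
  have hl3 := one_lt_log_three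
  have hl2 := Real.log_two_gt_d9
  have hV := VV_ge_one
  refine ⟨e / 8, by positivity, ?_⟩
  intro s hs0 hs1
  obtain ⟨G, hG⟩ : ∃ G : ℝ, G = 2 / aA := ⟨_, rfl⟩
  have hG2 : 2 ≤ G := by rw [hG, le_div_iff₀ hA]; linarith
  have hG0 : 0 < G := by linarith
  have hgG : g1 = G := by rw [hG]; rfl
  have hAG : aA = 2 / G := by rw [hG]; field_simp
  obtain ⟨l3, hl3'⟩ : ∃ l3 : ℝ, l3 = Real.log 3 := ⟨_, rfl⟩
  obtain ⟨w, hw⟩ : ∃ w : ℝ, w = (1 + e) * s / (G ^ 2 * l3) := ⟨_, rfl⟩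
  rw [← hl3'] at hl3
  have hl30 : 0 < l3 := by linarith
  have hw0 : 0 < w := by rw [hw]; positivity
  have hG2l : 2 ≤ G ^ 2 * l3 := by nlinarith
  have hws : w ≤ s := by
    rw [hw, div_le_iff₀ (by positivity)]
    nlinarith
  have hwe : 8 * w ≤ e := by linarith
  have hw10 : w ≤ 1 / 10 := by linarith
  obtain ⟨z, hz⟩ : ∃ z : ℝ, z = w * l3 * G := ⟨_, rfl⟩
  have hz0 : 0 < z := by rw [hz]; positivity
  have hzs : z ≤ s := by
    have e1 : z = (1 + e) * s / G := by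
      rw [hz, hw]
      field_simp
    rw [e1, div_le_iff₀ hG0]
    nlinarith
  have hze : z ≤ e := by linarith
  -- the denominator
  obtain ⟨Dn, hDn⟩ : ∃ Dn : ℝ, Dn = Real.log 2 - (1 / 2 + w) * l3 := ⟨_, rfl⟩
  have hDn' : Dn = (1 - z) / G := by
    have e1 : Real.log 2 = (aA + l3) / 2 := by
      rw [aA_eq, hl3']
      ring
    rw [hDn, e1, hAG, hz]
    field_simp
    ring
  have hz1 : 0 < 1 - z := by linarith
  have hDn0 : 0 < Dn := by rw [hDn']; positivity
  -- the entropy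
  obtain ⟨Hd, hHd⟩ : ∃ Hd : ℝ, Hd = Real.log 2 - Real.binEntropy (1 / 2 + w) := ⟨_, rfl⟩
  have hHd0 : 0 < Hd := by
    have : Real.binEntropy (1 / 2 + w) < Real.log 2 := by
      rw [Real.binEntropy_lt_log_two]
      intro h
      norm_num at h
      linarith
    rw [hHd]
    linarith
  have hHd1 : Hd ≤ 2 * w ^ 2 * (1 + e) := by
    rw [hHd]
    refine (entropy_low hw0 hw10).trans ?_
    apply mul_le_mul_of_nonneg_left _ (by positivity)
    linarith
  obtain ⟨q, hq⟩ : ∃ q : ℝ, q = (1 + e) * (Hd / Dn) := ⟨_, rfl⟩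
  have hq0 : 0 < q := by rw [hq]; positivity
  have hVV : VV = G ^ 3 * l3 ^ 2 / 4 := by
    rw [VV_eq, hAG, ← hl3']
    field_simp
    ring
  have hinvz : 1 / (1 - z) ≤ (1 + e) ^ 2 := by
    rw [div_le_iff₀ hz1]
    have h1 : (1 + e) ^ 2 * (1 - e) ≤ (1 + e) ^ 2 * (1 - z) :=
      mul_le_mul_of_nonneg_left (by linarith) (by positivity)
    refine le_trans ?_ h1
    have h2 : (1 + e) ^ 2 * (1 - e) = 1 + e * (1 - e - e ^ 2) := by ring
    rw [h2]
    have h3 : 0 ≤ 1 - e - e ^ 2 := by nlinarith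
    have h4 : 0 ≤ e * (1 - e - e ^ 2) := mul_nonneg he0.le h3
    linarith
  have hq1 : q ≤ (1 + e) ^ 6 * (s ^ 2 / (2 * VV)) := by
    have e1 : Hd / Dn ≤ 2 * w ^ 2 * (1 + e) / Dn := div_le_div_of_nonneg_right hHd1 hDn0.le
    have e2 : 2 * w ^ 2 * (1 + e) / Dn = (1 + e) ^ 3 * (s ^ 2 / (2 * VV)) * (1 / (1 - z)) := by
      rw [hDn', hVV, hw]
      field_simp
      ring
    have e3 : 0 ≤ (1 + e) ^ 3 * (s ^ 2 / (2 * VV)) := by positivity
    calc q = (1 + e) * (Hd / Dn) := hq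
      _ ≤ (1 + e) * ((1 + e) ^ 3 * (s ^ 2 / (2 * VV)) * (1 + e) ^ 2) := by
          apply mul_le_mul_of_nonneg_left _ (by linarith)
          rw [e2] at e1
          exact e1.trans (mul_le_mul_of_nonneg_left hinvz e3)
      _ = (1 + e) ^ 6 * (s ^ 2 / (2 * VV)) := by ring
  have he6 : (1 + e) ^ 6 ≤ 1 + 64 * e := by
    have h2 : e ^ 2 ≤ e := by nlinarith
    have h3 : e ^ 3 ≤ e := by nlinarith [pow_nonneg he0.le 2]
    have h4 : e ^ 4 ≤ e := by nlinarith [pow_nonneg he0.le 3]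
    have h5 : e ^ 5 ≤ e := by nlinarith [pow_nonneg he0.le 4]
    have h6 : e ^ 6 ≤ e := by nlinarith [pow_nonneg he0.le 5]
    have h7 : (1 + e) ^ 6 = 1 + 6 * e + 15 * e ^ 2 + 20 * e ^ 3 + 15 * e ^ 4 + 6 * e ^ 5 + e ^ 6 := by
      ring
    rw [h7]
    linarith
  have hs2 : 0 ≤ s ^ 2 / (2 * VV) := by positivity
  refine ⟨1 / 2 + w, 1 - q, 2 * q, by linarith, ?_, ?_, ?_, by linarith, ?_, ?_⟩
  · have := log_ratio_gt
    linarith
  · -- ρ log 3 < h
    rw [← hl3']
    have h1 : Hd < Dn := by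
      have h2 : 2 * w ^ 2 * (1 + e) ≤ w * l3 := by
        have h3 : 2 * w * (1 + e) ≤ 1 := by nlinarith
        calc 2 * w ^ 2 * (1 + e) = w * (2 * w * (1 + e)) := by ring
          _ ≤ w * 1 := mul_le_mul_of_nonneg_left h3 hw0.le
          _ ≤ w * l3 := mul_le_mul_of_nonneg_left hl3.le hw0.le
      have h4 : w * l3 = z / G := by rw [hz]; field_simp
      have h5 : z / G < (1 - z) / G := by
        apply div_lt_div_of_pos_right _ hG0
        linarith
      rw [hDn']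
      linarith
    rw [hHd, hDn] at h1
    linarith
  · -- r < ...
    rw [← hl3', ← hDn]
    have e1 : (Real.binEntropy (1 / 2 + w) - (1 / 2 + w) * l3) / Dn = 1 - Hd / Dn := by
      rw [hHd]
      field_simp
      rw [hDn]
      ring
    rw [e1, hq]
    have : 0 < Hd / Dn := by positivity
    nlinarith
  · rw [← hl3', ← hDn, hgG]
    have e1 : G + (1 + e) * s ≤ 1 / Dn := by
      have h1 : 1 / Dn = G / (1 - z) := by rw [hDn']; field_simp
      have h2 : (1 + e) * s = G * z := by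
        rw [hz, hw]
        field_simp
      rw [h1, h2, le_div_iff₀ hz1]
      have : 0 ≤ G * z ^ 2 := by positivity
      nlinarith
    have h3 : q ≤ s ^ 2 := by
      have h4 : (1 + e) ^ 6 ≤ 2 := by linarith
      have h5 : s ^ 2 / (2 * VV) ≤ s ^ 2 / 2 := by
        apply div_le_div_of_nonneg_left (by positivity) (by norm_num)
        linarith
      calc q ≤ (1 + e) ^ 6 * (s ^ 2 / (2 * VV)) := hq1
        _ ≤ 2 * (s ^ 2 / 2) := mul_le_mul h4 h5 hs2 (by norm_num)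
        _ = s ^ 2 := by ring
    have h6 : 2 * q / Real.log 2 < e * s := by
      rw [div_lt_iff₀ (by linarith)]
      have h7 : 2 * q ≤ 2 * s * s := by nlinarith
      have h8 : 2 * s * s ≤ e / 4 * s := by nlinarith
      have h9 : e / 4 * s < e * s * (1 / 2) := by
        have : 0 < e * s := by positivity
        linarith
      have h10 : e * s * (1 / 2) ≤ e * s * Real.log 2 := by
        apply mul_le_mul_of_nonneg_left _ (by positivity)
        linarith
      linarith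
    have h11 : (1 + e) * s = s + e * s := by ring
    linarith
  · have h1 : 1 - (1 - q) = q := by ring
    rw [h1]
    calc q ≤ (1 + e) ^ 6 * (s ^ 2 / (2 * VV)) := hq1
      _ ≤ (1 + ε) * (s ^ 2 / (2 * VV)) := mul_le_mul_of_nonneg_right (by linarith) hs2
      _ = _ := by ring

end Pool.Agent.UTL
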