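import Pool.Agent.UTL.LowU
import Pool.Agent.UTL.LowN

set_option autoImplicit false

/-! The lower bound: conclusion. -/

namespace Pool.Agent.UTL

open Finset Filter
open Pool.Agent.Collatz3 (Up cw size Ok paths cnt UniformGrowth T3 growth_of_rho all_tilts
  paths_finite word_inj)
open Pool.Agent.Helper27 (T)

theorem Nx_finite (x M K : ℝ) :
    {n : ℕ | 1 ≤ n ∧ (n : ℝ) ≤ x ∧ ∀ k : ℕ, (k : ℝ) ≤ K → M < (T^[k] n : ℝ)}.Finite := by
  refine (Set.finite_Iic ⌊x⌋₊).subset ?_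
  rintro n ⟨_, h, _⟩
  exact Nat.le_floor h

/-- the count from the nodes -/
theorem low_count {x M Y K : ℝ} {F : Finset ℕ} (hY : 0 ≤ Y) (hF1 : ∀ b ∈ F, 1 ≤ b)
    (hF : ∀ b ∈ F, Y < (b : ℝ) → (b : ℝ) ≤ x ∧ ∀ k : ℕ, (k : ℝ) ≤ K → M < (T^[k] b : ℝ)) :
    (F.card : ℝ) ≤ (Nx x M K : ℝ) + Y := by
  classical
  have h1 : F ⊆ F.filter (fun b : ℕ => Y < (b : ℝ)) ∪ Icc 1 ⌊Y⌋₊ := by
    intro b hb
    rw [mem_union, mem_filter, mem_Icc]
    rcases lt_or_ge Y (b : ℝ) with h | h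
    · exact Or.inl ⟨hb, h⟩
    · exact Or.inr ⟨hF1 b hb, Nat.le_floor h⟩
  have h2 : F.card ≤ (F.filter (fun b : ℕ => Y < (b : ℝ))).card + ⌊Y⌋₊ := by
    refine (card_le_card h1).trans ((card_union_le _ _).trans ?_)
    rw [Nat.card_Icc]
    omega
  have h3 : (F.filter (fun b : ℕ => Y < (b : ℝ))).card ≤ Nx x M K := by
    unfold Nx
    rw [← Set.ncard_coe_finset]
    apply Set.ncard_le_ncard _ (Nx_finite x M K)
    intro b hb
    rw [mem_coe, mem_filter] at hb
    obtain ⟨h4, h5⟩ := hF b hb.1 hb.2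
    exact ⟨hF1 b hb.1, h4, h5⟩
  have h6 : (F.card : ℝ) ≤ (Nx x M K : ℝ) + (⌊Y⌋₊ : ℝ) := by
    exact_mod_cast h2.trans (Nat.add_le_add_right h3 _)
  have h7 := Nat.floor_le hY
  linarith

/-- the choice of the loss -/
theorem choose_d {ρ r η κ : ℝ} (hρ0 : 0 < ρ) (hD : 0 < Real.log 2 - ρ * Real.log 3)
    (hρh : ρ * Real.log 3 < Real.binEntropy ρ)
    (hr : r < (Real.binEntropy ρ - ρ * Real.log 3) / (Real.log 2 - ρ * Real.log 3))
    (hκ : κ < 1 / (Real.log 2 - ρ * Real.log 3) - η / Real.log 2) :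
    ∃ d : ℝ, 0 < d ∧ d < Real.binEntropy ρ / ρ - Real.log 3 ∧
      r < (Real.binEntropy ρ / ρ - Real.log 3 - d) / (Real.log 2 / ρ + d - Real.log 3) ∧
      κ * Real.log 2 < (1 - η) + Real.log 3 / (Real.log 2 / ρ + d - Real.log 3) := by
  have hl2 : 0 < Real.log 2 := Real.log_pos (by norm_num)
  have hl3 : 0 < Real.log 3 := Real.log_pos (by norm_num)
  obtain ⟨s, hs⟩ : ∃ s : ℝ, s = Real.log 2 / ρ := ⟨_, rfl⟩
  obtain ⟨g, hg⟩ : ∃ g : ℝ, g = Real.binEntropy ρ / ρ - Real.log 3 := ⟨_, rfl⟩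
  rw [← hs, ← hg]
  have hs3 : s - Real.log 3 = (Real.log 2 - ρ * Real.log 3) / ρ := by rw [hs]; field_simp
  have hs0 : 0 < s - Real.log 3 := by rw [hs3]; positivity
  have hg0 : 0 < g := by
    rw [hg, sub_pos, lt_div_iff₀ hρ0]
    linarith
  have hr' : r < g / (s - Real.log 3) := by
    have e : g = (Real.binEntropy ρ - ρ * Real.log 3) / ρ := by rw [hg]; field_simp
    rw [hs3, e, div_div_div_cancel_right₀ hρ0.ne']
    exact hr
  have hκ' : κ * Real.log 2 < (1 - η) + Real.log 3 / (s - Real.log 3) := by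
    have e : (1 - η) + Real.log 3 / (s - Real.log 3) =
        (1 / (Real.log 2 - ρ * Real.log 3) - η / Real.log 2) * Real.log 2 := by
      obtain ⟨Dq, hDq⟩ : ∃ Dq : ℝ, Dq = Real.log 2 - ρ * Real.log 3 := ⟨_, rfl⟩
      rw [← hDq] at hD ⊢
      have e1 : (1 / Dq - η / Real.log 2) * Real.log 2 = Real.log 2 / Dq - η := by
        field_simp
      have e2 : Real.log 2 = Dq + ρ * Real.log 3 := by rw [hDq]; ring
      have e3 : Real.log 3 / (s - Real.log 3) = ρ * Real.log 3 / Dq := by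
        rw [hs3, ← hDq]
        field_simp
      rw [e1, e3, e2, add_div, div_self hD.ne']
      ring
    rw [e]
    exact mul_lt_mul_of_pos_right hκ hl2
  have hev : ∀ᶠ d in nhdsWithin (0 : ℝ) (Set.Ioi 0),
      (r < (g - d) / (s + d - Real.log 3) ∧
        κ * Real.log 2 < (1 - η) + Real.log 3 / (s + d - Real.log 3) ∧ d < g) ∧ 0 < d := by
    have c1 : ContinuousAt (fun d : ℝ => (g - d) / (s + d - Real.log 3)) 0 := by
      apply ContinuousAt.div (by fun_prop) (by fun_prop)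
      simp only [add_zero]
      exact hs0.ne'
    have c2 : ContinuousAt (fun d : ℝ => (1 - η) + Real.log 3 / (s + d - Real.log 3)) 0 := by
      apply ContinuousAt.add (by fun_prop)
      apply ContinuousAt.div (by fun_prop) (by fun_prop)
      simp only [add_zero]
      exact hs0.ne'
    have e1 := c1.tendsto.eventually (lt_mem_nhds (a := r) (by
      simp only [add_zero, sub_zero]
      exact hr'))
    have e2 := c2.tendsto.eventually (lt_mem_nhds (a := κ * Real.log 2) (by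
      simp only [add_zero]
      exact hκ'))
    have e3 : ∀ᶠ d in nhds (0 : ℝ), d < g := gt_mem_nhds hg0
    filter_upwards [(e1.and (e2.and e3)).filter_mono nhdsWithin_le_nhds, self_mem_nhdsWithin]
      with d h4 h5
    exact ⟨⟨h4.1, h4.2.1, h4.2.2⟩, h5⟩
  obtain ⟨d, ⟨hd1, hd2, hd3⟩, hd0⟩ := hev.exists
  exact ⟨d, hd0, hd3, hd1, hd2⟩

theorem thm_LowU : St_LowU := by
  intro ρ δ r η κ h12 hρ2 hρh hδ hδ1 hr hη hκ
  have hl2 : 0 < Real.log 2 := Real.log_pos (by norm_num)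
  have hl3 : 0 < Real.log 3 := Real.log_pos (by norm_num)
  have hδm : 0 < 1 - δ := by linarith
  have hρ0 : 0 < ρ := by linarith
  have hρ1 : ρ < 1 := by
    refine hρ2.trans ?_
    rw [div_lt_one hl3]
    exact Real.log_lt_log (by norm_num) (by norm_num)
  have hDρ : 0 < Real.log 2 - ρ * Real.log 3 := by
    rw [lt_div_iff₀ hl3] at hρ2
    linarith
  obtain ⟨d, hd0, hdg, hdr, hdκ⟩ := choose_d hρ0 hDρ hρh hr hκ
  obtain ⟨s, hs⟩ : ∃ s : ℝ, s = Real.log 2 / ρ := ⟨_, rfl⟩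
  obtain ⟨g, hg⟩ : ∃ g : ℝ, g = Real.binEntropy ρ / ρ - Real.log 3 := ⟨_, rfl⟩
  have hgrow := growth_of_rho all_tilts hρ0 hρ1 hρh
  rw [← hs, ← hg] at hgrow hdr
  rw [← hg] at hdg
  rw [← hs] at hdκ
  have hs3 : s - Real.log 3 = (Real.log 2 - ρ * Real.log 3) / ρ := by rw [hs]; field_simp
  have hs0 : 0 < s - Real.log 3 := by rw [hs3]; positivity
  obtain ⟨D, hD⟩ : ∃ D : ℝ, D = s + d - Real.log 3 := ⟨_, rfl⟩
  have hD0 : 0 < D := by rw [hD]; linarith
  rw [← hD] at hdr hdκ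
  obtain ⟨α, hα⟩ : ∃ α : ℝ, α = (g - d) / D := ⟨_, rfl⟩
  have hα0 : 0 < α := by rw [hα]; exact div_pos (by linarith) hD0
  have hαD : g - d = α * D := by rw [hα]; field_simp
  rw [← hα] at hdr
  obtain ⟨τ, hτ⟩ : ∃ τ : ℝ, τ = (1 - η) + Real.log 3 / D - κ * Real.log 2 := ⟨_, rfl⟩
  have hτ0 : 0 < τ := by rw [hτ]; linarith
  obtain ⟨C₀, hC₀⟩ : ∃ C₀ : ℝ, C₀ = (s + d) / (D * Real.log 2) := ⟨_, rfl⟩
  have hsd0 : 0 < s + d := by linarith
  have hC₀0 : 0 < C₀ := by rw [hC₀]; positivity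
  obtain ⟨N₀, hN₀⟩ := hgrow d hd0
  -- the conditions on u
  have ev1 : ∀ᶠ u : ℝ in atTop, 16 * (C₀ * u + 2) ≤ u ^ 3 := by
    filter_upwards [eventually_ge_atTop (max 1 (16 * C₀ + 32))] with u hu
    have h1 : 1 ≤ u := (le_max_left _ _).trans hu
    have h2 : 16 * C₀ + 32 ≤ u := (le_max_right _ _).trans hu
    have h3 : u ≤ u ^ 2 := by
      calc u = u ^ 1 := (pow_one _).symm
        _ ≤ u ^ 2 := pow_le_pow_right₀ h1 (by norm_num)
    calc 16 * (C₀ * u + 2) = 16 * C₀ * u + 32 := by ring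
      _ ≤ 16 * C₀ * u + 32 * u := by linarith
      _ = (16 * C₀ + 32) * u := by ring
      _ ≤ u * u := mul_le_mul_of_nonneg_right h2 (by linarith)
      _ ≤ u ^ 2 * u := mul_le_mul_of_nonneg_right h3 (by linarith)
      _ = u ^ 3 := by ring
  have ev2 := ev_lin 3 (D * (N₀ + 1) + Real.log 2) hδm
  have ev3 := ev_lin (α * 3) (α * Real.log 2 + (g - d))
    (show 0 < (α - r) * (1 - δ) from mul_pos (by linarith) hδm)
  have ev4 := ev_lin (3 * (1 + Real.log 3 / D)) (Real.log 2 * (1 + Real.log 3 / D) + Real.log 3)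
    (show 0 < τ * (1 - δ) from mul_pos hτ0 hδm)
  obtain ⟨u₀, hu₀⟩ := eventually_atTop.1 ((((ev1.and ev2).and ev3).and ev4).and
    (eventually_ge_atTop 3))
  refine ⟨Real.exp u₀, ?_⟩
  intro x M hx hM hMx
  have hx0 : 0 < x := lt_of_lt_of_le (Real.exp_pos _) hx
  have hM0 : 0 < M := by linarith
  obtain ⟨u, hu⟩ : ∃ u : ℝ, u = Real.log x := ⟨_, rfl⟩
  have huu : u₀ ≤ u := by
    rw [hu, Real.le_log_iff_exp_le hx0]
    exact hx
  obtain ⟨⟨⟨⟨e1, e2⟩, e3⟩, e4⟩, hu3⟩ := hu₀ u huu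
  have hu0 : 0 < u := by linarith
  obtain ⟨v, hv⟩ : ∃ v : ℝ, v = Real.log M := ⟨_, rfl⟩
  obtain ⟨L, hL⟩ : ∃ L : ℝ, L = Real.log (x / M) := ⟨_, rfl⟩
  obtain ⟨lam, hlam⟩ : ∃ lam : ℝ, lam = Real.log u := ⟨_, rfl⟩
  rw [← hlam] at e2 e3 e4
  have hLuv : L = u - v := by rw [hL, hu, hv, Real.log_div hx0.ne' hM0.ne']
  rw [← hL]
  have hxu : x = Real.exp u := by rw [hu, Real.exp_log hx0]
  have hMv : M = Real.exp v := by rw [hv, Real.exp_log hM0]
  have hv0 : 0 ≤ v := by rw [hv]; exact Real.log_nonneg hM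
  have hvu : v ≤ δ * u := by
    have h1 := Real.log_le_log hM0 hMx
    rw [Real.log_rpow hx0] at h1
    rw [hu, hv]
    exact h1
  have hLu : (1 - δ) * u ≤ L := by rw [hLuv]; linarith
  have hLu' : L ≤ u := by rw [hLuv]; linarith
  have hL0 : 0 < L := lt_of_lt_of_le (mul_pos hδm hu0) hLu
  have hlam0 : 0 ≤ lam := by rw [hlam]; exact Real.log_nonneg (by linarith)
  obtain ⟨A, hA⟩ : ∃ A : ℝ, A = M * u ^ 3 := ⟨_, rfl⟩
  have hu27 : (27 : ℝ) ≤ u ^ 3 := by
    calc (27 : ℝ) = 3 ^ 3 := by norm_num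
      _ ≤ u ^ 3 := pow_le_pow_left₀ (by norm_num) hu3 3
  have hA16 : 16 ≤ A := by
    rw [hA]
    calc (16 : ℝ) ≤ 1 * 27 := by norm_num
      _ ≤ M * u ^ 3 := mul_le_mul hM hu27 (by norm_num) hM0.le
  have hA0 : 0 < A := by linarith
  have hMA : M ≤ A := by
    rw [hA]
    exact le_mul_of_one_le_right hM0.le (by linarith)
  have hlA : Real.log (2 * A) = Real.log 2 + v + 3 * lam := by
    rw [hA, Real.log_mul (by norm_num) (by positivity), Real.log_mul hM0.ne' (by positivity),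
      Real.log_pow, ← hv, ← hlam]
    push_cast
    ring
  obtain ⟨J₀, hJ₀⟩ : ∃ J₀ : ℕ, J₀ = ⌈C₀ * u⌉₊ := ⟨_, rfl⟩
  have hJ1 : C₀ * u ≤ J₀ := by rw [hJ₀]; exact Nat.le_ceil _
  have hJ2 : (J₀ : ℝ) < C₀ * u + 1 := by
    rw [hJ₀]
    exact Nat.ceil_lt_add_one (by positivity)
  have hJA : 16 * M * ((J₀ : ℝ) + 1) ≤ A := by
    rw [hA]
    calc 16 * M * ((J₀ : ℝ) + 1) = M * (16 * ((J₀ : ℝ) + 1)) := by ring
      _ ≤ M * u ^ 3 := mul_le_mul_of_nonneg_left (by linarith) hM0.le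
  obtain ⟨R, hR1, hR2⟩ := roots hM hA16 hJA
  -- the number of letters
  obtain ⟨n, hn⟩ : ∃ n : ℕ, n = ⌊(L - 3 * lam - Real.log 2) / D⌋₊ := ⟨_, rfl⟩
  have hq1 : (N₀ : ℝ) + 1 ≤ (L - 3 * lam - Real.log 2) / D := by
    rw [le_div_iff₀ hD0]
    linarith
  have hnN : N₀ ≤ n := by
    rw [hn]
    apply Nat.le_floor
    linarith
  have hq0 : 0 ≤ (L - 3 * lam - Real.log 2) / D := by
    have : (0 : ℝ) ≤ N₀ := Nat.cast_nonneg _
    linarith
  have hn1 : D * n ≤ L - 3 * lam - Real.log 2 := by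
    have h1 : (n : ℝ) ≤ (L - 3 * lam - Real.log 2) / D := by rw [hn]; exact Nat.floor_le hq0
    rw [le_div_iff₀ hD0] at h1
    linarith
  have hn2 : (L - 3 * lam - Real.log 2) / D - 1 ≤ n := by
    have := Nat.lt_floor_add_one ((L - 3 * lam - Real.log 2) / D)
    rw [← hn] at this
    linarith
  have hB : Real.exp ((s + d) * n) ≤ 2 ^ J₀ := by
    have h1 : (2 : ℝ) ^ J₀ = Real.exp (J₀ * Real.log 2) := by
      rw [Real.exp_nat_mul, Real.exp_log (by norm_num)]
    rw [h1]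
    apply Real.exp_le_exp.2
    have h2 : D * n ≤ u := by linarith
    have h3 : (n : ℝ) ≤ u / D := by rw [le_div_iff₀ hD0]; linarith
    calc (s + d) * n ≤ (s + d) * (u / D) := mul_le_mul_of_nonneg_left h3 hsd0.le
      _ = C₀ * u * Real.log 2 := by rw [hC₀]; field_simp
      _ ≤ J₀ * Real.log 2 := mul_le_mul_of_nonneg_right hJ1 hl2.le
  obtain ⟨F, hF1, hF2⟩ := nodesR (N := Real.exp ((g - d) * n)) (n := n)
    (B := Real.exp ((s + d) * n)) hA0 (fun a ha => ⟨(hR1 a ha).1, (hR1 a ha).2.1⟩) hB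
    (fun a ha => hN₀ n hnN (a : ℤ) (by
      intro h3
      exact (hR1 a ha).2.2.1 (by exact_mod_cast h3)))
  -- the size of F
  have hJp : (0 : ℝ) < (J₀ : ℝ) + 1 := by positivity
  have hFc : 2 * M * Real.exp ((g - d) * n) ≤ (F.card : ℝ) := by
    have h1 : ((J₀ : ℝ) + 1) * (2 * M * Real.exp ((g - d) * n)) ≤ ((J₀ : ℝ) + 1) * (F.card : ℝ) := by
      refine le_trans ?_ hF1
      have h2 : 2 * M * ((J₀ : ℝ) + 1) ≤ R.card := by linarith
      calc ((J₀ : ℝ) + 1) * (2 * M * Real.exp ((g - d) * n))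
          = (2 * M * ((J₀ : ℝ) + 1)) * Real.exp ((g - d) * n) := by ring
        _ ≤ _ := mul_le_mul_of_nonneg_right h2 (Real.exp_pos _).le
    exact le_of_mul_le_mul_left h1 hJp
  have hexp : Real.exp (r * L) ≤ Real.exp ((g - d) * n) := by
    apply Real.exp_le_exp.2
    have h1 : (g - d) * ((L - 3 * lam - Real.log 2) / D - 1) ≤ (g - d) * n :=
      mul_le_mul_of_nonneg_left hn2 (by linarith)
    have h2 : (g - d) * ((L - 3 * lam - Real.log 2) / D - 1) =
        α * L - (α * 3 * lam + (α * Real.log 2 + (g - d))) := by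
      rw [hαD]
      field_simp
      ring
    have h3 : (α - r) * (1 - δ) * u ≤ (α - r) * L := by
      rw [mul_assoc]
      exact mul_le_mul_of_nonneg_left hLu (by linarith)
    rw [h2] at h1
    have h4 : (α - r) * L = α * L - r * L := by ring
    linarith
  -- the discarded nodes
  obtain ⟨Y, hY⟩ : ∃ Y : ℝ, Y = x * Real.exp (-(η * L)) := ⟨_, rfl⟩
  have hY0 : 0 < Y := by rw [hY]; positivity
  have hYM : Y ≤ M * Real.exp (r * L) := by
    have h1 : Y = M * Real.exp ((1 - η) * L) := by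
      rw [hY, hxu, hMv, ← Real.exp_add, ← Real.exp_add, hLuv]
      congr 1
      ring
    rw [h1]
    apply mul_le_mul_of_nonneg_left _ hM0.le
    apply Real.exp_le_exp.2
    exact mul_le_mul_of_nonneg_right (by linarith) hL0.le
  have hlY : Real.log Y = u - η * L := by
    rw [hY, Real.log_mul hx0.ne' (Real.exp_pos _).ne', Real.log_exp, hu]
    ring
  have hcount := low_count (x := x) (M := M) (K := κ * L) hY0.le (fun b hb => (hF2 b hb).1) (by
    intro b hb hbY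
    obtain ⟨b1, b2, S, b3, b4, b5⟩ := hF2 b hb
    have hb0 : (0 : ℝ) < b := by exact_mod_cast b1
    have h3n : (0 : ℝ) < 3 ^ n := by positivity
    constructor
    · have h1 := Real.log_le_log (by positivity) b2
      rw [Real.log_mul hb0.ne' h3n.ne', Real.log_mul (by positivity) (Real.exp_pos _).ne',
        Real.log_pow, Real.log_exp, hlA] at h1
      have h2 : D * n = (s + d) * n - n * Real.log 3 := by rw [hD]; ring
      have h3 : Real.log b ≤ Real.log x := by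
        rw [← hu]
        rw [h2] at hn1
        linarith
      exact (Real.log_le_log_iff hb0 hx0).1 h3
    · intro k hk
      have h1 := Real.log_le_log (by positivity) b5
      rw [Real.log_mul hb0.ne' h3n.ne', Real.log_mul (by positivity) (by positivity),
        Real.log_pow, Real.log_pow, hlA] at h1
      have h2 : u - η * L ≤ Real.log b := by
        rw [← hlY]
        exact Real.log_le_log hY0 hbY.le
      have h3 : Real.log 3 * ((L - 3 * lam - Real.log 2) / D - 1) ≤ Real.log 3 * n :=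
        mul_le_mul_of_nonneg_left hn2 hl3.le
      have h4 : Real.log 3 * ((L - 3 * lam - Real.log 2) / D - 1) =
          Real.log 3 / D * L - Real.log 3 / D * (3 * lam + Real.log 2) - Real.log 3 := by
        field_simp
        ring
      rw [h4] at h3
      have h5 : τ * (1 - δ) * u ≤ τ * L := by
        rw [mul_assoc]
        exact mul_le_mul_of_nonneg_left hLu hτ0.le
      have h6 : τ * L = (1 - η) * L + Real.log 3 / D * L - κ * L * Real.log 2 := by
        rw [hτ]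
        ring
      have h7 : 3 * (1 + Real.log 3 / D) * lam +
          (Real.log 2 * (1 + Real.log 3 / D) + Real.log 3) =
            3 * lam + Real.log 2 + Real.log 3 / D * (3 * lam + Real.log 2) + Real.log 3 := by ring
      rw [h7] at e4
      have h8 : κ * L * Real.log 2 ≤ S * Real.log 2 := by linarith
      have h9 : κ * L ≤ S := le_of_mul_le_mul_right h8 hl2
      have h10 : k ≤ S := by exact_mod_cast hk.trans h9
      by_contra hc
      push Not at hc
      obtain ⟨_, _, _, hO⟩ := hR1 _ b4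
      apply hO (S - k) (by omega) (T^[k] b) hc
      rw [← Function.iterate_add_apply]
      congr 1
      omega)
  have hfin : x * Real.exp (-(1 - r) * L) = M * Real.exp (r * L) := by
    rw [hxu, hMv, ← Real.exp_add, ← Real.exp_add, hLuv]
    congr 1
    ring
  rw [hfin]
  have h1 : 2 * (M * Real.exp (r * L)) ≤ 2 * M * Real.exp ((g - d) * n) := by
    rw [← mul_assoc]
    exact mul_le_mul_of_nonneg_left hexp (by positivity)
  linarith

theorem thm_Lower : St_Lower := by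
  intro ε δ hε hδ hδ1
  obtain ⟨c, hc0, h⟩ := thm_LowN ε hε
  refine ⟨c, hc0, ?_⟩
  intro s hs0 hsc
  obtain ⟨ρ, r, η, h1, h2, h3, h4, h5, h6, h7⟩ := h s hs0 hsc
  obtain ⟨x₀, hx₀⟩ := thm_LowU ρ δ r η (g1 + s) h1 h2 h3 hδ hδ1 h4 h5 h6
  refine ⟨max x₀ 1, ?_⟩
  intro x M hx hM hMx
  have hx1 : 1 ≤ x := (le_max_right _ _).trans hx
  refine le_trans ?_ (hx₀ x M ((le_max_left _ _).trans hx) hM hMx)
  apply mul_le_mul_of_nonneg_left _ (by linarith)
  apply Real.exp_le_exp.2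
  have hL : 0 ≤ Real.log (x / M) := by
    apply Real.log_nonneg
    rw [le_div_iff₀ (by linarith), one_mul]
    refine hMx.trans ?_
    calc x ^ δ ≤ x ^ (1 : ℝ) := Real.rpow_le_rpow_of_exponent_le hx1 hδ1.le
      _ = x := Real.rpow_one x
  have h8 : (1 - r) * Real.log (x / M) ≤ (1 + ε) * s ^ 2 / (2 * VV) * Real.log (x / M) :=
    mul_le_mul_of_nonneg_right h7 hL
  have h9 : -(1 + ε) * s ^ 2 * Real.log (x / M) / (2 * VV) =
      -((1 + ε) * s ^ 2 / (2 * VV) * Real.log (x / M)) := by ring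
  rw [h9]
  linarith

end Pool.Agent.UTL
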