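import Pool.Agent.UTL.FinV
import Pool.Agent.UTL.LowU2

set_option autoImplicit false

/-!
The passage time in the plain form, uniformly in the level.
-/

namespace Pool.Agent.UTL

open Finset Filter
open Pool.Agent.Helper27 (T J)

theorem Nx_mono_level {x M M' s : ℝ} (h : M' ≤ M) : Nx x M s ≤ Nx x M' s := by
  unfold Nx
  refine Set.ncard_le_ncard (fun n hn => ⟨hn.1, hn.2.1, fun k hk => h.trans_lt (hn.2.2 k hk)⟩) ?_
  refine (Set.finite_Iic ⌊x⌋₊).subset ?_
  intro n hn
  exact Nat.le_floor hn.2.1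

/-- **Passage times, uniformly in all levels `M`.** -/
theorem pass {θ : ℝ} (h1 : 1 / 2 < θ) (h2 : θ < 1) : ∃ C c : ℝ, 0 < c ∧
    ∀ x M : ℝ, C ≤ x → 1 ≤ M →
      (Nx x M (g1 * Real.log x + Real.log x ^ θ) : ℝ) ≤
        C * x * (M ^ (-c) + Real.exp (-c * Real.log x ^ (2 * θ - 1))) := by
  obtain ⟨C₀, c₀, hc₀, hV⟩ := main_V (1 / 2) (1 / 2) (by norm_num) (by norm_num) (by norm_num)
  have hg1 : 0 < g1 := by
    unfold g1
    have : 0 < Real.log (4 / 3) := Real.log_pos (by norm_num)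
    positivity
  have hVV : 0 < VV := by
    unfold VV
    have a1 : 0 < Real.log (4 / 3) := Real.log_pos (by norm_num)
    have a2 : 0 < Real.log 3 := Real.log_pos (by norm_num)
    positivity
  -- eventual facts
  have e1 : ∀ᶠ l : ℝ in atTop, l ^ (2 * θ - 1) ≤ l / 2 := by
    have h3 : Tendsto (fun l : ℝ => l ^ (-(2 - 2 * θ))) atTop (nhds 0) :=
      tendsto_rpow_neg_atTop (by linarith)
    filter_upwards [h3.eventually (gt_mem_nhds (show (0 : ℝ) < 1 / 2 by norm_num)),
      eventually_gt_atTop 0] with l hl hl0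
    have e : l ^ (2 * θ - 1) = l ^ (-(2 - 2 * θ)) * l := by
      conv_rhs => rw [← Real.rpow_one l, ← Real.rpow_mul hl0.le, ← Real.rpow_add hl0]
      congr 1
      ring
    rw [e]
    nlinarith
  have e2 : ∀ᶠ l : ℝ in atTop, |C₀| * Real.log l * √l ≤ l ^ θ := by
    have h3 := (isLittleO_log_rpow_atTop (show (0 : ℝ) < θ - 1 / 2 by linarith)).def
      (show (0 : ℝ) < 1 / (|C₀| + 1) by positivity)
    filter_upwards [h3, eventually_gt_atTop 1] with l hl hl1
    have hl0 : (0 : ℝ) < l := by linarith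
    have hlog : 0 ≤ Real.log l := Real.log_nonneg hl1.le
    rw [Real.norm_of_nonneg hlog, Real.norm_of_nonneg (by positivity)] at hl
    have h4 : |C₀| * Real.log l ≤ l ^ (θ - 1 / 2) := by
      have h5 : (|C₀| + 1) * Real.log l ≤ l ^ (θ - 1 / 2) := by
        have := mul_le_mul_of_nonneg_left hl (show (0 : ℝ) ≤ |C₀| + 1 by positivity)
        calc (|C₀| + 1) * Real.log l ≤ (|C₀| + 1) * (1 / (|C₀| + 1) * l ^ (θ - 1 / 2)) := this
          _ = l ^ (θ - 1 / 2) := by
            field_simp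
      nlinarith
    calc |C₀| * Real.log l * √l ≤ l ^ (θ - 1 / 2) * √l :=
          mul_le_mul_of_nonneg_right h4 (Real.sqrt_nonneg _)
      _ = l ^ θ := by
          rw [Real.sqrt_eq_rpow, ← Real.rpow_add hl0]
          congr 1
          ring
  obtain ⟨l₀, hl₀⟩ := eventually_atTop.1 (e1.and (e2.and (eventually_gt_atTop 3)))
  refine ⟨max (max C₀ (Real.exp l₀)) (1 + |C₀|), min c₀ (1 / (4 * VV)), by positivity, ?_⟩
  intro x M hx hM
  have hxC₀ : C₀ ≤ x := ((le_max_left _ _).trans (le_max_left _ _)).trans hx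
  have hxl : Real.exp l₀ ≤ x := ((le_max_right _ _).trans (le_max_left _ _)).trans hx
  have hx0 : 0 < x := (Real.exp_pos _).trans_le hxl
  set l := Real.log x with hl
  have hll : l₀ ≤ l := by
    rw [hl, ← Real.log_exp l₀]
    exact Real.log_le_log (Real.exp_pos _) hxl
  obtain ⟨f1, f2, f3⟩ := hl₀ l hll
  have hl0 : 0 < l := by linarith
  set c := min c₀ (1 / (4 * VV)) with hc
  have hcp : 0 < c := by
    rw [hc]
    positivity
  -- the level
  set M' := min M (Real.exp (l ^ (2 * θ - 1))) with hM'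
  have hM'1 : 1 ≤ M' := le_min hM (Real.one_le_exp (by positivity))
  have hM'0 : 0 < M' := by linarith
  have hM'2 : M' ≤ Real.exp (l ^ (2 * θ - 1)) := min_le_right _ _
  have hlogM' : Real.log M' ≤ l / 2 := by
    calc Real.log M' ≤ Real.log (Real.exp (l ^ (2 * θ - 1))) := Real.log_le_log hM'0 hM'2
      _ = l ^ (2 * θ - 1) := Real.log_exp _
      _ ≤ l / 2 := f1
  have hlogM'0 : 0 ≤ Real.log M' := Real.log_nonneg hM'1
  have hM'x : M' ≤ x ^ (1 / 2 : ℝ) := by
    calc M' = Real.exp (Real.log M') := (Real.exp_log hM'0).symm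
      _ ≤ Real.exp (l * (1 / 2)) := Real.exp_le_exp.2 (by linarith)
      _ = x ^ (1 / 2 : ℝ) := by rw [Real.rpow_def_of_pos hx0]
  have hL : Real.log (x / M') = l - Real.log M' := by
    rw [Real.log_div hx0.ne' hM'0.ne']
  have hL0 : 0 < Real.log (x / M') := by
    rw [hL]
    linarith
  have hLl : Real.log (x / M') ≤ l := by
    rw [hL]
    linarith
  set t := l ^ θ + g1 * Real.log M' with ht
  have htl : l ^ θ ≤ t := by
    rw [ht]
    have := mul_nonneg hg1.le hlogM'0
    linarith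
  have hlθ : 0 < l ^ θ := Real.rpow_pos_of_pos hl0 θ
  have hcond : C₀ * Real.log (Real.log x) * √(Real.log (x / M')) ≤ t := by
    have hlogl : 0 ≤ Real.log l := Real.log_nonneg (by linarith)
    calc C₀ * Real.log l * √(Real.log (x / M')) ≤ |C₀| * Real.log l * √(Real.log (x / M')) := by
          refine mul_le_mul_of_nonneg_right ?_ (Real.sqrt_nonneg _)
          exact mul_le_mul_of_nonneg_right (le_abs_self _) hlogl
      _ ≤ |C₀| * Real.log l * √l := by
          refine mul_le_mul_of_nonneg_left (Real.sqrt_le_sqrt hLl) ?_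
          positivity
      _ ≤ l ^ θ := f2
      _ ≤ t := htl
  have hmain := hV x M' t hxC₀ hM'1 hM'x hcond
  have hs : g1 * Real.log (x / M') + t = g1 * l + l ^ θ := by
    rw [hL, ht]
    ring
  rw [hs] at hmain
  have hmono : (Nx x M (g1 * l + l ^ θ) : ℝ) ≤ (Nx x M' (g1 * l + l ^ θ) : ℝ) := by
    exact_mod_cast Nx_mono_level (min_le_left _ _)
  -- the two terms
  have hexp : Real.exp (-(1 - 1 / 2) * t ^ 2 / (2 * VV * Real.log (x / M'))) ≤
      Real.exp (-c * l ^ (2 * θ - 1)) := by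
    refine Real.exp_le_exp.2 ?_
    have g2 : l ^ (2 * θ - 1) * Real.log (x / M') ≤ t ^ 2 := by
      calc l ^ (2 * θ - 1) * Real.log (x / M') ≤ l ^ (2 * θ - 1) * l :=
            mul_le_mul_of_nonneg_left hLl (by positivity)
        _ = (l ^ θ) ^ 2 := by
            rw [← Real.rpow_natCast (l ^ θ) 2, ← Real.rpow_mul hl0.le]
            conv_lhs => rw [← Real.rpow_one l, ← Real.rpow_mul hl0.le, ← Real.rpow_add hl0]
            congr 1
            push_cast
            ring
        _ ≤ t ^ 2 := by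
            have := hlθ.le
            nlinarith
    have g3 : c ≤ 1 / (4 * VV) := min_le_right _ _
    have g4 : 0 < l ^ (2 * θ - 1) := Real.rpow_pos_of_pos hl0 _
    have g5 : l ^ (2 * θ - 1) * (1 / (4 * VV)) ≤ (1 / 2) * t ^ 2 / (2 * VV * Real.log (x / M')) := by
      rw [le_div_iff₀ (by positivity)]
      have : l ^ (2 * θ - 1) * (1 / (4 * VV)) * (2 * VV * Real.log (x / M')) =
          (1 / 2) * (l ^ (2 * θ - 1) * Real.log (x / M')) := by
        field_simp
        ring
      rw [this]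
      linarith
    have g6 : -(1 - 1 / 2) * t ^ 2 / (2 * VV * Real.log (x / M')) =
        -((1 / 2) * t ^ 2 / (2 * VV * Real.log (x / M'))) := by
      ring
    rw [g6]
    have g7 : c * l ^ (2 * θ - 1) ≤ l ^ (2 * θ - 1) * (1 / (4 * VV)) := by
      rw [mul_comm]
      exact mul_le_mul_of_nonneg_left g3 g4.le
    linarith
  have hMc : M' ^ (-c₀) ≤ M ^ (-c) + Real.exp (-c * l ^ (2 * θ - 1)) := by
    have g1' : M' ^ (-c₀) ≤ M' ^ (-c) :=
      Real.rpow_le_rpow_of_exponent_le hM'1 (neg_le_neg (min_le_left _ _))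
    refine g1'.trans ?_
    rcases min_cases M (Real.exp (l ^ (2 * θ - 1))) with ⟨h, -⟩ | ⟨h, -⟩
    · rw [hM', h]
      have := (Real.exp_pos (-c * l ^ (2 * θ - 1))).le
      linarith
    · rw [hM', h, ← Real.exp_mul]
      have e : l ^ (2 * θ - 1) * -c = -c * l ^ (2 * θ - 1) := by ring
      rw [e]
      have : 0 ≤ M ^ (-c) := by positivity
      linarith
  set E := Real.exp (-c * l ^ (2 * θ - 1)) with hE
  have hEp : 0 < E := Real.exp_pos _
  have hMp : 0 ≤ M ^ (-c) := by positivity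
  calc (Nx x M (g1 * l + l ^ θ) : ℝ) ≤ (Nx x M' (g1 * l + l ^ θ) : ℝ) := hmono
    _ ≤ x * Real.exp (-(1 - 1 / 2) * t ^ 2 / (2 * VV * Real.log (x / M'))) + C₀ * x * M' ^ (-c₀) :=
        hmain
    _ ≤ x * E + |C₀| * x * (M ^ (-c) + E) := by
        have k1 := mul_le_mul_of_nonneg_left hexp hx0.le
        have k2 : C₀ * x * M' ^ (-c₀) ≤ |C₀| * x * (M ^ (-c) + E) := by
          calc C₀ * x * M' ^ (-c₀) ≤ |C₀| * x * M' ^ (-c₀) := by
                refine mul_le_mul_of_nonneg_right ?_ (by positivity)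
                exact mul_le_mul_of_nonneg_right (le_abs_self _) hx0.le
            _ ≤ |C₀| * x * (M ^ (-c) + E) := mul_le_mul_of_nonneg_left hMc (by positivity)
        linarith
    _ ≤ (1 + |C₀|) * x * (M ^ (-c) + E) := by
        have : x * E ≤ x * (M ^ (-c) + E) := mul_le_mul_of_nonneg_left (by linarith) hx0.le
        nlinarith
    _ ≤ max (max C₀ (Real.exp l₀)) (1 + |C₀|) * x * (M ^ (-c) + E) := by
        refine mul_le_mul_of_nonneg_right ?_ (by positivity)
        exact mul_le_mul_of_nonneg_right (le_max_right _ _) hx0.le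

end Pool.Agent.UTL
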