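import Pool.Agent.UTL.Defs

set_option autoImplicit false

/-! Elementary inequalities for `log (2 e^x - 1)`. -/

namespace Pool.Agent.UTL

open Real

theorem two_exp_sub_one_pos {x : ℝ} (hx : 0 ≤ x) : 1 ≤ 2 * exp x - 1 := by
  have := one_le_exp hx
  linarith

theorem hasDerivAt_L {x : ℝ} (hx : 0 ≤ x) :
    HasDerivAt (fun t : ℝ => log (2 * exp t - 1)) (2 * exp x / (2 * exp x - 1)) x := by
  have h1 : HasDerivAt (fun t : ℝ => 2 * exp t - 1) (2 * exp x) x :=
    ((Real.hasDerivAt_exp x).const_mul 2).sub_const 1
  exact h1.log (by have := two_exp_sub_one_pos hx; linarith)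

theorem monotone_aux {f f' : ℝ → ℝ} (h : ∀ x, 0 ≤ x → HasDerivAt f (f' x) x)
    (h' : ∀ x, 0 ≤ x → 0 ≤ f' x) {x : ℝ} (hx : 0 ≤ x) : f 0 ≤ f x := by
  have hm : MonotoneOn f (Set.Ici 0) := by
    apply monotoneOn_of_deriv_nonneg (convex_Ici 0)
    · intro y hy
      exact (h y hy).continuousAt.continuousWithinAt
    · intro y hy
      rw [interior_Ici] at hy
      exact (h y (le_of_lt hy)).differentiableAt.differentiableWithinAt
    · intro y hy
      rw [interior_Ici] at hy
      rw [(h y (le_of_lt hy)).deriv]
      exact h' y (le_of_lt hy)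
  exact hm (by simp) hx hx

theorem thm_Alg : St_Alg := by
  intro x hx
  refine ⟨?_, ?_, ?_⟩
  · have key := monotone_aux (f := fun t => log (2 * exp t - 1) - (2 * t - t ^ 2))
      (f' := fun t => 2 * exp t / (2 * exp t - 1) - (2 - 2 * t))
      (fun y hy => by
        have h1 : HasDerivAt (fun t : ℝ => 2 * t - t ^ 2) (2 - 2 * y) y := by
          have h2 := ((hasDerivAt_id y).const_mul 2).sub ((hasDerivAt_id y).pow 2)
          refine h2.congr_deriv ?_
          simp
        exact (hasDerivAt_L hy).sub h1)
      (fun y hy => by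
        have h1 := two_exp_sub_one_pos hy
        have h2 : 2 * exp y / (2 * exp y - 1) = 1 + 1 / (2 * exp y - 1) := by
          field_simp
          ring
        rw [h2]
        rcases le_or_gt (1 / 2) y with h3 | h3
        · have : 0 ≤ 1 / (2 * exp y - 1) := by positivity
          linarith
        · -- `e^y ≤ 1 / (1 - y)`
          have h4 : exp y * (1 - y) ≤ 1 := by
            have h5 := Real.add_one_le_exp (-y)
            have h6 : exp y * exp (-y) = 1 := by rw [← Real.exp_add]; simp
            calc exp y * (1 - y) ≤ exp y * exp (-y) :=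
                  mul_le_mul_of_nonneg_left (by linarith) (exp_pos y).le
              _ = 1 := h6
          have h7 : 1 - 2 * y ≤ 1 / (2 * exp y - 1) := by
            rw [le_div_iff₀ (by linarith)]
            nlinarith [h4, mul_nonneg hy hy, h1]
          linarith) hx
    simp only [exp_zero, mul_zero] at key
    norm_num at key
    linarith
  · have key := monotone_aux (f := fun t => 2 * t - t ^ 2 + t ^ 3 - log (2 * exp t - 1))
      (f' := fun t => 2 - 2 * t + 3 * t ^ 2 - 2 * exp t / (2 * exp t - 1))
      (fun y hy => by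
        have h1 : HasDerivAt (fun t : ℝ => 2 * t - t ^ 2 + t ^ 3) (2 - 2 * y + 3 * y ^ 2) y := by
          have h2 := (((hasDerivAt_id y).const_mul 2).sub ((hasDerivAt_id y).pow 2)).add
            ((hasDerivAt_id y).pow 3)
          refine h2.congr_deriv ?_
          simp
        exact h1.sub (hasDerivAt_L hy))
      (fun y hy => by
        have h1 := two_exp_sub_one_pos hy
        have h2 : 2 * exp y / (2 * exp y - 1) = 1 + 1 / (2 * exp y - 1) := by
          field_simp
          ring
        rw [h2]
        have h3 : 1 + y + y ^ 2 / 2 ≤ exp y := Real.quadratic_le_exp_of_nonneg hy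
        have h4 : 1 / (2 * exp y - 1) ≤ 1 / (1 + y) ^ 2 :=
          one_div_le_one_div_of_le (by positivity) (by nlinarith)
        have h5 : 1 / (1 + y) ^ 2 ≤ 1 - 2 * y + 3 * y ^ 2 := by
          rw [div_le_iff₀ (by positivity)]
          nlinarith [pow_nonneg hy 3, pow_nonneg hy 4]
        linarith) hx
    simp only [exp_zero, mul_zero] at key
    norm_num at key
    linarith
  · have h1 := two_exp_sub_one_pos hx
    have h2 : log (2 * exp x - 1) ≤ log (exp (2 * x)) := by
      apply log_le_log (by linarith)
      have h3 : exp (2 * x) = exp x * exp x := by rw [← Real.exp_add]; ring_nf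
      rw [h3]
      nlinarith [sq_nonneg (exp x - 1)]
    rwa [log_exp] at h2

theorem le_two_exp {x : ℝ} (hx : 0 ≤ x) : exp (2 * x - x ^ 2) ≤ 2 * exp x - 1 := by
  have h1 := two_exp_sub_one_pos hx
  rw [← Real.le_log_iff_exp_le (by linarith)]
  exact (thm_Alg x hx).1

theorem two_exp_le {x : ℝ} (hx : 0 ≤ x) : 2 * exp x - 1 ≤ exp (2 * x) := by
  have h1 := two_exp_sub_one_pos hx
  rw [← Real.log_le_iff_le_exp (by linarith)]
  exact (thm_Alg x hx).2.2

end Pool.Agent.UTL
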