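import Pool.Agent.UTL.Cnt

set_option autoImplicit false

/-! Means over residues: the mass formula and the Jensen inequality. -/

namespace Pool.Agent.UTL

open Finset
open Pool.Agent.Collatz3 (cw)
open Pool.Agent.Collatz3.Mix (words mem_words)
open Pool.Agent.Collatz3.PD (rd en en_spec Per A S S_en S_mono S_nonneg three_pow_dvd_of_mul en_add
  rd_add)

theorem Et_eq (σ : ℝ) (G : Finset (List ℕ)) (f : ℤ → ℝ) (x : ℤ) : Et σ G f x =
    ∑ w ∈ G, 3 ^ w.length * wt σ w * (if rd w x then f (en w x) else 0) := by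
  unfold Et
  rw [sum_filter]
  apply sum_congr rfl
  intro w _
  split_ifs <;> simp

theorem S_sum {ι : Type*} (s : Finset ι) (k : ℕ) (f : ι → ℤ → ℝ) :
    S k (fun x => ∑ i ∈ s, f i x) = ∑ i ∈ s, S k (f i) := by
  unfold S
  exact sum_comm

theorem S_smul (k : ℕ) (c : ℝ) (f : ℤ → ℝ) : S k (fun x => c * f x) = c * S k f := by
  unfold S
  rw [mul_sum]

theorem thm_Avg : St_Avg := by
  intro σ G j N f hG hf
  unfold A mass
  have h1 : (fun x => Et σ G f x) = fun x => ∑ w ∈ G,
      (3 ^ w.length * wt σ w) * (if rd w x then f (en w x) else 0) := by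
    funext x
    exact Et_eq σ G f x
  have h2 : S (j + N) (Et σ G f) = ∑ w ∈ G, 3 ^ j * wt σ w * S N f := by
    change S (j + N) (fun x => Et σ G f x) = _
    rw [h1, S_sum]
    apply sum_congr rfl
    intro w hw
    rw [S_smul, S_en (hG w hw) hf, hG w hw]
  rw [h2, ← sum_mul, ← mul_sum, pow_add]
  field_simp

theorem rd_unique {w : List ℕ} {x x' : ℤ} (h : rd w x) (h' : rd w x') :
    (3 : ℤ) ^ w.length ∣ x - x' := by
  apply three_pow_dvd_of_mul (s := w.sum)
  have := dvd_sub h h'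
  have e : 2 ^ w.sum * x - (cw w : ℤ) - (2 ^ w.sum * x' - cw w) = 2 ^ w.sum * (x - x') := by ring
  rwa [e] at this

theorem S_zero (f : ℤ → ℝ) : S 0 f = f 0 := by
  unfold S
  simp

theorem exists_rd (w : List ℕ) : ∃ x : ℤ, rd w x := by
  by_contra hc
  push Not at hc
  have h1 := S_en (v := w) (d := w.length) (l := 0) rfl (f := fun _ => 1) (fun _ _ => rfl)
  rw [S_zero] at h1
  have h2 : S (w.length + 0) (fun x => if rd w x then (1 : ℝ) else 0) = 0 := by
    unfold S
    exact sum_eq_zero fun x _ => if_neg (hc _)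
  rw [h2] at h1
  norm_num at h1

theorem S_mul_en {j N : ℕ} {w : List ℕ} (hw : w.length = j) {g h : ℤ → ℝ} (hg : Per j g)
    (hh : Per N h) : S (j + N) (fun x => if rd w x then g x * h (en w x) else 0) =
      S j (fun x => if rd w x then g x else 0) * S N h := by
  obtain ⟨x₀, hx₀⟩ := exists_rd w
  have key : ∀ x : ℤ, rd w x → g x = g x₀ := by
    intro x hx
    apply hg.of_dvd
    rw [← hw]
    exact rd_unique hx hx₀
  have h1 : (fun x => if rd w x then g x * h (en w x) else 0) =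
      fun x => g x₀ * (if rd w x then h (en w x) else 0) := by
    funext x
    by_cases hx : rd w x
    · rw [if_pos hx, if_pos hx, key x hx]
    · rw [if_neg hx, if_neg hx, mul_zero]
  have h2 : (fun x => if rd w x then g x else 0) =
      fun x => g x₀ * (if rd w x then (1 : ℝ) else 0) := by
    funext x
    by_cases hx : rd w x
    · rw [if_pos hx, if_pos hx, key x hx, mul_one]
    · rw [if_neg hx, if_neg hx, mul_zero]
  have h3 := S_en (v := w) (d := j) (l := 0) hw (f := fun _ => 1) (fun _ _ => rfl)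
  rw [S_zero, Nat.add_zero] at h3
  rw [h1, h2, S_smul, S_smul, S_en hw hh, h3, mul_one]

theorem A_mul_Et {σ : ℝ} {G : Finset (List ℕ)} {j N : ℕ} {g h : ℤ → ℝ}
    (hG : ∀ w ∈ G, w.length = j) (hg : Per j g) (hh : Per N h) :
    A (j + N) (fun x => g x * Et σ G h x) = A j (fun x => g x * Et σ G (fun _ => 1) x) * A N h := by
  unfold A
  have h1 : S (j + N) (fun x => g x * Et σ G h x) =
      ∑ w ∈ G, (3 ^ j * wt σ w) * (S j (fun x => if rd w x then g x else 0) * S N h) := by
    have e : (fun x => g x * Et σ G h x) = fun x => ∑ w ∈ G,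
        (3 ^ w.length * wt σ w) * (if rd w x then g x * h (en w x) else 0) := by
      funext x
      rw [Et_eq, mul_sum]
      apply sum_congr rfl
      intro w _
      split_ifs <;> ring
    rw [e, S_sum]
    apply sum_congr rfl
    intro w hw
    rw [S_smul, S_mul_en (hG w hw) hg hh, hG w hw]
  have h2 : S j (fun x => g x * Et σ G (fun _ => 1) x) =
      ∑ w ∈ G, (3 ^ j * wt σ w) * S j (fun x => if rd w x then g x else 0) := by
    have e : (fun x => g x * Et σ G (fun _ => 1) x) = fun x => ∑ w ∈ G,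
        (3 ^ w.length * wt σ w) * (if rd w x then g x else 0) := by
      funext x
      rw [Et_eq, mul_sum]
      apply sum_congr rfl
      intro w _
      split_ifs <;> ring
    rw [e, S_sum]
    apply sum_congr rfl
    intro w hw
    rw [S_smul, hG w hw]
  rw [h1, h2, pow_add]
  have h3 : ∑ w ∈ G, (3 ^ j * wt σ w) * (S j (fun x => if rd w x then g x else 0) * S N h) =
      (∑ w ∈ G, (3 ^ j * wt σ w) * S j (fun x => if rd w x then g x else 0)) * S N h := by
    rw [sum_mul]
    exact sum_congr rfl fun w _ => by ring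
  rw [h3]
  field_simp

/-- the weighted power mean inequality -/
theorem pow_mean {ι : Type*} (s : Finset ι) (a f : ι → ℝ) (ha : ∀ i ∈ s, 0 ≤ a i)
    (hf : ∀ i ∈ s, 0 ≤ f i) {q : ℕ} (hq : 1 ≤ q) :
    (∑ i ∈ s, a i * f i) ^ q ≤ (∑ i ∈ s, a i) ^ (q - 1) * ∑ i ∈ s, a i * f i ^ q := by
  obtain ⟨B, hB⟩ : ∃ B, B = ∑ i ∈ s, a i := ⟨_, rfl⟩
  rw [← hB]
  have hB0 : 0 ≤ B := by rw [hB]; exact sum_nonneg ha
  rcases eq_or_lt_of_le hB0 with h | h
  · have h1 : ∀ i ∈ s, a i = 0 := by
      rw [← sum_eq_zero_iff_of_nonneg ha, ← hB, h]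
    have h2 : ∑ i ∈ s, a i * f i = 0 := sum_eq_zero fun i hi => by rw [h1 i hi, zero_mul]
    have h3 : ∑ i ∈ s, a i * f i ^ q = 0 := sum_eq_zero fun i hi => by rw [h1 i hi, zero_mul]
    rw [h2, h3, mul_zero, zero_pow (by omega)]
  · have h1 := Real.pow_arith_mean_le_arith_mean_pow s (fun i => a i / B) f
      (fun i hi => div_nonneg (ha i hi) hB0)
      (by rw [← sum_div, ← hB, div_self h.ne']) hf q
    have h2 : ∑ i ∈ s, a i / B * f i = (∑ i ∈ s, a i * f i) / B := by
      rw [sum_div]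
      exact sum_congr rfl fun i _ => by ring
    have h3 : ∑ i ∈ s, a i / B * f i ^ q = (∑ i ∈ s, a i * f i ^ q) / B := by
      rw [sum_div]
      exact sum_congr rfl fun i _ => by ring
    rw [h2, h3, div_pow, div_le_div_iff₀ (by positivity) h] at h1
    have h4 : B ^ q = B ^ (q - 1) * B := by
      rw [← pow_succ]
      congr 1
      omega
    rw [h4] at h1
    have h5 : (∑ i ∈ s, a i * f i) ^ q * B ≤ (B ^ (q - 1) * ∑ i ∈ s, a i * f i ^ q) * B := by
      calc (∑ i ∈ s, a i * f i) ^ q * B ≤ (∑ i ∈ s, a i * f i ^ q) * (B ^ (q - 1) * B) := h1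
        _ = (B ^ (q - 1) * ∑ i ∈ s, a i * f i ^ q) * B := by ring
    exact le_of_mul_le_mul_right h5 h

theorem Et_pow_le {σ : ℝ} (hσ : 0 ≤ σ) (G : Finset (List ℕ)) {f : ℤ → ℝ} (hf : ∀ x, 0 ≤ f x)
    {q : ℕ} (hq : 1 ≤ q) (x : ℤ) :
    Et σ G f x ^ q ≤ Et σ G (fun _ => 1) x ^ (q - 1) * Et σ G (fun y => f y ^ q) x := by
  have h := pow_mean (G.filter fun w => rd w x) (fun w => 3 ^ w.length * wt σ w)
    (fun w => f (en w x)) (fun w _ => mul_nonneg (by positivity) (wt_nonneg hσ w))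
    (fun w _ => hf _) hq
  unfold Et
  simpa using h

theorem Per_Et {σ : ℝ} {G : Finset (List ℕ)} {j N : ℕ} {f : ℤ → ℝ}
    (hG : ∀ w ∈ G, w.length = j) (hf : Per N f) : Per (j + N) (Et σ G f) := by
  intro x t
  rw [Et_eq, Et_eq]
  apply sum_congr rfl
  intro w hw
  have e : x + 3 ^ (j + N) * t = x + 3 ^ w.length * (3 ^ N * t) := by
    rw [hG w hw, pow_add]
    ring
  rw [e]
  by_cases h : rd w x
  · rw [if_pos h, if_pos (rd_add.2 h), en_add h]
    congr 1
    have e2 : en w x + 2 ^ w.sum * (3 ^ N * t) = en w x + 3 ^ N * (2 ^ w.sum * t) := by ring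
    rw [e2, hf]
  · rw [if_neg h, if_neg (fun h' => h (rd_add.1 h'))]

theorem Per_one (σ : ℝ) {G : Finset (List ℕ)} {j : ℕ} (hG : ∀ w ∈ G, w.length = j) :
    Per j (Et σ G fun _ => 1) :=
  Per_Et (N := 0) hG (fun _ _ => rfl)

theorem A_mono {k : ℕ} {f g : ℤ → ℝ} (h : ∀ x, f x ≤ g x) : A k f ≤ A k g :=
  div_le_div_of_nonneg_right (S_mono h) (by positivity)

theorem A_nonneg {k : ℕ} {f : ℤ → ℝ} (h : ∀ x, 0 ≤ f x) : 0 ≤ A k f :=
  div_nonneg (S_nonneg h) (by positivity)

theorem thm_Jen : St_Jen := by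
  intro σ G j N q f hσ hq hG hf0 hf
  have hC := Per_one σ hG
  have h1 : A (j + N) (fun x => Et σ G f x ^ q) ≤
      A (j + N) (fun x => Et σ G (fun _ => 1) x ^ (q - 1) * Et σ G (fun y => f y ^ q) x) :=
    A_mono fun x => Et_pow_le hσ G hf0 hq x
  have hg : Per j (fun x => Et σ G (fun _ => 1) x ^ (q - 1)) := by
    intro x t
    simp only
    rw [hC x t]
  have hh : Per N (fun y => f y ^ q) := by
    intro x t
    simp only
    rw [hf x t]
  rw [A_mul_Et hG hg hh] at h1
  refine h1.trans (le_of_eq ?_)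
  congr 2
  funext x
  rw [← pow_succ]
  congr 1
  omega

end Pool.Agent.UTL
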