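import Pool.Agent.UTL.Chain

set_option autoImplicit false

/-! The bad points of one stage. -/

namespace Pool.Agent.UTL

open Finset
open Pool.Agent.Helper27 (T J two_mul_T J_add J_mod J_le affine c_bound c sum_split J_add_mul)

theorem sum_pow_J (t : ℝ) : ∀ m : ℕ, ∑ r ∈ range (2 ^ m), t ^ J m r = (1 + t) ^ m := by
  intro m
  induction m with
  | zero => simp [J]
  | succ m ih =>
    have h := sum_split 1 m (fun u w => t ^ (u % 2) * t ^ J m w)
    rw [add_comm 1 m] at h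
    have e1 : ∑ n ∈ range (2 ^ (m + 1)), t ^ (n % 2 ^ 1 % 2) * t ^ J m (T^[1] n % 2 ^ m) =
        ∑ n ∈ range (2 ^ (m + 1)), t ^ J (m + 1) n := by
      apply sum_congr rfl
      intro n _
      rw [J_mod, pow_one, Nat.mod_mod, Function.iterate_one, J, pow_add]
    rw [e1] at h
    rw [h]
    simp only [pow_one, sum_range_succ, sum_range_zero, zero_add, Nat.zero_mod, pow_zero, one_mul]
    have e2 : 1 % 2 = 1 := rfl
    rw [e2, ← mul_sum, ih, pow_succ]
    ring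

theorem sum_mod_mul (g : ℕ → ℝ) (P : ℕ) (R : ℕ) :
    ∑ n ∈ range (R * P), g (n % P) = R * ∑ r ∈ range P, g r := by
  induction R with
  | zero => simp
  | succ R ih =>
    rw [Nat.succ_mul, sum_range_add, ih]
    have h : ∑ j ∈ range P, g ((R * P + j) % P) = ∑ r ∈ range P, g r := by
      apply sum_congr rfl
      intro j hj
      rw [mem_range] at hj
      rw [Nat.mul_add_mod', Nat.mod_eq_of_lt hj]
    rw [h]
    push_cast
    ring

theorem sum_mod_le {g : ℕ → ℝ} (hg : ∀ r, 0 ≤ g r) {P : ℕ} (hP : 0 < P) (n : ℕ) :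
    ∑ i ∈ range n, g (i % P) ≤ ((n : ℝ) / P + 1) * ∑ r ∈ range P, g r := by
  obtain ⟨R, hR⟩ : ∃ R : ℕ, R = n / P + 1 := ⟨_, rfl⟩
  have h1 : n ≤ R * P := by
    rw [hR]
    have h4 := Nat.div_add_mod n P
    have h5 := Nat.mod_lt n hP
    calc n = P * (n / P) + n % P := h4.symm
      _ ≤ P * (n / P) + P := by omega
      _ = _ := by ring
  have h2 : ∑ i ∈ range n, g (i % P) ≤ ∑ i ∈ range (R * P), g (i % P) :=
    sum_le_sum_of_subset_of_nonneg (range_mono h1) fun _ _ _ => hg _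
  rw [sum_mod_mul g P] at h2
  refine h2.trans ?_
  apply mul_le_mul_of_nonneg_right _ (sum_nonneg fun _ _ => hg _)
  rw [hR]
  push_cast
  have : ((n / P : ℕ) : ℝ) ≤ (n : ℝ) / P := Nat.cast_div_le
  linarith

/-- few odd steps lead down -/
theorem down {K m : ℕ} (hK : 100 ≤ K) (hm : m = 9 * K / 5) :
    (3 : ℝ) ^ K / 2 ^ m + (3 / 2) ^ m * Real.exp (-(50 * K)) < Real.exp (-(K : ℝ) / 8) := by
  have hKR : (100 : ℝ) ≤ K := by exact_mod_cast hK
  have hm1 : 9 * K ≤ 5 * m + 4 := by omega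
  have hm2 : 5 * m ≤ 9 * K := by omega
  have hm1R : 9 * (K : ℝ) ≤ 5 * m + 4 := by exact_mod_cast hm1
  have hm2R : 5 * (m : ℝ) ≤ 9 * K := by exact_mod_cast hm2
  have l2a := Real.log_two_gt_d9
  have l2b := Real.log_two_lt_d9
  have l3 : Real.log 3 < 11 / 10 := by
    have h : Real.log (3 ^ 12) < Real.log (2 ^ 20) :=
      Real.log_lt_log (by norm_num) (by norm_num)
    rw [Real.log_pow, Real.log_pow] at h
    push_cast at h
    have : Real.log 3 < 20 / 12 * Real.log 2 := by linarith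
    -- a better bound
    have h' : Real.log (3 ^ 5) < Real.log (2 ^ 8) :=
      Real.log_lt_log (by norm_num) (by norm_num)
    have h'' : Real.log (3 ^ 29) < Real.log (2 ^ 46) :=
      Real.log_lt_log (by norm_num) (by norm_num)
    rw [Real.log_pow, Real.log_pow] at h''
    push_cast at h''
    linarith
  have e1 : (3 : ℝ) ^ K / 2 ^ m = Real.exp (K * Real.log 3 - m * Real.log 2) := by
    rw [Real.exp_sub, Real.exp_nat_mul, Real.exp_nat_mul, Real.exp_log (by norm_num),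
      Real.exp_log (by norm_num)]
  have e2 : (3 : ℝ) ^ K / 2 ^ m ≤ Real.exp (-(147 / 1000) * K + 14 / 25) := by
    rw [e1]
    apply Real.exp_le_exp.2
    have h1 : (m : ℝ) * Real.log 2 ≥ (9 / 5 * K - 4 / 5) * Real.log 2 := by
      apply mul_le_mul_of_nonneg_right _ (by linarith)
      linarith
    have h2 : (K : ℝ) * Real.log 3 ≤ K * (11 / 10) := mul_le_mul_of_nonneg_left l3.le (by linarith)
    have h3 : (9 / 5 * (K : ℝ) - 4 / 5) * Real.log 2 ≥ (9 / 5 * K - 4 / 5) * 0.6931 := by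
      apply mul_le_mul_of_nonneg_left _ (by linarith)
      linarith
    nlinarith
  have e3 : (3 / 2 : ℝ) ^ m ≤ Real.exp m := by
    have h1 : (3 / 2 : ℝ) ≤ Real.exp 1 := by
      have := Real.add_one_le_exp (1 : ℝ)
      linarith
    calc (3 / 2 : ℝ) ^ m ≤ Real.exp 1 ^ m := pow_le_pow_left₀ (by norm_num) h1 m
      _ = Real.exp m := by rw [← Real.exp_nat_mul, mul_one]
  have e4 : (3 / 2 : ℝ) ^ m * Real.exp (-(50 * K)) ≤ Real.exp (-(48 * K)) := by
    calc (3 / 2 : ℝ) ^ m * Real.exp (-(50 * K)) ≤ Real.exp m * Real.exp (-(50 * K)) :=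
          mul_le_mul_of_nonneg_right e3 (Real.exp_pos _).le
      _ = Real.exp (m + -(50 * K)) := (Real.exp_add _ _).symm
      _ ≤ Real.exp (-(48 * K)) := Real.exp_le_exp.2 (by linarith)
  have e5 : Real.exp (-(147 / 1000) * K + 14 / 25) ≤ Real.exp (-1) * Real.exp (-(K : ℝ) / 8) := by
    rw [← Real.exp_add]
    apply Real.exp_le_exp.2
    linarith
  have e6 : Real.exp (-(48 * (K : ℝ))) ≤ Real.exp (-1) * Real.exp (-(K : ℝ) / 8) := by
    rw [← Real.exp_add]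
    apply Real.exp_le_exp.2
    linarith
  have e7 : Real.exp (-1) < 1 / 2 := by
    rw [Real.exp_neg, inv_lt_comm₀ (Real.exp_pos _) (by norm_num)]
    have := Real.exp_one_gt_d9
    norm_num
    linarith
  have e8 := Real.exp_pos (-(K : ℝ) / 8)
  nlinarith

theorem pow_div_aux {a b : ℝ} (ha : 1 ≤ a) (hb : 0 < b) {K m : ℕ} (hm : m * 5 ≤ 9 * K) :
    (a ^ m / b ^ K) ^ 5 ≤ (a ^ 9 / b ^ 5) ^ K := by
  have ha0 : 0 < a := by linarith
  rw [div_pow, div_pow, ← pow_mul, ← pow_mul, ← pow_mul, ← pow_mul, mul_comm K 5]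
  apply div_le_div_of_nonneg_right _ (by positivity)
  exact pow_le_pow_right₀ ha hm

theorem chern {K m : ℕ} (hm : m = 9 * K / 5) :
    (11 / 10 : ℝ) ^ m / (6 / 5) ^ K ≤ Real.exp (-(K : ℝ) / 100) := by
  have hm2 : m * 5 ≤ 9 * K := by omega
  have h1 : ((11 / 10 : ℝ) ^ m / (6 / 5) ^ K) ^ 5 ≤ (Real.exp (-(K : ℝ) / 100)) ^ 5 := by
    have e1 : (Real.exp (-(K : ℝ) / 100)) ^ 5 = Real.exp (-(1 / 20)) ^ K := by
      rw [← Real.exp_nat_mul, ← Real.exp_nat_mul]
      congr 1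
      push_cast
      ring
    have e2 : ((11 / 10 : ℝ) ^ m / (6 / 5) ^ K) ^ 5 ≤ ((11 / 10 : ℝ) ^ 9 / (6 / 5) ^ 5) ^ K :=
      pow_div_aux (by norm_num) (by norm_num) hm2
    rw [e1]
    refine e2.trans (pow_le_pow_left₀ (by positivity) ?_ K)
    have := Real.add_one_le_exp (-(1 / 20) : ℝ)
    refine le_trans ?_ this
    norm_num
  exact (pow_le_pow_iff_left₀ (by positivity) (Real.exp_pos _).le (by norm_num)).1 h1

theorem exists_pas {y' : ℝ} {n m K : ℕ} (h : (T^[m] n : ℝ) ≤ y') (hJ : J m n ≤ K) :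
    ∃ k b, Pas y' n k b ∧ J k n ≤ K := by
  classical
  have hex : ∃ k : ℕ, (T^[k] n : ℝ) ≤ y' := ⟨m, h⟩
  obtain ⟨k, hk, hmin⟩ : ∃ k, (T^[k] n : ℝ) ≤ y' ∧ ∀ k' < k, ¬ (T^[k'] n : ℝ) ≤ y' :=
    ⟨Nat.find hex, Nat.find_spec hex, fun k' h => Nat.find_min hex h⟩
  have hkm : k ≤ m := by
    by_contra hc
    exact hmin m (by omega) h
  refine ⟨k, T^[k] n, ⟨rfl, hk, fun j hj => not_le.1 (hmin j hj)⟩, ?_⟩
  obtain ⟨l, rfl⟩ := Nat.exists_eq_add_of_le hkm
  rw [J_add] at hJ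
  omega

theorem thm_Bad : St_Bad := by
  classical
  refine ⟨1 / 10000, by norm_num, Real.exp 20000, Real.one_le_exp (by norm_num), ?_⟩
  intro y y' K hy hK hyy _
  have hy0 : 0 < y := lt_of_lt_of_le (Real.exp_pos _) hy
  have hlog : 20000 ≤ Real.log y := by
    rw [Real.le_log_iff_exp_le hy0]
    exact hy
  have hK1 : (K : ℝ) ≤ Real.log y / 50 := by
    rw [hK]
    exact Nat.floor_le (by positivity)
  have hK2 : Real.log y / 50 < K + 1 := by
    rw [hK]
    exact Nat.lt_floor_add_one _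
  have hK3 : 100 ≤ K := by
    have : (100 : ℝ) ≤ K := by linarith
    exact_mod_cast this
  obtain ⟨m, hm⟩ : ∃ m : ℕ, m = 9 * K / 5 := ⟨_, rfl⟩
  have hm2 : m * 5 ≤ 9 * K := by omega
  have hm2R : (m : ℝ) * 5 ≤ 9 * K := by exact_mod_cast hm2
  have hy1 : 1 ≤ y := by
    refine le_trans ?_ hy
    exact Real.one_le_exp (by norm_num)
  have hylog : y = Real.exp (Real.log y) := (Real.exp_log hy0).symm
  have h2m : (2 : ℝ) ^ m ≤ y := by
    have e1 : (2 : ℝ) ≤ Real.exp 1 := by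
      have := Real.add_one_le_exp (1 : ℝ)
      linarith
    calc (2 : ℝ) ^ m ≤ Real.exp 1 ^ m := pow_le_pow_left₀ (by norm_num) e1 m
      _ = Real.exp m := by rw [← Real.exp_nat_mul, mul_one]
      _ ≤ Real.exp (Real.log y) := Real.exp_le_exp.2 (by linarith)
      _ = y := Real.exp_log hy0
  -- few odd steps
  have hsmall : ∀ n ∈ Bd y y' K, K < J m n := by
    intro n hn
    unfold Bd at hn
    rw [mem_filter, mem_Lv hy0.le] at hn
    by_contra hc
    push Not at hc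
    apply hn.2
    apply exists_pas _ hc
    refine le_trans ?_ hyy
    have h1 := affine m n
    have h2 := c_bound m n
    have h1R : (2 : ℝ) ^ m * (T^[m] n : ℝ) = 3 ^ (J m n) * (n : ℝ) + (c m n : ℝ) := by
      exact_mod_cast h1
    have h2R : (c m n : ℝ) ≤ 3 ^ m := by
      have : c m n ≤ 3 ^ m := (Nat.le_add_right _ _).trans h2
      exact_mod_cast this
    have h3 : (3 : ℝ) ^ (J m n) ≤ 3 ^ K := pow_le_pow_right₀ (by norm_num) hc
    have h4 : (2 : ℝ) ^ m * (T^[m] n : ℝ) ≤ 3 ^ K * y + 3 ^ m := by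
      rw [h1R]
      have : (3 : ℝ) ^ (J m n) * (n : ℝ) ≤ 3 ^ K * y :=
        mul_le_mul h3 hn.1.1 (Nat.cast_nonneg n) (by positivity)
      linarith
    have h5 : (T^[m] n : ℝ) ≤ (3 ^ K * y + 3 ^ m) / 2 ^ m := by
      rw [le_div_iff₀ (by positivity)]
      linarith
    refine h5.trans ?_
    have h6 := down hK3 hm
    have h7 : 1 / y ≤ Real.exp (-(50 * K)) := by
      rw [one_div, hylog, ← Real.exp_neg]
      apply Real.exp_le_exp.2
      linarith
    have h8 : ((3 : ℝ) ^ K * y + 3 ^ m) / 2 ^ m = y * (3 ^ K / 2 ^ m + (3 / 2) ^ m * (1 / y)) := by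
      rw [div_pow]
      field_simp
    rw [h8]
    apply mul_le_mul_of_nonneg_left _ hy0.le
    refine le_trans ?_ h6.le
    have h9 : (3 / 2 : ℝ) ^ m * (1 / y) ≤ (3 / 2) ^ m * Real.exp (-(50 * K)) :=
      mul_le_mul_of_nonneg_left h7 (by positivity)
    linarith
  -- the count
  have h1 : ((Bd y y' K).card : ℝ) ≤ ∑ n ∈ range (⌊y⌋₊ + 1),
      (6 / 5 : ℝ) ^ J m (n % 2 ^ m) / (6 / 5) ^ K := by
    have e1 : ((Bd y y' K).card : ℝ) ≤ ∑ n ∈ Bd y y' K,
        (6 / 5 : ℝ) ^ J m (n % 2 ^ m) / (6 / 5) ^ K := by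
      rw [card_eq_sum_ones]
      push_cast
      apply sum_le_sum
      intro n hn
      rw [J_mod, le_div_iff₀ (by positivity), one_mul]
      exact pow_le_pow_right₀ (by norm_num) (hsmall n hn).le
    refine e1.trans (sum_le_sum_of_subset_of_nonneg ?_ fun _ _ _ => by positivity)
    intro n hn
    unfold Bd at hn
    rw [mem_filter, mem_Lv hy0.le] at hn
    rw [mem_range, Nat.lt_succ_iff, Nat.le_floor_iff hy0.le]
    exact hn.1.1
  refine h1.trans ?_
  have h2 := sum_mod_le (g := fun r => (6 / 5 : ℝ) ^ J m r / (6 / 5) ^ K)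
    (fun r => by positivity) (by positivity : 0 < 2 ^ m) (⌊y⌋₊ + 1)
  refine h2.trans ?_
  rw [← sum_div, sum_pow_J]
  have h3 : ((⌊y⌋₊ : ℕ) : ℝ) ≤ y := Nat.floor_le hy0.le
  push_cast
  have h4 : ((⌊y⌋₊ : ℕ) : ℝ) + 1 + 2 ^ m ≤ 3 * y := by linarith
  have h5 : ((((⌊y⌋₊ : ℕ) : ℝ) + 1) / 2 ^ m + 1) * ((1 + 6 / 5) ^ m / (6 / 5) ^ K) ≤
      3 * y * ((11 / 10) ^ m / (6 / 5) ^ K) := by
    have e1 : (((⌊y⌋₊ : ℕ) : ℝ) + 1) / 2 ^ m + 1 = (((⌊y⌋₊ : ℕ) : ℝ) + 1 + 2 ^ m) / 2 ^ m := by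
      field_simp
    have e2 : (1 + 6 / 5 : ℝ) ^ m = 2 ^ m * (11 / 10) ^ m := by
      rw [← mul_pow]
      norm_num
    rw [e1, e2]
    calc (((⌊y⌋₊ : ℕ) : ℝ) + 1 + 2 ^ m) / 2 ^ m * (2 ^ m * (11 / 10) ^ m / (6 / 5) ^ K)
        = (((⌊y⌋₊ : ℕ) : ℝ) + 1 + 2 ^ m) * ((11 / 10) ^ m / (6 / 5) ^ K) := by
          field_simp
      _ ≤ _ := mul_le_mul_of_nonneg_right h4 (by positivity)
  refine h5.trans ?_
  have h6 := chern (K := K) hm
  have h7 : Real.exp (-(K : ℝ) / 100) ≤ Real.exp (1 / 100) * Real.exp (-(Real.log y) / 5000) := by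
    rw [← Real.exp_add]
    apply Real.exp_le_exp.2
    linarith
  have h8 : Real.exp (1 / 100) ≤ 4 / 3 := by
    have e1 : Real.exp (1 / 100) ≤ Real.exp 1 ^ (1 / 4 : ℝ) := by
      rw [← Real.exp_mul]
      apply Real.exp_le_exp.2
      norm_num
    have e2 : Real.exp 1 ^ (1 / 4 : ℝ) ≤ 3 ^ (1 / 4 : ℝ) :=
      Real.rpow_le_rpow (Real.exp_pos _).le Real.exp_one_lt_three.le (by norm_num)
    have e3 : (3 : ℝ) ^ (1 / 4 : ℝ) ≤ 4 / 3 := by
      have e4 : ((4 / 3 : ℝ) ^ 4) ^ (1 / 4 : ℝ) = 4 / 3 := by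
        rw [← Real.rpow_natCast, ← Real.rpow_mul (by norm_num)]
        norm_num
      rw [← e4]
      exact Real.rpow_le_rpow (by norm_num) (by norm_num) (by norm_num)
    linarith
  have h9 : y ^ (1 - 1 / 10000 : ℝ) = y * Real.exp (-(Real.log y) / 10000) := by
    rw [Real.rpow_sub hy0, Real.rpow_one, Real.rpow_def_of_pos hy0, div_eq_mul_inv, ← Real.exp_neg]
    congr 2
    ring
  have h10 : Real.exp (-(Real.log y) / 5000) =
      Real.exp (-(Real.log y) / 10000) * Real.exp (-(Real.log y) / 10000) := by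
    rw [← Real.exp_add]
    congr 1
    ring
  have h11 : Real.exp (-(Real.log y) / 10000) ≤ 1 / 4 := by
    have e1 : Real.exp (-(Real.log y) / 10000) ≤ Real.exp (-2) := Real.exp_le_exp.2 (by linarith)
    have e2 : Real.exp (-2) ≤ 1 / 4 := by
      rw [Real.exp_neg, inv_le_comm₀ (Real.exp_pos _) (by norm_num)]
      have e3 : Real.exp 2 = Real.exp 1 * Real.exp 1 := by rw [← Real.exp_add]; norm_num
      have e4 := Real.exp_one_gt_d9
      rw [e3]
      nlinarith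
    linarith
  rw [h9]
  obtain ⟨u, hu⟩ : ∃ u : ℝ, u = Real.exp (-(Real.log y) / 10000) := ⟨_, rfl⟩
  have hu0 : 0 < u := by rw [hu]; positivity
  rw [← hu] at h10 h11 ⊢
  rw [h10] at h7
  calc 3 * y * ((11 / 10) ^ m / (6 / 5) ^ K) ≤ 3 * y * (Real.exp (1 / 100) * (u * u)) :=
        mul_le_mul_of_nonneg_left (h6.trans h7) (by positivity)
    _ ≤ 3 * y * (4 / 3 * (u * u)) := by
        apply mul_le_mul_of_nonneg_left _ (by positivity)
        exact mul_le_mul_of_nonneg_right h8 (by positivity)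
    _ = y * u * (4 * u) := by ring
    _ ≤ y * u * 1 := mul_le_mul_of_nonneg_left (by linarith) (by positivity)
    _ = y * u := mul_one _

end Pool.Agent.UTL
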