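import Pool.Agent.UTL.Defs

set_option autoImplicit false

/-! The choice of the levels and of the exponents. -/

namespace Pool.Agent.UTL

open Finset

theorem sum_geom_le_G {η : ℝ} (h0 : 0 ≤ η) (h1 : η < 1) (n : ℕ) :
    ∑ r ∈ range n, η ^ r ≤ 1 / (1 - η) := by
  rw [le_div_iff₀ (by linarith)]
  have h := geom_sum_mul η n
  have h2 : 0 ≤ η ^ n := pow_nonneg h0 n
  nlinarith

theorem thm_Geo : St_Geo := by
  intro δ ε hδ hδ1 hε
  obtain ⟨L0, hL0⟩ : ∃ L0 : ℝ, L0 = Real.log (1 + 1 / 500) := ⟨_, rfl⟩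
  have hL0p : 0 < L0 := by rw [hL0]; exact Real.log_pos (by norm_num)
  obtain ⟨td, htd⟩ : ∃ td : ℝ, td = Real.log (1 / δ) := ⟨_, rfl⟩
  have htdp : 0 < td := by
    rw [htd]
    apply Real.log_pos
    rw [lt_div_iff₀ hδ]
    linarith
  obtain ⟨c, hc⟩ : ∃ c : ℝ, c = L0 * td / (L0 + td) := ⟨_, rfl⟩
  have hcp : 0 < c := by rw [hc]; positivity
  obtain ⟨c1, hc1⟩ : ∃ c1 : ℝ, c1 = 1 - Real.exp (-c / 4) := ⟨_, rfl⟩
  have hc1p : 0 < c1 := by
    rw [hc1]
    have : Real.exp (-c / 4) < 1 := by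
      rw [Real.exp_lt_one_iff]
      linarith
    linarith
  have hc1l : c1 ≤ 1 := by
    rw [hc1]
    have := Real.exp_pos (-c / 4)
    linarith
  obtain ⟨D, hD⟩ : ∃ D : ℝ, D = max 1 (2 / ε) := ⟨_, rfl⟩
  have hD1 : 1 ≤ D := by rw [hD]; exact le_max_left _ _
  have hD2 : 2 / ε ≤ D := by rw [hD]; exact le_max_right _ _
  have hD0 : 0 < D := by linarith
  obtain ⟨Q, hQ⟩ : ∃ Q : ℝ, Q = (1 + D) / c1 := ⟨_, rfl⟩
  have hQ1 : 1 ≤ Q := by
    rw [hQ, le_div_iff₀ hc1p]
    linarith
  obtain ⟨C, hC⟩ : ∃ C : ℝ, C = max (4 / c1) (max 3 (1 / L0 + 1)) := ⟨_, rfl⟩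
  have hCa : 4 / c1 ≤ C := by rw [hC]; exact le_max_left _ _
  have hCb : 3 ≤ C := by rw [hC]; exact (le_max_left _ _).trans (le_max_right _ _)
  have hCc : 1 / L0 + 1 ≤ C := by rw [hC]; exact (le_max_right _ _).trans (le_max_right _ _)
  refine ⟨D, Q, C, hD1, hQ1, by linarith, ?_⟩
  intro u v hv hvu
  have hv0 : 0 < v := by linarith
  have hu0 : 0 < u := by
    by_contra h
    push Not at h
    have : δ * u ≤ 0 := mul_nonpos_of_nonneg_of_nonpos hδ.le h
    linarith
  have hvu' : v ≤ u := by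
    refine hvu.trans ?_
    calc δ * u ≤ 1 * u := mul_le_mul_of_nonneg_right hδ1.le hu0.le
      _ = u := one_mul u
  obtain ⟨x, hx⟩ : ∃ x : ℝ, x = u / v := ⟨_, rfl⟩
  have hx0 : 0 < x := by rw [hx]; positivity
  have hxd : 1 / δ ≤ x := by
    rw [hx, div_le_div_iff₀ hδ hv0]
    linarith
  have hlx : td ≤ Real.log x := by
    rw [htd]
    exact Real.log_le_log (by positivity) hxd
  have hlx0 : 0 < Real.log x := by linarith
  obtain ⟨R, hR⟩ : ∃ R : ℕ, R = ⌈Real.log x / L0⌉₊ := ⟨_, rfl⟩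
  have hR1 : Real.log x / L0 ≤ R := by rw [hR]; exact Nat.le_ceil _
  have hR2 : (R : ℝ) < Real.log x / L0 + 1 := by
    rw [hR]
    exact Nat.ceil_lt_add_one (by positivity)
  have hRp : (0 : ℝ) < R := lt_of_lt_of_le (by positivity) hR1
  have hRn : 1 ≤ R := by exact_mod_cast hRp
  obtain ⟨l, hl⟩ : ∃ l : ℝ, l = Real.log x / R := ⟨_, rfl⟩
  have hlL : l ≤ L0 := by
    rw [hl, div_le_iff₀ hRp]
    rw [div_le_iff₀ hL0p] at hR1
    linarith
  have hlc : c ≤ l := by
    rw [hl, hc, div_le_div_iff₀ (by positivity) hRp]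
    have h1 : L0 * R ≤ Real.log x + L0 := by
      have : L0 * (R : ℝ) ≤ L0 * (Real.log x / L0 + 1) := mul_le_mul_of_nonneg_left hR2.le hL0p.le
      refine this.trans (le_of_eq ?_)
      field_simp
    calc L0 * td * R = td * (L0 * R) := by ring
      _ ≤ td * (Real.log x + L0) := mul_le_mul_of_nonneg_left h1 htdp.le
      _ ≤ Real.log x * (L0 + td) := by nlinarith
  have hlp : 0 < l := by linarith
  obtain ⟨r, hr⟩ : ∃ r : ℝ, r = Real.exp (-l / 4) := ⟨_, rfl⟩
  have hr0 : 0 < r := by rw [hr]; positivity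
  have hr1 : c1 ≤ 1 - r := by
    rw [hc1, hr]
    have : Real.exp (-l / 4) ≤ Real.exp (-c / 4) := Real.exp_le_exp.2 (by linarith)
    linarith
  have hrl1 : r < 1 := by linarith
  have hr4 : r ^ 4 = Real.exp (-l) := by
    rw [hr, ← Real.exp_nat_mul]
    congr 1
    push_cast
    ring
  have hr4le : r ^ 4 ≤ r := by
    calc r ^ 4 ≤ r ^ 1 := pow_le_pow_of_le_one hr0.le hrl1.le (by norm_num)
      _ = r := pow_one r
  have hRR : (r ^ 4) ^ R = v / u := by
    rw [hr4, ← Real.exp_nat_mul]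
    have e1 : (R : ℝ) * -l = -Real.log x := by
      rw [hl]
      field_simp
    rw [e1, Real.exp_neg, Real.exp_log hx0, hx, inv_div]
  have hx4 : ∀ i ≤ R, 1 / r ^ i ≤ x ^ (1 / 4 : ℝ) := by
    intro i hi
    have e1 : x ^ (1 / 4 : ℝ) = 1 / r ^ R := by
      have e2 : x = (1 / r ^ R) ^ 4 := by
        rw [div_pow, one_pow, ← pow_mul, mul_comm R 4, pow_mul, hRR, hx, one_div, inv_div]
      rw [e2, ← Real.rpow_natCast, ← Real.rpow_mul (by positivity)]
      norm_num
    rw [e1]
    apply one_div_le_one_div_of_le (by positivity)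
    exact pow_le_pow_of_le_one hr0.le hrl1.le hi
  obtain ⟨ρ, hρ⟩ : ∃ ρ : ℝ, ρ = 1 / r ^ 4 := ⟨_, rfl⟩
  have hui : ∀ i : ℕ, u / ρ ^ i = u * (r ^ 4) ^ i := by
    intro i
    rw [hρ, div_pow, one_pow]
    field_simp
  have hli : ∀ i : ℕ, u / ρ ^ i - u / ρ ^ (i + 1) = u * (r ^ 4) ^ i * (1 - r ^ 4) := by
    intro i
    rw [hui, hui, pow_succ]
    ring
  have hge : ∀ i ≤ R, v ≤ u * (r ^ 4) ^ i := by
    intro i hi
    have e1 : (r ^ 4) ^ R ≤ (r ^ 4) ^ i :=
      pow_le_pow_of_le_one (by positivity) (by linarith) hi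
    rw [hRR] at e1
    calc v = u * (v / u) := by field_simp
      _ ≤ u * (r ^ 4) ^ i := mul_le_mul_of_nonneg_left e1 hu0.le
  refine ⟨R, ρ, fun i => if i < R then 1 + D * r ^ i else 1, fun i => 1 + 1 / (D * r ^ i), hRn,
    ?_, ?_, ?_, ?_, ?_, ?_, ?_, ?_, ?_⟩
  · rw [hρ, lt_div_iff₀ (by positivity)]
    linarith
  · have e1 : ρ = Real.exp l := by
      rw [hρ, hr4, Real.exp_neg, one_div, inv_inv]
    rw [e1]
    calc Real.exp l ≤ Real.exp L0 := Real.exp_le_exp.2 hlL
      _ = 1 + 1 / 500 := by rw [hL0, Real.exp_log (by norm_num)]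
  · rw [hρ, div_pow, one_pow, hRR]
    field_simp
  · have hlu : 1 ≤ Real.log u := by
      rw [Real.le_log_iff_exp_le hu0]
      exact Real.exp_one_lt_three.le.trans (by linarith)
    have hxu : Real.log x ≤ Real.log u := by
      apply Real.log_le_log hx0
      rw [hx, div_le_iff₀ hv0]
      nlinarith
    have h1 : Real.log x / L0 ≤ Real.log u / L0 := div_le_div_of_nonneg_right hxu hL0p.le
    calc (R : ℝ) ≤ Real.log u / L0 + 1 := by linarith
      _ ≤ (1 / L0 + 1) * Real.log u := by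
          have : Real.log u / L0 = 1 / L0 * Real.log u := by ring
          rw [this]
          linarith
      _ ≤ C * Real.log u := mul_le_mul_of_nonneg_right hCc (by linarith)
  · simp
  · intro i hi
    have hri : 0 < r ^ i := by positivity
    have hri1 : r ^ i ≤ 1 := pow_le_one₀ hr0.le hrl1.le
    simp only
    rw [if_pos hi]
    refine ⟨?_, ?_, ?_, ?_, ?_, ?_, ?_, ?_⟩
    · split_ifs
      · have : 0 ≤ D * r ^ (i + 1) := by positivity
        linarith
      · exact le_rfl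
    · split_ifs
      · rw [pow_succ]
        have : D * (r ^ i * r) < D * (r ^ i * 1) :=
          mul_lt_mul_of_pos_left (mul_lt_mul_of_pos_left hrl1 hri) hD0
        linarith
      · have : 0 < D * r ^ i := by positivity
        linarith
    · field_simp
      ring
    · have : 0 ≤ 1 / (D * r ^ i) := by positivity
      linarith
    · rw [← hx]
      have h1 := hx4 i hi.le
      have h2 : 1 / (D * r ^ i) ≤ 1 / r ^ i := by
        apply one_div_le_one_div_of_le hri
        nlinarith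
      linarith
    · split_ifs with h
      · have e1 : 1 + D * r ^ i - (1 + D * r ^ (i + 1)) = D * r ^ i * (1 - r) := by
          rw [pow_succ]
          ring
        have e2 : 1 + D * r ^ i - 1 = D * r ^ i := by ring
        have h1r : 0 < 1 - r := by linarith
        rw [e1, e2, hQ]
        have e3 : (1 + D * r ^ (i + 1)) * (D * r ^ i) / (D * r ^ i * (1 - r)) =
            (1 + D * r ^ (i + 1)) / (1 - r) := by
          field_simp
        rw [e3]
        have h3 : r ^ (i + 1) ≤ 1 := pow_le_one₀ hr0.le hrl1.le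
        apply div_le_div₀ (by linarith) _ hc1p hr1
        nlinarith
      · have h1 : 0 < D * r ^ i := by positivity
        have e1 : 1 * (1 + D * r ^ i - 1) / (1 + D * r ^ i - 1) = 1 := by
          rw [one_mul]
          apply div_self
          have : 1 + D * r ^ i - 1 = D * r ^ i := by ring
          rw [this]
          exact h1.ne'
        rw [e1]
        exact hQ1
    · rw [hli]
      have h1 := hge i hi.le
      have h2 : c1 ≤ 1 - r ^ 4 := by linarith
      have h3 : 1 ≤ v * c1 := by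
        have : 4 / c1 ≤ v := hCa.trans hv
        rw [div_le_iff₀ hc1p] at this
        linarith
      calc 1 ≤ v * c1 := h3
        _ ≤ u * (r ^ 4) ^ i * (1 - r ^ 4) := mul_le_mul h1 h2 hc1p.le (by positivity)
    · rw [hli, hui]
      have h1 : 1 - r ^ 4 ≤ 1 / 500 := by
        rw [hr4]
        have e1 : 1 - l ≤ Real.exp (-l) := by
          have := Real.add_one_le_exp (-l)
          linarith
        have e2 : L0 ≤ 1 / 500 := by
          rw [hL0]
          have := Real.log_le_sub_one_of_pos (by norm_num : (0 : ℝ) < 1 + 1 / 500)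
          linarith
        linarith
      have h2 : 0 ≤ u * (r ^ 4) ^ i := by positivity
      calc u * (r ^ 4) ^ i * (1 - r ^ 4) ≤ u * (r ^ 4) ^ i * (1 / 500) :=
            mul_le_mul_of_nonneg_left h1 h2
        _ = _ := by ring
  · rw [sum_congr rfl fun i _ => hui i, ← mul_sum]
    have h1 := sum_geom_le_G (η := r ^ 4) (by positivity) (by linarith) R
    have h2 : 1 / (1 - r ^ 4) ≤ 1 / c1 := one_div_le_one_div_of_le hc1p (by linarith)
    have h3 : 1 / c1 ≤ C := by
      refine le_trans ?_ hCa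
      exact div_le_div_of_nonneg_right (by norm_num) hc1p.le
    calc u * ∑ i ∈ range R, (r ^ 4) ^ i ≤ u * C :=
          mul_le_mul_of_nonneg_left (by linarith) hu0.le
      _ = C * u := mul_comm _ _
  · have e1 : ∀ i ∈ range R, (1 + 1 / (D * r ^ i) - 1) * (u / ρ ^ i - u / ρ ^ (i + 1)) =
        u / D * (1 - r ^ 4) * (r ^ 3) ^ i := by
      intro i _
      rw [hli]
      have : (r ^ 4) ^ i = r ^ i * (r ^ 3) ^ i := by
        rw [← mul_pow]
        ring_nf
      rw [this]
      field_simp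
      ring
    simp only
    rw [sum_congr rfl e1, ← mul_sum]
    have h3 : r ^ 3 < 1 := pow_lt_one₀ hr0.le hrl1 (by norm_num)
    have h1 := sum_geom_le_G (η := r ^ 3) (by positivity) h3 R
    have h4 : 1 - r ^ 4 ≤ 2 * (1 - r ^ 3) := by
      have h6 : r ^ 3 ≤ r := by
        calc r ^ 3 ≤ r ^ 1 := pow_le_pow_of_le_one hr0.le hrl1.le (by norm_num)
          _ = r := pow_one r
      have h7 : r ^ 3 * (2 - r) ≤ r * (2 - r) := mul_le_mul_of_nonneg_right h6 (by linarith)
      have h8 : 0 ≤ (1 - r) ^ 2 := sq_nonneg _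
      nlinarith
    have h5 : (1 - r ^ 4) * ∑ i ∈ range R, (r ^ 3) ^ i ≤ 2 := by
      calc (1 - r ^ 4) * ∑ i ∈ range R, (r ^ 3) ^ i ≤ (1 - r ^ 4) * (1 / (1 - r ^ 3)) :=
            mul_le_mul_of_nonneg_left h1 (by linarith)
        _ ≤ 2 := by
            rw [mul_one_div, div_le_iff₀ (by linarith)]
            exact h4
    calc u / D * (1 - r ^ 4) * ∑ i ∈ range R, (r ^ 3) ^ i
        = u / D * ((1 - r ^ 4) * ∑ i ∈ range R, (r ^ 3) ^ i) := by ring
      _ ≤ u / D * 2 := mul_le_mul_of_nonneg_left h5 (by positivity)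
      _ = 2 / D * u := by ring
      _ ≤ ε * u := by
          apply mul_le_mul_of_nonneg_right _ hu0.le
          rw [div_le_iff₀ hD0]
          rw [div_le_iff₀ hε] at hD2
          linarith
  · have e1 : ∀ i ∈ range R, (1 + 1 / (D * r ^ i)) ^ 2 * (u / ρ ^ i) ≤ 4 * u * r ^ i := by
      intro i _
      rw [hui]
      have hri : 0 < r ^ i := by positivity
      have hri1 : r ^ i ≤ 1 := pow_le_one₀ hr0.le hrl1.le
      have h1 : 1 + 1 / (D * r ^ i) ≤ 2 / r ^ i := by
        rw [le_div_iff₀ hri, add_mul, one_mul]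
        have e2 : 1 / (D * r ^ i) * r ^ i = 1 / D := by field_simp
        rw [e2]
        have : 1 / D ≤ 1 := by rw [div_le_one hD0]; exact hD1
        linarith
      have h2 : (1 + 1 / (D * r ^ i)) ^ 2 ≤ (2 / r ^ i) ^ 2 :=
        pow_le_pow_left₀ (by positivity) h1 2
      have e3 : (r ^ 4) ^ i = (r ^ i) ^ 4 := by rw [← pow_mul, ← pow_mul, mul_comm]
      calc (1 + 1 / (D * r ^ i)) ^ 2 * (u * (r ^ 4) ^ i) ≤ (2 / r ^ i) ^ 2 * (u * (r ^ 4) ^ i) :=
            mul_le_mul_of_nonneg_right h2 (by positivity)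
        _ = 4 * u * (r ^ i * r ^ i) := by rw [e3]; field_simp; ring
        _ ≤ 4 * u * (r ^ i * 1) := by
            apply mul_le_mul_of_nonneg_left _ (by positivity)
            exact mul_le_mul_of_nonneg_left hri1 hri.le
        _ = 4 * u * r ^ i := by ring
    simp only
    refine (sum_le_sum e1).trans ?_
    rw [← mul_sum]
    have h1 := sum_geom_le_G hr0.le hrl1 R
    have h2 : 1 / (1 - r) ≤ 1 / c1 := one_div_le_one_div_of_le hc1p hr1
    calc 4 * u * ∑ i ∈ range R, r ^ i ≤ 4 * u * (1 / c1) :=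
          mul_le_mul_of_nonneg_left (by linarith) (by positivity)
      _ = 4 / c1 * u := by ring
      _ ≤ C * u := mul_le_mul_of_nonneg_right hCa hu0.le

end Pool.Agent.UTL
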