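import Pool.Agent.UTL.Arr
import Pool.Agent.UTL.Bad
import Pool.Agent.UTL.Geo

set_option autoImplicit false

/-! One dyadic block: the choice of the levels. -/

namespace Pool.Agent.UTL

open Finset
open Pool.Agent.Collatz3.PD (Per A)
open Pool.Agent.Helper27 (T J)

theorem GS_subset (Y : ℕ → ℝ) (K : ℕ → ℕ) (R : ℕ) : GS Y K R ⊆ Lv (Y 0) := by
  classical
  induction R with
  | zero => exact fun _ h => h
  | succ i ih =>
    intro n hn
    have hn' : n ∈ (GS Y K i).filter fun n => ∃ k b, Pas (Y (i + 1)) (pt Y i n) k b ∧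
      J k (pt Y i n) ≤ K i := hn
    rw [mem_filter] at hn'
    exact ih hn'.1

/-- numerical conditions of one stage; `a = log Y i`, `a' = log Y (i + 1)` -/
theorem stage_num {a a' : ℝ} {K : ℕ} (ha : 250 ≤ a) (h1 : 1 ≤ a - a') (h2 : a - a' ≤ a / 500)
    (hK : K = ⌊a / 50⌋₊) : 1 ≤ Real.exp a' ∧ Real.exp a' ≤ Real.exp a / 2 ∧
      (K : ℝ) ≤ Real.exp a' ∧ 4 * 3 ^ K ≤ Real.exp a' ∧
      Real.exp a * Real.exp (-(K : ℝ) / 8) ≤ Real.exp a' ∧ (K : ℝ) ≤ a / 50 := by
  have hK1 : (K : ℝ) ≤ a / 50 := by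
    rw [hK]
    exact Nat.floor_le (by positivity)
  have hK2 : a / 50 < K + 1 := by
    rw [hK]
    exact Nat.lt_floor_add_one _
  have ha' : 249 ≤ a' := by linarith
  refine ⟨Real.one_le_exp (by linarith), ?_, ?_, ?_, ?_, hK1⟩
  · have e1 : Real.exp a = Real.exp a' * Real.exp (a - a') := by
      rw [← Real.exp_add]
      congr 1
      ring
    have e2 : 2 ≤ Real.exp (a - a') := by
      have := Real.add_one_le_exp (a - a')
      linarith
    rw [e1]
    have := Real.exp_pos a'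
    nlinarith
  · have := Real.add_one_le_exp a'
    linarith
  · have e1 : (3 : ℝ) ^ K ≤ Real.exp (2 * K) := by
      have e2 : (3 : ℝ) ≤ Real.exp 2 := by
        have := Real.add_one_le_exp (2 : ℝ)
        linarith
      calc (3 : ℝ) ^ K ≤ Real.exp 2 ^ K := pow_le_pow_left₀ (by norm_num) e2 K
        _ = Real.exp (2 * K) := by rw [← Real.exp_nat_mul, mul_comm]
    have e3 : (4 : ℝ) ≤ Real.exp 3 := by
      have := Real.add_one_le_exp (3 : ℝ)
      linarith
    calc 4 * (3 : ℝ) ^ K ≤ Real.exp 3 * Real.exp (2 * K) :=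
          mul_le_mul e3 e1 (by positivity) (by positivity)
      _ = Real.exp (3 + 2 * K) := by rw [← Real.exp_add]
      _ ≤ Real.exp a' := Real.exp_le_exp.2 (by linarith)
  · rw [← Real.exp_add]
    apply Real.exp_le_exp.2
    linarith

theorem thm_Block (hFB : St_FB) : St_Block := by
  classical
  obtain ⟨c, hc0, y₀, hy₀, hBad⟩ := thm_Bad
  refine ⟨c, hc0, ?_⟩
  intro ε δ hε hδ hδ1
  obtain ⟨D, Q, CG, _, hQ1, hCG1, hGeo⟩ := thm_Geo δ (ε / 28) hδ hδ1 (by positivity)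
  have hCG0 : 0 < CG := by linarith
  obtain ⟨q, hq⟩ := exists_nat_ge Q
  obtain ⟨σ₀, hσ₀, CF, hCF, hFB'⟩ := hFB q (ε / CG) (by positivity)
  obtain ⟨La, hLa⟩ : ∃ La : ℝ, La = max 250 (64 * CG ^ 3) := ⟨_, rfl⟩
  have hLa1 : 250 ≤ La := by rw [hLa]; exact le_max_left _ _
  have hLa2 : 64 * CG ^ 3 ≤ La := by rw [hLa]; exact le_max_right _ _
  have hCG3 : CG ≤ CG ^ 3 := by
    calc CG = CG ^ 1 := (pow_one _).symm
      _ ≤ CG ^ 3 := pow_le_pow_right₀ hCG1 (by norm_num)
  have hLa3 : CG ≤ La := by nlinarith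
  obtain ⟨C, hC1, hC2, hC3, hC4, hC5, hC6⟩ : ∃ C : ℝ, Real.exp La ≤ C ∧ y₀ ≤ C ∧ 160000 ≤ C ∧
      (4 / σ₀) ^ 2 ≤ C ∧ (32 / ε) ^ 2 ≤ C ∧ CG * (5 + CF) ≤ C :=
    ⟨max (Real.exp La) (max y₀ (max 160000 (max ((4 / σ₀) ^ 2) (max ((32 / ε) ^ 2)
      (CG * (5 + CF)))))), by simp, by simp, by simp, by simp, by simp, by simp⟩
  have hC0 : 0 < C := by linarith
  refine ⟨C, by linarith, ?_⟩
  intro X M σ hX0 hM hMX hlogX hσ hσX hσM
  have hM0 : 0 < M := by linarith
  obtain ⟨u, hu⟩ : ∃ u : ℝ, u = Real.log X := ⟨_, rfl⟩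
  obtain ⟨v, hv⟩ : ∃ v : ℝ, v = Real.log M := ⟨_, rfl⟩
  have hXu : X = Real.exp u := by rw [hu, Real.exp_log hX0]
  have hMv : M = Real.exp v := by rw [hv, Real.exp_log hM0]
  have hvLa : La ≤ v := by
    rw [hv, Real.le_log_iff_exp_le hM0]
    linarith
  have hvu : v ≤ δ * u := by
    have h1 := Real.log_le_log hM0 hMX
    rw [Real.log_rpow hX0] at h1
    rw [hu, hv]
    exact h1
  rw [← hu] at hlogX hσX hσM
  rw [← hv] at hσM
  have hv0 : 0 < v := by linarith
  have hu0 : 0 < u := by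
    by_contra h
    push Not at h
    have : δ * u ≤ 0 := mul_nonpos_of_nonneg_of_nonpos hδ.le h
    linarith
  have hvu' : v ≤ u := by
    refine hvu.trans ?_
    calc δ * u ≤ 1 * u := mul_le_mul_of_nonneg_right hδ1.le hu0.le
      _ = u := one_mul u
  obtain ⟨R, ρ, p, s, hR1, hρ1, hρ2, hρR, hRu, hpR, hst, hS1, hS2, hS3⟩ :=
    hGeo u v (by linarith) hvu
  obtain ⟨a, ha⟩ : ∃ a : ℕ → ℝ, a = fun i => u / ρ ^ i := ⟨_, rfl⟩
  have hai : ∀ i, u / ρ ^ i = a i := fun i => by rw [ha]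
  simp only [hai] at hst hS1 hS2 hS3
  have hρ0 : 0 < ρ := by linarith
  have ha0 : a 0 = u := by rw [ha]; simp
  have haR : a R = v := by
    rw [ha]
    simp only
    rw [div_eq_iff (by positivity)]
    exact hρR.symm
  have hage : ∀ i ≤ R, v ≤ a i := by
    intro i hi
    rw [← haR, ha]
    exact div_le_div_of_nonneg_left hu0.le (by positivity) (pow_le_pow_right₀ hρ1.le hi)
  have hale : ∀ i, a i ≤ u := by
    intro i
    rw [ha]
    exact div_le_self hu0.le (one_le_pow₀ hρ1.le)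
  obtain ⟨Y, hY⟩ : ∃ Y : ℕ → ℝ, Y = fun i => Real.exp (a i) := ⟨_, rfl⟩
  obtain ⟨K, hK⟩ : ∃ K : ℕ → ℕ, K = fun i => ⌊a i / 50⌋₊ := ⟨_, rfl⟩
  have hYi : ∀ i, Y i = Real.exp (a i) := fun i => by rw [hY]
  have hKi : ∀ i, K i = ⌊a i / 50⌋₊ := fun i => by rw [hK]
  have hY0 : Y 0 = X := by rw [hYi, ha0, hXu]
  have hYR : Y R = M := by rw [hYi, haR, hMv]
  have hnum : ∀ i < R, 1 ≤ Y (i + 1) ∧ Y (i + 1) ≤ Y i / 2 ∧ (K i : ℝ) ≤ Y (i + 1) ∧
      4 * 3 ^ K i ≤ Y (i + 1) ∧ Y i * Real.exp (-(K i : ℝ) / 8) ≤ Y (i + 1) ∧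
      (K i : ℝ) ≤ a i / 50 := by
    intro i hi
    obtain ⟨_, _, _, _, _, _, h7, h8⟩ := hst i hi
    rw [hYi, hYi]
    exact stage_num (by linarith [hage i hi.le]) h7 h8 (hKi i)
  -- the size of s σ
  obtain ⟨w, hw⟩ : ∃ w : ℝ, w = 1 / √C := ⟨_, rfl⟩
  have hsC : 0 < √C := Real.sqrt_pos.2 hC0
  have hw0 : 0 < w := by rw [hw]; positivity
  have hw2 : w ^ 2 = 1 / C := by rw [hw, div_pow, one_pow, Real.sq_sqrt hC0.le]
  have hw1 : w ≤ 1 / 400 := by
    rw [hw]
    apply one_div_le_one_div_of_le (by norm_num)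
    rw [Real.le_sqrt' (by norm_num)]
    linarith
  have hwσ : 4 * w ≤ σ₀ := by
    have h1 : 4 / σ₀ ≤ √C := by
      rw [Real.le_sqrt' (by positivity)]
      exact hC4
    rw [div_le_iff₀ hσ₀] at h1
    rw [hw, mul_one_div, div_le_iff₀ hsC]
    linarith
  have hwε : 32 * w ≤ ε := by
    have h1 : 32 / ε ≤ √C := by
      rw [Real.le_sqrt' (by positivity)]
      exact hC5
    rw [div_le_iff₀ hε] at h1
    rw [hw, mul_one_div, div_le_iff₀ hsC]
    linarith
  have hssig : ∀ i < R, s i * σ ≤ 2 * w := by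
    intro i hi
    obtain ⟨_, _, _, h4, h5, _, _, _⟩ := hst i hi
    have hx1 : 1 ≤ u / v := by rw [le_div_iff₀ hv0]; linarith
    have h6 : s i ^ 2 ≤ 4 * (u / v) := by
      obtain ⟨z, hz⟩ : ∃ z : ℝ, z = (u / v) ^ (1 / 4 : ℝ) := ⟨_, rfl⟩
      have hz1 : 1 ≤ z := by rw [hz]; exact Real.one_le_rpow hx1 (by norm_num)
      have hz4 : z ^ 4 = u / v := by
        rw [hz, ← Real.rpow_natCast, ← Real.rpow_mul (by positivity)]
        norm_num
      rw [← hz] at h5
      have h7 : s i ≤ 2 * z := by linarith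
      calc s i ^ 2 ≤ (2 * z) ^ 2 := pow_le_pow_left₀ (by linarith) h7 2
        _ = 4 * z ^ 2 := by ring
        _ ≤ 4 * z ^ 4 := by
            apply mul_le_mul_of_nonneg_left _ (by norm_num)
            exact pow_le_pow_right₀ hz1 (by norm_num)
        _ = 4 * (u / v) := by rw [hz4]
    have h8 : (s i * σ) ^ 2 ≤ (2 * w) ^ 2 := by
      rw [mul_pow, mul_pow, hw2]
      calc s i ^ 2 * σ ^ 2 ≤ 4 * (u / v) * σ ^ 2 := mul_le_mul_of_nonneg_right h6 (by positivity)
        _ = 4 * (σ ^ 2 * u / v) := by ring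
        _ ≤ 4 * (1 / C) := by
            apply mul_le_mul_of_nonneg_left _ (by norm_num)
            rw [div_le_div_iff₀ hv0 hC0]
            linarith
        _ = 2 ^ 2 * (1 / C) := by norm_num
    exact (pow_le_pow_iff_left₀ (by positivity) (by positivity) (by norm_num)).1 h8
  have hσw : σ ≤ w := by
    have h8 : σ ^ 2 ≤ w ^ 2 := by
      rw [hw2, le_div_iff₀ hC0]
      have h9 : C * σ ^ 2 * u ≤ 1 * u := by linarith
      have := le_of_mul_le_mul_right h9 hu0
      linarith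
    exact (pow_le_pow_iff_left₀ hσ.le hw0.le (by norm_num)).1 h8
  obtain ⟨σ', hσ'⟩ : ∃ σ' : ℕ → ℝ, σ' = fun i =>
    s i * σ + 3 * s i * (s i - 1) * σ ^ 2 + 3 * s i * σ ^ 3 := ⟨_, rfl⟩
  have hσ'i : ∀ i, σ' i = s i * σ + 3 * s i * (s i - 1) * σ ^ 2 + 3 * s i * σ ^ 3 :=
    fun i => by rw [hσ']
  have hNum : ∀ i < R, s i * th σ ≤ th (σ' i) ∧
      kap (σ' i) / s i ≤ kap σ + 7 * (s i - 1) * σ ^ 2 + 8 * σ ^ 3 ∧ σ' i ≤ 2 * (s i * σ) ∧
      σ ≤ σ' i := by
    intro i hi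
    obtain ⟨_, _, _, h4, _, _, _, _⟩ := hst i hi
    obtain ⟨n1, n2, n3, _⟩ := thm_Num (s i) σ (σ' i) h4 hσ
      ((hssig i hi).trans (by linarith)) (hσ'i i)
    refine ⟨n1, n2, n3, ?_⟩
    rw [hσ'i]
    have h5 : 0 ≤ s i - 1 := by linarith
    have h6 : σ ≤ s i * σ := by nlinarith
    have h7 : 0 ≤ 3 * s i * (s i - 1) * σ ^ 2 := by positivity
    have h8 : 0 ≤ 3 * s i * σ ^ 3 := by positivity
    linarith
  obtain ⟨lam, hlam⟩ : ∃ lam : ℝ, lam = Real.log u := ⟨_, rfl⟩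
  have hu250 : 250 ≤ u := by linarith
  have hulam : u = Real.exp lam := by rw [hlam, Real.exp_log hu0]
  have hlam1 : 1 ≤ lam := by
    rw [hlam, Real.le_log_iff_exp_le hu0]
    exact Real.exp_one_lt_three.le.trans (by linarith)
  obtain ⟨B, hB⟩ : ∃ B : ℕ → ℝ, B = fun i =>
    ((K i : ℝ) + 2) * σ' i ^ (-CF) * Real.exp (ε / CG * σ' i ^ 2 * K i) := ⟨_, rfl⟩
  have hBi : ∀ i, B i = ((K i : ℝ) + 2) * σ' i ^ (-CF) * Real.exp (ε / CG * σ' i ^ 2 * K i) :=
    fun i => by rw [hB]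
  have hσ'1 : ∀ i < R, 0 < σ' i ∧ σ' i ≤ 1 / 100 ∧ σ' i ≤ σ₀ := by
    intro i hi
    obtain ⟨_, _, n3, n4⟩ := hNum i hi
    have := hssig i hi
    refine ⟨by linarith, by linarith, by linarith⟩
  -- the chain
  have hchain := thm_Chain σ Y K R q p s σ' B hσ hR1 hpR (by
    intro i hi
    obtain ⟨g1, g2, g3, g4, g5, g6, g7, g8⟩ := hst i hi
    obtain ⟨n1, n2, n3, n4, n5, n6⟩ := hnum i hi
    obtain ⟨m1, m2, m3, m4⟩ := hNum i hi
    obtain ⟨k1, k2, k3⟩ := hσ'1 i hi
    refine ⟨k1, k2, g1, g2, g3, g6.trans hq, m1, n1, n2, n3, n4, ?_, ?_⟩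
    · rw [hBi]
      have e1 : 1 ≤ σ' i ^ (-CF) :=
        Real.one_le_rpow_of_pos_of_le_one_of_nonpos k1 (by linarith) (by linarith)
      have e2 : 1 ≤ Real.exp (ε / CG * σ' i ^ 2 * K i) := Real.one_le_exp (by positivity)
      have e3 : (1 : ℝ) ≤ (K i : ℝ) + 2 := by
        have : (0 : ℝ) ≤ K i := Nat.cast_nonneg _
        linarith
      exact one_le_mul_of_one_le_of_one_le (one_le_mul_of_one_le_of_one_le e3 e1) e2
    · intro I
      rw [hBi]
      exact hFB' (σ' i) k1 k3 I (K i))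
  refine ⟨GS Y K R, ?_, ?_, ?_, ?_⟩
  · rw [← hY0]
    exact GS_subset Y K R
  · intro n hn
    have h1 := (GS_spec (by rw [hYi]; exact (Real.exp_pos _).le) R (fun j hj =>
      ⟨(hnum j hj).1, (hnum j hj).2.1⟩) n hn).1
    refine ⟨tau (Y R) n, ?_⟩
    rw [← hYR, h1.1]
    exact h1.2.1
  · -- the bad integers
    obtain ⟨Ks, hKs⟩ : ∃ Ks : ℕ, Ks = ∑ j ∈ range R, K j := ⟨_, rfl⟩
    have hKsu : (Ks : ℝ) ≤ CG * u / 50 := by
      rw [hKs]
      push_cast
      calc ∑ j ∈ range R, (K j : ℝ) ≤ ∑ j ∈ range R, a j / 50 :=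
            sum_le_sum fun j hj => (hnum j (mem_range.1 hj)).2.2.2.2.2
        _ = (∑ j ∈ range R, a j) / 50 := by rw [sum_div]
        _ ≤ CG * u / 50 := div_le_div_of_nonneg_right hS1 (by norm_num)
    have hMY : ∀ i ≤ R, M ≤ Y i := by
      intro i hi
      rw [hMv, hYi]
      exact Real.exp_le_exp.2 (hage i hi)
    have hCGu : CG ≤ u := by linarith
    have hBS := thm_BadSum Y K R (fun i hi => ⟨(hnum i hi).1, (hnum i hi).2.1⟩) (by
      intro i hi
      rw [← hKs]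
      refine hKsu.trans (le_trans ?_ (hlogX.trans (hMY i hi)))
      nlinarith)
    rw [hY0, ← hKs] at hBS
    refine hBS.trans ?_
    have hterm : ∀ i ∈ range R, ((Bd (Y i) (Y (i + 1)) (K i)).card : ℝ) *
        (16 * ((Ks : ℝ) + 1) ^ 2 * X / Y i) ≤ 16 * (CG * u + 1) ^ 2 * X * M ^ (-c) := by
      intro i hi
      rw [mem_range] at hi
      obtain ⟨n1, n2, n3, n4, n5, n6⟩ := hnum i hi
      have hYp : 0 < Y i := by rw [hYi]; exact Real.exp_pos _
      have h1 := hBad (Y i) (Y (i + 1)) (K i) (hC2.trans (hM.trans (hMY i hi.le)))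
        (by rw [hKi, hYi, Real.log_exp]) n5 (by linarith)
      have h2 : ((Ks : ℝ) + 1) ^ 2 ≤ (CG * u + 1) ^ 2 := by
        apply pow_le_pow_left₀ (by positivity)
        have : 0 ≤ CG * u := by positivity
        linarith
      calc ((Bd (Y i) (Y (i + 1)) (K i)).card : ℝ) * (16 * ((Ks : ℝ) + 1) ^ 2 * X / Y i)
          ≤ Y i ^ (1 - c) * (16 * (CG * u + 1) ^ 2 * X / Y i) := by
            apply mul_le_mul h1 _ (by positivity) (by positivity)
            apply div_le_div_of_nonneg_right _ hYp.le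
            apply mul_le_mul_of_nonneg_right _ hX0.le
            linarith
        _ = 16 * (CG * u + 1) ^ 2 * X * Y i ^ (-c) := by
            have : Y i ^ (1 - c) = Y i * Y i ^ (-c) := by
              rw [sub_eq_add_neg, Real.rpow_add hYp, Real.rpow_one]
            rw [this]
            field_simp
        _ ≤ 16 * (CG * u + 1) ^ 2 * X * M ^ (-c) := by
            apply mul_le_mul_of_nonneg_left _ (by positivity)
            exact Real.rpow_le_rpow_of_nonpos hM0 (hMY i hi.le) (by linarith)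
    refine (sum_le_sum hterm).trans ?_
    rw [sum_const, card_range, nsmul_eq_mul]
    have hRu2 : (R : ℝ) ≤ CG * u := by
      refine hRu.trans ?_
      apply mul_le_mul_of_nonneg_left _ hCG0.le
      have := Real.log_le_sub_one_of_pos hu0
      linarith
    have h3 : (CG * u + 1) ^ 2 ≤ (2 * (CG * u)) ^ 2 := by
      apply pow_le_pow_left₀ (by positivity)
      nlinarith
    have h4 : (R : ℝ) * (16 * (CG * u + 1) ^ 2) ≤ u ^ (4 : ℕ) := by
      calc (R : ℝ) * (16 * (CG * u + 1) ^ 2) ≤ (CG * u) * (16 * (2 * (CG * u)) ^ 2) :=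
            mul_le_mul hRu2 (by linarith) (by positivity) (by positivity)
        _ = 64 * CG ^ 3 * u ^ 3 := by ring
        _ ≤ u * u ^ 3 := mul_le_mul_of_nonneg_right (by linarith) (by positivity)
        _ = u ^ (4 : ℕ) := by ring
    have h5 : u ^ (4 : ℕ) ≤ u ^ C := by
      rw [← Real.rpow_natCast]
      apply Real.rpow_le_rpow_of_exponent_le (by linarith)
      push_cast
      linarith
    rw [← hu]
    have hMc : 0 ≤ M ^ (-c) := Real.rpow_nonneg hM0.le _
    calc (R : ℝ) * (16 * (CG * u + 1) ^ 2 * X * M ^ (-c))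
        = ((R : ℝ) * (16 * (CG * u + 1) ^ 2)) * (X * M ^ (-c)) := by ring
      _ ≤ u ^ C * (X * M ^ (-c)) :=
          mul_le_mul_of_nonneg_right (h4.trans h5) (by positivity)
      _ = X * M ^ (-c) * u ^ C := by ring
  · -- the exponential moment
    rw [hYR] at hchain
    refine hchain.trans ?_
    obtain ⟨E, hE⟩ : ∃ E : ℕ → ℝ, E = fun i => (4 + (1 + CF) * lam) +
      4 * (ε / CG) / 50 * σ ^ 2 * (s i ^ 2 * a i) + (1 + kap σ) * (a i - a (i + 1)) +
      7 * σ ^ 2 * ((s i - 1) * (a i - a (i + 1))) + 8 * σ ^ 3 * (a i - a (i + 1)) := ⟨_, rfl⟩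
    have hfac : ∀ i ∈ range R, 0 ≤ 32 * B i * (Y i / Y (i + 1)) ^ (1 + kap (σ' i) / s i) ∧
        32 * B i * (Y i / Y (i + 1)) ^ (1 + kap (σ' i) / s i) ≤ Real.exp (E i) := by
      intro i hi
      rw [mem_range] at hi
      obtain ⟨g1, g2, g3, g4, g5, g6, g7, g8⟩ := hst i hi
      obtain ⟨n1, n2, n3, n4, n5, n6⟩ := hnum i hi
      obtain ⟨m1, m2, m3, m4⟩ := hNum i hi
      obtain ⟨k1, k2, k3⟩ := hσ'1 i hi
      have hB0 : 0 < B i := by rw [hBi]; positivity
      have hYY : Y i / Y (i + 1) = Real.exp (a i - a (i + 1)) := by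
        rw [hYi, hYi, Real.exp_sub]
      refine ⟨by rw [hYY]; positivity, ?_⟩
      rw [hYY, ← Real.exp_mul]
      have e1 : (32 : ℝ) ≤ Real.exp 4 := by
        have e2 : Real.exp 4 = Real.exp 1 ^ 4 := by rw [← Real.exp_nat_mul]; norm_num
        have e3 := Real.exp_one_gt_d9
        have e4 : (2.7 : ℝ) ^ 4 ≤ Real.exp 1 ^ 4 := pow_le_pow_left₀ (by norm_num) (by linarith) 4
        rw [e2]
        refine le_trans ?_ e4
        norm_num
      have e2 : B i ≤ Real.exp ((1 + CF) * lam + 4 * (ε / CG) / 50 * σ ^ 2 * (s i ^ 2 * a i)) := by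
        rw [hBi]
        have f1 : (K i : ℝ) + 2 ≤ Real.exp lam := by
          rw [← hulam]
          have := hale i
          linarith
        have f2 : σ' i ^ (-CF) ≤ Real.exp (CF * lam) := by
          have f3 : 1 / u ≤ σ' i := by
            have : 1 / u ≤ σ := by
              rw [div_le_iff₀ hu0]
              linarith
            linarith
          have f4 : σ' i ^ (-CF) ≤ (1 / u) ^ (-CF) :=
            Real.rpow_le_rpow_of_nonpos (by positivity) f3 (by linarith)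
          refine f4.trans (le_of_eq ?_)
          rw [one_div, Real.inv_rpow hu0.le, Real.rpow_neg hu0.le, inv_inv,
            Real.rpow_def_of_pos hu0, ← hlam, mul_comm]
        have f5 : Real.exp (ε / CG * σ' i ^ 2 * K i) ≤
            Real.exp (4 * (ε / CG) / 50 * σ ^ 2 * (s i ^ 2 * a i)) := by
          apply Real.exp_le_exp.2
          have f6 : σ' i ^ 2 ≤ (2 * (s i * σ)) ^ 2 := pow_le_pow_left₀ k1.le m3 2
          have ha_pos : 0 ≤ a i := by linarith [hage i hi.le]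
          calc ε / CG * σ' i ^ 2 * K i ≤ ε / CG * (2 * (s i * σ)) ^ 2 * (a i / 50) := by
                apply mul_le_mul _ n6 (Nat.cast_nonneg _) (by positivity)
                exact mul_le_mul_of_nonneg_left f6 (by positivity)
            _ = _ := by ring
        calc ((K i : ℝ) + 2) * σ' i ^ (-CF) * Real.exp (ε / CG * σ' i ^ 2 * K i)
            ≤ Real.exp lam * Real.exp (CF * lam) *
                Real.exp (4 * (ε / CG) / 50 * σ ^ 2 * (s i ^ 2 * a i)) :=
              mul_le_mul (mul_le_mul f1 f2 (by positivity) (by positivity)) f5 (by positivity)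
                (by positivity)
          _ = _ := by
              rw [← Real.exp_add, ← Real.exp_add]
              ring_nf
      have e3 : (a i - a (i + 1)) * (1 + kap (σ' i) / s i) ≤ (1 + kap σ) * (a i - a (i + 1)) +
          7 * σ ^ 2 * ((s i - 1) * (a i - a (i + 1))) + 8 * σ ^ 3 * (a i - a (i + 1)) := by
        have f1 : (a i - a (i + 1)) * (1 + kap (σ' i) / s i) ≤ (a i - a (i + 1)) *
            (1 + (kap σ + 7 * (s i - 1) * σ ^ 2 + 8 * σ ^ 3)) :=
          mul_le_mul_of_nonneg_left (by linarith) (by linarith)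
        refine f1.trans (le_of_eq ?_)
        ring
      calc 32 * B i * Real.exp ((a i - a (i + 1)) * (1 + kap (σ' i) / s i))
          ≤ Real.exp 4 * Real.exp ((1 + CF) * lam +
              4 * (ε / CG) / 50 * σ ^ 2 * (s i ^ 2 * a i)) *
              Real.exp ((1 + kap σ) * (a i - a (i + 1)) +
          7 * σ ^ 2 * ((s i - 1) * (a i - a (i + 1))) + 8 * σ ^ 3 * (a i - a (i + 1))) :=
            mul_le_mul (mul_le_mul e1 e2 hB0.le (by positivity)) (Real.exp_le_exp.2 e3)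
              (by positivity) (by positivity)
        _ = Real.exp (E i) := by
            rw [← Real.exp_add, ← Real.exp_add, hE]
            ring_nf
    have hprod : ∏ i ∈ range R, (32 * B i * (Y i / Y (i + 1)) ^ (1 + kap (σ' i) / s i)) ≤
        Real.exp (∑ i ∈ range R, E i) := by
      rw [Real.exp_sum]
      exact prod_le_prod (fun i hi => (hfac i hi).1) fun i hi => (hfac i hi).2
    have htel : ∑ i ∈ range R, (a i - a (i + 1)) = u - v := by
      rw [sum_range_sub', ha0, haR]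
    have hsum : ∑ i ∈ range R, E i = R * (4 + (1 + CF) * lam) +
        4 * (ε / CG) / 50 * σ ^ 2 * ∑ i ∈ range R, s i ^ 2 * a i + (1 + kap σ) * (u - v) +
        7 * σ ^ 2 * ∑ i ∈ range R, (s i - 1) * (a i - a (i + 1)) + 8 * σ ^ 3 * (u - v) := by
      rw [hE]
      simp only [sum_add_distrib, ← mul_sum, htel, sum_const, card_range, nsmul_eq_mul]
      ring
    have hfin : v + ∑ i ∈ range R, E i ≤ u + (kap σ * (u - v) + ε * σ ^ 2 * u + C * lam ^ 2) := by
      rw [hsum]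
      have e1 : (R : ℝ) * (4 + (1 + CF) * lam) ≤ C * lam ^ 2 := by
        have f1 : 4 + (1 + CF) * lam ≤ (5 + CF) * lam := by linarith
        rw [← hlam] at hRu
        calc (R : ℝ) * (4 + (1 + CF) * lam) ≤ CG * lam * ((5 + CF) * lam) :=
              mul_le_mul hRu f1 (by positivity) (by positivity)
          _ = CG * (5 + CF) * lam ^ 2 := by ring
          _ ≤ C * lam ^ 2 := mul_le_mul_of_nonneg_right hC6 (by positivity)
      have e2 : 4 * (ε / CG) / 50 * σ ^ 2 * ∑ i ∈ range R, s i ^ 2 * a i ≤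
          ε / 4 * (σ ^ 2 * u) := by
        calc 4 * (ε / CG) / 50 * σ ^ 2 * ∑ i ∈ range R, s i ^ 2 * a i
            ≤ 4 * (ε / CG) / 50 * σ ^ 2 * (CG * u) :=
              mul_le_mul_of_nonneg_left hS3 (by positivity)
          _ = 4 / 50 * ε * (σ ^ 2 * u) := by field_simp
          _ ≤ ε / 4 * (σ ^ 2 * u) := by
              apply mul_le_mul_of_nonneg_right _ (by positivity)
              linarith
      have e3 : 7 * σ ^ 2 * ∑ i ∈ range R, (s i - 1) * (a i - a (i + 1)) ≤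
          ε / 4 * (σ ^ 2 * u) := by
        calc 7 * σ ^ 2 * ∑ i ∈ range R, (s i - 1) * (a i - a (i + 1))
            ≤ 7 * σ ^ 2 * (ε / 28 * u) := mul_le_mul_of_nonneg_left hS2 (by positivity)
          _ = ε / 4 * (σ ^ 2 * u) := by ring
      have e4 : 8 * σ ^ 3 * (u - v) ≤ ε / 4 * (σ ^ 2 * u) := by
        calc 8 * σ ^ 3 * (u - v) ≤ 8 * σ ^ 3 * u :=
              mul_le_mul_of_nonneg_left (by linarith) (by positivity)
          _ = 8 * σ * (σ ^ 2 * u) := by ring
          _ ≤ ε / 4 * (σ ^ 2 * u) := by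
              apply mul_le_mul_of_nonneg_right _ (by positivity)
              linarith
      have e5 : 0 ≤ ε / 4 * (σ ^ 2 * u) := by positivity
      have e6 : ε * σ ^ 2 * u = 4 * (ε / 4 * (σ ^ 2 * u)) := by ring
      rw [e6]
      linarith
    have hlXM : Real.log (X / M) = u - v := by
      rw [hu, hv, Real.log_div hX0.ne' hM0.ne']
    rw [hlXM, ← hu, ← hlam]
    calc M * ∏ i ∈ range R, (32 * B i * (Y i / Y (i + 1)) ^ (1 + kap (σ' i) / s i))
        ≤ Real.exp v * Real.exp (∑ i ∈ range R, E i) := by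
          rw [← hMv]
          exact mul_le_mul_of_nonneg_left hprod hM0.le
      _ = Real.exp (v + ∑ i ∈ range R, E i) := (Real.exp_add _ _).symm
      _ ≤ Real.exp (u + (kap σ * (u - v) + ε * σ ^ 2 * u + C * lam ^ 2)) := Real.exp_le_exp.2 hfin
      _ = X * Real.exp (kap σ * (u - v) + ε * σ ^ 2 * u + C * lam ^ 2) := by
          rw [hXu, Real.exp_add]

end Pool.Agent.UTL
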