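import Pool.Agent.UTL.Step

set_option autoImplicit false

/-! The chain of stages. -/

namespace Pool.Agent.UTL

open Finset
open Pool.Agent.Collatz3.PD (Per A)
open Pool.Agent.Helper27 (T J two_mul_T J_add)

theorem le_two_T (n : ℕ) : n ≤ 2 * T n := by
  unfold T
  split_ifs <;> omega

theorem Pas.mem_Lv {y : ℝ} (hy : 0 ≤ y) {m k b : ℕ} (h : Pas y m k b) (hm : y < m) :
    b ∈ Lv y := by
  rw [Pool.Agent.UTL.mem_Lv hy]
  obtain ⟨h1, h2, h3⟩ := h
  refine ⟨h2, ?_⟩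
  rcases k with _ | j
  · rw [Function.iterate_zero, id] at h1
    rw [← h1] at h2
    linarith
  · have h4 := h3 j (by omega)
    rw [Function.iterate_succ_apply'] at h1
    have h5 := le_two_T (T^[j] m)
    rw [h1] at h5
    have h6 : ((T^[j] m : ℕ) : ℝ) ≤ 2 * b := by exact_mod_cast h5
    linarith

theorem card_Lv_le {y : ℝ} (hy : 2 ≤ y) : ((Lv y).card : ℝ) ≤ y := by
  have h := thm_Equid y 0 (fun _ => 1) (fun _ => zero_le_one) (fun _ _ => rfl)
  rw [A_one] at h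
  simp only [sum_const, nsmul_eq_mul, mul_one] at h
  rcases le_or_gt 4 y with h4 | h4
  · exact h (by norm_num; linarith)
  · -- 2 ≤ y < 4
    have hsub : Lv y ⊆ Icc (⌊y / 2⌋₊ + 1) ⌊y⌋₊ := by
      intro b hb
      rw [mem_Lv (by linarith)] at hb
      rw [mem_Icc, Nat.le_floor_iff (by linarith)]
      refine ⟨?_, hb.1⟩
      rw [Nat.succ_le_iff, Nat.floor_lt (by linarith)]
      exact hb.2
    have hc := card_le_card hsub
    rw [Nat.card_Icc] at hc
    have h5 : 1 ≤ ⌊y / 2⌋₊ := by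
      rw [Nat.one_le_floor_iff]
      linarith
    have h6 : (⌊y⌋₊ : ℝ) ≤ y := Nat.floor_le (by linarith)
    have h7 : (Lv y).card ≤ ⌊y⌋₊ := by omega
    have h8 : ((Lv y).card : ℝ) ≤ ⌊y⌋₊ := by exact_mod_cast h7
    linarith

theorem GS_spec {Y : ℕ → ℝ} {K : ℕ → ℕ} (hY0 : 0 ≤ Y 0) : ∀ i : ℕ,
    (∀ j < i, 1 ≤ Y (j + 1) ∧ Y (j + 1) ≤ Y j / 2) → ∀ n ∈ GS Y K i,
      Pas (Y i) n (tau (Y i) n) (pt Y i n) ∧ pt Y i n ∈ Lv (Y i) := by
  classical
  intro i
  induction i with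
  | zero =>
    intro _ n hn
    have hn' : n ∈ Lv (Y 0) := hn
    have h1 := hn'
    rw [mem_Lv hY0] at h1
    have hP : Pas (Y 0) n 0 n := ⟨rfl, h1.1, fun j hj => absurd hj (by omega)⟩
    have ht := hP.tau_eq
    have hpt : pt Y 0 n = n := by
      unfold pt
      rw [ht]
      rfl
    rw [ht, hpt]
    exact ⟨hP, hn'⟩
  | succ i ih =>
    intro hY n hn
    have hn' : n ∈ (GS Y K i).filter fun n => ∃ k b, Pas (Y (i + 1)) (pt Y i n) k b ∧
      J k (pt Y i n) ≤ K i := hn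
    rw [mem_filter] at hn'
    obtain ⟨h1, k, b, hP, hJ⟩ := hn'
    obtain ⟨h2, h3⟩ := ih (fun j hj => hY j (by omega)) n h1
    obtain ⟨h4, h5⟩ := hY i (by omega)
    have hYi : 0 ≤ Y i := by linarith
    have h6 := h2.trans (by linarith) hP
    have h7 := h6.tau_eq
    have h8 : pt Y (i + 1) n = b := by
      unfold pt
      rw [h7]
      exact h6.1
    rw [h7, h8]
    refine ⟨h6, hP.mem_Lv (by linarith) ?_⟩
    rw [mem_Lv hYi] at h3
    linarith [h3.2]

theorem GS_succ_spec {Y : ℕ → ℝ} {K : ℕ → ℕ} (hY0 : 0 ≤ Y 0) (i : ℕ)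
    (hY : ∀ j < i + 1, 1 ≤ Y (j + 1) ∧ Y (j + 1) ≤ Y j / 2) (n : ℕ) (hn : n ∈ GS Y K (i + 1)) :
    n ∈ GS Y K i ∧ tau (Y (i + 1)) n = tau (Y (i + 1)) (pt Y i n) + tau (Y i) n ∧
      pt Y i n ∈ Pre (Y (i + 1)) (Y i) (K i) (pt Y (i + 1) n) := by
  classical
  have hn' : n ∈ (GS Y K i).filter fun n => ∃ k b, Pas (Y (i + 1)) (pt Y i n) k b ∧
    J k (pt Y i n) ≤ K i := hn
  rw [mem_filter] at hn'
  obtain ⟨h1, k, b, hP, hJ⟩ := hn'
  obtain ⟨h2, h3⟩ := GS_spec hY0 i (fun j hj => hY j (by omega)) n h1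
  obtain ⟨h4, h5⟩ := hY i (by omega)
  have hYi : 0 ≤ Y i := by linarith
  have h6 := h2.trans (by linarith) hP
  have h7 := h6.tau_eq
  have h8 : pt Y (i + 1) n = b := by
    unfold pt
    rw [h7]
    exact h6.1
  refine ⟨h1, by rw [h7, hP.tau_eq], ?_⟩
  rw [h8, mem_Pre hYi]
  rw [mem_Lv hYi] at h3
  refine ⟨h3.1, ?_, k, hP, hJ⟩
  have : (0 : ℝ) < pt Y i n := by linarith [h3.2]
  exact_mod_cast this

noncomputable def WW (σ : ℝ) (Y : ℕ → ℝ) (K : ℕ → ℕ) (i b : ℕ) : ℝ :=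
  ∑ n ∈ (GS Y K i).filter (fun n => pt Y i n = b), Real.exp (th σ * tau (Y i) n)

theorem WW_nonneg (σ : ℝ) (Y : ℕ → ℝ) (K : ℕ → ℕ) (i b : ℕ) : 0 ≤ WW σ Y K i b :=
  sum_nonneg fun _ _ => (Real.exp_pos _).le

theorem WW_zero {σ : ℝ} {Y : ℕ → ℝ} {K : ℕ → ℕ} (hY0 : 0 ≤ Y 0) (i : ℕ)
    (hY : ∀ j < i, 1 ≤ Y (j + 1) ∧ Y (j + 1) ≤ Y j / 2) {b : ℕ} (hb : b ∉ Lv (Y i)) :
    WW σ Y K i b = 0 := by
  unfold WW
  apply sum_eq_zero_iff_of_nonneg (fun _ _ => (Real.exp_pos _).le) |>.2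
  intro n hn
  rw [mem_filter] at hn
  exact absurd (hn.2 ▸ (GS_spec hY0 i hY n hn.1).2) hb

theorem WW_succ_le {σ : ℝ} {Y : ℕ → ℝ} {K : ℕ → ℕ} (hY0 : 0 ≤ Y 0) (i : ℕ)
    (hY : ∀ j < i + 1, 1 ≤ Y (j + 1) ∧ Y (j + 1) ≤ Y j / 2) (b : ℕ) :
    WW σ Y K (i + 1) b ≤ ∑ m ∈ Pre (Y (i + 1)) (Y i) (K i) b,
      Real.exp (th σ * tau (Y (i + 1)) m) * WW σ Y K i m := by
  classical
  have h1 : WW σ Y K (i + 1) b = ∑ m ∈ Pre (Y (i + 1)) (Y i) (K i) b,
      ∑ n ∈ ((GS Y K (i + 1)).filter (fun n => pt Y (i + 1) n = b)).filter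
        (fun n => pt Y i n = m), Real.exp (th σ * tau (Y (i + 1)) n) := by
    unfold WW
    rw [sum_fiberwise_of_maps_to]
    intro n hn
    rw [mem_filter] at hn
    have := (GS_succ_spec hY0 i hY n hn.1).2.2
    rwa [hn.2] at this
  rw [h1]
  apply sum_le_sum
  intro m _
  unfold WW
  rw [mul_sum]
  have h2 : ∀ n ∈ ((GS Y K (i + 1)).filter (fun n => pt Y (i + 1) n = b)).filter
      (fun n => pt Y i n = m), Real.exp (th σ * tau (Y (i + 1)) n) =
        Real.exp (th σ * tau (Y (i + 1)) m) * Real.exp (th σ * tau (Y i) n) := by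
    intro n hn
    rw [mem_filter, mem_filter] at hn
    have h3 := (GS_succ_spec hY0 i hY n hn.1.1).2.1
    rw [h3, hn.2, ← Real.exp_add]
    congr 1
    push_cast
    ring
  rw [sum_congr rfl h2]
  apply sum_le_sum_of_subset_of_nonneg _ fun _ _ _ => by positivity
  intro n hn
  rw [mem_filter, mem_filter] at hn
  rw [mem_filter]
  exact ⟨(GS_succ_spec hY0 i hY n hn.1.1).1, hn.2⟩

theorem thm_Chain : St_Chain := by
  classical
  intro σ Y K R q p s σ' B hσ hR hpR h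
  have hY : ∀ j < R, 1 ≤ Y (j + 1) ∧ Y (j + 1) ≤ Y j / 2 := fun j hj => by
    obtain ⟨_, _, _, _, _, _, _, h8, h9, _⟩ := h j hj
    exact ⟨h8, h9⟩
  have hY2 : 2 ≤ Y 0 := by
    have := hY 0 (by omega)
    linarith [this.1, this.2]
  have hY0 : 0 ≤ Y 0 := by linarith
  have hYpos : ∀ i ≤ R, 0 < Y i := by
    intro i hi
    rcases i with _ | i
    · linarith
    · have := (hY i (by omega)).1
      linarith
  obtain ⟨N, hN⟩ : ∃ N : ℕ → ℝ, N = fun i => ∏ j ∈ range i,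
    (32 * B j * (Y j / Y (j + 1)) ^ (1 + kap (σ' j) / s j)) := ⟨_, rfl⟩
  have hmain : ∀ i ≤ R, 0 ≤ N i ∧ ∑ b ∈ Lv (Y i), WW σ Y K i b ^ p i ≤ Y i * N i ^ p i := by
    intro i
    induction i with
    | zero =>
      intro _
      have e0 : N 0 = 1 := by rw [hN]; simp
      rw [e0]
      refine ⟨zero_le_one, ?_⟩
      have h1 : ∀ b ∈ Lv (Y 0), WW σ Y K 0 b ^ p 0 ≤ 1 := by
        intro b hb
        have h2 : WW σ Y K 0 b = 1 := by
          unfold WW
          have h3 : (GS Y K 0).filter (fun n => pt Y 0 n = b) = {b} := by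
            ext n
            rw [mem_filter, mem_singleton]
            have e1 : ∀ n ∈ GS Y K 0, tau (Y 0) n = 0 ∧ pt Y 0 n = n := by
              intro n hn
              have hn' : n ∈ Lv (Y 0) := hn
              rw [mem_Lv hY0] at hn'
              have hP : Pas (Y 0) n 0 n := ⟨rfl, hn'.1, fun j hj => absurd hj (by omega)⟩
              have ht := hP.tau_eq
              refine ⟨ht, ?_⟩
              unfold pt
              rw [ht]
              rfl
            constructor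
            · rintro ⟨h4, h5⟩
              rw [← h5, (e1 n h4).2]
            · rintro rfl
              exact ⟨hb, (e1 n hb).2⟩
          rw [h3, sum_singleton]
          have hn' := hb
          rw [mem_Lv hY0] at hn'
          have hP : Pas (Y 0) b 0 b := ⟨rfl, hn'.1, fun j hj => absurd hj (by omega)⟩
          rw [hP.tau_eq]
          simp
        rw [h2, Real.one_rpow]
      have h4 := sum_le_sum h1
      rw [sum_const, nsmul_eq_mul, mul_one] at h4
      rw [Real.one_rpow, mul_one]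
      exact h4.trans (card_Lv_le hY2)
    | succ i ih =>
      intro hi
      obtain ⟨hN0, hS⟩ := ih (by omega)
      obtain ⟨a1, a2, a3, a4, a5, a6, a7, a8, a9, a10, a11, a12, a13⟩ := h i (by omega)
      have e1 : N (i + 1) = 32 * B i * (Y i / Y (i + 1)) ^ (1 + kap (σ' i) / s i) * N i := by
        rw [hN]
        simp only
        rw [prod_range_succ]
        ring
      have hq0 := hYpos i (by omega)
      have hq1 := hYpos (i + 1) hi
      have hB0 : 0 < B i := by linarith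
      refine ⟨by rw [e1]; positivity, ?_⟩
      rw [e1]
      exact thm_Step σ (σ' i) (s i) (p (i + 1)) (p i) (Y i) (Y (i + 1)) (N i) (B i) q (K i)
        (WW σ Y K i) (WW σ Y K (i + 1)) a1 a2 a3 a4 a5 a6 a7 a8 a9 a10 a11
        (fun n => WW_nonneg σ Y K i n) (fun n hn => WW_zero hY0 i (fun j hj => hY j (by omega)) hn)
        hN0 hS a12 a13 (fun b _ => ⟨WW_nonneg _ _ _ _ _,
          WW_succ_le hY0 i (fun j hj => hY j (by omega)) b⟩)
  obtain ⟨_, h2⟩ := hmain R le_rfl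
  rw [hpR] at h2
  simp only [Real.rpow_one] at h2
  have h3 : ∑ n ∈ GS Y K R, Real.exp (th σ * tau (Y R) n) = ∑ b ∈ Lv (Y R), WW σ Y K R b := by
    unfold WW
    rw [sum_fiberwise_of_maps_to]
    intro n hn
    exact (GS_spec hY0 R (fun j hj => hY j hj) n hn).2
  rw [h3]
  rw [hN] at h2
  exact h2

end Pool.Agent.UTL
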