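import Pool.Agent.UTL.Mgf

set_option autoImplicit false

/-! Counting barrier words and the supremum of the partition functions. -/

namespace Pool.Agent.UTL

open Finset
open Pool.Agent.Collatz3 (cw)
open Pool.Agent.Collatz3.Mix (words mem_words sum_words_zero sum_words_succ sum_words_add
  cw_concat cw_inj)
open Pool.Agent.Collatz3.PD (rd en en_spec)

theorem Bar_nil : Bar [] := by
  intro v u h hv
  exact absurd (List.append_eq_nil_iff.1 h).1 hv

theorem Bar.left {v w : List ℕ} (h : Bar (v ++ w)) : Bar v := by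
  intro a b hab ha
  exact h a (b ++ w) (by rw [← List.append_assoc, hab]) ha

theorem Bar.self {w : List ℕ} (h : Bar w) (hw : w ≠ []) : 3 ^ w.length < 2 ^ w.sum :=
  h w [] (by simp) hw

theorem Bar.le {w : List ℕ} (h : Bar w) : 3 ^ w.length ≤ 2 ^ w.sum := by
  rcases eq_or_ne w [] with rfl | h1
  · simp
  · exact (h.self h1).le

theorem Bar.append {v w : List ℕ} (hv : Bar v) (hw : Bar w) : Bar (v ++ w) := by
  intro a b hab ha
  rcases List.append_eq_append_iff.1 hab with ⟨c, h1, h2⟩ | ⟨c, h1, h2⟩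
  · -- `a` is an initial segment of `v`
    exact hv a c h1.symm ha
  · -- `a = v ++ c`
    rw [h1, List.length_append, List.sum_append, pow_add, pow_add]
    have e1 := hv.le
    rcases eq_or_ne c [] with rfl | hc
    · simp only [List.length_nil, pow_zero, mul_one, List.sum_nil]
      have : v ≠ [] := by
        rintro rfl
        exact ha (by rw [h1]; rfl)
      exact hv.self this
    · have e2 := hw c b h2.symm hc
      exact Nat.mul_lt_mul_of_le_of_lt e1 e2 (by positivity)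

open Classical in
theorem mem_BW {I k : ℕ} {w : List ℕ} : w ∈ BW I k ↔ w ∈ words I k ∧ Bar w := by
  unfold BW
  rw [mem_filter]

theorem BW_subset (I k : ℕ) : BW I k ⊆ words I k := fun _ h => (mem_BW.1 h).1

theorem cw_le_of_Bar (w : List ℕ) (h : Bar w) : 3 * cw w ≤ w.length * 2 ^ w.sum := by
  induction w using List.reverseRecOn with
  | nil => simp [cw]
  | append_singleton v i ih =>
    have h1 := ih h.left
    have h2 := h.self (by simp)
    rw [cw_concat]
    rw [List.length_append, List.length_singleton, List.sum_append, List.sum_singleton] at *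
    calc 3 * (2 ^ i * cw v + 3 ^ v.length) = 2 ^ i * (3 * cw v) + 3 ^ (v.length + 1) := by ring
      _ ≤ 2 ^ i * (v.length * 2 ^ v.sum) + 2 ^ (v.sum + i) :=
          Nat.add_le_add (Nat.mul_le_mul_left _ h1) h2.le
      _ = (v.length + 1) * 2 ^ (v.sum + i) := by rw [pow_add]; ring

/-- A finite set of integers in a short interval. -/
theorem card_interval_le {a β : ℝ} (hβ : 0 ≤ β) (S : Finset ℤ)
    (h : ∀ n ∈ S, a - β ≤ (n : ℝ) ∧ (n : ℝ) ≤ a) : (S.card : ℝ) ≤ 1 + β := by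
  have h1 : S ⊆ Icc ⌈a - β⌉ ⌊a⌋ := by
    intro n hn
    rw [mem_Icc]
    exact ⟨Int.ceil_le.2 (h n hn).1, Int.le_floor.2 (h n hn).2⟩
  have h2 := card_le_card h1
  rw [Int.card_Icc] at h2
  have h3 : ((S.card : ℕ) : ℝ) ≤ (((⌊a⌋ + 1 - ⌈a - β⌉).toNat : ℕ) : ℝ) := by exact_mod_cast h2
  refine h3.trans ?_
  rcases le_or_gt (⌊a⌋ + 1 - ⌈a - β⌉) 0 with h4 | h4
  · rw [Int.toNat_of_nonpos h4]
    push_cast
    linarith
  · have h5 : (((⌊a⌋ + 1 - ⌈a - β⌉).toNat : ℕ) : ℝ) = ((⌊a⌋ + 1 - ⌈a - β⌉ : ℤ) : ℝ) := by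
      have : (((⌊a⌋ + 1 - ⌈a - β⌉).toNat : ℕ) : ℤ) = ⌊a⌋ + 1 - ⌈a - β⌉ :=
        Int.toNat_of_nonneg h4.le
      exact_mod_cast this
    rw [h5]
    push_cast
    have h6 := Int.floor_le a
    have h7 := Int.le_ceil (a - β)
    linarith

theorem thm_Cnt : St_Cnt := by
  classical
  intro I k s x
  have h3 : (0 : ℝ) < 3 ^ k := by positivity
  obtain ⟨G, hG⟩ : ∃ G, G = (BW I k).filter (fun w => w.sum = s ∧ rd w x) := ⟨_, rfl⟩
  rw [← hG]
  have hmem : ∀ w ∈ G, w.length = k ∧ (∀ i ∈ w, 1 ≤ i) ∧ Bar w ∧ w.sum = s ∧ rd w x := by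
    intro w hw
    rw [hG, mem_filter, mem_BW, mem_words] at hw
    exact ⟨hw.1.1.1, fun i hi => (hw.1.1.2 i hi).1, hw.1.2, hw.2.1, hw.2.2⟩
  rcases G.eq_empty_or_nonempty with h0 | ⟨w₀, hw₀⟩
  · rw [h0]
    simp
    positivity
  have hinj : Set.InjOn (fun w => en w x) (G : Set (List ℕ)) := by
    intro v hv w hw h
    obtain ⟨v1, v2, v3, v4, v5⟩ := hmem v hv
    obtain ⟨w1, w2, w3, w4, w5⟩ := hmem w hw
    apply cw_inj v1 w1 v2 w2 (v4.trans w4.symm)
    have e1 := en_spec v5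
    have e2 := en_spec w5
    simp only at h
    rw [v1, v4, h] at e1
    rw [w1, w4] at e2
    have : (cw v : ℤ) = cw w := by linarith
    exact_mod_cast this
  rw [← card_image_of_injOn hinj]
  have h1 := card_interval_le (a := 2 ^ s * x / 3 ^ k) (β := k * 2 ^ s / 3 / 3 ^ k)
    (by positivity) (G.image fun w => en w x) (by
      intro n hn
      rw [mem_image] at hn
      obtain ⟨w, hw, rfl⟩ := hn
      obtain ⟨w1, w2, w3, w4, w5⟩ := hmem w hw
      have e1 := en_spec w5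
      rw [w1, w4] at e1
      have e2 : (3 : ℝ) ^ k * (en w x : ℝ) = 2 ^ s * (x : ℝ) - cw w := by exact_mod_cast e1
      have e3 := cw_le_of_Bar w w3
      rw [w1, w4] at e3
      have e4 : 3 * (cw w : ℝ) ≤ k * 2 ^ s := by exact_mod_cast e3
      have e5 : (en w x : ℝ) = 2 ^ s * (x : ℝ) / 3 ^ k - cw w / 3 ^ k := by
        rw [← sub_div, eq_div_iff h3.ne', ← e2]
        ring
      rw [e5]
      have e6 : (cw w : ℝ) / 3 ^ k ≤ k * 2 ^ s / 3 / 3 ^ k :=
        div_le_div_of_nonneg_right (by linarith) h3.le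
      have e7 : (0 : ℝ) ≤ cw w / 3 ^ k := by positivity
      exact ⟨by linarith, by linarith⟩)
  refine h1.trans ?_
  have h2 : (3 : ℝ) ^ k ≤ 2 ^ s := by
    obtain ⟨w1, w2, w3, w4, w5⟩ := hmem w₀ hw₀
    have := w3.le
    rw [w1, w4] at this
    exact_mod_cast this
  have h4 : (1 : ℝ) ≤ 2 ^ s / 3 ^ k := by rwa [one_le_div h3]
  have h5 : (k : ℝ) * 2 ^ s / 3 / 3 ^ k = k * (2 ^ s / 3 ^ k) / 3 := by ring
  have h6 : ((k : ℝ) + 1) * 2 ^ s / 3 ^ k = (k + 1) * (2 ^ s / 3 ^ k) := by ring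
  rw [h5, h6]
  have h7 : (0 : ℝ) ≤ k := Nat.cast_nonneg k
  nlinarith

theorem Et_nonneg {σ : ℝ} (hσ : 0 ≤ σ) (G : Finset (List ℕ)) {f : ℤ → ℝ} (hf : ∀ x, 0 ≤ f x)
    (x : ℤ) : 0 ≤ Et σ G f x :=
  sum_nonneg fun w _ => mul_nonneg (mul_nonneg (by positivity) (wt_nonneg hσ w)) (hf _)

theorem Et_mono_set {σ : ℝ} (hσ : 0 ≤ σ) {G G' : Finset (List ℕ)} (h : G ⊆ G') {f : ℤ → ℝ}
    (hf : ∀ x, 0 ≤ f x) (x : ℤ) : Et σ G f x ≤ Et σ G' f x :=
  sum_le_sum_of_subset_of_nonneg (filter_subset_filter _ h)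
    fun w _ _ => mul_nonneg (mul_nonneg (by positivity) (wt_nonneg hσ w)) (hf _)

theorem Z_nonneg {σ : ℝ} (hσ : 0 ≤ σ) (I k : ℕ) (x : ℤ) : 0 ≤ Z σ I k x :=
  Et_nonneg hσ _ (fun _ => zero_le_one) x

/-- the part of a given sum -/
theorem Et_sum_le {σ : ℝ} (hσ : 0 ≤ σ) (I k s : ℕ) (x : ℤ) :
    Et σ ((BW I k).filter fun w => w.sum = s) (fun _ => 1) x ≤
      (k + 1) * Real.exp (σ * (2 * k - s)) := by
  classical
  have h1 := thm_Cnt I k s x
  have hz := zz_pos σ
  have hA := two_exp_sub_one_pos hσ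
  have hA0 : 0 ≤ 2 * Real.exp σ - 1 := by linarith
  unfold Et
  rw [filter_filter]
  have h2 : ∀ w ∈ (BW I k).filter (fun w => w.sum = s ∧ rd w x),
      3 ^ w.length * wt σ w * 1 = 3 ^ k * ((2 * Real.exp σ - 1) ^ k * zz σ ^ s) := by
    intro w hw
    rw [mem_filter, mem_BW, mem_words] at hw
    rw [wt, hw.1.1.1, hw.2.1]
    ring
  rw [sum_congr rfl h2, sum_const, nsmul_eq_mul]
  have h3 : (0 : ℝ) < 3 ^ k := by positivity
  have hzs : zz σ ^ s * 2 ^ s = Real.exp (-(σ * s)) := by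
    rw [← mul_pow]
    have : zz σ * 2 = Real.exp (-σ) := by unfold zz; ring
    rw [this, ← Real.exp_nat_mul]
    ring_nf
  have hA2 : (2 * Real.exp σ - 1) ^ k ≤ Real.exp (σ * (2 * k)) := by
    have := pow_le_pow_left₀ hA0 (two_exp_le hσ) k
    rw [← Real.exp_nat_mul] at this
    refine this.trans (le_of_eq ?_)
    ring_nf
  calc (((BW I k).filter (fun w => w.sum = s ∧ rd w x)).card : ℝ) *
        (3 ^ k * ((2 * Real.exp σ - 1) ^ k * zz σ ^ s))
      ≤ ((k + 1) * 2 ^ s / 3 ^ k) * (3 ^ k * ((2 * Real.exp σ - 1) ^ k * zz σ ^ s)) :=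
        mul_le_mul_of_nonneg_right h1 (by positivity)
    _ = (k + 1) * (2 * Real.exp σ - 1) ^ k * (zz σ ^ s * 2 ^ s) := by
        field_simp
    _ ≤ (k + 1) * Real.exp (σ * (2 * k)) * (zz σ ^ s * 2 ^ s) := by
        gcongr
    _ = (k + 1) * Real.exp (σ * (2 * k - s)) := by
        rw [hzs, mul_assoc, ← Real.exp_add]
        ring_nf

theorem geom_exp {σ : ℝ} (h0 : 0 < σ) (h1 : σ ≤ 1) (n : ℕ) :
    ∑ i ∈ range n, Real.exp (-(σ * i)) ≤ 2 / σ := by
  have h2 : ∀ i ∈ range n, Real.exp (-(σ * i)) = Real.exp (-σ) ^ i := by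
    intro i _
    rw [← Real.exp_nat_mul]
    ring_nf
  rw [sum_congr rfl h2]
  have h3 : Real.exp (-σ) < 1 := Real.exp_lt_one_iff.2 (by linarith) |> id
  have h4 : σ / 2 ≤ 1 - Real.exp (-σ) := by
    have h5 : Real.exp (-σ) * (1 + σ) ≤ 1 := by
      have h6 := Real.add_one_le_exp σ
      have h7 : Real.exp (-σ) * Real.exp σ = 1 := by rw [← Real.exp_add]; simp
      calc Real.exp (-σ) * (1 + σ) ≤ Real.exp (-σ) * Real.exp σ :=
            mul_le_mul_of_nonneg_left (by linarith) (Real.exp_pos _).le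
        _ = 1 := h7
    nlinarith [Real.exp_pos (-σ)]
  have h5 : 0 ≤ Real.exp (-σ) ^ n := by positivity
  rw [geom_sum_eq h3.ne]
  have h6 : (Real.exp (-σ) ^ n - 1) / (Real.exp (-σ) - 1) =
      (1 - Real.exp (-σ) ^ n) / (1 - Real.exp (-σ)) := by
    rw [← neg_sub 1 (Real.exp (-σ) ^ n), ← neg_sub 1 (Real.exp (-σ)), neg_div_neg_eq]
  rw [h6, div_le_div_iff₀ (by linarith) h0]
  nlinarith

theorem Et_filter_sum (σ : ℝ) (I k : ℕ) (p : List ℕ → Prop) [DecidablePred p] (x : ℤ) :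
    Et σ ((BW I k).filter p) (fun _ => 1) x = ∑ s ∈ range (I * k + 1),
      Et σ (((BW I k).filter p).filter fun w => w.sum = s) (fun _ => 1) x := by
  classical
  unfold Et
  rw [← sum_fiberwise_of_maps_to (t := range (I * k + 1)) (g := fun w : List ℕ => w.sum)]
  · apply sum_congr rfl
    intro s _
    apply sum_congr _ fun _ _ => rfl
    ext w
    simp only [mem_filter]
    tauto
  · intro w hw
    rw [mem_filter, mem_filter, mem_BW] at hw
    rw [mem_range, Nat.lt_succ_iff]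
    exact Pool.Agent.Collatz3.Mix.sum_le_of_mem_words hw.1.1.1

theorem thm_Sup : St_Sup := by
  classical
  intro σ h0 h1 I k s x
  rw [Et_filter_sum]
  have hle : ∀ t ∈ range (I * k + 1),
      Et σ (((BW I k).filter fun w => s ≤ w.sum).filter fun w => w.sum = t) (fun _ => 1) x ≤
        if s ≤ t then (k + 1) * Real.exp (σ * (2 * k - t)) else 0 := by
    intro t _
    by_cases h : s ≤ t
    · rw [if_pos h]
      refine (Et_mono_set h0.le ?_ (fun _ => zero_le_one) x).trans (Et_sum_le h0.le I k t x)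
      exact filter_subset_filter _ (filter_subset _ _)
    · rw [if_neg h]
      apply le_of_eq
      unfold Et
      apply sum_eq_zero
      intro w hw
      simp only [mem_filter] at hw
      omega
  refine (sum_le_sum hle).trans ?_
  rw [← sum_filter]
  have h2 : ∑ t ∈ (range (I * k + 1)).filter (fun t => s ≤ t),
      (k + 1) * Real.exp (σ * (2 * k - t)) ≤
      ∑ i ∈ range (I * k + 1), (k + 1) * Real.exp (σ * (2 * k - s)) * Real.exp (-(σ * i)) := by
    have h3 : ∑ i ∈ range (I * k + 1),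
        (k + 1) * Real.exp (σ * (2 * k - s)) * Real.exp (-(σ * i)) =
        ∑ t ∈ (range (I * k + 1)).image (fun i => s + i),
          (k + 1) * Real.exp (σ * (2 * k - t)) := by
      rw [sum_image (fun a _ b _ h => by simpa using h)]
      apply sum_congr rfl
      intro i _
      rw [mul_assoc, ← Real.exp_add]
      push_cast
      ring_nf
    rw [h3]
    apply sum_le_sum_of_subset_of_nonneg
    · intro t ht
      rw [mem_filter, mem_range] at ht
      rw [mem_image]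
      exact ⟨t - s, by rw [mem_range]; omega, by omega⟩
    · intro t _ _
      positivity
  refine h2.trans ?_
  rw [← mul_sum]
  have h3 := geom_exp h0 h1 (I * k + 1)
  calc (k + 1) * Real.exp (σ * (2 * k - s)) * ∑ i ∈ range (I * k + 1), Real.exp (-(σ * i))
      ≤ (k + 1) * Real.exp (σ * (2 * k - s)) * (2 / σ) := by gcongr
    _ = 2 * (k + 1) / σ * Real.exp (σ * (2 * k - s)) := by ring

theorem thm_SupZ : St_SupZ := by
  classical
  intro σ h0 h1 I k x
  have h2 := thm_Sup σ h0 h1 I k ((3 * k + 1) / 2) x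
  have h3 : (BW I k).filter (fun w => (3 * k + 1) / 2 ≤ w.sum) = BW I k := by
    apply filter_true_of_mem
    intro w hw
    rw [mem_BW, mem_words] at hw
    have h4 := hw.2.le
    rw [hw.1.1] at h4
    by_contra hc
    have h5 : 2 * w.sum ≤ 3 * k := by omega
    have h6 : (3 ^ k) ^ 2 ≤ (2 ^ w.sum) ^ 2 := Nat.pow_le_pow_left h4 2
    have h7 : (2 ^ w.sum) ^ 2 ≤ 2 ^ (3 * k) := by
      rw [← pow_mul]
      exact Nat.pow_le_pow_right (by norm_num) (by omega)
    have h8 : (3 ^ k) ^ 2 = 9 ^ k := by rw [← pow_mul, mul_comm, pow_mul]; norm_num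
    have h9 : 2 ^ (3 * k) = 8 ^ k := by rw [pow_mul]; norm_num
    rcases Nat.eq_zero_or_pos k with rfl | hk
    · omega
    · have : 8 ^ k < 9 ^ k := Nat.pow_lt_pow_left (by norm_num) (by omega)
      omega
  rw [h3] at h2
  unfold Z
  refine h2.trans ?_
  have h4 : (3 * k : ℝ) / 2 ≤ (((3 * k + 1) / 2 : ℕ) : ℝ) := by
    have : 3 * k ≤ 2 * ((3 * k + 1) / 2) := by omega
    have h5 : ((3 * k : ℕ) : ℝ) ≤ ((2 * ((3 * k + 1) / 2) : ℕ) : ℝ) := by exact_mod_cast this
    push_cast at h5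
    linarith
  have h5 : σ * (2 * k - (((3 * k + 1) / 2 : ℕ) : ℝ)) ≤ σ * k / 2 := by
    have := mul_le_mul_of_nonneg_left h4 h0.le
    nlinarith
  gcongr

end Pool.Agent.UTL
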