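import Pool.Agent.UTL.Avg
import Pool.Agent.Collatz3.VTyp

set_option autoImplicit false

/-! Conditional means. -/

namespace Pool.Agent.UTL

open Finset
open Pool.Agent.Collatz3 (cw)
open Pool.Agent.Collatz3.Mix (words mem_words sum_two_pow_mul)
open Pool.Agent.Collatz3.PD (rd en en_spec Per A S S_en S_mono S_nonneg en_add
  rd_add rd_append en_append cat sum_cat words_add words_length)

theorem S_eq_zmod {M : ℕ} (f : ℤ → ℝ) : S M f = ∑ y : ZMod (3 ^ M), f ((y.val : ℕ) : ℤ) := by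
  unfold S
  refine sum_nbij' (fun t => ((t : ℕ) : ZMod (3 ^ M))) (fun y => y.val) ?_ ?_ ?_ ?_ ?_
  · intro t _
    exact mem_univ _
  · intro y _
    rw [mem_range]
    exact ZMod.val_lt y
  · intro t ht
    rw [mem_range] at ht
    exact ZMod.val_natCast_of_lt ht
  · intro y _
    exact ZMod.natCast_zmod_val y
  · intro t ht
    rw [mem_range] at ht
    rw [ZMod.val_natCast_of_lt ht]

theorem Per.cast_eq {M : ℕ} {f : ℤ → ℝ} (hf : Per M f) {x y : ℤ}
    (h : (x : ZMod (3 ^ M)) = (y : ZMod (3 ^ M))) : f x = f y := by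
  apply hf.of_dvd
  have h1 := (ZMod.intCast_eq_intCast_iff_dvd_sub y x (3 ^ M)).1 h.symm
  push_cast at h1
  exact h1

theorem S_mul_left {M : ℕ} {f : ℤ → ℝ} (hf : Per M f) (s : ℕ) :
    S M (fun t => f (2 ^ s * t)) = S M f := by
  rw [S_eq_zmod, S_eq_zmod, ← sum_two_pow_mul M s (fun y => f ((y.val : ℕ) : ℤ))]
  apply sum_congr rfl
  intro y _
  apply Per.cast_eq hf
  push_cast
  rw [ZMod.natCast_zmod_val, ZMod.natCast_zmod_val]

theorem S_shift {M : ℕ} {f : ℤ → ℝ} (hf : Per M f) (c : ℤ) :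
    S M (fun t => f (t + c)) = S M f := by
  rw [S_eq_zmod, S_eq_zmod, ← Equiv.sum_comp (Equiv.addRight (c : ZMod (3 ^ M)))
    (fun y => f ((y.val : ℕ) : ℤ))]
  apply sum_congr rfl
  intro y _
  apply Per.cast_eq hf
  push_cast
  rw [ZMod.natCast_zmod_val, ZMod.natCast_zmod_val]
  rfl

theorem thm_Cond : St_Cond := by
  intro σ G j l N f hG hjl hlN hf x
  have e0 : (N - j) - (l - j) = N - l := by omega
  unfold Ex
  rw [Et_eq, e0]
  have h1 : ∑ t ∈ range (3 ^ (N - l)), Et σ G f (x + 3 ^ l * (t : ℤ)) =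
      ∑ w ∈ G, 3 ^ w.length * wt σ w *
        (if rd w x then ∑ t ∈ range (3 ^ (N - l)), f (en w x + 3 ^ (l - j) * (t : ℤ)) else 0) := by
    rw [sum_congr rfl fun (t : ℕ) _ => Et_eq σ G f (x + 3 ^ l * ((t : ℕ) : ℤ)), sum_comm]
    apply sum_congr rfl
    intro w hw
    rw [← mul_sum]
    congr 1
    have e1 : ∀ t : ℤ, x + 3 ^ l * t = x + 3 ^ w.length * (3 ^ (l - j) * t) := by
      intro t
      have e2 : (3 : ℤ) ^ l = 3 ^ w.length * 3 ^ (l - j) := by
        rw [← pow_add, hG w hw]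
        congr 1
        omega
      rw [e2]
      ring
    by_cases h : rd w x
    · rw [if_pos h]
      have e3 : ∀ t ∈ range (3 ^ (N - l)), (if rd w (x + 3 ^ l * ((t : ℕ) : ℤ)) then
          f (en w (x + 3 ^ l * ((t : ℕ) : ℤ))) else 0) =
          f (en w x + 3 ^ (l - j) * (2 ^ w.sum * ((t : ℕ) : ℤ))) := by
        intro t _
        rw [e1, if_pos (rd_add.2 h), en_add h]
        congr 1
        ring
      rw [sum_congr rfl e3]
      have hP : Per (N - l) (fun t => f (en w x + 3 ^ (l - j) * t)) := by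
        intro t u
        have e4 : en w x + 3 ^ (l - j) * (t + 3 ^ (N - l) * u) =
            en w x + 3 ^ (l - j) * t + 3 ^ (N - j) * u := by
          have e5 : (3 : ℤ) ^ (N - j) = 3 ^ (l - j) * 3 ^ (N - l) := by
            rw [← pow_add]
            congr 1
            omega
          rw [e5]
          ring
        change f _ = f _
        rw [e4, hf]
      exact S_mul_left hP w.sum
    · rw [if_neg h]
      apply sum_eq_zero
      intro t _
      rw [e1, if_neg (fun h' => h (rd_add.1 h'))]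
  rw [h1, sum_div]
  apply sum_congr rfl
  intro w _
  split_ifs
  · ring
  · simp

theorem Et_cat {σ : ℝ} {N : ℕ} {G V : Finset (List ℕ)} (hG : ∀ w ∈ G, w.length = N) (f : ℤ → ℝ)
    (x : ℤ) : Et σ (cat G V) f x = Et σ G (Et σ V f) x := by
  rw [Et_eq, sum_cat hG, Et_eq]
  apply sum_congr rfl
  intro u _
  by_cases hu : rd u x
  · rw [if_pos hu, Et_eq, mul_sum]
    apply sum_congr rfl
    intro v _
    rw [List.length_append, pow_add, wt_append]
    by_cases hv : rd v (en u x)
    · rw [if_pos (rd_append.2 ⟨hu, hv⟩), if_pos hv, en_append hu]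
      ring
    · rw [if_neg (fun h => hv (rd_append.1 h).2), if_neg hv]
      ring
  · rw [if_neg hu, mul_zero]
    apply sum_eq_zero
    intro v _
    rw [if_neg (fun h => hu (rd_append.1 h).1), mul_zero]

theorem mass_cat {σ : ℝ} {N : ℕ} {G V : Finset (List ℕ)} (hG : ∀ w ∈ G, w.length = N) :
    mass σ (cat G V) = mass σ G * mass σ V := by
  unfold mass
  rw [sum_cat hG, sum_mul_sum]
  apply sum_congr rfl
  intro u _
  apply sum_congr rfl
  intro v _
  rw [wt_append]

theorem Et_mono {σ : ℝ} (hσ : 0 ≤ σ) (G : Finset (List ℕ)) {f g : ℤ → ℝ} (h : ∀ x, f x ≤ g x)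
    (x : ℤ) : Et σ G f x ≤ Et σ G g x :=
  sum_le_sum fun w _ => mul_le_mul_of_nonneg_left (h _)
    (mul_nonneg (by positivity) (wt_nonneg hσ w))

theorem Ex_mono {N l : ℕ} {f g : ℤ → ℝ} (h : ∀ x, f x ≤ g x) (x : ℤ) : Ex N l f x ≤ Ex N l g x :=
  div_le_div_of_nonneg_right (sum_le_sum fun _ _ => h _) (by positivity)

theorem Ex_nonneg {N l : ℕ} {f : ℤ → ℝ} (h : ∀ x, 0 ≤ f x) (x : ℤ) : 0 ≤ Ex N l f x :=
  div_nonneg (sum_nonneg fun _ _ => h _) (by positivity)

theorem Ex_sub (N l : ℕ) (f g : ℤ → ℝ) (x : ℤ) :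
    Ex N l (fun y => f y - g y) x = Ex N l f x - Ex N l g x := by
  unfold Ex
  rw [sum_sub_distrib, sub_div]

theorem A_Ex {N l : ℕ} {g : ℤ → ℝ} (hg : Per N g) : A N (Ex N l g) = A N g := by
  unfold A Ex
  congr 1
  have h1 : S N (fun x => (∑ t ∈ range (3 ^ (N - l)), g (x + 3 ^ l * (t : ℤ))) / 3 ^ (N - l)) =
      (∑ t ∈ range (3 ^ (N - l)), S N (fun x => g (x + 3 ^ l * (t : ℤ)))) / 3 ^ (N - l) := by
    rw [← S_sum]
    unfold S
    rw [sum_div]
  rw [h1, sum_congr rfl fun (t : ℕ) _ => S_shift hg (3 ^ l * ((t : ℕ) : ℤ)), sum_const, card_range,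
    nsmul_eq_mul]
  push_cast
  field_simp

theorem BW_subset_cat {I k l : ℕ} (h : l ≤ k) : BW I k ⊆ cat (BW I l) (words I (k - l)) := by
  intro w hw
  rw [mem_BW] at hw
  have e : k = l + (k - l) := by omega
  have h1 := hw.1
  rw [e, words_add, cat, mem_image] at h1
  obtain ⟨⟨u, v⟩, h2, rfl⟩ := h1
  rw [mem_product] at h2
  rw [cat, mem_image]
  refine ⟨(u, v), ?_, rfl⟩
  rw [mem_product, mem_BW]
  exact ⟨⟨h2.1, hw.2.left⟩, h2.2⟩

theorem BW_length {I k : ℕ} {w : List ℕ} (h : w ∈ BW I k) : w.length = k :=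
  words_length (mem_BW.1 h).1

theorem thm_Ctr : St_Ctr := by
  constructor
  · intro N l f _ hf
    have hP : Per N (fun x => |f x|) := by
      intro x t
      simp only
      rw [hf]
    rw [← A_Ex (l := l) hP]
    apply A_mono
    intro x
    unfold Ex
    rw [abs_div, abs_of_pos (by positivity : (0 : ℝ) < 3 ^ (N - l))]
    exact div_le_div_of_nonneg_right (abs_sum_le_sum_abs _ _) (by positivity)
  · intro σ I k l x hσ hl
    have h1 : ∀ y, Z σ I k y ≤ Et σ (BW I l) (Et σ (words I (k - l)) fun _ => 1) y := by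
      intro y
      rw [← Et_cat fun w h => BW_length h]
      exact Et_mono_set hσ (BW_subset_cat hl) (fun _ => zero_le_one) y
    refine (Ex_mono h1 x).trans ?_
    have hP : Per (k - l) (Et σ (words I (k - l)) fun _ => 1) := Per_one σ fun w h => words_length h
    have h2 := thm_Cond σ (BW I l) l l k _ (fun w h => BW_length h) le_rfl hl hP x
    rw [Nat.sub_self] at h2
    rw [h2]
    unfold Z
    apply Et_mono hσ
    intro y
    unfold Ex
    rw [Nat.sub_zero]
    have h3 : ∑ t ∈ range (3 ^ (k - l)),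
        Et σ (words I (k - l)) (fun _ => 1) (y + 3 ^ 0 * (t : ℤ)) =
        S (k - l) (fun t => Et σ (words I (k - l)) (fun _ => 1) (t + y)) := by
      unfold S
      apply sum_congr rfl
      intro t _
      congr 1
      ring
    rw [h3, S_shift hP]
    have h4 := thm_Avg σ (words I (k - l)) (k - l) 0 (fun _ => 1) (fun w h => words_length h)
      (fun _ _ => rfl)
    have h5 : A 0 (fun _ => (1 : ℝ)) = 1 := by
      unfold A S
      simp
    rw [h5, mul_one, Nat.add_zero] at h4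
    unfold A at h4
    rw [h4]
    exact thm_Mass σ hσ I (k - l)

end Pool.Agent.UTL
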