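import Pool.Agent.UTL.Cond

set_option autoImplicit false

/-! Crude bounds for the moments of the partition functions. -/

namespace Pool.Agent.UTL

open Finset
open Pool.Agent.Collatz3.Mix (words mem_words)
open Pool.Agent.Collatz3.PD (rd en Per A S)

theorem A_const_mul (k : ℕ) (c : ℝ) (f : ℤ → ℝ) : A k (fun x => c * f x) = c * A k f := by
  unfold A
  rw [S_smul]
  ring

theorem A_add (k : ℕ) (f g : ℤ → ℝ) : A k (fun x => f x + g x) = A k f + A k g := by
  unfold A
  rw [Pool.Agent.Collatz3.PD.S_add, add_div]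

theorem A_sum {ι : Type*} (s : Finset ι) (k : ℕ) (f : ι → ℤ → ℝ) :
    A k (fun x => ∑ i ∈ s, f i x) = ∑ i ∈ s, A k (f i) := by
  unfold A
  rw [S_sum, sum_div]

theorem A_one (k : ℕ) : A k (fun _ => (1 : ℝ)) = 1 := by
  unfold A S
  simp

theorem A_const (k : ℕ) (c : ℝ) : A k (fun _ => c) = c := by
  have := A_const_mul k c (fun _ => 1)
  simpa [A_one] using this

theorem mass_sum_le {σ a : ℝ} (h0 : 0 ≤ σ) (ha : 0 ≤ a) (I k s : ℕ) :
    mass σ ((words I k).filter fun w => w.sum = s) ≤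
      Real.exp (-(a * (2 * k - s)) + (σ + a) ^ 2 * k) := by
  have h1 := two_exp_sub_one_pos h0
  have h2 := two_exp_sub_one_pos (x := σ + a) (by linarith)
  have hm := thm_Mgf σ a h0 (by linarith) I k
  have hpt : ∀ w ∈ (words I k).filter (fun w => w.sum = s),
      wt σ w ≤ Real.exp (a * s) * (wt σ w * Real.exp (-a * w.sum)) := by
    intro w hw
    rw [mem_filter] at hw
    rw [hw.2]
    have : Real.exp (a * s) * Real.exp (-a * s) = 1 := by
      rw [← Real.exp_add]
      ring_nf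
      exact Real.exp_zero
    calc wt σ w = wt σ w * (Real.exp (a * s) * Real.exp (-a * s)) := by rw [this, mul_one]
      _ ≤ Real.exp (a * s) * (wt σ w * Real.exp (-a * s)) := le_of_eq (by ring)
  unfold mass
  calc ∑ w ∈ (words I k).filter (fun w => w.sum = s), wt σ w
      ≤ ∑ w ∈ (words I k).filter (fun w => w.sum = s),
          Real.exp (a * s) * (wt σ w * Real.exp (-a * w.sum)) := sum_le_sum hpt
    _ ≤ ∑ w ∈ words I k, Real.exp (a * s) * (wt σ w * Real.exp (-a * w.sum)) :=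
        sum_le_sum_of_subset_of_nonneg (filter_subset _ _) fun w _ _ => by
          have := wt_nonneg h0 w
          positivity
    _ = Real.exp (a * s) * ∑ w ∈ words I k, wt σ w * Real.exp (-a * w.sum) := by rw [mul_sum]
    _ ≤ Real.exp (a * s) * ((2 * Real.exp σ - 1) / (2 * Real.exp (σ + a) - 1)) ^ k :=
        mul_le_mul_of_nonneg_left hm (Real.exp_pos _).le
    _ ≤ Real.exp (a * s) * Real.exp (-2 * a + (σ + a) ^ 2) ^ k := by
        apply mul_le_mul_of_nonneg_left _ (Real.exp_pos _).le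
        apply pow_le_pow_left₀ (div_nonneg (by linarith) (by linarith))
        rw [div_le_iff₀ (by linarith)]
        calc 2 * Real.exp σ - 1 ≤ Real.exp (2 * σ) := two_exp_le h0
          _ = Real.exp (-2 * a + (σ + a) ^ 2) * Real.exp (2 * (σ + a) - (σ + a) ^ 2) := by
              rw [← Real.exp_add]
              ring_nf
          _ ≤ Real.exp (-2 * a + (σ + a) ^ 2) * (2 * Real.exp (σ + a) - 1) :=
              mul_le_mul_of_nonneg_left (le_two_exp (by linarith)) (Real.exp_pos _).le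
    _ = Real.exp (-(a * (2 * k - s)) + (σ + a) ^ 2 * k) := by
        rw [← Real.exp_nat_mul, ← Real.exp_add]
        ring_nf

theorem BW_filter_length {I k : ℕ} {p : List ℕ → Prop} [DecidablePred p] {w : List ℕ}
    (h : w ∈ (BW I k).filter p) : w.length = k := BW_length (mem_filter.1 h).1

theorem A_Et_one {σ : ℝ} {G : Finset (List ℕ)} {j : ℕ} (hG : ∀ w ∈ G, w.length = j) :
    A j (Et σ G fun _ => 1) = mass σ G := by
  have h := thm_Avg σ G j 0 (fun _ => 1) hG (fun _ _ => rfl)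
  rw [A_one, mul_one, Nat.add_zero] at h
  exact h

/-- the part of a small sum -/
theorem part_le {σ : ℝ} (h0 : 0 < σ) (h1 : σ ≤ 1) {q I k s : ℕ} (hq : 1 ≤ q)
    (hs : 4 * q * σ * k ≤ 2 * k - s) :
    A k (fun x => Et σ ((BW I k).filter fun w => w.sum = s) (fun _ => 1) x ^ q) ≤
      (k + 1) ^ (q - 1) * Real.exp (σ ^ 2 * k) := by
  obtain ⟨d, hd⟩ : ∃ d : ℝ, d = 2 * k - s := ⟨_, rfl⟩
  rw [← hd] at hs
  have hqr : (1 : ℝ) ≤ q := by exact_mod_cast hq
  have hk0 : (0 : ℝ) ≤ k := Nat.cast_nonneg k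
  have h2 : A k (fun x => Et σ ((BW I k).filter fun w => w.sum = s) (fun _ => 1) x ^ q) ≤
      A k (fun x => ((k + 1) * Real.exp (σ * d)) ^ (q - 1) *
        Et σ ((BW I k).filter fun w => w.sum = s) (fun _ => 1) x) := by
    apply A_mono
    intro x
    have e1 := Et_sum_le h0.le I k s x
    rw [← hd] at e1
    have e2 := Et_nonneg h0.le ((BW I k).filter fun w => w.sum = s) (fun _ => zero_le_one) x
      (f := fun _ => 1)
    have e3 : q = (q - 1) + 1 := by omega
    conv_lhs => rw [e3, pow_succ]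
    exact mul_le_mul_of_nonneg_right (pow_le_pow_left₀ e2 e1 _) e2
  refine h2.trans ?_
  rw [A_const_mul, A_Et_one (j := k) (fun w h => BW_filter_length h)]
  have h3 : mass σ ((BW I k).filter fun w => w.sum = s) ≤
      Real.exp (-((2 * q * σ) * d) + (σ + 2 * q * σ) ^ 2 * k) := by
    rw [hd]
    exact (mass_mono h0.le (filter_subset_filter _ (BW_subset I k))).trans
      (mass_sum_le h0.le (by positivity) I k s)
  calc ((k + 1) * Real.exp (σ * d)) ^ (q - 1) * mass σ ((BW I k).filter fun w => w.sum = s)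
      ≤ ((k + 1) * Real.exp (σ * d)) ^ (q - 1) *
          Real.exp (-((2 * q * σ) * d) + (σ + 2 * q * σ) ^ 2 * k) :=
        mul_le_mul_of_nonneg_left h3 (by positivity)
    _ = (k + 1) ^ (q - 1) * Real.exp (((q - 1 : ℕ) : ℝ) * (σ * d) +
          (-((2 * q * σ) * d) + (σ + 2 * q * σ) ^ 2 * k)) := by
        rw [mul_pow, ← Real.exp_nat_mul, mul_assoc, ← Real.exp_add]
    _ ≤ (k + 1) ^ (q - 1) * Real.exp (σ ^ 2 * k) := by
        apply mul_le_mul_of_nonneg_left _ (by positivity)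
        apply Real.exp_le_exp.2
        rw [Nat.cast_sub hq]
        push_cast
        have h4 : (q + 1) * σ * (4 * q * σ * k) ≤ (q + 1) * σ * d :=
          mul_le_mul_of_nonneg_left hs (by positivity)
        nlinarith

theorem Z_split (σ : ℝ) (I k S₀ : ℕ) (x : ℤ) : Z σ I k x =
    Et σ ((BW I k).filter fun w => S₀ ≤ w.sum) (fun _ => 1) x +
      ∑ s ∈ range S₀, Et σ ((BW I k).filter fun w => w.sum = s) (fun _ => 1) x := by
  classical
  unfold Z
  simp only [Et_eq]
  rw [← sum_filter_add_sum_filter_not (BW I k) (fun w => S₀ ≤ w.sum)]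
  congr 1
  rw [← sum_fiberwise_of_maps_to (t := range S₀) (g := fun w : List ℕ => w.sum)]
  · apply sum_congr rfl
    intro s hs
    rw [mem_range] at hs
    apply sum_congr _ fun _ _ => rfl
    ext w
    simp only [mem_filter]
    constructor
    · rintro ⟨⟨h1, h2⟩, h3⟩
      exact ⟨h1, h3⟩
    · rintro ⟨h1, h2⟩
      exact ⟨⟨h1, by omega⟩, h2⟩
  · intro w hw
    rw [mem_filter] at hw
    rw [mem_range]
    omega

theorem thm_Crude : St_Crude := by
  classical
  intro σ h0 h1 q I k hq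
  have hqr : (1 : ℝ) ≤ q := by exact_mod_cast hq
  have hk0 : (0 : ℝ) ≤ k := Nat.cast_nonneg k
  obtain ⟨y, hy⟩ : ∃ y : ℝ, y = 2 * k - 4 * q * σ * k := ⟨_, rfl⟩
  obtain ⟨S₀, hS⟩ : ∃ S₀ : ℕ, S₀ = ⌈y⌉₊ := ⟨_, rfl⟩
  have hS1 : S₀ ≤ 2 * k := by
    rw [hS]
    apply Nat.ceil_le.2
    rw [hy]
    push_cast
    have : 0 ≤ 4 * q * σ * k := by positivity
    linarith
  have hS2 : y ≤ S₀ := by rw [hS]; exact Nat.le_ceil y
  obtain ⟨e, he⟩ : ∃ e : ℝ, e = Real.exp (4 * q * σ ^ 2 * k) := ⟨_, rfl⟩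
  have he1 : 1 ≤ e := by rw [he]; exact Real.one_le_exp (by positivity)
  obtain ⟨c, hc⟩ : ∃ c : ℝ, c = k + 1 := ⟨_, rfl⟩
  have hc1 : 1 ≤ c := by rw [hc]; linarith
  have hU : ∀ x, Et σ ((BW I k).filter fun w => S₀ ≤ w.sum) (fun _ => 1) x ≤ 2 * c / σ * e := by
    intro x
    refine (thm_Sup σ h0 h1 I k S₀ x).trans ?_
    rw [hc, he]
    apply mul_le_mul_of_nonneg_left _ (by positivity)
    apply Real.exp_le_exp.2
    have : 2 * (k : ℝ) - S₀ ≤ 4 * q * σ * k := by linarith
    calc σ * (2 * k - S₀) ≤ σ * (4 * q * σ * k) := mul_le_mul_of_nonneg_left this h0.le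
      _ = 4 * q * σ ^ 2 * k := by ring
  have hU0 : ∀ x, 0 ≤ Et σ ((BW I k).filter fun w => S₀ ≤ w.sum) (fun _ => 1) x := fun x =>
    Et_nonneg h0.le _ (fun _ => zero_le_one) x
  have hL0 : ∀ s x, 0 ≤ Et σ ((BW I k).filter fun w => w.sum = s) (fun _ => 1) x := fun s x =>
    Et_nonneg h0.le _ (fun _ => zero_le_one) x
  -- power mean
  have h2 : ∀ x, Z σ I k x ^ q ≤ (S₀ + 1 : ℝ) ^ (q - 1) * ((2 * c / σ * e) ^ q +
      ∑ s ∈ range S₀, Et σ ((BW I k).filter fun w => w.sum = s) (fun _ => 1) x ^ q) := by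
    intro x
    have h3 := pow_mean (range (S₀ + 1)) (fun _ => 1)
      (fun s => if s = S₀ then Et σ ((BW I k).filter fun w => S₀ ≤ w.sum) (fun _ => 1) x else
        Et σ ((BW I k).filter fun w => w.sum = s) (fun _ => 1) x) (fun _ _ => zero_le_one)
      (fun s _ => by split_ifs; exacts [hU0 x, hL0 s x]) hq
    simp only [one_mul, sum_range_succ, if_true, sum_const, card_range, nsmul_eq_mul,
      mul_one] at h3
    have e1 : ∑ s ∈ range S₀, (if s = S₀ then
        Et σ ((BW I k).filter fun w => S₀ ≤ w.sum) (fun _ => 1) x else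
        Et σ ((BW I k).filter fun w => w.sum = s) (fun _ => 1) x) =
        ∑ s ∈ range S₀, Et σ ((BW I k).filter fun w => w.sum = s) (fun _ => 1) x :=
      sum_congr rfl fun s hs => if_neg (by rw [mem_range] at hs; omega)
    have e2 : ∑ s ∈ range S₀, (if s = S₀ then
        Et σ ((BW I k).filter fun w => S₀ ≤ w.sum) (fun _ => 1) x else
        Et σ ((BW I k).filter fun w => w.sum = s) (fun _ => 1) x) ^ q =
        ∑ s ∈ range S₀, Et σ ((BW I k).filter fun w => w.sum = s) (fun _ => 1) x ^ q :=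
      sum_congr rfl fun s hs => by rw [if_neg (by rw [mem_range] at hs; omega)]
    rw [e1, e2, add_comm, ← Z_split] at h3
    push_cast at h3
    refine h3.trans ?_
    have h6 := pow_le_pow_left₀ (hU0 x) (hU x) q
    have h7 : (0 : ℝ) ≤ (S₀ + 1 : ℝ) ^ (q - 1) := by positivity
    exact mul_le_mul_of_nonneg_left (by linarith) h7
  have h3 : A k (fun x => Z σ I k x ^ q) ≤ (S₀ + 1 : ℝ) ^ (q - 1) * ((2 * c / σ * e) ^ q +
      ∑ s ∈ range S₀, (k + 1 : ℝ) ^ (q - 1) * Real.exp (σ ^ 2 * k)) := by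
    refine (A_mono h2).trans ?_
    rw [A_const_mul, A_add, A_const, A_sum]
    apply mul_le_mul_of_nonneg_left _ (by positivity)
    apply add_le_add le_rfl
    apply sum_le_sum
    intro s hs
    rw [mem_range, hS, Nat.lt_ceil, hy] at hs
    exact part_le h0 h1 hq (by linarith)
  refine h3.trans ?_
  rw [sum_const, card_range, nsmul_eq_mul, ← hc]
  have h4 : Real.exp (σ ^ 2 * k) ≤ e ^ q := by
    rw [he, ← Real.exp_nat_mul]
    apply Real.exp_le_exp.2
    have h5 : 0 ≤ σ ^ 2 * k := by positivity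
    have h6 : (1 : ℝ) ≤ q * (4 * q) := by nlinarith
    calc σ ^ 2 * k = 1 * (σ ^ 2 * k) := (one_mul _).symm
      _ ≤ q * (4 * q) * (σ ^ 2 * k) := mul_le_mul_of_nonneg_right h6 h5
      _ = q * (4 * q * σ ^ 2 * k) := by ring
  have hS3 : (S₀ : ℝ) + 1 ≤ 2 * c := by
    have : (S₀ : ℝ) ≤ 2 * k := by exact_mod_cast hS1
    rw [hc]
    linarith
  have h1s : 1 ≤ 1 / σ := by rw [le_div_iff₀ h0]; linarith
  have hce : 0 ≤ c * e := by positivity
  have hcs : c * e ≤ c / σ * e := by
    have : c * e * 1 ≤ c * e * (1 / σ) := mul_le_mul_of_nonneg_left h1s hce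
    calc c * e = c * e * 1 := (mul_one _).symm
      _ ≤ c * e * (1 / σ) := this
      _ = c / σ * e := by ring
  have h5 : (S₀ : ℝ) * (c ^ (q - 1) * Real.exp (σ ^ 2 * k)) ≤ (2 * c / σ * e) ^ q := by
    calc (S₀ : ℝ) * (c ^ (q - 1) * Real.exp (σ ^ 2 * k)) ≤ (2 * c) * (c ^ (q - 1) * e ^ q) := by
          apply mul_le_mul (by linarith) _ (by positivity) (by positivity)
          exact mul_le_mul_of_nonneg_left h4 (by positivity)
      _ = 2 * (c * e) ^ q := by
          have : c ^ q = c ^ (q - 1) * c := by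
            rw [← pow_succ]
            congr 1
            omega
          rw [mul_pow, this]
          ring
      _ ≤ 2 ^ q * (c / σ * e) ^ q := by
          apply mul_le_mul _ (pow_le_pow_left₀ hce hcs q) (by positivity) (by positivity)
          calc (2 : ℝ) = 2 ^ 1 := (pow_one 2).symm
            _ ≤ 2 ^ q := pow_le_pow_right₀ (by norm_num) hq
      _ = (2 * c / σ * e) ^ q := by rw [← mul_pow]; ring_nf
  calc (S₀ + 1 : ℝ) ^ (q - 1) * ((2 * c / σ * e) ^ q + S₀ * (c ^ (q - 1) * Real.exp (σ ^ 2 * k)))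
      ≤ (2 * c) ^ (q - 1) * (2 * (2 * c / σ * e) ^ q) := by
        apply mul_le_mul (pow_le_pow_left₀ (by positivity) hS3 _) (by linarith) (by positivity)
          (by positivity)
    _ ≤ (2 * c) ^ (q - 1) * (2 * c * (2 * c / σ * e) ^ q) := by
        gcongr
        linarith
    _ = (4 * c ^ 2 / σ * e) ^ q := by
        have : (2 * c) ^ (q - 1) * (2 * c) = (2 * c) ^ q := by
          rw [← pow_succ]
          congr 1
          omega
        calc (2 * c) ^ (q - 1) * (2 * c * (2 * c / σ * e) ^ q)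
            = ((2 * c) ^ (q - 1) * (2 * c)) * (2 * c / σ * e) ^ q := by ring
          _ = (2 * c * (2 * c / σ * e)) ^ q := by rw [this, ← mul_pow]
          _ = (4 * c ^ 2 / σ * e) ^ q := by ring_nf
    _ = (4 * c ^ 2 / σ * Real.exp (4 * q * σ ^ 2 * k)) ^ q := by rw [he]

end Pool.Agent.UTL
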