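import Pool.Agent.UTL.Crude

set_option autoImplicit false

/-! The decomposition of barrier words at their cuts. -/

namespace Pool.Agent.UTL

open Finset
open Pool.Agent.Collatz3.Mix (words mem_words)
open Pool.Agent.Collatz3.PD (rd en Per A S cat sum_cat words_add words_length rd_append en_append)

theorem no_cut : ∀ (n : ℕ) (u : List ℕ), u.length = n → (∀ i < u.length, ¬ Bar (u.drop i)) →
    2 ^ u.sum ≤ 3 ^ u.length := by
  intro n
  induction n using Nat.strong_induction_on with
  | _ n ih =>
    intro u hn h
    rcases eq_or_ne u [] with rfl | hu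
    · simp
    · have h0 := h 0 (List.length_pos_iff.2 hu)
      rw [List.drop_zero] at h0
      unfold Bar at h0
      push Not at h0
      obtain ⟨v, w, hvw, hv, hle⟩ := h0
      have hvl : 1 ≤ v.length := List.length_pos_iff.2 hv
      have hlen : u.length = v.length + w.length := by rw [← hvw, List.length_append]
      have h1 := ih w.length (by omega) w rfl (by
        intro i hi
        have h2 := h (v.length + i) (by omega)
        rw [← hvw, List.drop_append, List.drop_of_length_le (by omega), List.nil_append] at h2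
        have h3 : v.length + i - v.length = i := by omega
        rwa [h3] at h2)
      rw [hlen, ← hvw, List.sum_append, pow_add, pow_add]
      exact Nat.mul_le_mul hle h1

theorem mem_EC {I m r : ℕ} {w : List ℕ} : w ∈ EC I m r ↔ w ∈ BW I (m + r) ∧
    ∀ i, m ≤ i → i < m + r → ¬ Bar (w.drop i) := by
  classical
  unfold EC
  rw [mem_filter]

theorem EC_length {I m r : ℕ} {w : List ℕ} (h : w ∈ EC I m r) : w.length = m + r :=
  BW_length (mem_EC.1 h).1

theorem thm_CutM : St_CutM := by
  intro σ h0 h1 I m r
  have hsub : EC I m r ⊆ cat (words I m) ((words I r).filter fun w => 2 ^ w.sum ≤ 3 ^ r) := by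
    intro w hw
    rw [mem_EC] at hw
    obtain ⟨hw1, hw2⟩ := hw
    have h2 := (mem_BW.1 hw1).1
    rw [words_add, cat, mem_image] at h2
    obtain ⟨⟨u, v⟩, h3, rfl⟩ := h2
    rw [mem_product] at h3
    obtain ⟨h4, h5⟩ := h3
    simp only at h4 h5
    have hu := words_length h4
    have hv := words_length h5
    rw [cat, mem_image]
    refine ⟨(u, v), ?_, rfl⟩
    rw [mem_product, mem_filter]
    refine ⟨h4, h5, ?_⟩
    have h6 := no_cut v.length v rfl (by
      intro i hi
      have h7 := hw2 (m + i) (by omega) (by omega)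
      simp only at h7
      rw [List.drop_append, List.drop_of_length_le (by omega), List.nil_append] at h7
      have h8 : m + i - u.length = i := by omega
      rwa [h8] at h7)
    rw [hv] at h6
    exact h6
  refine (mass_mono h0 hsub).trans ?_
  rw [mass_cat fun w h => words_length h]
  have h2 := thm_Mass σ h0 I m
  have h3 := thm_Tail σ h0 h1 I r
  have h4 := mass_nonneg h0 ((words I r).filter fun w => 2 ^ w.sum ≤ 3 ^ r)
  calc mass σ (words I m) * mass σ ((words I r).filter fun w => 2 ^ w.sum ≤ 3 ^ r)
      ≤ 1 * mass σ ((words I r).filter fun w => 2 ^ w.sum ≤ 3 ^ r) :=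
        mul_le_mul_of_nonneg_right h2 h4
    _ ≤ (97 / 100) ^ r := by rw [one_mul]; exact h3

theorem sum_biUnion_le' {ι κ : Type*} [DecidableEq κ] (s : Finset ι) (t : ι → Finset κ)
    (f : κ → ℝ) (hf : ∀ a, 0 ≤ f a) :
    ∑ a ∈ s.biUnion t, f a ≤ ∑ i ∈ s, ∑ a ∈ t i, f a := by
  classical
  induction s using Finset.induction_on with
  | empty => simp
  | insert a s ha ih =>
    rw [biUnion_insert, sum_insert ha]
    have h1 := sum_union_inter (s₁ := t a) (s₂ := s.biUnion t) (f := f)
    have h2 : 0 ≤ ∑ i ∈ t a ∩ s.biUnion t, f i := sum_nonneg fun i _ => hf i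
    linarith

theorem thm_CutD : St_CutD := by
  classical
  intro σ hσ I m k x hmk
  have h1 : ∀ r ∈ range (k - m + 1), Et σ (EC I m r) (Z σ I (k - m - r)) x =
      Et σ (cat (EC I m r) (BW I (k - m - r))) (fun _ => 1) x := by
    intro r _
    rw [Et_cat fun w h => EC_length h]
    rfl
  rw [sum_congr rfl h1]
  have h2 : BW I k ⊆ (range (k - m + 1)).biUnion
      fun r => cat (EC I m r) (BW I (k - m - r)) := by
    intro w hw
    have hlen := BW_length hw
    rw [mem_BW] at hw
    obtain ⟨hw1, hw2⟩ := hw
    -- the first cut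
    have hex : ∃ r, Bar (w.drop (m + r)) := ⟨k - m, by
      rw [List.drop_of_length_le (by omega)]
      exact Bar_nil⟩
    obtain ⟨r, hr, hmin⟩ : ∃ r, Bar (w.drop (m + r)) ∧ ∀ r' < r, ¬ Bar (w.drop (m + r')) :=
      ⟨Nat.find hex, Nat.find_spec hex, fun r' h => Nat.find_min hex h⟩
    have hrk : r ≤ k - m := by
      by_contra hc
      apply hmin (k - m) (by omega)
      rw [List.drop_of_length_le (by omega)]
      exact Bar_nil
    rw [mem_biUnion]
    refine ⟨r, by rw [mem_range]; omega, ?_⟩
    rw [cat, mem_image]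
    refine ⟨(w.take (m + r), w.drop (m + r)), ?_, List.take_append_drop _ _⟩
    rw [mem_product]
    simp only
    have e1 : Bar (w.take (m + r)) := by
      have : Bar (w.take (m + r) ++ w.drop (m + r)) := by rwa [List.take_append_drop]
      exact this.left
    constructor
    · rw [mem_EC, mem_BW, mem_words]
      refine ⟨⟨⟨by rw [List.length_take]; omega, fun i hi =>
        (mem_words.1 hw1).2 i (List.mem_of_mem_take hi)⟩, e1⟩, ?_⟩
      intro i hi1 hi2 hbar
      obtain ⟨r', rfl⟩ := Nat.exists_eq_add_of_le hi1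
      apply hmin r' (by omega)
      have e2 : w.drop (m + r') = (w.take (m + r)).drop (m + r') ++ w.drop (m + r) := by
        conv_lhs => rw [← List.take_append_drop (m + r) w]
        rw [List.drop_append, List.length_take]
        congr 1
        have : m + r' - min (m + r) w.length = 0 := by omega
        rw [this, List.drop_zero]
      rw [e2]
      exact hbar.append hr
    · rw [mem_BW, mem_words]
      refine ⟨⟨by rw [List.length_drop]; omega, fun i hi =>
        (mem_words.1 hw1).2 i (List.mem_of_mem_drop hi)⟩, hr⟩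
  unfold Z
  rw [Et_eq]
  have h3 : ∀ w : List ℕ, 0 ≤ 3 ^ w.length * wt σ w * (if rd w x then (1 : ℝ) else 0) := by
    intro w
    have := wt_nonneg hσ w
    split_ifs <;> positivity
  calc ∑ w ∈ BW I k, 3 ^ w.length * wt σ w * (if rd w x then (1 : ℝ) else 0)
      ≤ ∑ w ∈ (range (k - m + 1)).biUnion fun r => cat (EC I m r) (BW I (k - m - r)),
          3 ^ w.length * wt σ w * (if rd w x then (1 : ℝ) else 0) :=
        sum_le_sum_of_subset_of_nonneg h2 fun w _ _ => h3 w
    _ ≤ ∑ r ∈ range (k - m + 1), ∑ w ∈ cat (EC I m r) (BW I (k - m - r)),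
          3 ^ w.length * wt σ w * (if rd w x then (1 : ℝ) else 0) :=
        sum_biUnion_le' _ _ _ h3
    _ = ∑ r ∈ range (k - m + 1), Et σ (cat (EC I m r) (BW I (k - m - r))) (fun _ => 1) x :=
        sum_congr rfl fun r _ => (Et_eq σ _ (fun _ => 1) x).symm

end Pool.Agent.UTL
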