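import Pool.Agent.UTL.Fine
import Pool.Agent.UTL.Cut

set_option autoImplicit false

/-! Moments of the partition function: renewal at the cuts. -/

namespace Pool.Agent.UTL

open Finset Filter Topology
open Pool.Agent.Collatz3.Mix (words mem_words)
open Pool.Agent.Collatz3.PD (rd en Per A S)

theorem A_cs {j : ℕ} {C : ℤ → ℝ} (hC : ∀ x, 0 ≤ C x) {q : ℕ} (hq : 1 ≤ q) :
    A j (fun x => C x ^ q) ^ 2 ≤ A j C * A j (fun x => C x ^ (2 * q - 1)) := by
  unfold A S
  have h1 := Finset.sum_mul_sq_le_sq_mul_sq (range (3 ^ j)) (fun t => √(C ((t : ℕ) : ℤ)))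
    (fun t => √(C ((t : ℕ) : ℤ) ^ (2 * q - 1)))
  have e1 : ∀ t ∈ range (3 ^ j), √(C ((t : ℕ) : ℤ)) * √(C ((t : ℕ) : ℤ) ^ (2 * q - 1)) =
      C ((t : ℕ) : ℤ) ^ q := by
    intro t _
    rw [← Real.sqrt_mul (hC _), ← pow_succ']
    have : 2 * q - 1 + 1 = q * 2 := by omega
    rw [this, pow_mul, Real.sqrt_sq (pow_nonneg (hC _) _)]
  have e2 : ∀ t ∈ range (3 ^ j), √(C ((t : ℕ) : ℤ)) ^ 2 = C ((t : ℕ) : ℤ) := fun t _ =>
    Real.sq_sqrt (hC _)
  have e3 : ∀ t ∈ range (3 ^ j), √(C ((t : ℕ) : ℤ) ^ (2 * q - 1)) ^ 2 =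
      C ((t : ℕ) : ℤ) ^ (2 * q - 1) := fun t _ => Real.sq_sqrt (pow_nonneg (hC _) _)
  rw [sum_congr rfl e1, sum_congr rfl e2, sum_congr rfl e3] at h1
  rw [div_pow, div_mul_div_comm, ← sq]
  exact div_le_div_of_nonneg_right h1 (by positivity)

theorem geom_sum_le' {η : ℝ} (h0 : 0 ≤ η) (h1 : η < 1) (n : ℕ) :
    ∑ r ∈ range n, η ^ r ≤ 1 / (1 - η) := by
  rw [le_div_iff₀ (by linarith)]
  have h := geom_sum_mul η n
  have h2 : 0 ≤ η ^ n := pow_nonneg h0 n
  nlinarith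

theorem Per_Z (σ : ℝ) (I k : ℕ) : Per k (Z σ I k) := Per_one σ fun _ h => BW_length h

theorem ThmA_step {σ : ℝ} (hσ : 0 ≤ σ) {q : ℕ} (hq : 1 ≤ q) {η : ℝ} (hη0 : 0 < η)
    (hη1 : η < 1) {m I : ℕ} {P : ℝ} (hP : 0 ≤ P)
    (hC : ∀ r, A (m + r) (fun x => Et σ (EC I m r) (fun _ => 1) x ^ q) ≤ (η ^ r) ^ (2 * q) * P)
    (k : ℕ) (hk : m ≤ k) :
    A k (fun x => Z σ I k x ^ q) ≤ (1 / (1 - η)) ^ (q - 1) * P *
      ∑ r ∈ range (k - m + 1), η ^ r * A (k - m - r) (fun x => Z σ I (k - m - r) x ^ q) := by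
  obtain ⟨H, hH⟩ : ∃ H : ℝ, H = 1 / (1 - η) := ⟨_, rfl⟩
  have hH0 : 0 ≤ H := by rw [hH]; exact div_nonneg zero_le_one (by linarith)
  rw [← hH]
  have hX0 : ∀ r x, 0 ≤ Et σ (EC I m r) (Z σ I (k - m - r)) x := fun r x =>
    Et_nonneg hσ _ (fun y => Z_nonneg hσ _ _ y) x
  have hpt : ∀ x, Z σ I k x ^ q ≤ ∑ r ∈ range (k - m + 1), H ^ (q - 1) * (1 / (η ^ r) ^ q) *
      Et σ (EC I m r) (Z σ I (k - m - r)) x ^ q := by
    intro x
    have h1 := thm_CutD σ hσ I m k x hk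
    have h2 := pow_mean (range (k - m + 1)) (fun r => η ^ r)
      (fun r => Et σ (EC I m r) (Z σ I (k - m - r)) x / η ^ r) (fun r _ => by positivity)
      (fun r _ => div_nonneg (hX0 r x) (by positivity)) hq
    have e1 : ∑ r ∈ range (k - m + 1), η ^ r *
        (Et σ (EC I m r) (Z σ I (k - m - r)) x / η ^ r) =
        ∑ r ∈ range (k - m + 1), Et σ (EC I m r) (Z σ I (k - m - r)) x := by
      apply sum_congr rfl
      intro r _
      field_simp
    rw [e1] at h2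
    refine (pow_le_pow_left₀ (Z_nonneg hσ I k x) h1 q).trans (h2.trans ?_)
    rw [mul_sum]
    apply sum_le_sum
    intro r _
    have h3 : (∑ i ∈ range (k - m + 1), η ^ i) ^ (q - 1) ≤ H ^ (q - 1) := by
      apply pow_le_pow_left₀ (sum_nonneg fun i _ => by positivity)
      rw [hH]
      exact geom_sum_le' hη0.le hη1 _
    have h4 : η ^ r * (Et σ (EC I m r) (Z σ I (k - m - r)) x / η ^ r) ^ q ≤
        1 / (η ^ r) ^ q * Et σ (EC I m r) (Z σ I (k - m - r)) x ^ q := by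
      rw [div_pow]
      have h5 : η ^ r ≤ 1 := pow_le_one₀ hη0.le hη1.le
      have h6 : 0 ≤ Et σ (EC I m r) (Z σ I (k - m - r)) x ^ q / (η ^ r) ^ q :=
        div_nonneg (pow_nonneg (hX0 r x) q) (by positivity)
      calc η ^ r * (Et σ (EC I m r) (Z σ I (k - m - r)) x ^ q / (η ^ r) ^ q)
          ≤ 1 * (Et σ (EC I m r) (Z σ I (k - m - r)) x ^ q / (η ^ r) ^ q) :=
            mul_le_mul_of_nonneg_right h5 h6
        _ = _ := by ring
    have h7 : 0 ≤ η ^ r * (Et σ (EC I m r) (Z σ I (k - m - r)) x / η ^ r) ^ q :=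
      mul_nonneg (by positivity) (pow_nonneg (div_nonneg (hX0 r x) (by positivity)) q)
    calc (∑ i ∈ range (k - m + 1), η ^ i) ^ (q - 1) *
          (η ^ r * (Et σ (EC I m r) (Z σ I (k - m - r)) x / η ^ r) ^ q)
        ≤ H ^ (q - 1) * (1 / (η ^ r) ^ q * Et σ (EC I m r) (Z σ I (k - m - r)) x ^ q) :=
          mul_le_mul h3 h4 h7 (by positivity)
      _ = _ := by ring
  refine (A_mono hpt).trans ?_
  rw [A_sum, mul_sum]
  apply sum_le_sum
  intro r hr
  rw [mem_range] at hr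
  rw [A_const_mul]
  have h1 := thm_Jen σ (EC I m r) (m + r) (k - m - r) q (Z σ I (k - m - r)) hσ hq
    (fun w h => EC_length h) (fun y => Z_nonneg hσ _ _ y) (Per_Z σ I (k - m - r))
  have e1 : m + r + (k - m - r) = k := by omega
  rw [e1] at h1
  have hA0 : 0 ≤ A (k - m - r) (fun x => Z σ I (k - m - r) x ^ q) :=
    A_nonneg fun x => pow_nonneg (Z_nonneg hσ _ _ x) q
  have h2 : 1 / (η ^ r) ^ q * A (m + r) (fun x => Et σ (EC I m r) (fun _ => 1) x ^ q) ≤
      η ^ r * P := by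
    calc 1 / (η ^ r) ^ q * A (m + r) (fun x => Et σ (EC I m r) (fun _ => 1) x ^ q)
        ≤ 1 / (η ^ r) ^ q * ((η ^ r) ^ (2 * q) * P) :=
          mul_le_mul_of_nonneg_left (hC r) (by positivity)
      _ = (η ^ r) ^ q * P := by
          rw [two_mul, pow_add]
          field_simp
      _ ≤ η ^ r * P := by
          apply mul_le_mul_of_nonneg_right _ hP
          calc (η ^ r) ^ q ≤ (η ^ r) ^ 1 :=
                pow_le_pow_of_le_one (by positivity) (pow_le_one₀ hη0.le hη1.le) hq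
            _ = η ^ r := pow_one _
  calc H ^ (q - 1) * (1 / (η ^ r) ^ q) *
        A k (fun x => Et σ (EC I m r) (Z σ I (k - m - r)) x ^ q)
      ≤ H ^ (q - 1) * (1 / (η ^ r) ^ q) *
          (A (m + r) (fun x => Et σ (EC I m r) (fun _ => 1) x ^ q) *
            A (k - m - r) (fun x => Z σ I (k - m - r) x ^ q)) :=
        mul_le_mul_of_nonneg_left h1 (by positivity)
    _ = H ^ (q - 1) * (1 / (η ^ r) ^ q *
          A (m + r) (fun x => Et σ (EC I m r) (fun _ => 1) x ^ q)) *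
            A (k - m - r) (fun x => Z σ I (k - m - r) x ^ q) := by ring
    _ ≤ H ^ (q - 1) * (η ^ r * P) * A (k - m - r) (fun x => Z σ I (k - m - r) x ^ q) := by
        apply mul_le_mul_of_nonneg_right _ hA0
        exact mul_le_mul_of_nonneg_left h2 (by positivity)
    _ = _ := by ring

theorem renewal_bound {α : ℕ → ℝ} {m : ℕ} (hm : 1 ≤ m) {D E η β : ℝ} (hD : 0 ≤ D) (hE : 0 ≤ E)
    (hη0 : 0 ≤ η) (hη1 : η < 1) (hβ : 0 ≤ β) (h1 : ∀ k < m, α k ≤ D)
    (h2 : ∀ k, m ≤ k → α k ≤ E * ∑ r ∈ range (k - m + 1), η ^ r * α (k - m - r))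
    (h3 : E * (1 / (1 - η)) ≤ Real.exp (β * m)) (k : ℕ) : α k ≤ D * Real.exp (β * k) := by
  induction k using Nat.strong_induction_on with
  | _ k ih =>
    rcases lt_or_ge k m with hk | hk
    · refine (h1 k hk).trans ?_
      have : 1 ≤ Real.exp (β * k) := Real.one_le_exp (by positivity)
      nlinarith
    · refine (h2 k hk).trans ?_
      have h4 : ∑ r ∈ range (k - m + 1), η ^ r * α (k - m - r) ≤
          ∑ r ∈ range (k - m + 1), η ^ r * (D * Real.exp (β * (k - m))) := by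
        apply sum_le_sum
        intro r hr
        apply mul_le_mul_of_nonneg_left _ (by positivity)
        refine (ih (k - m - r) (by omega)).trans ?_
        apply mul_le_mul_of_nonneg_left _ hD
        apply Real.exp_le_exp.2
        apply mul_le_mul_of_nonneg_left _ hβ
        rw [mem_range] at hr
        have e1 : ((k - m - r : ℕ) : ℝ) = k - m - r := by
          rw [Nat.cast_sub (by omega), Nat.cast_sub hk]
        rw [e1]
        have : (0 : ℝ) ≤ r := Nat.cast_nonneg r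
        linarith
      rw [← sum_mul] at h4
      have h5 := geom_sum_le' hη0 hη1 (k - m + 1)
      have h6 : 0 ≤ D * Real.exp (β * (k - m)) := by positivity
      calc E * ∑ r ∈ range (k - m + 1), η ^ r * α (k - m - r)
          ≤ E * ((∑ i ∈ range (k - m + 1), η ^ i) * (D * Real.exp (β * (k - m)))) :=
            mul_le_mul_of_nonneg_left h4 hE
        _ ≤ E * (1 / (1 - η) * (D * Real.exp (β * (k - m)))) :=
            mul_le_mul_of_nonneg_left (mul_le_mul_of_nonneg_right h5 h6) hE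
        _ = E * (1 / (1 - η)) * (D * Real.exp (β * (k - m))) := by ring
        _ ≤ Real.exp (β * m) * (D * Real.exp (β * (k - m))) :=
            mul_le_mul_of_nonneg_right h3 h6
        _ = D * (Real.exp (β * m) * Real.exp (β * (k - m))) := by ring
        _ = D * Real.exp (β * k) := by
            rw [← Real.exp_add]
            ring_nf

/-- the critical scale -/
theorem exists_scale {σ B : ℝ} (hσ : 0 < σ) (hσ1 : σ ≤ 1) (hB : 1 ≤ B) {M : ℕ} (hM : 3 ≤ M)
    (h : σ ^ 2 * M < B * Real.log M) : ∃ m : ℕ, M < m ∧ B * Real.log m ≤ σ ^ 2 * m ∧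
      σ ^ 2 * m ≤ 2 * B * Real.log m := by
  have hB0 : 0 < B := by linarith
  have hex : ∃ m : ℕ, M ≤ m ∧ B * Real.log m ≤ σ ^ 2 * m := by
    obtain ⟨m, hm1, hm2⟩ := ((ev_log_pow (c := σ ^ 2 / B) (by positivity) 1).and
      (eventually_ge_atTop M)).exists
    refine ⟨m, hm2, ?_⟩
    rw [pow_one] at hm1
    calc B * Real.log m ≤ B * (σ ^ 2 / B * m) := mul_le_mul_of_nonneg_left hm1 hB0.le
      _ = σ ^ 2 * m := by field_simp
  classical
  obtain ⟨m, ⟨hm1, hm2⟩, hmin⟩ : ∃ m, (M ≤ m ∧ B * Real.log m ≤ σ ^ 2 * m) ∧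
      ∀ m' < m, ¬ (M ≤ m' ∧ B * Real.log m' ≤ σ ^ 2 * m') :=
    ⟨Nat.find hex, Nat.find_spec hex, fun m' h => Nat.find_min hex h⟩
  have hMm : M ≠ m := by
    rintro rfl
    linarith
  have hlt : M < m := by omega
  refine ⟨m, hlt, hm2, ?_⟩
  have h1 := hmin (m - 1) (by omega)
  push Not at h1
  have h2 := h1 (by omega)
  have h3 : ((m - 1 : ℕ) : ℝ) = m - 1 := by rw [Nat.cast_sub (by omega), Nat.cast_one]
  rw [h3] at h2
  have hm4 : (4 : ℝ) ≤ m := by exact_mod_cast (by omega : 4 ≤ m)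
  have h4 : Real.log ((m : ℝ) - 1) ≤ Real.log m := Real.log_le_log (by linarith) (by linarith)
  have hlog1 : 1 ≤ Real.log m := by
    rw [Real.le_log_iff_exp_le (by linarith)]
    exact Real.exp_one_lt_three.le.trans (by linarith)
  have h5 : B * Real.log ((m : ℝ) - 1) ≤ B * Real.log m := mul_le_mul_of_nonneg_left h4 hB0.le
  have h6 : σ ^ 2 ≤ 1 := pow_le_one₀ hσ.le hσ1
  nlinarith

theorem thm_ThmA (hL : St_L1) : St_ThmA := by
  intro q ε hε
  rcases Nat.eq_zero_or_pos q with rfl | hq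
  · refine ⟨1, zero_lt_one, 1, zero_lt_one, ?_⟩
    intro σ h0 h1 I k
    simp only [pow_zero]
    rw [A_one]
    have h2 : 1 ≤ σ ^ (-1 : ℝ) := Real.one_le_rpow_of_pos_of_le_one_of_nonpos h0 h1 (by norm_num)
    have h3 : 1 ≤ Real.exp (ε * σ ^ 2 * k) := Real.one_le_exp (by positivity)
    nlinarith
  have hqr : (1 : ℝ) ≤ q := by exact_mod_cast hq
  obtain ⟨B, hBdef⟩ : ∃ B : ℝ, B = 4 * q / ε + 1 := ⟨_, rfl⟩
  have hB1 : 1 ≤ B := by
    rw [hBdef]
    have : 0 ≤ 4 * (q : ℝ) / ε := by positivity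
    linarith
  have hB0 : 0 < B := by linarith
  -- the number η
  obtain ⟨η, hη0, hη1, hηp⟩ : ∃ η : ℝ, 0 < η ∧ η < 1 ∧ η ^ (8 * q) = 97 / 100 := by
    refine ⟨(97 / 100 : ℝ) ^ (1 / ((8 * q : ℕ) : ℝ)), by positivity,
      Real.rpow_lt_one (by norm_num) (by norm_num) (by positivity), ?_⟩
    rw [← Real.rpow_natCast, ← Real.rpow_mul (by norm_num)]
    have : (0 : ℝ) < ((8 * q : ℕ) : ℝ) := by positivity
    rw [one_div_mul_cancel this.ne', Real.rpow_one]
  obtain ⟨lam, hlam⟩ : ∃ lam : ℝ, lam = -Real.log η := ⟨_, rfl⟩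
  have hlam0 : 0 < lam := by
    rw [hlam]
    have := Real.log_neg hη0 hη1
    linarith
  obtain ⟨H, hH⟩ : ∃ H : ℝ, H = 1 / (1 - η) := ⟨_, rfl⟩
  have hH0 : 0 < H := by rw [hH]; exact div_pos zero_lt_one (by linarith)
  obtain ⟨m₀, hm₀⟩ := thm_Fine hL (2 * q - 1) B (by omega) hB1
  obtain ⟨m₁, hm₁⟩ := eventually_atTop.1
    ((ev_log_pow (c := 1 / (8 * B ^ 3)) (by positivity) 3).and
      (ev_log_pow (c := lam / 4) (by positivity) 1))
  obtain ⟨m₂, hm₂⟩ := exists_nat_ge H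
  obtain ⟨M, hMdef⟩ : ∃ M : ℕ, M = max (max m₀ m₁) (max m₂ 36) := ⟨_, rfl⟩
  have hM0 : m₀ ≤ M := by rw [hMdef]; exact (le_max_left _ _).trans (le_max_left _ _)
  have hM1 : m₁ ≤ M := by rw [hMdef]; exact (le_max_right _ _).trans (le_max_left _ _)
  have hM2 : m₂ ≤ M := by rw [hMdef]; exact (le_max_left _ _).trans (le_max_right _ _)
  have hM3 : 36 ≤ M := by rw [hMdef]; exact (le_max_right _ _).trans (le_max_right _ _)
  have hMR : (36 : ℝ) ≤ M := by exact_mod_cast hM3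
  obtain ⟨C₁, hC₁⟩ := exists_nat_ge (q * (4 + 8 * q * B))
  have hC₁0 : (0 : ℝ) < C₁ := lt_of_lt_of_le (by positivity) hC₁
  -- the bound for σ
  obtain ⟨σ₀, hσ₀, ha, hb, hc⟩ : ∃ σ₀ : ℝ, 0 < σ₀ ∧ σ₀ ≤ 1 / 100 ∧ 16 * q * σ₀ ^ 2 ≤ lam ∧
      σ₀ ^ 2 * M < B := by
    refine ⟨min (1 / 100) (min (√(lam / (16 * q))) (1 / M)), ?_, min_le_left _ _, ?_, ?_⟩
    · have : 0 < √(lam / (16 * q)) := Real.sqrt_pos.2 (by positivity)
      positivity
    · have h1 : min (1 / 100) (min (√(lam / (16 * q))) (1 / (M : ℝ))) ≤ √(lam / (16 * q)) :=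
        (min_le_right _ _).trans (min_le_left _ _)
      have h0 : 0 ≤ min (1 / 100) (min (√(lam / (16 * q))) (1 / (M : ℝ))) := by positivity
      have h2 := pow_le_pow_left₀ h0 h1 2
      rw [Real.sq_sqrt (by positivity)] at h2
      calc 16 * q * min (1 / 100) (min (√(lam / (16 * q))) (1 / (M : ℝ))) ^ 2
          ≤ 16 * q * (lam / (16 * q)) := mul_le_mul_of_nonneg_left h2 (by positivity)
        _ = lam := by field_simp
    · have h1 : min (1 / 100) (min (√(lam / (16 * q))) (1 / (M : ℝ))) ≤ 1 / M :=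
        (min_le_right _ _).trans (min_le_right _ _)
      have h0 : 0 ≤ min (1 / 100) (min (√(lam / (16 * q))) (1 / (M : ℝ))) := by positivity
      have h2 := pow_le_pow_left₀ h0 h1 2
      calc min (1 / 100) (min (√(lam / (16 * q))) (1 / (M : ℝ))) ^ 2 * M
          ≤ (1 / (M : ℝ)) ^ 2 * M := mul_le_mul_of_nonneg_right h2 (by positivity)
        _ = 1 / M := by field_simp
        _ < 1 := by rw [div_lt_one (by positivity)]; linarith
        _ ≤ B := hB1
  refine ⟨σ₀, hσ₀, 3 * C₁, by positivity, ?_⟩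
  intro σ h0 h1 I k
  have hs100 : σ ≤ 1 / 100 := h1.trans ha
  have hs1 : σ ≤ 1 := by linarith
  have hsq : σ ^ 2 ≤ σ₀ ^ 2 := pow_le_pow_left₀ h0.le h1 2
  have hlogM : 1 ≤ Real.log M := by
    rw [Real.le_log_iff_exp_le (by linarith)]
    exact Real.exp_one_lt_three.le.trans (by linarith)
  obtain ⟨m, hMm, hlo, hhi⟩ := exists_scale h0 hs1 hB1 (by omega : 3 ≤ M) (by
    have e1 : σ ^ 2 * M ≤ σ₀ ^ 2 * M := mul_le_mul_of_nonneg_right hsq (by positivity)
    have e2 : B * 1 ≤ B * Real.log M := mul_le_mul_of_nonneg_left hlogM hB0.le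
    linarith)
  have hm36 : (36 : ℝ) ≤ m := hMR.trans (by exact_mod_cast hMm.le)
  have hm0 : (0 : ℝ) < m := by linarith
  have hm1 : (1 : ℝ) ≤ m := by linarith
  have hlogm : 1 ≤ Real.log m := by
    rw [Real.le_log_iff_exp_le (by linarith)]
    exact Real.exp_one_lt_three.le.trans (by linarith)
  have hsm : 1 ≤ σ ^ 2 * m := by nlinarith
  have hinv : 1 / σ ≤ m := by
    rw [div_le_iff₀ h0]
    nlinarith
  -- m ≤ σ^(-3)
  have hm3 : m ≤ σ ^ (-3 : ℝ) := by
    have e1 := (hm₁ m (hM1.trans hMm.le)).1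
    have e2 : (σ ^ 2 * m) ^ 3 ≤ m := by
      calc (σ ^ 2 * m) ^ 3 ≤ (2 * B * Real.log m) ^ 3 := pow_le_pow_left₀ (by positivity) hhi 3
        _ = 8 * B ^ 3 * Real.log m ^ 3 := by ring
        _ ≤ 8 * B ^ 3 * (1 / (8 * B ^ 3) * (m : ℝ)) := mul_le_mul_of_nonneg_left e1 (by positivity)
        _ = (m : ℝ) := by field_simp
    have e3 : (σ ^ 3 * (m : ℝ)) ^ 2 * (m : ℝ) ≤ 1 ^ 2 * (m : ℝ) := by
      calc (σ ^ 3 * (m : ℝ)) ^ 2 * (m : ℝ) = (σ ^ 2 * (m : ℝ)) ^ 3 := by ring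
        _ ≤ (m : ℝ) := e2
        _ = 1 ^ 2 * (m : ℝ) := by ring
    have e4 := le_of_mul_le_mul_right e3 hm0
    have e5 := (pow_le_pow_iff_left₀ (by positivity) zero_le_one (by norm_num)).1 e4
    rw [Real.rpow_neg h0.le, ← one_div, le_div_iff₀ (by positivity)]
    have e6 : σ ^ (3 : ℝ) = σ ^ 3 := by
      rw [← Real.rpow_natCast]
      norm_num
    rw [e6]
    linarith
  -- the cut classes
  have hclass : ∀ r, A (m + r) (fun x => Et σ (EC I m r) (fun _ => 1) x ^ q) ≤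
      (η ^ r) ^ (2 * q) * (m : ℝ) ^ (3 * q) := by
    intro r
    have hC0 : ∀ x, 0 ≤ Et σ (EC I m r) (fun _ => 1) x := fun x =>
      Et_nonneg h0.le _ (fun _ => zero_le_one) x
    have hcs := A_cs (j := m + r) hC0 hq
    have hA1 : A (m + r) (Et σ (EC I m r) fun _ => 1) ≤ (η ^ r) ^ (8 * q) := by
      rw [A_Et_one fun w h => EC_length h, ← pow_mul, mul_comm r, pow_mul, hηp]
      exact thm_CutM σ h0.le hs100 I m r
    have hCZ : ∀ x, Et σ (EC I m r) (fun _ => 1) x ≤ Z σ I (m + r) x := by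
      intro x
      exact Et_mono_set h0.le (fun w hw => (mem_EC.1 hw).1) (fun _ => zero_le_one) x
    have hA2 : A (m + r) (fun x => Et σ (EC I m r) (fun _ => 1) x ^ (2 * q - 1)) ≤
        A (m + r) (fun x => Z σ I (m + r) x ^ (2 * q - 1)) :=
      A_mono fun x => pow_le_pow_left₀ (hC0 x) (hCZ x) _
    have hη1' : η ^ r ≤ 1 := pow_le_one₀ hη0.le hη1.le
    have hηr0 : 0 < η ^ r := by positivity
    have hX0 : 0 ≤ (η ^ r) ^ (2 * q) * (m : ℝ) ^ (3 * q) := by positivity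
    have hA0 : 0 ≤ A (m + r) (fun x => Et σ (EC I m r) (fun _ => 1) x ^ (2 * q - 1)) :=
      A_nonneg fun x => pow_nonneg (hC0 x) _
    apply le_of_sq_le_sq _ hX0
    refine hcs.trans ((mul_le_mul hA1 hA2 hA0 (by positivity)).trans ?_)
    rcases le_or_gt r m with hr | hr
    · have h2 := hm₀ m (hM0.trans hMm.le) σ h0 hlo hhi I (m + r) (by omega) (by omega)
      have h3 : (m : ℝ) ^ (3 * (2 * q - 1)) ≤ m ^ (2 * (3 * q)) :=
        pow_le_pow_right₀ hm1 (by omega)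
      calc (η ^ r) ^ (8 * q) * A (m + r) (fun x => Z σ I (m + r) x ^ (2 * q - 1))
          ≤ (η ^ r) ^ (2 * (2 * q)) * m ^ (2 * (3 * q)) :=
            mul_le_mul (pow_le_pow_of_le_one hηr0.le hη1' (by omega)) (h2.trans h3)
              (A_nonneg fun x => pow_nonneg (Z_nonneg h0.le _ _ x) _) (by positivity)
        _ = ((η ^ r) ^ (2 * q) * (m : ℝ) ^ (3 * q)) ^ 2 := by
            rw [mul_pow, ← pow_mul, ← pow_mul, mul_comm 2 (2 * q), mul_comm 2 (3 * q),
              ← pow_mul, ← pow_mul]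
    · have h2 := thm_Crude σ h0 hs1 (2 * q - 1) I (m + r) (by omega)
      obtain ⟨b, hb'⟩ : ∃ b : ℝ, b = 4 * (((m + r : ℕ) : ℝ) + 1) ^ 2 / σ *
        Real.exp (4 * ((2 * q - 1 : ℕ) : ℝ) * σ ^ 2 * ((m + r : ℕ) : ℝ)) := ⟨_, rfl⟩
      rw [← hb'] at h2
      have hrR : (m : ℝ) + 1 ≤ r := by exact_mod_cast hr
      have hr0 : (0 : ℝ) < r := by linarith
      have hlogr := (hm₁ r (hM1.trans (hMm.le.trans hr.le))).2
      rw [pow_one] at hlogr
      have hb1 : b ≤ (r : ℝ) ^ 4 * Real.exp (16 * q * σ ^ 2 * r) := by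
        rw [hb']
        apply mul_le_mul _ _ (Real.exp_pos _).le (by positivity)
        · push_cast
          have h3 : (m : ℝ) + r + 1 ≤ 2 * r := by linarith
          have h4 : ((m : ℝ) + r + 1) ^ 2 ≤ (2 * r) ^ 2 := pow_le_pow_left₀ (by positivity) h3 2
          calc 4 * ((m : ℝ) + r + 1) ^ 2 / σ = 4 * ((m : ℝ) + r + 1) ^ 2 * (1 / σ) := by ring
            _ ≤ 4 * (2 * (r : ℝ)) ^ 2 * r :=
                mul_le_mul (by linarith) (hinv.trans (by linarith)) (by positivity) (by positivity)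
            _ = 16 * (r : ℝ) ^ 3 := by ring
            _ ≤ r * (r : ℝ) ^ 3 := mul_le_mul_of_nonneg_right (by linarith) (by positivity)
            _ = (r : ℝ) ^ 4 := by ring
        · apply Real.exp_le_exp.2
          have h3 : ((2 * q - 1 : ℕ) : ℝ) ≤ 2 * q := by
            have : 2 * q - 1 ≤ 2 * q := by omega
            exact_mod_cast this
          have h4 : ((m + r : ℕ) : ℝ) ≤ 2 * r := by push_cast; linarith
          calc 4 * ((2 * q - 1 : ℕ) : ℝ) * σ ^ 2 * ((m + r : ℕ) : ℝ)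
              ≤ 4 * (2 * (q : ℝ)) * σ ^ 2 * (2 * r) := by gcongr
            _ = 16 * q * σ ^ 2 * r := by ring
      have hb2 : b ≤ Real.exp (2 * lam * r) := by
        refine hb1.trans ?_
        have e1 : (r : ℝ) ^ 4 = Real.exp (4 * Real.log r) := by
          have : (4 : ℝ) * Real.log r = ((4 : ℕ) : ℝ) * Real.log r := by norm_num
          rw [this, Real.exp_nat_mul, Real.exp_log hr0]
        rw [e1, ← Real.exp_add]
        apply Real.exp_le_exp.2
        have e2 : 16 * q * σ ^ 2 ≤ lam :=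
          (mul_le_mul_of_nonneg_left hsq (by positivity)).trans hb
        have e3 : 16 * q * σ ^ 2 * r ≤ lam * r := mul_le_mul_of_nonneg_right e2 hr0.le
        linarith
      have e4 : Real.exp (2 * lam * r) = 1 / (η ^ r) ^ 2 := by
        rw [hlam, ← pow_mul, one_div, ← Real.exp_log (pow_pos hη0 (r * 2)), ← Real.exp_neg,
          Real.log_pow]
        congr 1
        push_cast
        ring
      rw [e4] at hb2
      have hb0 : 0 ≤ b := by rw [hb']; positivity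
      have hinv1 : 1 ≤ 1 / (η ^ r) ^ 2 := by
        rw [le_div_iff₀ (by positivity), one_mul]
        exact pow_le_one₀ hηr0.le hη1'
      have h5 : A (m + r) (fun x => Z σ I (m + r) x ^ (2 * q - 1)) ≤ (1 / (η ^ r) ^ 2) ^ (2 * q) :=
        h2.trans ((pow_le_pow_left₀ hb0 hb2 _).trans (pow_le_pow_right₀ hinv1 (by omega)))
      calc (η ^ r) ^ (8 * q) * A (m + r) (fun x => Z σ I (m + r) x ^ (2 * q - 1))
          ≤ (η ^ r) ^ (8 * q) * (1 / (η ^ r) ^ 2) ^ (2 * q) :=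
            mul_le_mul_of_nonneg_left h5 (by positivity)
        _ = (η ^ r) ^ (2 * q * 2) := by
            obtain ⟨y, hy⟩ : ∃ y : ℝ, y = η ^ r := ⟨_, rfl⟩
            rw [← hy] at hηr0 ⊢
            have e5 : y ^ (8 * q) = y ^ (2 * q * 2) * (y ^ 2) ^ (2 * q) := by
              rw [← pow_mul, ← pow_add]
              congr 1
              ring
            rw [e5, div_pow, one_pow]
            field_simp
        _ = ((η ^ r) ^ (2 * q)) ^ 2 * 1 := by rw [mul_one, pow_mul (η ^ r) (2 * q) 2]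
        _ ≤ ((η ^ r) ^ (2 * q)) ^ 2 * ((m : ℝ) ^ (3 * q)) ^ 2 := by
            apply mul_le_mul_of_nonneg_left _ (by positivity)
            exact one_le_pow₀ (one_le_pow₀ hm1)
        _ = ((η ^ r) ^ (2 * q) * (m : ℝ) ^ (3 * q)) ^ 2 := by rw [mul_pow]
  -- small k
  have hsmall : ∀ k < m, A k (fun x => Z σ I k x ^ q) ≤ (m : ℝ) ^ C₁ := by
    intro k hk
    refine (thm_Crude σ h0 hs1 q I k hq).trans ?_
    have hkR : (k : ℝ) + 1 ≤ m := by exact_mod_cast hk
    have hk0 : (0 : ℝ) ≤ k := Nat.cast_nonneg k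
    have e1 : 4 * ((k : ℝ) + 1) ^ 2 / σ ≤ (m : ℝ) ^ 4 := by
      have h4 : ((k : ℝ) + 1) ^ 2 ≤ (m : ℝ) ^ 2 := pow_le_pow_left₀ (by positivity) hkR 2
      calc 4 * ((k : ℝ) + 1) ^ 2 / σ = 4 * ((k : ℝ) + 1) ^ 2 * (1 / σ) := by ring
        _ ≤ 4 * (m : ℝ) ^ 2 * m :=
            mul_le_mul (by linarith) hinv (by positivity) (by positivity)
        _ = 4 * (m : ℝ) ^ 3 := by ring
        _ ≤ m * (m : ℝ) ^ 3 := mul_le_mul_of_nonneg_right (by linarith) (by positivity)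
        _ = (m : ℝ) ^ 4 := by ring
    have e2 : Real.exp (4 * q * σ ^ 2 * k) ≤ Real.exp (8 * q * B * Real.log m) := by
      apply Real.exp_le_exp.2
      calc 4 * q * σ ^ 2 * k ≤ 4 * q * σ ^ 2 * m :=
            mul_le_mul_of_nonneg_left (by linarith) (by positivity)
        _ = 4 * q * (σ ^ 2 * m) := by ring
        _ ≤ 4 * q * (2 * B * Real.log m) := mul_le_mul_of_nonneg_left hhi (by positivity)
        _ = 8 * q * B * Real.log m := by ring
    have e3 : (4 * ((k : ℝ) + 1) ^ 2 / σ * Real.exp (4 * q * σ ^ 2 * k)) ^ q ≤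
        ((m : ℝ) ^ 4 * Real.exp (8 * q * B * Real.log m)) ^ q :=
      pow_le_pow_left₀ (by positivity) (mul_le_mul e1 e2 (by positivity) (by positivity)) q
    refine e3.trans ?_
    have h5 : (m : ℝ) ^ 4 = Real.exp (4 * Real.log m) := by
      have : (4 : ℝ) * Real.log m = ((4 : ℕ) : ℝ) * Real.log m := by norm_num
      rw [this, Real.exp_nat_mul, Real.exp_log hm0]
    have h7 : (m : ℝ) ^ C₁ = Real.exp (C₁ * Real.log m) := by
      rw [Real.exp_nat_mul, Real.exp_log hm0]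
    rw [h5, h7, ← Real.exp_add, ← Real.exp_nat_mul]
    apply Real.exp_le_exp.2
    calc (q : ℝ) * (4 * Real.log m + 8 * q * B * Real.log m)
        = q * (4 + 8 * q * B) * Real.log m := by ring
      _ ≤ C₁ * Real.log m := mul_le_mul_of_nonneg_right hC₁ (by linarith)
  -- the renewal inequality
  have hm1' : 1 ≤ m := by omega
  have hren := renewal_bound (α := fun k => A k (fun x => Z σ I k x ^ q)) hm1'
    (D := (m : ℝ) ^ C₁) (E := H ^ (q - 1) * (m : ℝ) ^ (3 * q)) (η := η)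
    (β := 4 * q * Real.log m / m) (by positivity) (by positivity) hη0.le hη1 (by positivity)
    hsmall (fun k hk => by
      rw [hH]
      exact ThmA_step h0.le hq hη0 hη1 (by positivity) hclass k hk) (by
      have e1 : 4 * q * Real.log m / m * m = 4 * q * Real.log m := by field_simp
      rw [e1, ← hH]
      have e2 : Real.exp (4 * q * Real.log m) = (m : ℝ) ^ (4 * q) := by
        have : 4 * (q : ℝ) * Real.log m = ((4 * q : ℕ) : ℝ) * Real.log m := by push_cast; ring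
        rw [this, Real.exp_nat_mul, Real.exp_log hm0]
      rw [e2]
      have hHm : H ≤ m := hm₂.trans (by exact_mod_cast hM2.trans hMm.le)
      have e3 : H ^ (q - 1) * H = H ^ q := by
        rw [← pow_succ]
        congr 1
        omega
      calc H ^ (q - 1) * (m : ℝ) ^ (3 * q) * H = (H ^ (q - 1) * H) * (m : ℝ) ^ (3 * q) := by ring
        _ = H ^ q * (m : ℝ) ^ (3 * q) := by rw [e3]
        _ ≤ (m : ℝ) ^ q * (m : ℝ) ^ (3 * q) :=
            mul_le_mul_of_nonneg_right (pow_le_pow_left₀ hH0.le hHm q) (by positivity)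
        _ = (m : ℝ) ^ (4 * q) := by
            rw [← pow_add]
            congr 1
            ring) k
  refine hren.trans ?_
  apply mul_le_mul _ _ (Real.exp_pos _).le (by positivity)
  · calc (m : ℝ) ^ C₁ ≤ (σ ^ (-3 : ℝ)) ^ C₁ := pow_le_pow_left₀ hm0.le hm3 C₁
      _ = σ ^ (-(3 * (C₁ : ℝ))) := by
          rw [← Real.rpow_natCast, ← Real.rpow_mul h0.le]
          ring_nf
  · apply Real.exp_le_exp.2
    apply mul_le_mul_of_nonneg_right _ (Nat.cast_nonneg k)
    -- 4 q log m / m ≤ ε σ²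
    rw [div_le_iff₀ hm0]
    have e1 : 4 * (q : ℝ) ≤ ε * B := by
      rw [hBdef, mul_add, mul_div_assoc']
      have : ε * (4 * q) / ε = 4 * (q : ℝ) := by field_simp
      rw [this]
      linarith
    calc 4 * q * Real.log m ≤ ε * B * Real.log m :=
          mul_le_mul_of_nonneg_right e1 (by linarith)
      _ = ε * (B * Real.log m) := by ring
      _ ≤ ε * (σ ^ 2 * m) := mul_le_mul_of_nonneg_left hlo hε.le
      _ = ε * σ ^ 2 * m := by ring

end Pool.Agent.UTL
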