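import Pool.Agent.UTL.StgB
import Pool.Agent.UTL.ThmA

set_option autoImplicit false

/-! Equidistribution of the integers of a dyadic block; moments of the sum. -/

namespace Pool.Agent.UTL

open Finset
open Pool.Agent.Collatz3.PD (rd en Per A S S_mono S_nonneg shift_sum_mul)

theorem thm_Equid : St_Equid := by
  intro y K f hf0 hf hy
  have h3 : (1 : ℝ) ≤ 3 ^ K := one_le_pow₀ (by norm_num)
  have hy0 : 0 < y := by linarith
  obtain ⟨m, hm⟩ : ∃ m : ℕ, m = ⌊y / 2⌋₊ := ⟨_, rfl⟩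
  have hm1 : (m : ℝ) ≤ y / 2 := by rw [hm]; exact Nat.floor_le (by positivity)
  have hm2 : y / 2 < (m : ℝ) + 1 := by rw [hm]; exact Nat.lt_floor_add_one _
  obtain ⟨R, hR⟩ : ∃ R : ℕ, R = (m + 1) / 3 ^ K + 1 := ⟨_, rfl⟩
  have hR1 : m + 1 ≤ R * 3 ^ K := by
    rw [hR]
    have h4 := Nat.div_add_mod (m + 1) (3 ^ K)
    have h5 := Nat.mod_lt (m + 1) (by positivity : 0 < 3 ^ K)
    calc m + 1 = 3 ^ K * ((m + 1) / 3 ^ K) + (m + 1) % 3 ^ K := h4.symm
      _ ≤ 3 ^ K * ((m + 1) / 3 ^ K) + 3 ^ K := by omega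
      _ = _ := by ring
  have hR2 : (R : ℝ) * 3 ^ K ≤ m + 1 + 3 ^ K := by
    have h4 : R * 3 ^ K ≤ m + 1 + 3 ^ K := by
      rw [hR, add_mul, one_mul]
      exact Nat.add_le_add_right (Nat.div_mul_le_self _ _) _
    exact_mod_cast h4
  have h1 : ∑ b ∈ Lv y, f b ≤ ∑ t ∈ range (R * 3 ^ K), f (((m + 1 : ℕ) : ℤ) + t) := by
    have e1 : ∑ t ∈ range (R * 3 ^ K), f (((m + 1 : ℕ) : ℤ) + t) =
        ∑ b ∈ (range (R * 3 ^ K)).image (fun t => m + 1 + t), f b := by
      rw [sum_image (fun a _ b _ h => by simpa using h)]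
      apply sum_congr rfl
      intro t _
      push_cast
      rfl
    rw [e1]
    apply sum_le_sum_of_subset_of_nonneg _ fun b _ _ => hf0 _
    intro b hb
    rw [mem_Lv hy0.le] at hb
    rw [mem_image]
    have h4 : m < b := by
      have : (m : ℝ) < b := by linarith [hb.2]
      exact_mod_cast this
    refine ⟨b - (m + 1), ?_, by omega⟩
    rw [mem_range]
    have h5 : (b : ℝ) < 2 * m + 2 := by linarith [hb.1]
    have h6 : b < 2 * m + 2 := by exact_mod_cast h5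
    omega
  rw [shift_sum_mul hf] at h1
  refine h1.trans ?_
  have hS : 0 ≤ A K f := A_nonneg hf0
  have e2 : S K f = 3 ^ K * A K f := by
    unfold A
    field_simp
  rw [e2, ← mul_assoc]
  apply mul_le_mul_of_nonneg_right _ hS
  linarith

theorem A_of_Per {j K : ℕ} (h : j ≤ K) {f : ℤ → ℝ} (hf : Per j f) : A K f = A j f := by
  have h1 := shift_sum_mul hf 0 (3 ^ (K - j))
  have e1 : 3 ^ (K - j) * 3 ^ j = 3 ^ K := by
    rw [← pow_add]
    congr 1
    omega
  rw [e1] at h1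
  have e2 : ∑ t ∈ range (3 ^ K), f (0 + (t : ℤ)) = S K f := by
    unfold S
    exact sum_congr rfl fun t _ => by rw [zero_add]
  rw [e2] at h1
  unfold A
  rw [h1]
  have e3 : (3 : ℝ) ^ K = 3 ^ (K - j) * 3 ^ j := by exact_mod_cast e1.symm
  rw [e3]
  push_cast
  field_simp

theorem F_nonneg {σ : ℝ} (h0 : 0 ≤ σ) (I K : ℕ) (x : ℤ) : 0 ≤ F σ I K x :=
  sum_nonneg fun _ _ => Z_nonneg h0 _ _ _

theorem Per_F (σ : ℝ) (I K : ℕ) : Per K (F σ I K) := by
  intro x t
  unfold F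
  apply sum_congr rfl
  intro j hj
  rw [mem_range] at hj
  exact (Per_Z σ I j).mono (by omega) x t

theorem thm_FB (hT : St_ThmA) : St_FB := by
  intro q ε hε
  obtain ⟨σ₀, hσ₀, C, hC, h⟩ := hT q ε hε
  refine ⟨min σ₀ 1, by positivity, C, hC, ?_⟩
  intro σ h0 h1 I K
  rcases Nat.eq_zero_or_pos q with rfl | hq
  · simp only [pow_zero]
    rw [A_one]
  have hs0 := h1.trans (min_le_left _ _)
  have hs1 := h1.trans (min_le_right _ _)
  have hK0 : (0 : ℝ) ≤ K := Nat.cast_nonneg K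
  obtain ⟨E, hE⟩ : ∃ E : ℝ, E = σ ^ (-C) * Real.exp (ε * σ ^ 2 * K) := ⟨_, rfl⟩
  have hE1 : 1 ≤ E := by
    rw [hE]
    have h2 : 1 ≤ σ ^ (-C) := Real.one_le_rpow_of_pos_of_le_one_of_nonpos h0 hs1 (by linarith)
    have h3 : 1 ≤ Real.exp (ε * σ ^ 2 * K) := Real.one_le_exp (by positivity)
    nlinarith
  have hpt : ∀ x, (1 + F σ I K x) ^ q ≤ ((K : ℝ) + 2) ^ (q - 1) *
      (1 + ∑ j ∈ range (K + 1), Z σ I j x ^ q) := by
    intro x
    have h2 := pow_mean (range (K + 2)) (fun _ => (1 : ℝ))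
      (fun j => if j = K + 1 then 1 else Z σ I j x) (fun _ _ => zero_le_one)
      (fun j _ => by split_ifs; exacts [zero_le_one, Z_nonneg h0.le _ _ _]) hq
    simp only [one_mul, sum_range_succ _ (K + 1), if_true, sum_const, card_range, nsmul_eq_mul,
      mul_one] at h2
    have e1 : ∑ j ∈ range (K + 1), (if j = K + 1 then 1 else Z σ I j x) = F σ I K x :=
      sum_congr rfl fun j hj => if_neg (by rw [mem_range] at hj; omega)
    have e2 : ∑ j ∈ range (K + 1), (if j = K + 1 then 1 else Z σ I j x) ^ q =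
        ∑ j ∈ range (K + 1), Z σ I j x ^ q :=
      sum_congr rfl fun j hj => by rw [if_neg (by rw [mem_range] at hj; omega)]
    rw [e1, e2, one_pow, add_comm (F σ I K x), add_comm (∑ j ∈ range (K + 1), Z σ I j x ^ q)] at h2
    push_cast at h2
    have e5 : (K : ℝ) + 1 + 1 = K + 2 := by ring
    rw [e5] at h2
    exact h2
  refine (A_mono hpt).trans ?_
  rw [A_const_mul, A_add, A_one, A_sum]
  have h2 : ∀ j ∈ range (K + 1), A K (fun x => Z σ I j x ^ q) ≤ E := by
    intro j hj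
    rw [mem_range] at hj
    have hP : Per j (fun x => Z σ I j x ^ q) := by
      intro x t
      simp only
      rw [Per_Z σ I j x t]
    rw [A_of_Per (by omega) hP]
    refine (h σ h0 hs0 I j).trans ?_
    rw [hE]
    apply mul_le_mul_of_nonneg_left _ (by positivity)
    apply Real.exp_le_exp.2
    apply mul_le_mul_of_nonneg_left _ (by positivity)
    exact_mod_cast (by omega : j ≤ K)
  have h3 := sum_le_sum h2
  rw [sum_const, card_range, nsmul_eq_mul] at h3
  push_cast at h3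
  have hEq : E ≤ E ^ q := by
    calc E = E ^ 1 := (pow_one E).symm
      _ ≤ E ^ q := pow_le_pow_right₀ hE1 hq
  have e3 : ((K + 2 : ℝ) * σ ^ (-C) * Real.exp (ε * σ ^ 2 * K)) ^ q = ((K : ℝ) + 2) ^ q * E ^ q := by
    rw [← mul_pow, hE]
    ring_nf
  rw [e3]
  have e4 : ((K : ℝ) + 2) ^ q = ((K : ℝ) + 2) ^ (q - 1) * (K + 2) := by
    rw [← pow_succ]
    congr 1
    omega
  rw [e4, mul_assoc]
  apply mul_le_mul_of_nonneg_left _ (by positivity)
  have h5 : ((K : ℝ) + 2) * E ≤ (K + 2) * E ^ q := mul_le_mul_of_nonneg_left hEq (by positivity)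
  linarith

end Pool.Agent.UTL
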