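import Pool.Agent.UTL.Mix
import Pool.Agent.Collatz3.PDMixB

set_option autoImplicit false

/-! The decay of `V` for all weights `z` close to `1 / 2`, uniformly in the bound for the letters. -/

namespace Pool.Agent.UTL

open Finset Real Filter Topology
open Pool.Agent.Collatz3 (cw)
open Pool.Agent.Collatz3.Mix

/-- Sums over the letters, jointly in the weight and in the bound. -/
theorem tend_sum {c : ℕ → ℝ} {a : ℝ} (hc : Summable fun i => |c i| * (3 / 4 : ℝ) ^ i)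
    (h : HasSum (fun i => c i * (1 / 2 : ℝ) ^ i) a) :
    Tendsto (fun p : ℝ × ℕ => ∑ i ∈ Icc 1 p.2, c i * p.1 ^ i) (𝓝 (1 / 2) ×ˢ atTop)
      (𝓝 (a - c 0)) := by
  have e1 : ∀ p : ℝ × ℕ, ∑ i ∈ Icc 1 p.2, c i * p.1 ^ i =
      ∑' i, if i ∈ Icc 1 p.2 then c i * p.1 ^ i else 0 := by
    intro p
    rw [tsum_eq_sum (s := Icc 1 p.2) (fun b hb => if_neg hb)]
    exact sum_congr rfl fun i hi => (if_pos hi).symm
  have e2 : a - c 0 = ∑' i, if 1 ≤ i then c i * (1 / 2 : ℝ) ^ i else 0 := by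
    have h1 : HasSum (fun i => c i * (1 / 2 : ℝ) ^ i - (if i = 0 then c 0 else 0)) (a - c 0) :=
      h.sub (hasSum_ite_eq 0 (c 0))
    rw [← h1.tsum_eq]
    apply tsum_congr
    intro i
    rcases Nat.eq_zero_or_pos i with hi | hi
    · simp [hi]
    · rw [if_pos (Nat.succ_le_of_lt hi), if_neg (by omega), sub_zero]
  rw [e2, tendsto_congr e1]
  have hsm : Summable fun i => |c i| * (3 / 4 : ℝ) ^ i := hc
  refine tendsto_tsum_of_dominated_convergence hsm ?_ ?_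
  · intro i
    by_cases hi : 1 ≤ i
    · rw [if_pos hi]
      have h1 : Tendsto (fun p : ℝ × ℕ => c i * p.1 ^ i) (𝓝 (1 / 2) ×ˢ atTop)
          (𝓝 (c i * (1 / 2 : ℝ) ^ i)) := (tendsto_fst.pow i).const_mul (c i)
      refine h1.congr' ?_
      have h2 : ∀ᶠ p : ℝ × ℕ in 𝓝 (1 / 2) ×ˢ atTop, i ≤ p.2 :=
        tendsto_snd.eventually (eventually_ge_atTop i)
      filter_upwards [h2] with p hp
      rw [if_pos (mem_Icc.2 ⟨hi, hp⟩)]
    · rw [if_neg hi]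
      refine tendsto_const_nhds.congr fun p => ?_
      rw [if_neg]
      intro h1
      exact hi (mem_Icc.1 h1).1
  · have h1 : ∀ᶠ z : ℝ in 𝓝 (1 / 2), |z| < 3 / 4 := by
      have h2 : Tendsto (fun z : ℝ => |z|) (𝓝 (1 / 2)) (𝓝 |(1 / 2 : ℝ)|) :=
        (continuous_abs.tendsto _)
      exact h2.eventually_lt_const (by rw [abs_of_pos (by norm_num)]; norm_num)
    have h3 : ∀ᶠ p : ℝ × ℕ in 𝓝 (1 / 2) ×ˢ atTop, |p.1| < 3 / 4 := tendsto_fst.eventually h1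
    filter_upwards [h3] with p hp
    intro i
    split_ifs
    · rw [norm_mul, norm_pow, Real.norm_eq_abs, Real.norm_eq_abs]
      exact mul_le_mul_of_nonneg_left (pow_le_pow_left₀ (abs_nonneg _) hp.le i) (abs_nonneg _)
    · rw [norm_zero]
      positivity

theorem tend_Zs : Tendsto (fun p : ℝ × ℕ => Zs p.1 p.2) (𝓝 (1 / 2) ×ˢ atTop) (𝓝 1) := by
  have h1 := tend_sum (c := fun _ => 1) (a := 2)
    (by
      have := summable_geometric_of_lt_one (r := (3 / 4 : ℝ)) (by norm_num) (by norm_num)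
      simpa using this)
    (by simpa using hasSum_geometric_two)
  norm_num at h1
  refine h1.congr fun p => ?_
  unfold Zs
  rfl

theorem tend_e1 : Tendsto (fun p : ℝ × ℕ => e1 p.1 p.2) (𝓝 (1 / 2) ×ˢ atTop) (𝓝 2) := by
  have h0 : HasSum (fun i : ℕ => (i : ℝ) * (1 / 2 : ℝ) ^ i) 2 := by
    have := hasSum_coe_mul_geometric_of_norm_lt_one (𝕜 := ℝ) (r := 1 / 2) (by
      rw [norm_of_nonneg (by norm_num)]; norm_num)
    have e : (1 / 2 : ℝ) / (1 - 1 / 2) ^ 2 = 2 := by norm_num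
    rw [e] at this
    exact this
  have h1 := tend_sum (c := fun i => (i : ℝ)) (a := 2)
    (by
      have := (hasSum_coe_mul_geometric_of_norm_lt_one (𝕜 := ℝ) (r := 3 / 4) (by
        rw [norm_of_nonneg (by norm_num)]; norm_num)).summable
      refine this.congr fun i => ?_
      rw [abs_of_nonneg (Nat.cast_nonneg i)])
    h0
  have h2 := h1.div tend_Zs one_ne_zero
  norm_num at h2
  refine h2.congr fun p => ?_
  simp only [Pi.div_apply, e1, sum_div, mul_div_assoc]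

theorem tend_em : Tendsto (fun p : ℝ × ℕ => em p.1 p.2 (1 / 2)) (𝓝 (1 / 2) ×ˢ atTop)
    (𝓝 ((1 - (1 / 2 : ℝ) ^ (1 / 2 : ℝ) * (1 / 2))⁻¹ - 1)) := by
  set q : ℝ := (1 / 2 : ℝ) ^ (1 / 2 : ℝ) with hq
  have hq0 : 0 < q := rpow_pos_of_pos (by norm_num) _
  have hq1 : q ≤ 1 := rpow_le_one (by norm_num) (by norm_num) (by norm_num)
  have h1 := tend_sum (c := fun i => q ^ i) (a := (1 - q * (1 / 2))⁻¹)
    (by
      have := summable_geometric_of_lt_one (r := q * (3 / 4)) (by positivity) (by linarith)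
      refine this.congr fun i => ?_
      rw [abs_of_nonneg (by positivity), mul_pow])
    (by
      have := hasSum_geometric_of_lt_one (r := q * (1 / 2)) (by positivity) (by linarith)
      refine this.congr_fun fun i => ?_
      rw [mul_pow])
  have h2 := h1.div tend_Zs one_ne_zero
  rw [pow_zero, div_one] at h2
  refine h2.congr fun p => ?_
  simp only [Pi.div_apply, Pool.Agent.Collatz3.Mix.em, sum_div, mul_div_assoc]
  rfl

theorem tend_Df : Tendsto (fun p : ℝ × ℕ => Df p.1 p.2) (𝓝 (1 / 2) ×ˢ atTop) (𝓝 0) := by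
  have h1 : Tendsto (fun p : ℝ × ℕ => log (Zs p.1 p.2)) (𝓝 (1 / 2) ×ˢ atTop) (𝓝 (log 1)) :=
    tend_Zs.log one_ne_zero
  have h2 : Tendsto (fun p : ℝ × ℕ => log (1 / p.1)) (𝓝 (1 / 2) ×ˢ atTop) (𝓝 (log 2)) := by
    have h3 : Tendsto (fun p : ℝ × ℕ => 1 / p.1) (𝓝 (1 / 2) ×ˢ atTop) (𝓝 (1 / (1 / 2))) :=
      tendsto_const_nhds.div tendsto_fst (by norm_num)
    have h4 := h3.log (by norm_num)
    norm_num at h4
    refine h4.congr fun p => ?_
    rw [one_div, log_inv]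
  have h5 := ((tend_e1.mul_const (log 2)).sub h1).sub (tend_e1.mul h2)
  rw [log_one] at h5
  have e : (2 : ℝ) * log 2 - 0 - 2 * log 2 = 0 := by ring
  rw [e] at h5
  exact h5

/-- Parameters for all weights close to `1 / 2` and all large bounds. -/
theorem zz_params {δ : ℝ} (hδ : 0 < δ) : ∃ z₀ : ℝ, 0 < z₀ ∧ z₀ < 1 / 2 ∧ ∃ I₁ : ℕ, ∀ z : ℝ,
    z₀ ≤ z → z ≤ 1 / 2 → ∀ I : ℕ, I₁ ≤ I → 1 ≤ I ∧
    (3 : ℝ) ^ (1 / 2 : ℝ) * em z I (1 / 2) ≤ 1 ∧
    5 / 4 * log 3 ≤ e1 z I * log 2 ∧ e1 z I ≤ 3 ∧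
    Df z I ≤ δ ∧ |log (Zs z I)| ≤ 1 / 4 ∧ 1 / 2 ≤ Zs z I ∧ log (1 / z) ≤ 3 / 4 := by
  have hl2 : 0 < log 2 := log_pos (by norm_num)
  have h1 : ∀ᶠ p : ℝ × ℕ in 𝓝 (1 / 2) ×ˢ atTop,
      (3 : ℝ) ^ (1 / 2 : ℝ) * em p.1 p.2 (1 / 2) < 1 := by
    refine (tend_em.const_mul ((3 : ℝ) ^ (1 / 2 : ℝ))).eventually_lt_const ?_
    have ha : ((3 : ℝ) ^ (1 / 2 : ℝ)) ^ 2 = 3 := by
      rw [← rpow_natCast, ← rpow_mul (by norm_num)]
      norm_num
    have hb : ((1 / 2 : ℝ) ^ (1 / 2 : ℝ)) ^ 2 = 1 / 2 := by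
      rw [← rpow_natCast, ← rpow_mul (by norm_num)]
      norm_num
    have ha0 : (0 : ℝ) < (3 : ℝ) ^ (1 / 2 : ℝ) := rpow_pos_of_pos (by norm_num) _
    have hb0 : (0 : ℝ) < (1 / 2 : ℝ) ^ (1 / 2 : ℝ) := rpow_pos_of_pos (by norm_num) _
    generalize (3 : ℝ) ^ (1 / 2 : ℝ) = a at ha ha0
    generalize (1 / 2 : ℝ) ^ (1 / 2 : ℝ) = b at hb hb0
    have ha1 : a < 1.74 := by nlinarith
    have hb1 : b < 0.72 := by nlinarith
    have hc : 0 < 1 - b * (1 / 2) := by linarith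
    have e : (1 - b * (1 / 2))⁻¹ - 1 = b * (1 / 2) / (1 - b * (1 / 2)) := by
      rw [eq_div_iff hc.ne', sub_mul, inv_mul_cancel₀ hc.ne']
      ring
    rw [e, ← mul_div_assoc, div_lt_one hc]
    nlinarith [mul_pos ha0 hb0]
  have h2 : ∀ᶠ p : ℝ × ℕ in 𝓝 (1 / 2) ×ˢ atTop, 5 / 4 * log 3 < e1 p.1 p.2 * log 2 := by
    refine (tend_e1.mul_const (log 2)).eventually_const_lt ?_
    have h3 : log ((3 : ℝ) ^ 5) < log ((2 : ℝ) ^ 8) := log_lt_log (by positivity) (by norm_num)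
    rw [log_pow, log_pow] at h3
    push_cast at h3
    linarith
  have h3 : ∀ᶠ p : ℝ × ℕ in 𝓝 (1 / 2) ×ˢ atTop, e1 p.1 p.2 < 3 :=
    tend_e1.eventually_lt_const (by norm_num)
  have h4 : ∀ᶠ p : ℝ × ℕ in 𝓝 (1 / 2) ×ˢ atTop, Df p.1 p.2 < δ :=
    tend_Df.eventually_lt_const hδ
  have h5 : ∀ᶠ p : ℝ × ℕ in 𝓝 (1 / 2) ×ˢ atTop, |log (Zs p.1 p.2)| < 1 / 4 := by
    have h6 : Tendsto (fun p : ℝ × ℕ => log (Zs p.1 p.2)) (𝓝 (1 / 2) ×ˢ atTop) (𝓝 (log 1)) :=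
      tend_Zs.log one_ne_zero
    rw [log_one] at h6
    have h7 := h6.abs
    rw [abs_zero] at h7
    exact h7.eventually_lt_const (by norm_num)
  have h6 : ∀ᶠ p : ℝ × ℕ in 𝓝 (1 / 2) ×ˢ atTop, 1 / 2 < Zs p.1 p.2 :=
    tend_Zs.eventually_const_lt (by norm_num)
  have h7 : ∀ᶠ z : ℝ in 𝓝 (1 / 2), log (1 / z) < 3 / 4 := by
    have h8 : Tendsto (fun z : ℝ => 1 / z) (𝓝 (1 / 2)) (𝓝 (1 / (1 / 2))) :=
      tendsto_const_nhds.div tendsto_id (by norm_num)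
    have h9 := h8.log (by norm_num)
    refine h9.eventually_lt_const ?_
    have := log_two_bounds.2
    norm_num
    linarith
  have h8 : ∀ᶠ p : ℝ × ℕ in 𝓝 (1 / 2) ×ˢ atTop, 1 ≤ p.2 :=
    tendsto_snd.eventually (eventually_ge_atTop 1)
  have h9 : ∀ᶠ p : ℝ × ℕ in 𝓝 (1 / 2) ×ˢ atTop, log (1 / p.1) < 3 / 4 :=
    tendsto_fst.eventually h7
  have h10 := ((h8.and h1).and (h2.and h3)).and ((h4.and h5).and (h6.and h9))
  rw [eventually_prod_iff] at h10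
  obtain ⟨pa, ha, pb, hb, hab⟩ := h10
  rw [Metric.eventually_nhds_iff] at ha
  obtain ⟨ε, hε, ha⟩ := ha
  obtain ⟨I₁, hI₁⟩ := eventually_atTop.1 hb
  refine ⟨1 / 2 - min (ε / 2) (1 / 4), ?_, ?_, I₁, ?_⟩
  · have := min_le_right (ε / 2) (1 / 4)
    linarith
  · have : 0 < min (ε / 2) (1 / 4) := lt_min (by positivity) (by norm_num)
    linarith
  · intro z hz1 hz2 I hI
    have hd : dist z (1 / 2) < ε := by
      rw [Real.dist_eq, abs_lt]
      have := min_le_left (ε / 2) (1 / 4)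
      constructor <;> linarith
    obtain ⟨⟨⟨b1, b2⟩, b3, b4⟩, ⟨b5, b6⟩, b7, b8⟩ := hab (ha hd) (hI₁ I hI)
    exact ⟨b1, b2.le, b3.le, b4.le, b5.le, b6.le, b7.le, b8.le⟩

theorem vr_zz_le {z : ℝ} (hz : 0 < z) (hz2 : z ≤ 1 / 2) {I : ℕ} (hI : 1 ≤ I)
    (hZ : 1 / 2 ≤ Zs z I) (he : e1 z I ≤ 3) : vr z I ≤ 21 := by
  have hZ0 : 0 < Zs z I := by linarith
  have he0 : 0 ≤ e1 z I := by unfold e1; positivity
  unfold vr
  have h1 : ∀ i ∈ Icc 1 I, ((i : ℝ) - e1 z I) ^ 2 * (z ^ i / Zs z I) ≤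
      (i : ℝ) ^ 2 * (1 / 2 : ℝ) ^ i / Zs z I + 9 * (z ^ i / Zs z I) := by
    intro i _
    have h2 : ((i : ℝ) - e1 z I) ^ 2 ≤ (i : ℝ) ^ 2 + 9 := by
      have : (0 : ℝ) ≤ i := Nat.cast_nonneg i
      nlinarith [mul_nonneg this he0]
    have h3 : 0 ≤ z ^ i / Zs z I := by positivity
    have h4 : z ^ i / Zs z I ≤ (1 / 2 : ℝ) ^ i / Zs z I :=
      div_le_div_of_nonneg_right (pow_le_pow_left₀ hz.le hz2 i) hZ0.le
    calc _ ≤ ((i : ℝ) ^ 2 + 9) * (z ^ i / Zs z I) :=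
          mul_le_mul_of_nonneg_right h2 h3
      _ = (i : ℝ) ^ 2 * (z ^ i / Zs z I) + 9 * (z ^ i / Zs z I) := by ring
      _ ≤ (i : ℝ) ^ 2 * ((1 / 2 : ℝ) ^ i / Zs z I) + 9 * (z ^ i / Zs z I) :=
          add_le_add (mul_le_mul_of_nonneg_left h4 (by positivity)) le_rfl
      _ = _ := by ring
  refine (sum_le_sum h1).trans ?_
  rw [sum_add_distrib, ← sum_div, ← mul_sum, sum_letter hz hI, sum_sq_half]
  have h4 : (6 - ((I : ℝ) ^ 2 + 4 * I + 6) * (1 / 2 : ℝ) ^ I) / Zs z I ≤ 12 := by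
    rw [div_le_iff₀ hZ0]
    have : 0 ≤ ((I : ℝ) ^ 2 + 4 * I + 6) * (1 / 2 : ℝ) ^ I := by positivity
    linarith
  linarith

/-- The level. -/
noncomputable def Lz (z δ : ℝ) (I k : ℕ) : ℕ := ⌈k * (e1 z I * log 2 + δ) / log 3⌉₊

theorem e1_nonneg {z : ℝ} (hz : 0 < z) {I : ℕ} (hI : 1 ≤ I) : 0 ≤ e1 z I := by
  have := Zs_pos hz hI
  unfold e1
  positivity

theorem Lz_ge (z δ : ℝ) (I k : ℕ) : k * (e1 z I * log 2 + δ) ≤ Lz z δ I k * log 3 := by
  have hl3 : 0 < log 3 := log_pos (by norm_num)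
  rw [← div_le_iff₀ hl3]
  exact Nat.le_ceil _

theorem Lz_le {z : ℝ} (hz : 0 < z) {δ : ℝ} (hδ : 0 < δ) {I : ℕ} (hI : 1 ≤ I) (k : ℕ) :
    (Lz z δ I k : ℝ) * log 3 ≤ k * (e1 z I * log 2 + δ) + log 3 := by
  have hl2 : 0 < log 2 := log_pos (by norm_num)
  have hl3 : 0 < log 3 := log_pos (by norm_num)
  have he0 := e1_nonneg hz hI
  have := Nat.ceil_lt_add_one (a := k * (e1 z I * log 2 + δ) / log 3) (by positivity)
  have h2 := mul_le_mul_of_nonneg_right this.le hl3.le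
  have e : (k * (e1 z I * log 2 + δ) / log 3 + 1) * log 3 =
      k * (e1 z I * log 2 + δ) + log 3 := by
    field_simp
  unfold Lz
  linarith

theorem Lz_le_four {z : ℝ} (hz : 0 < z) {δ : ℝ} (hδ : 0 < δ) (hδ1 : δ ≤ 1 / 12) {I : ℕ}
    (hI : 1 ≤ I) (p3 : e1 z I ≤ 3) {k : ℕ} (hk : 2 ≤ k) : (Lz z δ I k : ℝ) ≤ 4 * k := by
  have hl3 := log_three_bounds
  have hl2 := log_two_bounds
  have hkr : (2 : ℝ) ≤ k := by exact_mod_cast hk
  have h0 := Lz_le hz hδ hI k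
  have h2 : e1 z I * log 2 ≤ 3 * 0.7 :=
    mul_le_mul p3 hl2.2.le (by linarith) (by norm_num)
  have h3 : k * (e1 z I * log 2 + δ) ≤ k * (3 * 0.7 + 1 / 12) :=
    mul_le_mul_of_nonneg_left (by linarith) (by linarith)
  have h4 : (4 * k : ℝ) * 1 ≤ 4 * k * log 3 := mul_le_mul_of_nonneg_left hl3.1.le (by linarith)
  have h1 : (Lz z δ I k : ℝ) * log 3 ≤ (4 * k) * log 3 := by
    refine h0.trans (le_trans ?_ h4)
    linarith
  exact le_of_mul_le_mul_right h1 (by linarith)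

theorem le_Lz {z δ : ℝ} (hδ : 0 < δ) {I : ℕ}
    (p2 : 5 / 4 * log 3 ≤ e1 z I * log 2) {k L : ℕ} (hL : 4 * L ≤ 5 * k) :
    L ≤ Lz z δ I k := by
  have hl3 := log_three_bounds
  have h1 : (4 : ℝ) * L ≤ 5 * k := by exact_mod_cast hL
  have hk0 : (0 : ℝ) ≤ k := Nat.cast_nonneg k
  have h2 : (L : ℝ) * log 3 ≤ Lz z δ I k * log 3 := by
    refine le_trans ?_ (Lz_ge z δ I k)
    have h3 : (L : ℝ) * log 3 ≤ 5 / 4 * k * log 3 :=
      mul_le_mul_of_nonneg_right (by linarith) (by linarith)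
    have h4 := mul_le_mul_of_nonneg_left p2 hk0
    have h5 : 0 ≤ k * δ := by positivity
    calc (L : ℝ) * log 3 ≤ 5 / 4 * k * log 3 := h3
      _ = k * (5 / 4 * log 3) := by ring
      _ ≤ k * (e1 z I * log 2) := h4
      _ ≤ k * (e1 z I * log 2 + δ) := by
        rw [mul_add]
        linarith
  have := le_of_mul_le_mul_right h2 (by linarith)
  exact_mod_cast this

/-- Collecting the terms. -/
theorem collect_z {z : ℝ} (hz : 0 < z) {δ V : ℝ} (hδ : 0 < δ) (hδ1 : δ ≤ 1 / 12) {I k : ℕ}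
    (hI1 : 1 ≤ I) (p3 : e1 z I ≤ 3) (p4 : Df z I ≤ δ) (p5 : |log (Zs z I)| ≤ 1 / 4)
    (p6 : log (1 / z) ≤ 3 / 4) (_ : 0 ≤ log (1 / z))
    (hk : 2 ≤ k) (hV : 0 ≤ V) (hkpb : k * pbad z I k (Lz z δ I k) ≤ V) (hVI : V * I ≤ δ * k)
    (hlogk : log (I * k + 1) ≤ δ * k) (h6k : 6 ≤ δ * k) :
    (Lz z δ I k * log 3 - k * log (Zs z I) - k * e1 z I * log (1 / z) +
      k * (I * log (1 / z) + |log (Zs z I)|) * pbad z I k (Lz z δ I k) + log (I * k + 1) + 1) /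
      (4 / 3 * log 2) + Lz z δ I k * pbad z I k (Lz z δ I k) ≤ 12 * (δ * k) := by
  have hl2 := log_two_bounds
  have hl3 := log_three_bounds
  have hIr : (1 : ℝ) ≤ I := by exact_mod_cast hI1
  have hkr : (2 : ℝ) ≤ k := by exact_mod_cast hk
  have hk0 : (0 : ℝ) < k := by linarith
  have hpb0 : 0 ≤ pbad z I k (Lz z δ I k) :=
    sum_nonneg fun w _ => pw_nonneg hz I w
  have hDf : Lz z δ I k * log 3 - k * log (Zs z I) - k * e1 z I * log (1 / z) ≤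
      2 * (δ * k) + log 3 := by
    have h2 : k * Df z I ≤ k * δ := mul_le_mul_of_nonneg_left p4 hk0.le
    have h1 : k * Df z I = k * (e1 z I * log 2) - k * log (Zs z I) - k * e1 z I * log (1 / z) := by
      unfold Df
      ring
    have h4 := Lz_le hz hδ hI1 k
    have h5 : k * (e1 z I * log 2 + δ) = k * (e1 z I * log 2) + k * δ := by ring
    linarith
  have hbadterm : k * (I * log (1 / z) + |log (Zs z I)|) * pbad z I k (Lz z δ I k) ≤
      δ * k := by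
    have h1 : (I : ℝ) * log (1 / z) + |log (Zs z I)| ≤ I := by
      have : (I : ℝ) * log (1 / z) ≤ I * (3 / 4) := mul_le_mul_of_nonneg_left p6 (by linarith)
      linarith
    calc k * (I * log (1 / z) + |log (Zs z I)|) * pbad z I k (Lz z δ I k)
        = (I * log (1 / z) + |log (Zs z I)|) * (k * pbad z I k (Lz z δ I k)) := by ring
      _ ≤ I * V := mul_le_mul h1 hkpb (by positivity) (by linarith)
      _ ≤ δ * k := by linarith
  have hlast : (Lz z δ I k : ℝ) * pbad z I k (Lz z δ I k) ≤ 4 * (δ * k) := by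
    calc (Lz z δ I k : ℝ) * pbad z I k (Lz z δ I k) ≤ 4 * k * pbad z I k (Lz z δ I k) :=
          mul_le_mul_of_nonneg_right (Lz_le_four hz hδ hδ1 hI1 p3 hk) hpb0
      _ = 4 * (k * pbad z I k (Lz z δ I k)) := by ring
      _ ≤ 4 * (δ * k) := by
          have : V * 1 ≤ V * I := mul_le_mul_of_nonneg_left hIr hV
          linarith
  have hnum2 : (Lz z δ I k * log 3 - k * log (Zs z I) - k * e1 z I * log (1 / z) +
      k * (I * log (1 / z) + |log (Zs z I)|) * pbad z I k (Lz z δ I k) + log (I * k + 1) + 1) /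
      (4 / 3 * log 2) ≤ 6 * (δ * k) := by
    rw [div_le_iff₀ (by linarith)]
    have h1 : 0 < δ * k := by positivity
    have h2 : 6 * (δ * k) * (4 / 3 * 0.69) ≤ 6 * (δ * k) * (4 / 3 * log 2) :=
      mul_le_mul_of_nonneg_left (by linarith) (by linarith)
    refine le_trans ?_ h2
    linarith
  have h1 : 0 < δ * k := by positivity
  linarith

/-- The uniform version of the bound for the sums. -/
theorem sum_Vp_z {ε : ℝ} (hε : 0 < ε) (hε1 : ε ≤ 1) : ∃ z₀ : ℝ, 0 < z₀ ∧ z₀ < 1 / 2 ∧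
    ∃ C I₀ : ℕ, 1 ≤ C ∧ 1 ≤ I₀ ∧
    ∀ z : ℝ, z₀ ≤ z → z ≤ 1 / 2 → ∀ I k L : ℕ, I₀ ≤ I → C * I ≤ k →
    4 * L ≤ 5 * k → ∑ n ∈ Ico k L, Vp z I k n ≤ ε * k := by
  set δ := ε / 12 with hδ
  have hδ0 : 0 < δ := by positivity
  have hδ1 : δ ≤ 1 / 12 := by rw [hδ]; linarith
  obtain ⟨z₀, hz00, hz02, I₁, hI₁⟩ := zz_params hδ0
  refine ⟨z₀, hz00, hz02, ?_⟩
  -- the error terms
  have hl2 := log_two_bounds
  set V0 : ℝ := 21 / (δ / (2 * log 2)) ^ 2 with hV0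
  have hV00 : 0 ≤ V0 := by positivity
  set ρ : ℝ := exp (-(1 / 2 * (δ / 2))) with hρ
  have hρ0 : 0 ≤ ρ := by positivity
  have hρ1 : ρ < 1 := by
    rw [hρ, exp_lt_one_iff]
    linarith
  have hB : ∀ᶠ k : ℕ in atTop, (k : ℝ) ^ 2 * ρ ^ k < 1 :=
    (tendsto_pow_const_mul_const_pow_of_lt_one 2 hρ0 hρ1).eventually_lt_const one_pos
  have hlog : ∀ᶠ k : ℕ in atTop, log k / k < δ / 4 := by
    have h1 := Real.isLittleO_log_id_atTop.tendsto_div_nhds_zero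
    exact (h1.comp tendsto_natCast_atTop_atTop).eventually_lt_const (by positivity)
  have hone : ∀ᶠ k : ℕ in atTop, (6 : ℝ) / k < δ :=
    (tendsto_const_div_atTop_nhds_zero_nat 6).eventually_lt_const hδ0
  obtain ⟨K, hK⟩ := (hB.and (hlog.and (hone.and (eventually_ge_atTop 2)))).exists_forall_of_atTop
  obtain ⟨C₁, hC₁⟩ := exists_nat_ge ((V0 + 1) / δ)
  refine ⟨K + C₁ + 2, max I₁ 1, by omega, le_max_right _ _, ?_⟩
  intro z hz1 hz2 I k L hI hk hL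
  have hz : 0 < z := hz00.trans_le hz1
  obtain ⟨hI1, p1, p2, p3, p4, p5, p8, p6⟩ := hI₁ z hz1 hz2 I ((le_max_left _ _).trans hI)
  have p7 : 0 ≤ log (1 / z) := log_nonneg (by rw [le_div_iff₀ hz]; linarith)
  have hIr : (1 : ℝ) ≤ I := by exact_mod_cast hI1
  have hexp : (K + C₁ + 2) * I = K * I + C₁ * I + 2 * I := by ring
  have hKI : K ≤ K * I := Nat.le_mul_of_pos_right K hI1
  have hkK : K ≤ k := by omega
  have hkI : I ≤ k := by omega
  have hk2 : 2 ≤ k := by omega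
  have hkC : C₁ * I ≤ k := by omega
  obtain ⟨b1, b2, b3, -⟩ := hK k hkK
  have hkr : (2 : ℝ) ≤ k := by exact_mod_cast hk2
  have hk0 : (0 : ℝ) < k := by linarith
  have hCI : (V0 + 1) * I ≤ δ * k := by
    have h1 : (C₁ : ℝ) * I ≤ k := by exact_mod_cast hkC
    rw [div_le_iff₀ hδ0] at hC₁
    calc (V0 + 1) * I ≤ (C₁ * δ) * I := mul_le_mul_of_nonneg_right hC₁ (by linarith)
      _ = δ * (C₁ * I) := by ring
      _ ≤ δ * k := mul_le_mul_of_nonneg_left h1 hδ0.le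
  have hpb := pbad_le hz hI1 (α := 1 / 2) (by norm_num) (by norm_num)
    p1 hδ0 (k := k) (L := Lz z δ I k) (by omega) (Lz_ge z δ I k)
  have hkpb : k * pbad z I k (Lz z δ I k) ≤ V0 + 1 := by
    have h1 := mul_le_mul_of_nonneg_left hpb hk0.le
    have h2 : vr z I / (δ / (2 * log 2)) ^ 2 ≤ V0 :=
      div_le_div_of_nonneg_right (vr_zz_le hz hz2 hI1 p8 p3) (by positivity)
    have h3 : k * (vr z I / (δ / (2 * log 2)) ^ 2 / k + k * ρ ^ k) =
        vr z I / (δ / (2 * log 2)) ^ 2 + (k : ℝ) ^ 2 * ρ ^ k := by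
      generalize vr z I / (δ / (2 * log 2)) ^ 2 = a
      generalize ρ ^ k = b
      field_simp
    have h4 : k * pbad z I k (Lz z δ I k) ≤
        k * (vr z I / (δ / (2 * log 2)) ^ 2 / k + k * ρ ^ k) := h1
    rw [h3] at h4
    linarith
  have hlogk : log (I * k + 1) ≤ δ * k := by
    have h1 : log (I * k + 1) ≤ log ((k : ℝ) ^ 3) := by
      apply log_le_log (by positivity)
      have hIk : (I : ℝ) ≤ k := by exact_mod_cast hkI
      have h2 : (I : ℝ) * k ≤ k * k := mul_le_mul_of_nonneg_right hIk hk0.le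
      have h3 : (2 : ℝ) * 2 ≤ k * k := mul_le_mul hkr hkr (by norm_num) hk0.le
      have h4 : 2 * ((k : ℝ) * k) ≤ k * (k * k) := mul_le_mul_of_nonneg_right hkr (by positivity)
      calc (I : ℝ) * k + 1 ≤ k * k + k * k := by linarith
        _ ≤ k * (k * k) := by linarith
        _ = (k : ℝ) ^ 3 := by ring
    rw [log_pow] at h1
    push_cast at h1
    rw [div_lt_iff₀ hk0] at b2
    have h5 : 0 < δ * k := by positivity
    linarith
  have h6k : 6 ≤ δ * k := by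
    rw [div_lt_iff₀ hk0] at b3
    exact b3.le
  have hmain := sum_Vp_le hz (by linarith) hI1 k (Lz z δ I k)
  have h12 : ε * k = 12 * (δ * k) := by rw [hδ]; ring
  rw [h12]
  refine le_trans ?_ (hmain.trans (collect_z hz hδ0 hδ1 hI1 p3 p4 p5 p6 p7 hk2 (by linarith)
    hkpb hCI hlogk h6k))
  exact sum_le_sum_of_subset_of_nonneg (Ico_subset_Ico_right (le_Lz hδ0 p2 hL))
    fun n _ _ => Vp_nonneg' hz I k n

/-- One step of the iteration. -/
theorem Qd_step_z {ε : ℝ} (hε : 0 < ε) (hε1 : ε ≤ 1) : ∃ z₀ : ℝ, 0 < z₀ ∧ z₀ < 1 / 2 ∧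
    ∃ C I₀ : ℕ, 1 ≤ C ∧ 1 ≤ I₀ ∧ ∀ z : ℝ, z₀ ≤ z → z ≤ 1 / 2 →
    ∀ I m : ℕ, I₀ ≤ I → C * I ≤ m → Qd z I (10 * m) ≤ 8 * ε * Qd z I m := by
  obtain ⟨z₀, hz00, hz02, C, I₀, hC, hI₀, h⟩ := sum_Vp_z hε hε1
  refine ⟨z₀, hz00, hz02, C, I₀, hC, hI₀, ?_⟩
  intro z hz1 hz2 I m hI hm
  have hI1 : 1 ≤ I := hI₀.trans hI
  have hm1 : 1 ≤ m := by
    have : 1 ≤ C * I := Nat.mul_pos hC hI1
    omega
  have h1 := h z hz1 hz2 I (8 * m) (10 * m) hI (by omega) (by omega)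
  have hz : (0 : ℝ) < z := hz00.trans_le hz1
  -- a good level
  have h2 : ∃ n ∈ Ico (9 * m) (10 * m), Vp z I (8 * m) n ≤ 8 * ε := by
    by_contra hcon
    push Not at hcon
    have h3 : ∑ n ∈ Ico (9 * m) (10 * m), 8 * ε < ∑ n ∈ Ico (9 * m) (10 * m),
        Vp z I (8 * m) n :=
      sum_lt_sum_of_nonempty ⟨9 * m, mem_Ico.mpr ⟨le_rfl, by omega⟩⟩ hcon
    have h4 : ∑ n ∈ Ico (9 * m) (10 * m), Vp z I (8 * m) n ≤
        ∑ n ∈ Ico (8 * m) (10 * m), Vp z I (8 * m) n :=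
      sum_le_sum_of_subset_of_nonneg (Ico_subset_Ico_left (by omega))
        fun n _ _ => Vp_nonneg' hz I _ n
    rw [sum_const, Nat.card_Ico, nsmul_eq_mul] at h3
    have h5 : 10 * m - 9 * m = m := by omega
    rw [h5] at h3
    push_cast at h1
    linarith
  obtain ⟨n, hn, hV⟩ := h2
  rw [mem_Ico] at hn
  obtain ⟨r, rfl⟩ : ∃ r, n = 8 * m + r := ⟨n - 8 * m, by omega⟩
  calc Qd z I (10 * m) ≤ Qd z I (8 * m + r) := Qd_anti hz hI1 hn.2.le
    _ ≤ Vp z I (8 * m) (8 * m + r) * Qd z I r := Qd_rec hz I (8 * m) r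
    _ ≤ 8 * ε * Qd z I m :=
        mul_le_mul hV (Qd_anti hz hI1 (by omega)) (Qd_nonneg hz I r) (by positivity)

/-- Decay of the diagonal, with an arbitrary exponent. -/
theorem Qd_decay_z (B : ℕ) : ∃ z₀ : ℝ, 0 < z₀ ∧ z₀ < 1 / 2 ∧ ∃ C I₀ : ℕ, 1 ≤ C ∧ 1 ≤ I₀ ∧
    ∀ z : ℝ, z₀ ≤ z → z ≤ 1 / 2 →
    ∀ I n : ℕ, I₀ ≤ I → 1 ≤ n → Qd z I n ≤ ((C * I : ℝ) / n) ^ B := by
  have hε : (0 : ℝ) < (1 / 20) ^ B / 8 := by positivity
  have hε1 : ((1 / 20 : ℝ)) ^ B / 8 ≤ 1 := by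
    have : (1 / 20 : ℝ) ^ B ≤ 1 := pow_le_one₀ (by norm_num) (by norm_num)
    linarith
  obtain ⟨z₀, hz00, hz02, C, I₀, hC, hI₀, h⟩ := Qd_step_z hε hε1
  refine ⟨z₀, hz00, hz02, 10 * C, I₀, by omega, hI₀, ?_⟩
  intro z hz1 hz2 I n hI
  have hz : (0 : ℝ) < z := hz00.trans_le hz1
  have hI1 : 1 ≤ I := hI₀.trans hI
  have hCI : 1 ≤ C * I := Nat.mul_pos hC hI1
  induction n using Nat.strong_induction_on with
  | _ n ih =>
    intro hn
    have hnr : (1 : ℝ) ≤ n := by exact_mod_cast hn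
    rcases lt_or_ge n (10 * (C * I)) with hlt | hge
    · refine (Qd_le_one hz hI1 n).trans ?_
      apply one_le_pow₀
      rw [le_div_iff₀ (by linarith), one_mul]
      have : (n : ℝ) ≤ ((10 * (C * I) : ℕ) : ℝ) := by exact_mod_cast hlt.le
      push_cast at this ⊢
      linarith
    · obtain ⟨m, r, hr, rfl⟩ : ∃ m r, r < 10 ∧ n = 10 * m + r :=
        ⟨n / 10, n % 10, Nat.mod_lt _ (by norm_num), (Nat.div_add_mod n 10).symm⟩
      have hm : C * I ≤ m := by omega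
      have hm1 : 1 ≤ m := by omega
      have hmr : (1 : ℝ) ≤ m := by exact_mod_cast hm1
      have h1 := h z hz1 hz2 I m hI hm
      have h2 := ih m (by omega) hm1
      calc Qd z I (10 * m + r) ≤ Qd z I (10 * m) := Qd_anti hz hI1 (by omega)
        _ ≤ 8 * ((1 / 20 : ℝ) ^ B / 8) * Qd z I m := h1
        _ = (1 / 20 : ℝ) ^ B * Qd z I m := by ring
        _ ≤ (1 / 20 : ℝ) ^ B * (((10 * C : ℕ) * I : ℝ) / m) ^ B :=
            mul_le_mul_of_nonneg_left h2 (by positivity)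
        _ = (1 / 20 * (((10 * C : ℕ) * I : ℝ) / m)) ^ B := by rw [mul_pow]
        _ ≤ (((10 * C : ℕ) * I : ℝ) / ((10 * m + r : ℕ) : ℝ)) ^ B := by
            apply pow_le_pow_left₀ (by positivity)
            have hle : ((10 * m + r : ℕ) : ℝ) ≤ 20 * m := by
              have : 10 * m + r ≤ 20 * m := by omega
              exact_mod_cast this
            have hpos : (0 : ℝ) < ((10 * m + r : ℕ) : ℝ) := by
              have : 0 < 10 * m + r := by omega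
              exact_mod_cast this
            calc 1 / 20 * (((10 * C : ℕ) * I : ℝ) / m) = ((10 * C : ℕ) * I : ℝ) / (20 * m) := by
                  field_simp
              _ ≤ ((10 * C : ℕ) * I : ℝ) / ((10 * m + r : ℕ) : ℝ) :=
                  div_le_div_of_nonneg_left (by positivity) hpos hle

theorem thm_Vdec : St_Vdec := by
  intro B
  obtain ⟨z₀, hz00, hz02, C, I₀, hC, hI₀, h⟩ := Qd_decay_z B
  refine ⟨-log (2 * z₀), ?_, C, I₀, hC, hI₀, ?_⟩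
  · have := log_neg (x := 2 * z₀) (by linarith) (by linarith)
    linarith
  · intro σ hσ0 hσ1 I n hI hn
    have hI1 : 1 ≤ I := hI₀.trans hI
    have hz := zz_pos σ
    have hz1 : z₀ ≤ zz σ := by
      unfold zz
      have h1 : log (2 * z₀) ≤ -σ := by linarith
      have h2 := exp_le_exp.2 h1
      rw [exp_log (by linarith)] at h2
      linarith
    have h1 := h (zz σ) hz1 (zz_le hσ0) I n hI hn
    refine le_trans ?_ h1
    have h2 := Vn_rec hz I n 0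
    rw [add_zero] at h2
    refine h2.trans ?_
    exact mul_le_of_le_one_right (Qd_nonneg hz I n) (Vn_le_one hz hI1 0)

end Pool.Agent.UTL
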