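import Pool.Agent.UTL.L1
import Pool.Agent.UTL.Vdec
import Pool.Agent.UTL.Uall
import Pool.Agent.UTL.LowU2

set_option autoImplicit false

/-! The upper tail of the stopping time: assembly. -/

namespace Pool.Agent.UTL

theorem main_ThmA : St_ThmA := thm_ThmA (thm_L1 thm_Vdec)

theorem main_Block : St_Block := thm_Block (thm_FB main_ThmA)

theorem main_U : St_U := thm_U (thm_Upper main_Block)

theorem main_Lower : St_Lower := thm_Lower

end Pool.Agent.UTL
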