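import Pool.Agent.UTL.Crude

set_option autoImplicit false

/-! The fine bound for the moments at the critical scale. -/

namespace Pool.Agent.UTL

open Finset Filter Topology
open Pool.Agent.Collatz3.Mix (words mem_words)
open Pool.Agent.Collatz3.PD (rd en Per A S)

theorem words_mono {I I' : ℕ} (h : I ≤ I') (k : ℕ) : words I k ⊆ words I' k := by
  intro w hw
  rw [mem_words] at hw ⊢
  exact ⟨hw.1, fun i hi => ⟨(hw.2 i hi).1, (hw.2 i hi).2.trans h⟩⟩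

theorem BW_mono {I I' : ℕ} (h : I ≤ I') (k : ℕ) : BW I k ⊆ BW I' k := by
  intro w hw
  rw [mem_BW] at hw ⊢
  exact ⟨words_mono h k hw.1, hw.2⟩

theorem Z_mono {σ : ℝ} (hσ : 0 ≤ σ) {I I' : ℕ} (h : I ≤ I') (k : ℕ) (x : ℤ) :
    Z σ I k x ≤ Z σ I' k x :=
  Et_mono_set hσ (BW_mono h k) (fun _ => zero_le_one) x

theorem ev_log_pow {c : ℝ} (hc : 0 < c) (p : ℕ) :
    ∀ᶠ m : ℕ in atTop, Real.log m ^ p ≤ c * m := by
  have h := (Real.isLittleO_pow_log_id_atTop (n := p)).bound hc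
  have h2 := tendsto_natCast_atTop_atTop.eventually h
  filter_upwards [h2] with m h3
  rw [Real.norm_eq_abs, Real.norm_eq_abs, id, abs_of_nonneg (Nat.cast_nonneg m : (0 : ℝ) ≤ (m : ℝ))] at h3
  exact (le_abs_self _).trans h3

theorem fine_pt {z e E M₁ : ℝ} (hz : 0 ≤ z) (he0 : 0 ≤ e) (heE : e ≤ E) (hEM : E ≤ M₁)
    (hM : 0 < M₁) {q : ℕ} (hq : 1 ≤ q) :
    z ^ q ≤ 2 ^ q * (E ^ q + M₁ ^ (q - 1) * |z - e|) + 1 / M₁ ^ q * z ^ (2 * q) := by
  have hE0 : 0 ≤ E := he0.trans heE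
  have hpos : 0 ≤ 1 / M₁ ^ q * z ^ (2 * q) := by positivity
  rcases le_or_gt z M₁ with h | h
  · have h1 : z ≤ e + |z - e| := by
      have := le_abs_self (z - e)
      linarith
    have hD : |z - e| ≤ M₁ := by
      rw [abs_le]
      constructor <;> linarith
    have h2 : z ^ q ≤ 2 ^ (q - 1) * (e ^ q + |z - e| ^ q) :=
      (pow_le_pow_left₀ hz h1 q).trans (add_pow_le he0 (abs_nonneg _) q)
    have h3 : |z - e| ^ q ≤ M₁ ^ (q - 1) * |z - e| := by
      have e3 : q = (q - 1) + 1 := by omega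
      conv_lhs => rw [e3, pow_succ]
      exact mul_le_mul_of_nonneg_right (pow_le_pow_left₀ (abs_nonneg _) hD _) (abs_nonneg _)
    have h4 : e ^ q ≤ E ^ q := pow_le_pow_left₀ he0 heE q
    have h5 : (2 : ℝ) ^ (q - 1) ≤ 2 ^ q := pow_le_pow_right₀ (by norm_num) (by omega)
    have h6 : 0 ≤ E ^ q + M₁ ^ (q - 1) * |z - e| := by positivity
    calc z ^ q ≤ 2 ^ (q - 1) * (e ^ q + |z - e| ^ q) := h2
      _ ≤ 2 ^ (q - 1) * (E ^ q + M₁ ^ (q - 1) * |z - e|) :=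
          mul_le_mul_of_nonneg_left (add_le_add h4 h3) (by positivity)
      _ ≤ 2 ^ q * (E ^ q + M₁ ^ (q - 1) * |z - e|) := mul_le_mul_of_nonneg_right h5 h6
      _ ≤ _ := by linarith
  · have h1 : z ^ q ≤ 1 / M₁ ^ q * z ^ (2 * q) := by
      rw [div_mul_eq_mul_div, one_mul, le_div_iff₀ (by positivity)]
      calc z ^ q * M₁ ^ q ≤ z ^ q * z ^ q :=
            mul_le_mul_of_nonneg_left (pow_le_pow_left₀ hM.le h.le q) (by positivity)
        _ = z ^ (2 * q) := by rw [two_mul, pow_add]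
    have h2 : 0 ≤ 2 ^ q * (E ^ q + M₁ ^ (q - 1) * |z - e|) := by positivity
    linarith

theorem l_bound {l m : ℕ} (h : l ^ 3 ≤ 64 * m) (hm : 12300000000 ≤ m) : 36 * (l + 1) ^ 2 ≤ m := by
  by_contra hc
  push Not at hc
  have hl : 1 ≤ l := by
    by_contra h0
    have : l = 0 := by omega
    subst this
    norm_num at hc
    omega
  have h1 : m ^ 3 < (36 * (l + 1) ^ 2) ^ 3 := Nat.pow_lt_pow_left hc (by norm_num)
  have h2 : (l + 1) ^ 2 ≤ 4 * l ^ 2 := by nlinarith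
  have h3 : (36 * (l + 1) ^ 2) ^ 3 ≤ (144 * l ^ 2) ^ 3 := Nat.pow_le_pow_left (by omega) 3
  have h4 : (144 * l ^ 2) ^ 3 = 2985984 * (l ^ 3) ^ 2 := by ring
  have h5 : (l ^ 3) ^ 2 ≤ (64 * m) ^ 2 := Nat.pow_le_pow_left h 2
  have h6 : 2985984 * (64 * m) ^ 2 ≤ m ^ 3 := by
    calc 2985984 * (64 * m) ^ 2 = 12230590464 * m ^ 2 := by ring
      _ ≤ m * m ^ 2 := Nat.mul_le_mul_right _ (by omega)
      _ = m ^ 3 := by ring
  omega

theorem thm_Fine (hL : St_L1) : St_Fine := by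
  intro q B hq hB
  have hqr : (1 : ℝ) ≤ q := by exact_mod_cast hq
  obtain ⟨c, hc⟩ := exists_nat_ge (8 + 64 * q * B)
  have hc1 : (1 : ℝ) ≤ c := by
    have : 0 ≤ 64 * q * B := by positivity
    linarith
  have hc1' : 1 ≤ c := by exact_mod_cast hc1
  obtain ⟨σ₀, hσ₀, m₁, hm₁⟩ := hL (c * (q - 1))
  have ev1 := ev_log_pow (c := σ₀ ^ 2 / (2 * B)) (by positivity) 1
  have ev2 := ev_log_pow (c := 1 / (2 * B)) (by positivity) 1
  have ev3 := ev_log_pow (c := 1 / (512 * B ^ 3)) (by positivity) 3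
  obtain ⟨m₀, hm₀⟩ := eventually_atTop.1 (((ev1.and ev2).and ev3).and
    (eventually_ge_atTop (max m₁ 12300000000)))
  refine ⟨m₀, ?_⟩
  intro m hm σ hσ hlo hhi I k hmk hk2
  obtain ⟨⟨⟨e1, e2⟩, e3⟩, e4⟩ := hm₀ m hm
  have hmm1 : m₁ ≤ m := (le_max_left _ _).trans e4
  have hmbig : 12300000000 ≤ m := (le_max_right _ _).trans e4
  have hmR : (12300000000 : ℝ) ≤ m := by exact_mod_cast hmbig
  have hm0 : (0 : ℝ) < m := by linarith
  rw [pow_one] at e1 e2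
  have hB0 : 0 < B := by linarith
  have hlog1 : 1 ≤ Real.log m := by
    rw [Real.le_log_iff_exp_le hm0]
    exact Real.exp_one_lt_three.le.trans (by linarith)
  -- σ ≤ σ₀ and σ ≤ 1
  have hs0 : σ ≤ σ₀ := by
    have h1 : σ ^ 2 * m ≤ σ₀ ^ 2 * m := by
      refine hhi.trans ?_
      calc 2 * B * Real.log m ≤ 2 * B * (σ₀ ^ 2 / (2 * B) * m) :=
            mul_le_mul_of_nonneg_left e1 (by positivity)
        _ = σ₀ ^ 2 * m := by field_simp
    have h2 := le_of_mul_le_mul_right h1 hm0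
    exact (pow_le_pow_iff_left₀ hσ.le hσ₀.le (by norm_num)).1 h2
  have hs1 : σ ≤ 1 := by
    have h1 : σ ^ 2 * m ≤ 1 ^ 2 * m := by
      refine hhi.trans ?_
      calc 2 * B * Real.log m ≤ 2 * B * (1 / (2 * B) * m) :=
            mul_le_mul_of_nonneg_left e2 (by positivity)
        _ = 1 ^ 2 * m := by field_simp
    have h2 := le_of_mul_le_mul_right h1 hm0
    exact (pow_le_pow_iff_left₀ hσ.le zero_le_one (by norm_num)).1 h2
  have hsm : 1 ≤ σ ^ 2 * m := by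
    refine le_trans ?_ hlo
    nlinarith
  -- replace I
  obtain ⟨I', hI'⟩ : ∃ I', I' = max I m := ⟨_, rfl⟩
  have hII : I ≤ I' := by rw [hI']; exact le_max_left _ _
  have hmI : m ≤ I' := by rw [hI']; exact le_max_right _ _
  obtain ⟨l, hlk, hl3, hAD⟩ := hm₁ σ hσ.le hs0 m hmm1 I' k hmI hmk hk2
  have hlb := l_bound hl3 hmbig
  have hlbR : 36 * ((l : ℝ) + 1) ^ 2 ≤ m := by exact_mod_cast hlb
  have hsl : σ * l ≤ 2 := by
    have h1 : (σ ^ 2 * m) ^ 3 ≤ (2 * B * Real.log m) ^ 3 := pow_le_pow_left₀ (by positivity) hhi 3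
    have h2 : ((l : ℝ) ^ 3) ^ 2 ≤ (64 * m) ^ 2 :=
      pow_le_pow_left₀ (by positivity) (by exact_mod_cast hl3) 2
    have h3 : (σ ^ 2 * m) ^ 3 * ((l : ℝ) ^ 3) ^ 2 ≤ (2 * B * Real.log m) ^ 3 * (64 * m) ^ 2 :=
      mul_le_mul h1 h2 (by positivity) (by positivity)
    have h4 : (2 * B * Real.log m) ^ 3 * (64 * m) ^ 2 ≤ 64 * (m : ℝ) ^ 3 := by
      calc (2 * B * Real.log m) ^ 3 * (64 * m) ^ 2
          = 32768 * B ^ 3 * m ^ 2 * Real.log m ^ 3 := by ring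
        _ ≤ 32768 * B ^ 3 * m ^ 2 * (1 / (512 * B ^ 3) * m) :=
            mul_le_mul_of_nonneg_left e3 (by positivity)
        _ = 64 * (m : ℝ) ^ 3 := by field_simp; ring
    have h5 : (σ * l) ^ 6 * (m : ℝ) ^ 3 ≤ 2 ^ 6 * (m : ℝ) ^ 3 := by
      calc (σ * l) ^ 6 * (m : ℝ) ^ 3 = (σ ^ 2 * m) ^ 3 * ((l : ℝ) ^ 3) ^ 2 := by ring
        _ ≤ _ := h3.trans h4
        _ = 2 ^ 6 * (m : ℝ) ^ 3 := by norm_num
    have h6 := le_of_mul_le_mul_right h5 (by positivity)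
    exact (pow_le_pow_iff_left₀ (by positivity) (by norm_num) (by norm_num)).1 h6
  -- the sup of the conditional mean
  have hinv : 1 / σ ≤ √m := by
    rw [Real.le_sqrt' (by positivity), div_pow, one_pow, div_le_iff₀ (by positivity)]
    linarith
  have hEx : ∀ x, Ex k l (Z σ I' k) x ≤ m := by
    intro x
    refine (thm_Ctr.2 σ I' k l x hσ.le hlk).trans ((thm_SupZ σ hσ hs1 I' l x).trans ?_)
    have h1 : Real.exp (σ * l / 2) ≤ 3 := by
      refine le_trans (Real.exp_le_exp.2 (by linarith)) Real.exp_one_lt_three.le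
    have h2 : 6 * ((l : ℝ) + 1) ≤ √m := by
      rw [Real.le_sqrt' (by positivity)]
      nlinarith
    calc 2 * ((l : ℝ) + 1) / σ * Real.exp (σ * l / 2)
        ≤ 2 * ((l : ℝ) + 1) / σ * 3 := mul_le_mul_of_nonneg_left h1 (by positivity)
      _ = 6 * ((l : ℝ) + 1) * (1 / σ) := by ring
      _ ≤ √m * √m := mul_le_mul h2 hinv (by positivity) (by positivity)
      _ = m := Real.mul_self_sqrt hm0.le
  have hm1 : (1 : ℝ) ≤ m := by linarith
  -- pointwise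
  obtain ⟨M₁, hM₁⟩ : ∃ M₁ : ℝ, M₁ = (m : ℝ) ^ c := ⟨_, rfl⟩
  have hM0 : 0 < M₁ := by rw [hM₁]; positivity
  have hmM : (m : ℝ) ≤ M₁ := by
    rw [hM₁]
    calc (m : ℝ) = m ^ 1 := (pow_one _).symm
      _ ≤ m ^ c := pow_le_pow_right₀ hm1 hc1'
  have hpt : ∀ x, Z σ I k x ^ q ≤ 2 ^ q * ((m : ℝ) ^ q +
      M₁ ^ (q - 1) * |Z σ I' k x - Ex k l (Z σ I' k) x|) + 1 / M₁ ^ q * Z σ I' k x ^ (2 * q) := by
    intro x
    refine (pow_le_pow_left₀ (Z_nonneg hσ.le I k x) (Z_mono hσ.le hII k x) q).trans ?_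
    exact fine_pt (Z_nonneg hσ.le I' k x) (Ex_nonneg (fun y => Z_nonneg hσ.le I' k y) x) (hEx x)
      hmM hM0 hq
  refine (A_mono hpt).trans ?_
  rw [A_add, A_const_mul, A_add, A_const, A_const_mul, A_const_mul]
  -- first error
  have hA1 : M₁ ^ (q - 1) * A k (fun x => |Z σ I' k x - Ex k l (Z σ I' k) x|) ≤ 1 := by
    calc M₁ ^ (q - 1) * A k (fun x => |Z σ I' k x - Ex k l (Z σ I' k) x|)
        ≤ M₁ ^ (q - 1) * (1 / (m : ℝ) ^ (c * (q - 1))) :=
          mul_le_mul_of_nonneg_left hAD (by positivity)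
      _ = 1 := by
          rw [hM₁, ← pow_mul]
          field_simp
  -- second error
  have hA2 : 1 / M₁ ^ q * A k (fun x => Z σ I' k x ^ (2 * q)) ≤ 1 := by
    have h1 := thm_Crude σ hσ hs1 (2 * q) I' k (by omega)
    rw [div_mul_eq_mul_div, one_mul, div_le_one (by positivity)]
    refine h1.trans ?_
    rw [pow_mul]
    apply pow_le_pow_left₀ (by positivity)
    have hkR : (k : ℝ) ≤ 2 * m := by exact_mod_cast hk2
    have h2 : 4 * ((k : ℝ) + 1) ^ 2 / σ ≤ (m : ℝ) ^ 4 := by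
      have h3 : (k : ℝ) + 1 ≤ 3 * m := by linarith
      have h4 : ((k : ℝ) + 1) ^ 2 ≤ (3 * m) ^ 2 := pow_le_pow_left₀ (by positivity) h3 2
      have h5 : √(m : ℝ) ≤ m := by
        rw [Real.sqrt_le_left hm0.le]
        nlinarith
      calc 4 * ((k : ℝ) + 1) ^ 2 / σ = 4 * ((k : ℝ) + 1) ^ 2 * (1 / σ) := by ring
        _ ≤ 4 * (3 * (m : ℝ)) ^ 2 * m :=
            mul_le_mul (by linarith) (hinv.trans h5) (by positivity) (by positivity)
        _ = 36 * (m : ℝ) ^ 3 := by ring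
        _ ≤ m * (m : ℝ) ^ 3 := mul_le_mul_of_nonneg_right (by linarith) (by positivity)
        _ = (m : ℝ) ^ 4 := by ring
    have h3 : Real.exp (4 * (2 * q : ℕ) * σ ^ 2 * k) ≤ Real.exp (32 * q * B * Real.log m) := by
      apply Real.exp_le_exp.2
      push_cast
      calc 4 * (2 * (q : ℝ)) * σ ^ 2 * k = 8 * q * σ ^ 2 * k := by ring
        _ ≤ 8 * q * σ ^ 2 * (2 * m) := mul_le_mul_of_nonneg_left hkR (by positivity)
        _ = 16 * q * (σ ^ 2 * m) := by ring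
        _ ≤ 16 * q * (2 * B * Real.log m) := mul_le_mul_of_nonneg_left hhi (by positivity)
        _ = 32 * q * B * Real.log m := by ring
    have h4 : (4 * ((k : ℝ) + 1) ^ 2 / σ * Real.exp (4 * (2 * q : ℕ) * σ ^ 2 * k)) ^ 2 ≤
        ((m : ℝ) ^ 4 * Real.exp (32 * q * B * Real.log m)) ^ 2 :=
      pow_le_pow_left₀ (by positivity) (mul_le_mul h2 h3 (by positivity) (by positivity)) 2
    refine h4.trans ?_
    have h5 : (m : ℝ) = Real.exp (Real.log m) := (Real.exp_log hm0).symm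
    have h6 : ((m : ℝ) ^ 4 * Real.exp (32 * q * B * Real.log m)) ^ 2 =
        Real.exp ((8 + 64 * q * B) * Real.log m) := by
      conv_lhs => rw [h5, ← Real.exp_nat_mul, Real.log_exp, ← Real.exp_add, ← Real.exp_nat_mul]
      congr 1
      push_cast
      ring
    have h7 : M₁ = Real.exp (c * Real.log m) := by
      rw [hM₁, Real.exp_nat_mul, Real.exp_log hm0]
    rw [h6, h7]
    apply Real.exp_le_exp.2
    exact mul_le_mul_of_nonneg_right hc (by linarith)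
  -- total
  have h8 : (m : ℝ) ^ q ≥ 2 ^ q := pow_le_pow_left₀ (by norm_num) (by linarith) q
  have h9 : (3 : ℝ) ≤ m ^ q := by
    calc (3 : ℝ) ≤ m := by linarith
      _ = m ^ 1 := (pow_one _).symm
      _ ≤ m ^ q := pow_le_pow_right₀ hm1 hq
  have h10 : (m : ℝ) ^ (3 * q) = m ^ q * (m ^ q * m ^ q) := by
    rw [← pow_add, ← pow_add]
    congr 1
    omega
  rw [h10]
  obtain ⟨u, hu⟩ : ∃ u : ℝ, u = (m : ℝ) ^ q := ⟨_, rfl⟩
  rw [← hu] at h8 h9 ⊢
  have h11 : 2 ^ q * (u + M₁ ^ (q - 1) * A k (fun x => |Z σ I' k x - Ex k l (Z σ I' k) x|)) ≤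
      u * (u + 1) := mul_le_mul h8 (by linarith) (by
        have : 0 ≤ A k (fun x => |Z σ I' k x - Ex k l (Z σ I' k) x|) :=
          A_nonneg fun _ => abs_nonneg _
        positivity) (by linarith)
  nlinarith

end Pool.Agent.UTL
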