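import Pool.Agent.UTL.Mix
import Pool.Agent.UTL.Crude
import Pool.Agent.UTL.Cut

set_option autoImplicit false

/-! The partition function of the barrier words is close in `L¹` to its conditional mean. -/

namespace Pool.Agent.UTL

open Finset Filter Topology
open Pool.Agent.Collatz3 (cw)
open Pool.Agent.Collatz3.Mix (words mem_words Vn Vn_nonneg)
open Pool.Agent.Collatz3.PD (rd en Per A S words_add words_length words_mono cat sum_cat)

theorem Et_sdiff (σ : ℝ) {G G' : Finset (List ℕ)} (h : G ⊆ G') (f : ℤ → ℝ) (x : ℤ) :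
    Et σ (G' \ G) f x = Et σ G' f x - Et σ G f x := by
  rw [Et_eq, Et_eq, Et_eq, eq_sub_iff_add_eq, sum_sdiff h]

theorem mass_sdiff (σ : ℝ) {G G' : Finset (List ℕ)} (h : G ⊆ G') :
    mass σ (G' \ G) = mass σ G' - mass σ G := by
  unfold mass
  rw [eq_sub_iff_add_eq, sum_sdiff h]

/-- the `L¹` distance of the sums over two sets of words -/
theorem A_abs_sdiff {σ : ℝ} (hσ : 0 ≤ σ) {k : ℕ} {G G' : Finset (List ℕ)} (h : G ⊆ G')
    (hG : ∀ w ∈ G', w.length = k) :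
    A k (fun x => |Et σ G' (fun _ => 1) x - Et σ G (fun _ => 1) x|) = mass σ (G' \ G) := by
  have h1 : (fun x => |Et σ G' (fun _ => 1) x - Et σ G (fun _ => 1) x|) =
      Et σ (G' \ G) (fun _ => 1) := by
    funext x
    rw [← Et_sdiff σ h, abs_of_nonneg (Et_nonneg hσ _ (fun _ => zero_le_one) x)]
  have h2 := thm_Avg σ (G' \ G) k 0 (fun _ => 1) (fun w hw => hG w (mem_sdiff.1 hw).1)
    (fun _ _ => rfl)
  rw [add_zero] at h2
  rw [h1, h2]
  simp [A, S]

/-- one long initial segment which violates the barrier -/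
theorem mass_bad_prefix {σ : ℝ} (h0 : 0 ≤ σ) (h1 : σ ≤ 1 / 100) (I k i : ℕ) (hi : i ≤ k) :
    mass σ ((words I k).filter fun w => 2 ^ (w.take i).sum ≤ 3 ^ i) ≤ (97 / 100) ^ i := by
  have h2 : (words I k).filter (fun w => 2 ^ (w.take i).sum ≤ 3 ^ i) ⊆
      cat ((words I i).filter fun w => 2 ^ w.sum ≤ 3 ^ i) (words I (k - i)) := by
    intro w hw
    rw [mem_filter] at hw
    have e : k = i + (k - i) := by omega
    have h3 := hw.1
    rw [e, words_add, cat, mem_image] at h3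
    obtain ⟨⟨u, v⟩, h4, rfl⟩ := h3
    rw [mem_product] at h4
    have h5 : u.length = i := words_length h4.1
    rw [cat, mem_image]
    refine ⟨(u, v), ?_, rfl⟩
    rw [mem_product, mem_filter]
    refine ⟨⟨h4.1, ?_⟩, h4.2⟩
    have h6 := hw.2
    simp only [← h5, List.take_left] at h6 ⊢
    exact h6
  refine (mass_mono h0 h2).trans ?_
  rw [mass_cat (N := i) (fun w hw => words_length (mem_filter.1 hw).1)]
  have h3 := thm_Tail σ h0 h1 I i
  have h4 := thm_Mass σ h0 I (k - i)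
  calc _ ≤ (97 / 100) ^ i * 1 := mul_le_mul h3 h4 (mass_nonneg h0 _) (by positivity)
    _ = _ := mul_one _

/-- the words whose barrier is only violated late -/
theorem mass_late {σ : ℝ} (h0 : 0 ≤ σ) (h1 : σ ≤ 1 / 100) (I k L : ℕ) (hL : L ≤ k) :
    mass σ (cat (BW I L) (words I (k - L)) \ BW I k) ≤ k * (97 / 100) ^ L := by
  have h2 : cat (BW I L) (words I (k - L)) \ BW I k ⊆
      (Ioc L k).biUnion fun i => (words I k).filter fun w => 2 ^ (w.take i).sum ≤ 3 ^ i := by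
    intro w hw
    obtain ⟨h3, h4⟩ := Finset.mem_sdiff.1 hw
    rw [cat, mem_image] at h3
    obtain ⟨⟨u, v⟩, h5, rfl⟩ := h3
    rw [mem_product, mem_BW] at h5
    obtain ⟨⟨h6, h7⟩, h8⟩ := h5
    simp only at h6 h7 h8 h4 ⊢
    have h9 : u ++ v ∈ words I k := by
      have e : k = L + (k - L) := by omega
      rw [e, words_add, cat, mem_image]
      exact ⟨(u, v), mem_product.2 ⟨h6, h8⟩, rfl⟩
    have h10 : ¬ Bar (u ++ v) := fun h => h4 (mem_BW.2 ⟨h9, h⟩)
    unfold Bar at h10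
    push Not at h10
    obtain ⟨p, r, hpr, hp0, hp1⟩ := h10
    have hul : u.length = L := words_length h6
    have hlen : (u ++ v).length = k := words_length h9
    have hpk : p.length ≤ k := by
      rw [← hlen, ← hpr, List.length_append]
      omega
    have hpL : L < p.length := by
      by_contra hcon
      have h11 : p.length ≤ u.length := by omega
      obtain ⟨s, hs⟩ := List.prefix_of_prefix_length_le (Exists.intro r hpr)
        (Exists.intro v rfl) h11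
      have h12 := h7 p s hs hp0
      omega
    rw [mem_biUnion]
    refine ⟨p.length, mem_Ioc.2 ⟨hpL, hpk⟩, ?_⟩
    rw [mem_filter]
    refine ⟨h9, ?_⟩
    rw [← hpr, List.take_left]
    exact hp1
  refine (mass_mono h0 h2).trans ?_
  have h3 : mass σ ((Ioc L k).biUnion fun i => (words I k).filter
      fun w => 2 ^ (w.take i).sum ≤ 3 ^ i) ≤
      ∑ i ∈ Ioc L k, mass σ ((words I k).filter fun w => 2 ^ (w.take i).sum ≤ 3 ^ i) := by
    unfold mass
    exact sum_biUnion_le' _ _ _ (fun w => wt_nonneg h0 w)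
  refine h3.trans ?_
  have h4 : ∀ i ∈ Ioc L k, mass σ ((words I k).filter fun w => 2 ^ (w.take i).sum ≤ 3 ^ i) ≤
      (97 / 100) ^ L := by
    intro i hi
    rw [mem_Ioc] at hi
    refine (mass_bad_prefix h0 h1 I k i hi.2).trans ?_
    exact pow_le_pow_of_le_one (by norm_num) (by norm_num) hi.1.le
  refine (sum_le_sum h4).trans ?_
  rw [sum_const, Nat.card_Ioc, nsmul_eq_mul]
  refine mul_le_mul_of_nonneg_right ?_ (by positivity)
  exact_mod_cast Nat.sub_le k L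

theorem Per_Ex {N l : ℕ} {f : ℤ → ℝ} (hf : Per N f) : Per N (Ex N l f) := by
  intro x t
  unfold Ex
  congr 1
  apply sum_congr rfl
  intro s _
  have h : x + 3 ^ N * t + 3 ^ l * ((s : ℕ) : ℤ) = (x + 3 ^ l * ((s : ℕ) : ℤ)) + 3 ^ N * t := by ring
  rw [h, hf]

theorem Et_sub (σ : ℝ) (G : Finset (List ℕ)) (f g : ℤ → ℝ) (x : ℤ) :
    Et σ G (fun y => f y - g y) x = Et σ G f x - Et σ G g x := by
  unfold Et
  rw [← sum_sub_distrib]
  exact sum_congr rfl fun w _ => mul_sub _ _ _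

theorem abs_Et_le {σ : ℝ} (hσ : 0 ≤ σ) (G : Finset (List ℕ)) (f : ℤ → ℝ) (x : ℤ) :
    |Et σ G f x| ≤ Et σ G (fun y => |f y|) x := by
  unfold Et
  refine (abs_sum_le_sum_abs _ _).trans (le_of_eq ?_)
  apply sum_congr rfl
  intro w _
  rw [abs_mul, abs_of_nonneg (mul_nonneg (by positivity) (wt_nonneg hσ w))]

/-- the mixing of the last letters -/
theorem block_mix {σ : ℝ} (h0 : 0 ≤ σ) {I k L : ℕ} (hI : 1 ≤ I) (hL : 2 * L ≤ k) :
    A k (fun x => |Et σ (cat (BW I L) (words I (k - L))) (fun _ => 1) x -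
      Ex k (2 * L) (Et σ (cat (BW I L) (words I (k - L))) (fun _ => 1)) x|) ≤
      2 * √(2 * ∑ i ∈ range (k - 2 * L), Vn (zz σ) I (L + i)) := by
  have hB : ∀ w ∈ BW I L, w.length = L := fun w h => BW_length h
  have hW : ∀ w ∈ words I (k - L), w.length = k - L := fun w h => words_length h
  obtain ⟨g, hg⟩ : ∃ g, g = Et σ (words I (k - L)) (fun _ => 1) := ⟨_, rfl⟩
  have hgP : Per (k - L) g := by rw [hg]; exact Per_one σ hW
  have h1 : Et σ (cat (BW I L) (words I (k - L))) (fun _ => 1) = Et σ (BW I L) g := by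
    funext y
    rw [hg]
    exact Et_cat hB _ y
  rw [h1]
  have h2 : ∀ x, |Et σ (BW I L) g x - Ex k (2 * L) (Et σ (BW I L) g) x| ≤
      Et σ (BW I L) (fun y => |g y - Ex (k - L) L g y|) x := by
    intro x
    have h3 := thm_Cond σ (BW I L) L (2 * L) k g hB (by omega) hL hgP x
    have h4 : 2 * L - L = L := by omega
    rw [h3, h4, ← Et_sub]
    exact abs_Et_le h0 _ _ x
  refine (A_mono h2).trans ?_
  have hP : Per (k - L) (fun y => |g y - Ex (k - L) L g y|) := by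
    intro x t
    simp only
    rw [hgP, Per_Ex hgP]
  have h5 := thm_Avg σ (BW I L) L (k - L) _ hB hP
  have h6 : L + (k - L) = k := by omega
  rw [h6] at h5
  rw [h5]
  have h7 : mass σ (BW I L) ≤ 1 :=
    (mass_mono h0 (BW_subset I L)).trans (thm_Mass σ h0 I L)
  have h8 := thm_Mix σ h0 I L (k - 2 * L) hI
  have h9 : L + (k - 2 * L) = k - L := by omega
  rw [h9, ← hg] at h8
  have h10 : 0 ≤ A (k - L) (fun y => |g y - Ex (k - L) L g y|) := A_nonneg fun _ => abs_nonneg _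
  calc _ ≤ 1 * A (k - L) (fun y => |g y - Ex (k - L) L g y|) := mul_le_mul_of_nonneg_right h7 h10
    _ ≤ _ := by rw [one_mul]; exact h8

theorem core {σ : ℝ} (h0 : 0 ≤ σ) (h1 : σ ≤ 1 / 100) {I I' k L : ℕ} (hI : 1 ≤ I') (hII : I' ≤ I)
    (hL : 2 * L ≤ k) :
    A k (fun x => |Z σ I k x - Ex k (2 * L) (Z σ I k) x|) ≤
      2 * √(2 * ∑ i ∈ range (k - 2 * L), Vn (zz σ) I' (L + i)) +
      2 * (k / 2 ^ I' + k * (97 / 100) ^ L) := by
  classical
  have hLk : L ≤ k := by omega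
  obtain ⟨D, hD⟩ : ∃ D, D = Et σ (cat (BW I' L) (words I' (k - L))) (fun _ => 1) := ⟨_, rfl⟩
  have hcat : ∀ w ∈ cat (BW I' L) (words I' (k - L)), w.length = k := by
    intro w hw
    rw [cat, mem_image] at hw
    obtain ⟨⟨u, v⟩, h4, rfl⟩ := hw
    rw [mem_product] at h4
    simp only at h4 ⊢
    rw [List.length_append, BW_length h4.1, words_length h4.2]
    omega
  have hDP : Per k D := by rw [hD]; exact Per_one σ hcat
  have hZP : Per k (Z σ I k) := Per_one σ fun w h => BW_length h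
  have hsub : BW I' k ⊆ BW I k := by
    intro w hw
    rw [mem_BW] at hw ⊢
    exact ⟨words_mono hII k hw.1, hw.2⟩
  have e1 : A k (fun x => |Z σ I k x - Z σ I' k x|) ≤ k / 2 ^ I' := by
    have h2 := A_abs_sdiff h0 hsub (fun w h => BW_length h)
    have h3 : mass σ (BW I k \ BW I' k) ≤ k / 2 ^ I' := by
      refine le_trans (mass_mono h0 ?_) (thm_Big σ h0 I I' k)
      intro w hw
      obtain ⟨h4, h5⟩ := Finset.mem_sdiff.1 hw
      rw [mem_BW] at h4
      rw [mem_filter]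
      refine ⟨h4.1, ?_⟩
      by_contra hcon
      push Not at hcon
      apply h5
      rw [mem_BW]
      refine ⟨?_, h4.2⟩
      have h6 := mem_words.1 h4.1
      exact mem_words.2 ⟨h6.1, fun i hi => ⟨(h6.2 i hi).1, hcon i hi⟩⟩
    unfold Z
    rw [h2]
    exact h3
  have e2 : A k (fun x => |D x - Z σ I' k x|) ≤ k * (97 / 100) ^ L := by
    have h2 := A_abs_sdiff h0 (BW_subset_cat (I := I') hLk) hcat
    unfold Z
    rw [hD, h2]
    exact mass_late h0 h1 I' k L hLk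
  have e3 : A k (fun x => |Z σ I k x - D x|) ≤ k / 2 ^ I' + k * (97 / 100) ^ L := by
    refine le_trans (A_mono (g := fun x => |Z σ I k x - Z σ I' k x| + |D x - Z σ I' k x|) ?_) ?_
    · intro x
      rw [abs_sub_comm (D x)]
      exact abs_sub_le _ _ _
    · rw [A_add]
      exact add_le_add e1 e2
  have hPd : Per k (fun y => Z σ I k y - D y) := by
    intro x t
    simp only
    rw [hZP, hDP]
  have e4 : A k (fun x => |Ex k (2 * L) (fun y => Z σ I k y - D y) x|) ≤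
      k / 2 ^ I' + k * (97 / 100) ^ L := (thm_Ctr.1 k (2 * L) _ hL hPd).trans e3
  have e5 := block_mix h0 hI hL (σ := σ)
  rw [← hD] at e5
  have h2 : ∀ x, |Z σ I k x - Ex k (2 * L) (Z σ I k) x| ≤
      |D x - Ex k (2 * L) D x| + (|Z σ I k x - D x| +
        |Ex k (2 * L) (fun y => Z σ I k y - D y) x|) := by
    intro x
    rw [Ex_sub k (2 * L) (Z σ I k) D x]
    have h3 : Z σ I k x - Ex k (2 * L) (Z σ I k) x = (D x - Ex k (2 * L) D x) +
        ((Z σ I k x - D x) - (Ex k (2 * L) (Z σ I k) x - Ex k (2 * L) D x)) := by ring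
    rw [h3]
    refine (abs_add_le _ _).trans ?_
    gcongr
    exact abs_sub _ _
  refine (A_mono h2).trans ?_
  rw [A_add, A_add]
  linarith

theorem exists_cube (m : ℕ) (hm : 1 ≤ m) : ∃ L : ℕ, m ≤ L ^ 3 ∧ L ^ 3 ≤ 8 * m := by
  have hex : ∃ L : ℕ, m ≤ L ^ 3 := ⟨m, Nat.le_self_pow (by norm_num) m⟩
  classical
  refine ⟨Nat.find hex, Nat.find_spec hex, ?_⟩
  obtain ⟨L, hL⟩ : ∃ L, L = Nat.find hex := ⟨_, rfl⟩
  rw [← hL]
  rcases Nat.lt_or_ge L 2 with h | h
  · have h1 : L ^ 3 ≤ 1 := by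
      interval_cases L <;> norm_num
    omega
  · have h1 : ¬ m ≤ (L - 1) ^ 3 := Nat.find_min hex (by omega)
    have h2 : L ≤ 2 * (L - 1) := by omega
    have h3 := Nat.pow_le_pow_left h2 3
    rw [Nat.mul_pow] at h3
    omega

theorem thm_L1 (hV : St_Vdec) : St_L1 := by
  intro a
  obtain ⟨σ₁, hσ₁, C, I₀, hC, hI₀, hV⟩ := hV (2 * (6 * a + 50))
  refine ⟨min σ₁ (1 / 100), lt_min hσ₁ (by norm_num), ?_⟩
  obtain ⟨c, hc⟩ : ∃ c : ℕ, c = C * (a + 4 + I₀) := ⟨_, rfl⟩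
  -- thresholds
  have ht1 : ∀ᶠ n : ℕ in atTop, ((c * (n + 1)) ^ 6 : ℕ) ≤ 2 ^ n := by
    have h1 : Tendsto (fun n : ℕ => (n : ℝ) ^ 6 / 2 ^ n) atTop (𝓝 0) :=
      tendsto_pow_const_div_const_pow_of_one_lt 6 (by norm_num)
    have h2 : ∀ᶠ n : ℕ in atTop, (n : ℝ) ^ 6 / 2 ^ n < 1 / (2 * (c : ℝ) + 1) ^ 6 :=
      h1.eventually_lt_const (by positivity)
    filter_upwards [h2, eventually_ge_atTop 1] with n hn hn1
    have h3 : (0 : ℝ) < (2 * (c : ℝ) + 1) ^ 6 := by positivity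
    rw [div_lt_div_iff₀ (by positivity) h3, one_mul, ← mul_pow] at hn
    have h4 : ((c * (n + 1) : ℕ) : ℝ) ≤ (n : ℝ) * (2 * (c : ℝ) + 1) := by
      push_cast
      have h5 : (1 : ℝ) ≤ n := by exact_mod_cast hn1
      have h6 : (0 : ℝ) ≤ c := Nat.cast_nonneg c
      nlinarith [mul_nonneg h6 (show (0 : ℝ) ≤ n - 1 by linarith)]
    have h5 : (((c * (n + 1)) ^ 6 : ℕ) : ℝ) ≤ ((2 ^ n : ℕ) : ℝ) := by
      push_cast at h4 ⊢
      exact (pow_le_pow_left₀ (by positivity) h4 6).trans hn.le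
    exact_mod_cast h5
  obtain ⟨n₀, hn₀⟩ := ht1.exists_forall_of_atTop
  have ht2 : ∀ᶠ L : ℕ in atTop, 16 * (L : ℝ) ^ (3 * (a + 1)) * (97 / 100) ^ L ≤ 1 := by
    have h1 : Tendsto (fun L : ℕ => (L : ℝ) ^ (3 * (a + 1)) * (97 / 100 : ℝ) ^ L) atTop (𝓝 0) :=
      tendsto_pow_const_mul_const_pow_of_lt_one _ (by norm_num) (by norm_num)
    filter_upwards [h1.eventually_lt_const (show (0 : ℝ) < 1 / 16 by norm_num)] with L hL
    have : 16 * (L : ℝ) ^ (3 * (a + 1)) * (97 / 100) ^ L =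
      16 * ((L : ℝ) ^ (3 * (a + 1)) * (97 / 100) ^ L) := by ring
    rw [this]
    linarith
  obtain ⟨L₀, hL₀⟩ := ht2.exists_forall_of_atTop
  refine ⟨max (2 ^ n₀) (max ((L₀ + 2) ^ 3 + 1) 8), ?_⟩
  intro σ h0 hσ m hm I k hmI hmk hk
  have hm1 : 2 ^ n₀ ≤ m := (le_max_left _ _).trans hm
  have hm2 : (L₀ + 2) ^ 3 + 1 ≤ m := (le_max_left _ _).trans ((le_max_right _ _).trans hm)
  have hm3 : 8 ≤ m := (le_max_right _ _).trans ((le_max_right _ _).trans hm)
  have hσ1 : σ ≤ σ₁ := hσ.trans (min_le_left _ _)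
  have hσ2 : σ ≤ 1 / 100 := hσ.trans (min_le_right _ _)
  obtain ⟨L, hL1, hL2⟩ := exists_cube m (by omega)
  have hLL : L₀ + 2 < L := by
    by_contra hcon
    have := Nat.pow_le_pow_left (not_lt.1 hcon) 3
    omega
  obtain ⟨n, hn⟩ : ∃ n, n = Nat.log 2 m := ⟨_, rfl⟩
  have hn1 : 2 ^ n ≤ m := by rw [hn]; exact Nat.pow_log_le_self 2 (by omega)
  have hn2 : m < 2 ^ (n + 1) := by rw [hn]; exact Nat.lt_pow_succ_log_self (by norm_num) m
  have hn3 : n₀ ≤ n := by
    by_contra hcon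
    have h1 : n + 1 ≤ n₀ := by omega
    have h2 := Nat.pow_le_pow_right (show 0 < 2 by norm_num) h1
    omega
  obtain ⟨I', hI'⟩ : ∃ I', I' = (a + 4 + I₀) * (n + 1) := ⟨_, rfl⟩
  have hCI : C * I' = c * (n + 1) := by rw [hI', hc]; ring
  have hCI6 : (C * I') ^ 6 ≤ m := by
    rw [hCI]
    exact (hn₀ n hn3).trans hn1
  have hI1 : 1 ≤ I' := by
    rw [hI']
    exact Nat.mul_pos (by omega) (by omega)
  have hI0 : I₀ ≤ I' := by
    rw [hI']
    calc I₀ ≤ a + 4 + I₀ := by omega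
      _ = (a + 4 + I₀) * 1 := by ring
      _ ≤ (a + 4 + I₀) * (n + 1) := Nat.mul_le_mul_left _ (by omega)
  have hCI1 : I' ≤ C * I' := Nat.le_mul_of_pos_left I' (by omega)
  have hII : I' ≤ I := by
    calc I' ≤ C * I' := hCI1
      _ ≤ (C * I') ^ 6 := Nat.le_self_pow (by norm_num) _
      _ ≤ m := hCI6
      _ ≤ I := hmI
  have hCIL : (C * I') ^ 2 ≤ L := by
    have h1 : ((C * I') ^ 2) ^ 3 ≤ L ^ 3 := by
      rw [← pow_mul]
      exact hCI6.trans hL1
    exact (Nat.pow_le_pow_iff_left (by norm_num)).1 h1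
  have h2L : 2 * L ≤ m := by
    have h1 : (2 * L) ^ 3 ≤ m ^ 3 := by
      rw [Nat.mul_pow]
      calc 2 ^ 3 * L ^ 3 ≤ 2 ^ 3 * (8 * m) := Nat.mul_le_mul_left _ hL2
        _ = 8 * 8 * m := by ring
        _ ≤ m * m * m := Nat.mul_le_mul_right _ (Nat.mul_le_mul hm3 hm3)
        _ = m ^ 3 := by ring
    exact (Nat.pow_le_pow_iff_left (by norm_num)).1 h1
  refine ⟨2 * L, h2L.trans hmk, ?_, ?_⟩
  · rw [Nat.mul_pow]
    omega
  refine (core h0 hσ2 hI1 hII (h2L.trans hmk)).trans ?_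
  have hmr : (8 : ℝ) ≤ m := by exact_mod_cast hm3
  have hm0 : (0 : ℝ) < m := by linarith
  have hLr : (2 : ℝ) ≤ L := by exact_mod_cast (show 2 ≤ L by omega)
  have hL0 : (0 : ℝ) < L := by linarith
  have hkr : (k : ℝ) ≤ 2 * m := by exact_mod_cast hk
  have hmL : (m : ℝ) ≤ (L : ℝ) ^ 3 := by exact_mod_cast hL1
  -- the sum of the diagonal terms
  have hr : ((C * I' : ℝ) / L) ^ 2 ≤ 1 / L := by
    rw [div_pow, div_le_div_iff₀ (by positivity) hL0, one_mul, pow_two (L : ℝ)]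
    have h1 : ((C * I' : ℝ)) ^ 2 ≤ L := by exact_mod_cast hCIL
    exact mul_le_mul_of_nonneg_right h1 hL0.le
  have hVn : ∀ i ∈ range (k - 2 * L), Vn (zz σ) I' (L + i) ≤ (1 / (L : ℝ)) ^ (6 * a + 50) := by
    intro i _
    refine (hV σ h0 hσ1 I' (L + i) hI0 (by omega)).trans ?_
    rw [pow_mul]
    refine pow_le_pow_left₀ (by positivity) ?_ _
    refine le_trans ?_ hr
    refine pow_le_pow_left₀ (by positivity) ?_ 2
    refine div_le_div_of_nonneg_left (by positivity) hL0 ?_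
    push_cast
    linarith [Nat.cast_nonneg (α := ℝ) i]
  have hsum : ∑ i ∈ range (k - 2 * L), Vn (zz σ) I' (L + i) ≤
      2 * m * (1 / (L : ℝ)) ^ (6 * a + 50) := by
    refine (sum_le_sum hVn).trans ?_
    rw [sum_const, card_range, nsmul_eq_mul]
    refine mul_le_mul_of_nonneg_right ?_ (by positivity)
    refine le_trans ?_ hkr
    exact_mod_cast Nat.sub_le _ _
  have hX : 2 * ∑ i ∈ range (k - 2 * L), Vn (zz σ) I' (L + i) ≤ (1 / (4 * (m : ℝ) ^ a)) ^ 2 := by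
    refine (mul_le_mul_of_nonneg_left hsum (by norm_num)).trans ?_
    rw [div_pow, div_pow, one_pow, one_pow, mul_one_div, ← mul_div_assoc, div_le_div_iff₀ (by positivity)
      (by positivity), one_mul]
    have h1 : (m : ℝ) ^ (2 * a + 1) ≤ (L : ℝ) ^ (6 * a + 3) := by
      have := pow_le_pow_left₀ hm0.le hmL (2 * a + 1)
      rw [← pow_mul] at this
      have e : 3 * (2 * a + 1) = 6 * a + 3 := by ring
      rwa [e] at this
    have h2 : (64 : ℝ) ≤ (L : ℝ) ^ 47 := by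
      have h3 : (2 : ℝ) ^ 47 ≤ (L : ℝ) ^ 47 := pow_le_pow_left₀ (by norm_num) hLr 47
      have h4 : (64 : ℝ) ≤ 2 ^ 47 := by norm_num
      linarith
    have h3 : (L : ℝ) ^ (6 * a + 50) = (L : ℝ) ^ 47 * (L : ℝ) ^ (6 * a + 3) := by
      rw [← pow_add]
      congr 1
      omega
    have h4 : 2 * (2 * (m : ℝ)) * (4 * (m : ℝ) ^ a) ^ 2 = 64 * (m : ℝ) ^ (2 * a + 1) := by
      have h5 : (m : ℝ) ^ (2 * a + 1) = ((m : ℝ) ^ a) ^ 2 * m := by
        rw [pow_succ, ← pow_mul, mul_comm a 2]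
      rw [h5]
      ring
    rw [h4, h3]
    exact mul_le_mul h2 h1 (by positivity) (by positivity)
  have hsq : √(2 * ∑ i ∈ range (k - 2 * L), Vn (zz σ) I' (L + i)) ≤ 1 / (4 * (m : ℝ) ^ a) :=
    Real.sqrt_le_iff.2 ⟨by positivity, hX⟩
  -- the letters
  have hlet : 2 * ((k : ℝ) / 2 ^ I') ≤ 1 / (4 * (m : ℝ) ^ a) := by
    have h1 : (m : ℝ) ^ (a + 4) ≤ 2 ^ I' := by
      have h2 : m ^ (a + 4) ≤ 2 ^ I' := by
        calc m ^ (a + 4) ≤ (2 ^ (n + 1)) ^ (a + 4) := Nat.pow_le_pow_left hn2.le _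
          _ = 2 ^ ((a + 4) * (n + 1)) := by rw [← pow_mul]; congr 1; ring
          _ ≤ 2 ^ I' := by
            apply Nat.pow_le_pow_right (by norm_num)
            rw [hI']
            exact Nat.mul_le_mul_right _ (by omega)
      exact_mod_cast h2
    have h2 : (k : ℝ) / 2 ^ I' ≤ 2 * m / (m : ℝ) ^ (a + 4) := by
      refine div_le_div₀ (by positivity) hkr (by positivity) h1
    have h3 : 2 * (2 * (m : ℝ) / (m : ℝ) ^ (a + 4)) ≤ 1 / (4 * (m : ℝ) ^ a) := by
      rw [← mul_div_assoc, div_le_div_iff₀ (by positivity) (by positivity), one_mul]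
      have h4 : (m : ℝ) ^ (a + 4) = (m : ℝ) ^ a * (m * (m * m * m)) := by
        rw [pow_add]
        ring
      rw [h4]
      have h5 : (16 : ℝ) ≤ m * m * m := by nlinarith [mul_le_mul hmr hmr (by norm_num) hm0.le]
      have h6 : 0 ≤ (m : ℝ) ^ a * m := by positivity
      nlinarith [mul_le_mul_of_nonneg_left h5 h6]
    linarith
  have hlate : 2 * ((k : ℝ) * (97 / 100) ^ L) ≤ 1 / (4 * (m : ℝ) ^ a) := by
    rw [le_div_iff₀ (by positivity)]
    have h1 : (m : ℝ) ^ (a + 1) ≤ (L : ℝ) ^ (3 * (a + 1)) := by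
      have := pow_le_pow_left₀ hm0.le hmL (a + 1)
      rwa [← pow_mul] at this
    have h2 := hL₀ L (by omega)
    have h3 : 2 * ((k : ℝ) * (97 / 100) ^ L) * (4 * (m : ℝ) ^ a) ≤
        2 * ((2 * m) * (97 / 100) ^ L) * (4 * (m : ℝ) ^ a) := by
      gcongr
    refine h3.trans ?_
    have h4 : 2 * ((2 * (m : ℝ)) * (97 / 100) ^ L) * (4 * (m : ℝ) ^ a) =
        16 * (m : ℝ) ^ (a + 1) * (97 / 100) ^ L := by
      rw [pow_succ]
      ring
    rw [h4]
    refine le_trans ?_ h2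
    gcongr
  have hfin : 1 / (4 * (m : ℝ) ^ a) = 1 / (m : ℝ) ^ a / 4 := by
    field_simp
  rw [hfin] at hsq hlet hlate
  linarith

end Pool.Agent.UTL
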