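import Pool.Agent.UTL.Defs
import Pool.Agent.Collatz3.GAll

set_option autoImplicit false

/-! The lower bound: many slow integers above all levels. -/

namespace Pool.Agent.UTL

open Finset Filter
open Pool.Agent.Collatz3 (Up cw size Ok paths cnt UniformGrowth T3 growth_of_rho all_tilts
  paths_finite word_inj)
open Pool.Agent.Helper27 (T)

theorem T3_eq : T3 = T := rfl

/-- the roots -/
theorem roots {A M : ℝ} {J₀ : ℕ} (hM : 1 ≤ M) (hA : 16 ≤ A) (h : 16 * M * (J₀ + 1) ≤ A) :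
    ∃ R : Finset ℕ, (∀ a ∈ R, A < (a : ℝ) ∧ (a : ℝ) ≤ 2 * A ∧ ¬ 3 ∣ a ∧
      ∀ j ≤ J₀, ∀ y : ℕ, (y : ℝ) ≤ M → T^[j] y ≠ a) ∧ A / 8 ≤ (R.card : ℝ) := by
  classical
  obtain ⟨I, hI⟩ : ∃ I : Finset ℕ, I = (Ico (⌊A / 3⌋₊ + 1) (⌊(2 * A - 1) / 3⌋₊ + 1)).image
    fun m => 3 * m + 1 := ⟨_, rfl⟩
  obtain ⟨O, hO⟩ : ∃ O : Finset ℕ, O = (range (J₀ + 1) ×ˢ range (⌊M⌋₊ + 1)).image
    fun p => T^[p.1] p.2 := ⟨_, rfl⟩
  refine ⟨I \ O, ?_, ?_⟩
  · intro a ha
    rw [Finset.mem_sdiff, hI, mem_image] at ha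
    obtain ⟨⟨m, hm, rfl⟩, ha2⟩ := ha
    rw [mem_Ico, Nat.succ_le_iff, Nat.floor_lt (by positivity), Nat.lt_succ_iff,
      Nat.le_floor_iff (by linarith)] at hm
    obtain ⟨m1, m2⟩ := hm
    refine ⟨by push_cast; linarith, by push_cast; linarith, by omega, ?_⟩
    intro j hj y hy hT
    apply ha2
    rw [hO, mem_image]
    refine ⟨(j, y), ?_, hT⟩
    rw [mem_product, mem_range, mem_range]
    exact ⟨by omega, Nat.lt_succ_of_le (Nat.le_floor hy)⟩
  · have h1 : I.card = ⌊(2 * A - 1) / 3⌋₊ - ⌊A / 3⌋₊ := by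
      rw [hI, card_image_of_injective _ (fun a b hab => by
        have h0 : 3 * a + 1 = 3 * b + 1 := hab
        omega), Nat.card_Ico]
      omega
    have h2 : (⌊A / 3⌋₊ : ℝ) ≤ A / 3 := Nat.floor_le (by positivity)
    have h3 : (2 * A - 1) / 3 < ⌊(2 * A - 1) / 3⌋₊ + 1 := Nat.lt_floor_add_one _
    have h4 : A / 4 ≤ (I.card : ℝ) := by
      have h5 : (⌊(2 * A - 1) / 3⌋₊ : ℝ) ≤ (I.card : ℝ) + ⌊A / 3⌋₊ := by
        have : ⌊(2 * A - 1) / 3⌋₊ ≤ I.card + ⌊A / 3⌋₊ := by omega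
        exact_mod_cast this
      linarith
    have h6 : (O.card : ℝ) ≤ A / 8 := by
      have h7 : O.card ≤ (J₀ + 1) * (⌊M⌋₊ + 1) := by
        rw [hO]
        refine card_image_le.trans ?_
        rw [card_product, card_range, card_range]
      have h8 : (O.card : ℝ) ≤ (J₀ + 1) * (⌊M⌋₊ + 1) := by exact_mod_cast h7
      have h9 : (⌊M⌋₊ : ℝ) ≤ M := Nat.floor_le (by linarith)
      have h10 : (0 : ℝ) ≤ (J₀ : ℝ) + 1 := by positivity
      calc (O.card : ℝ) ≤ (J₀ + 1) * (⌊M⌋₊ + 1) := h8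
        _ ≤ (J₀ + 1) * (2 * M) := mul_le_mul_of_nonneg_left (by linarith) h10
        _ ≤ A / 8 := by linarith
    have h11 : I.card ≤ (I \ O).card + O.card := by
      have := card_sdiff_add_card I O
      have h12 := card_le_card (subset_union_left : I ⊆ I ∪ O)
      omega
    have h13 : (I.card : ℝ) ≤ (I \ O).card + O.card := by exact_mod_cast h11
    linarith

/-- the nodes above the roots -/
theorem nodesR {A B N : ℝ} {J₀ n : ℕ} {R : Finset ℕ} (hA : 0 < A)
    (hR : ∀ a ∈ R, A < (a : ℝ) ∧ (a : ℝ) ≤ 2 * A) (hB : B ≤ 2 ^ J₀)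
    (hN : ∀ a ∈ R, N ≤ (cnt (a : ℤ) n B : ℝ)) :
    ∃ F : Finset ℕ, (R.card : ℝ) * N ≤ (J₀ + 1) * (F.card : ℝ) ∧ ∀ b ∈ F, 1 ≤ b ∧
      (b : ℝ) * 3 ^ n ≤ 2 * A * B ∧ ∃ S : ℕ, S ≤ J₀ ∧ T^[S] b ∈ R ∧
        (b : ℝ) * 3 ^ n ≤ 2 * A * 2 ^ S := by
  classical
  have hfin := fun a : ℤ => paths_finite a n B
  obtain ⟨P, hP⟩ : ∃ P : Finset (Σ _ : ℕ, List ℕ), P = R.sigma
    fun a => (hfin (a : ℤ)).toFinset := ⟨_, rfl⟩
  let f : (Σ _ : ℕ, List ℕ) → ℕ := fun p =>
    if h : Ok (p.1 : ℤ) p.2 then (Classical.choose h).toNat else 0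
  have hf : ∀ p ∈ P, p.1 ∈ R ∧ p.2.length = n ∧ (∀ i ∈ p.2, 1 ≤ i) ∧ (size p.2 : ℝ) ≤ B ∧
      0 < p.1 ∧ 1 ≤ f p ∧ Up (p.1 : ℤ) p.2 (f p : ℤ) := by
    rintro ⟨a, w⟩ hp
    rw [hP, mem_sigma, Set.Finite.mem_toFinset] at hp
    obtain ⟨h1, h2, h3, h4, h5⟩ := hp
    simp only at h1 h2 h3 h4 h5 ⊢
    have ha0 : 0 < a := by
      have := (hR a h1).1
      have : (0 : ℝ) < a := by linarith
      exact_mod_cast this
    have hu := (Classical.choose_spec h5).1
    have hpos := hu.pos (by exact_mod_cast ha0) h3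
    have e : f ⟨a, w⟩ = (Classical.choose h5).toNat := by
      simp only [f, dif_pos h5]
    refine ⟨h1, h2, h3, h4, ha0, by rw [e]; omega, ?_⟩
    rw [e, Int.toNat_of_nonneg hpos.le]
    exact hu
  have hsum : ∀ p ∈ P, p.2.sum ≤ J₀ := by
    intro p hp
    obtain ⟨_, _, _, h4, _⟩ := hf p hp
    have h5 : (2 : ℝ) ^ p.2.sum ≤ 2 ^ J₀ := by
      refine le_trans ?_ (h4.trans hB)
      unfold size
      push_cast
      have : (0 : ℝ) ≤ cw p.2 := Nat.cast_nonneg _
      linarith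
    exact (pow_le_pow_iff_right₀ (by norm_num)).1 h5
  have hit : ∀ p ∈ P, T^[p.2.sum] (f p) = p.1 := by
    intro p hp
    obtain ⟨_, _, h3, _, h5, _, h7⟩ := hf p hp
    have := h7.iter (by exact_mod_cast h5) h3
    rw [T3_eq] at this
    simpa using this
  refine ⟨P.image f, ?_, ?_⟩
  · have h1 : P.card ≤ (J₀ + 1) * (P.image f).card := by
      apply card_le_mul_card_image
      intro b _
      have h2 : (P.filter fun p => f p = b).card ≤ (range (J₀ + 1)).card := by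
        apply card_le_card_of_injOn (fun p => p.2.sum)
        · intro p hp
          rw [mem_coe, mem_filter] at hp
          rw [mem_coe, mem_range]
          have := hsum p hp.1
          change p.2.sum < J₀ + 1
          omega
        · intro p hp p' hp' hs
          rw [mem_coe, mem_filter] at hp hp'
          simp only at hs
          obtain ⟨h3, h4, h5, h6, h7, h8, h9⟩ := hf p hp.1
          obtain ⟨h3', h4', h5', h6', h7', h8', h9'⟩ := hf p' hp'.1
          have e1 := hit p hp.1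
          have e2 := hit p' hp'.1
          rw [hp.2] at e1 h9
          rw [hp'.2] at e2 h9'
          have ea : p.1 = p'.1 := by rw [← e1, ← e2, hs]
          have r1 := h9.rel
          have r2 := h9'.rel
          have ec : cw p.2 = cw p'.2 := by
            rw [ea, hs, h4] at r1
            rw [h4'] at r2
            have : (cw p.2 : ℤ) = cw p'.2 := by linarith
            exact_mod_cast this
          have ew := word_inj p.2 p'.2 h5 h5' (by rw [h4, h4']) hs ec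
          obtain ⟨a, w⟩ := p
          obtain ⟨a', w'⟩ := p'
          simp only at ea ew
          subst ea ew
          rfl
      rwa [card_range] at h2
    have h2 : (R.card : ℝ) * N ≤ P.card := by
      rw [hP, card_sigma]
      push_cast
      rw [← nsmul_eq_mul]
      apply card_nsmul_le_sum
      intro a ha
      have h3 := hN a ha
      unfold cnt at h3
      rwa [Set.ncard_eq_toFinset_card _ (hfin (a : ℤ))] at h3
    have h3 : (P.card : ℝ) ≤ (J₀ + 1) * ((P.image f).card : ℝ) := by exact_mod_cast h1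
    exact h2.trans h3
  · intro b hb
    rw [mem_image] at hb
    obtain ⟨p, hp, rfl⟩ := hb
    obtain ⟨h3, h4, h5, h6, h7, h8, h9⟩ := hf p hp
    have r1 := h9.rel
    rw [h4] at r1
    have r1R : (2 : ℝ) ^ p.2.sum * (p.1 : ℝ) = 3 ^ n * (f p : ℝ) + (cw p.2 : ℝ) := by
      exact_mod_cast r1
    have hc0 : (0 : ℝ) ≤ cw p.2 := Nat.cast_nonneg _
    have hsz : (2 : ℝ) ^ p.2.sum + cw p.2 ≤ B := by
      have := h6
      unfold size at this
      push_cast at this
      exact this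
    have ha2 := (hR p.1 h3).2
    have h10 : (f p : ℝ) * 3 ^ n ≤ 2 * A * 2 ^ p.2.sum := by
      calc (f p : ℝ) * 3 ^ n ≤ 2 ^ p.2.sum * (p.1 : ℝ) := by linarith
        _ ≤ 2 ^ p.2.sum * (2 * A) := mul_le_mul_of_nonneg_left ha2 (by positivity)
        _ = _ := by ring
    refine ⟨h8, ?_, p.2.sum, hsum p hp, by rw [hit p hp]; exact h3, h10⟩
    refine h10.trans ?_
    apply mul_le_mul_of_nonneg_left _ (by positivity)
    linarith

theorem ev_lin (a b : ℝ) {c : ℝ} (hc : 0 < c) :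
    ∀ᶠ u : ℝ in atTop, a * Real.log u + b ≤ c * u := by
  have h1 := (Real.isLittleO_log_id_atTop).bound (show 0 < c / (2 * (|a| + 1)) by positivity)
  filter_upwards [h1, eventually_ge_atTop (max 1 (2 * |b| / c))] with u h2 h3
  have hu1 : 1 ≤ u := (le_max_left _ _).trans h3
  have hu2 : 2 * |b| / c ≤ u := (le_max_right _ _).trans h3
  rw [Real.norm_eq_abs, Real.norm_eq_abs, id, abs_of_nonneg (by linarith : (0 : ℝ) ≤ u)] at h2
  have h4 : a * Real.log u ≤ c / 2 * u := by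
    calc a * Real.log u ≤ |a * Real.log u| := le_abs_self _
      _ = |a| * |Real.log u| := abs_mul _ _
      _ ≤ (|a| + 1) * (c / (2 * (|a| + 1)) * u) :=
          mul_le_mul (by linarith) h2 (abs_nonneg _) (by positivity)
      _ = c / 2 * u := by field_simp
  have h5 : b ≤ c / 2 * u := by
    rw [div_le_iff₀ hc] at hu2
    have := le_abs_self b
    linarith
  linarith

end Pool.Agent.UTL
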