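import Pool.Agent.UTL.Alg
import Pool.Agent.Collatz3.PDProb

set_option autoImplicit false

/-! Moment generating functions of the weights and tails. -/

namespace Pool.Agent.UTL

open Finset
open Pool.Agent.Collatz3.Mix (words mem_words sum_words_zero sum_words_succ sum_words_add)
open Pool.Agent.Collatz3.PD (sum_pow_words geom_le)

theorem zz_pos (σ : ℝ) : 0 < zz σ := by unfold zz; positivity

theorem zz_le {σ : ℝ} (hσ : 0 ≤ σ) : zz σ ≤ 1 / 2 := by
  unfold zz
  have : Real.exp (-σ) ≤ 1 := Real.exp_le_one_iff.2 (by linarith)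
  linarith

theorem two_exp_zz (σ : ℝ) : 2 * Real.exp σ * zz σ = 1 := by
  unfold zz
  have : Real.exp σ * Real.exp (-σ) = 1 := by rw [← Real.exp_add]; simp
  linarith

theorem wt_nonneg {σ : ℝ} (hσ : 0 ≤ σ) (w : List ℕ) : 0 ≤ wt σ w := by
  have h1 := two_exp_sub_one_pos hσ
  have h2 := zz_pos σ
  have h3 : 0 ≤ 2 * Real.exp σ - 1 := by linarith
  unfold wt
  positivity

theorem wt_append (σ : ℝ) (v w : List ℕ) : wt σ (v ++ w) = wt σ v * wt σ w := by
  unfold wt
  rw [List.length_append, List.sum_append, pow_add, pow_add]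
  ring

theorem wt_nil (σ : ℝ) : wt σ [] = 1 := by simp [wt]

theorem wt_cons (σ : ℝ) (i : ℕ) (w : List ℕ) :
    wt σ (i :: w) = (2 * Real.exp σ - 1) * zz σ ^ i * wt σ w := by
  unfold wt
  rw [List.length_cons, List.sum_cons, pow_succ, pow_add]
  ring

theorem mass_nonneg {σ : ℝ} (hσ : 0 ≤ σ) (G : Finset (List ℕ)) : 0 ≤ mass σ G :=
  sum_nonneg fun w _ => wt_nonneg hσ w

theorem mass_mono {σ : ℝ} (hσ : 0 ≤ σ) {G G' : Finset (List ℕ)} (h : G ⊆ G') :
    mass σ G ≤ mass σ G' :=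
  sum_le_sum_of_subset_of_nonneg h fun w _ _ => wt_nonneg hσ w

theorem thm_Mgf : St_Mgf := by
  intro σ a hσ ha I k
  have hA : 0 ≤ 2 * Real.exp σ - 1 := by
    have := two_exp_sub_one_pos hσ
    linarith
  obtain ⟨y, hy⟩ : ∃ y : ℝ, y = zz σ * Real.exp (-a) := ⟨_, rfl⟩
  have hy0 : 0 ≤ y := by rw [hy]; have := zz_pos σ; positivity
  have hyy : y * (2 * Real.exp (σ + a)) = 1 := by
    rw [hy, Real.exp_add]
    have h1 := two_exp_zz σ
    have h2 : Real.exp a * Real.exp (-a) = 1 := by rw [← Real.exp_add]; simp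
    calc zz σ * Real.exp (-a) * (2 * (Real.exp σ * Real.exp a))
        = (2 * Real.exp σ * zz σ) * (Real.exp a * Real.exp (-a)) := by ring
      _ = 1 := by rw [h1, h2]; norm_num
  have hy1 : y < 1 := by
    by_contra hc
    rw [not_lt] at hc
    nlinarith
  have h1 : ∀ w ∈ words I k, wt σ w * Real.exp (-a * w.sum) =
      (2 * Real.exp σ - 1) ^ k * y ^ w.sum := by
    intro w hw
    have e1 : Real.exp (-a * w.sum) = Real.exp (-a) ^ w.sum := by
      rw [← Real.exp_nat_mul]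
      ring_nf
    rw [e1, hy, mul_pow, wt, (mem_words.1 hw).1]
    ring
  rw [sum_congr rfl h1, ← mul_sum, sum_pow_words, ← mul_pow]
  apply pow_le_pow_left₀
  · exact mul_nonneg hA (sum_nonneg fun _ _ => by positivity)
  · rw [div_eq_mul_one_div]
    apply mul_le_mul_of_nonneg_left _ hA
    refine (geom_le I hy0 hy1).trans (le_of_eq ?_)
    have h2 : (2 * Real.exp (σ + a) - 1) ≠ 0 := by linarith
    have h3 : 1 - y ≠ 0 := by linarith
    rw [div_eq_div_iff h3 h2]
    linarith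

theorem thm_Mass : St_Mass := by
  intro σ hσ I k
  have h1 := two_exp_sub_one_pos hσ
  have h2 := thm_Mgf σ 0 hσ (by rw [add_zero]; linarith) I k
  simp only [neg_zero, zero_mul, Real.exp_zero, mul_one, add_zero] at h2
  rw [div_self (by linarith), one_pow] at h2
  exact h2

theorem letter_big {σ : ℝ} (hσ : 0 ≤ σ) (I I' : ℕ) :
    ∑ i ∈ (Icc 1 I).filter (fun i => I' < i), (2 * Real.exp σ - 1) * zz σ ^ i ≤ 1 / 2 ^ I' := by
  have hA : 0 ≤ 2 * Real.exp σ - 1 := by
    have := two_exp_sub_one_pos hσ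
    linarith
  have hz := zz_pos σ
  have hz2 := zz_le hσ
  have h1 : ∑ i ∈ (Icc 1 I).filter (fun i => I' < i), (2 * Real.exp σ - 1) * zz σ ^ i ≤
      ∑ j ∈ Icc 1 (I - I'), (2 * Real.exp σ - 1) * zz σ ^ I' * zz σ ^ j := by
    have h2 : ∑ j ∈ Icc 1 (I - I'), (2 * Real.exp σ - 1) * zz σ ^ I' * zz σ ^ j =
        ∑ i ∈ (Icc 1 (I - I')).image (fun j => I' + j), (2 * Real.exp σ - 1) * zz σ ^ i := by
      rw [sum_image (fun a _ b _ h => by simpa using h)]
      exact sum_congr rfl fun j _ => by rw [pow_add]; ring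
    rw [h2]
    apply sum_le_sum_of_subset_of_nonneg
    · intro i hi
      rw [mem_filter, mem_Icc] at hi
      rw [mem_image]
      exact ⟨i - I', by rw [mem_Icc]; omega, by omega⟩
    · intro i _ _
      positivity
  refine h1.trans ?_
  rw [← mul_sum]
  have h3 := geom_le (I - I') hz.le (by linarith : zz σ < 1)
  have h4 : (2 * Real.exp σ - 1) * (zz σ / (1 - zz σ)) = 1 := by
    have e := two_exp_zz σ
    have h5 : 1 - zz σ ≠ 0 := by linarith
    field_simp
    linarith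
  calc (2 * Real.exp σ - 1) * zz σ ^ I' * ∑ i ∈ Icc 1 (I - I'), zz σ ^ i
      ≤ (2 * Real.exp σ - 1) * zz σ ^ I' * (zz σ / (1 - zz σ)) :=
        mul_le_mul_of_nonneg_left h3 (by positivity)
    _ = zz σ ^ I' * ((2 * Real.exp σ - 1) * (zz σ / (1 - zz σ))) := by ring
    _ = zz σ ^ I' := by rw [h4, mul_one]
    _ ≤ (1 / 2) ^ I' := pow_le_pow_left₀ hz.le hz2 _
    _ = 1 / 2 ^ I' := by rw [one_div, inv_pow, one_div]

theorem letter_le {σ : ℝ} (hσ : 0 ≤ σ) (I : ℕ) :
    ∑ i ∈ Icc 1 I, (2 * Real.exp σ - 1) * zz σ ^ i ≤ 1 := by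
  have h := thm_Mass σ hσ I 1
  unfold mass at h
  rw [sum_words_succ] at h
  simpa [sum_words_zero, wt_cons, wt_nil] using h

theorem thm_Big : St_Big := by
  classical
  intro σ hσ I I' k
  have hA : 0 ≤ 2 * Real.exp σ - 1 := by
    have := two_exp_sub_one_pos hσ
    linarith
  have hz := zz_pos σ
  induction k with
  | zero =>
    unfold mass
    rw [sum_filter, sum_words_zero]
    simp
  | succ k ih =>
    have hM := thm_Mass σ hσ I k
    unfold mass at *
    rw [sum_filter, sum_words_succ]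
    have h1 : ∀ i ∈ Icc 1 I, ∑ w ∈ words I k, (if ∃ j ∈ i :: w, I' < j then wt σ (i :: w) else 0) ≤
        (if I' < i then (2 * Real.exp σ - 1) * zz σ ^ i else 0) * ∑ w ∈ words I k, wt σ w +
        (2 * Real.exp σ - 1) * zz σ ^ i *
          ∑ w ∈ (words I k).filter (fun w => ∃ j ∈ w, I' < j), wt σ w := by
      intro i _
      rw [sum_filter, mul_sum, mul_sum, ← sum_add_distrib]
      apply sum_le_sum
      intro w _
      have hw := wt_nonneg hσ w
      have hp : 0 ≤ (2 * Real.exp σ - 1) * zz σ ^ i := by positivity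
      rw [wt_cons]
      by_cases h2 : I' < i
      · rw [if_pos ⟨i, by simp, h2⟩, if_pos h2]
        have : 0 ≤ (2 * Real.exp σ - 1) * zz σ ^ i * (if ∃ j ∈ w, I' < j then wt σ w else 0) := by
          split_ifs <;> positivity
        linarith
      · rw [if_neg h2, zero_mul, zero_add]
        by_cases h3 : ∃ j ∈ w, I' < j
        · rw [if_pos h3, if_pos (by
            obtain ⟨j, hj, hj'⟩ := h3
            exact ⟨j, by simp [hj], hj'⟩)]
        · rw [if_neg h3, if_neg (by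
            rintro ⟨j, hj, hj'⟩
            rcases List.mem_cons.1 hj with rfl | hj
            · exact h2 hj'
            · exact h3 ⟨j, hj, hj'⟩), mul_zero]
    refine (sum_le_sum h1).trans ?_
    rw [sum_add_distrib, ← sum_mul, ← sum_mul, ← sum_filter]
    have h2 := letter_big hσ I I'
    have h3 := letter_le hσ I
    have h4 : 0 ≤ ∑ w ∈ (words I k).filter (fun w => ∃ j ∈ w, I' < j), wt σ w :=
      sum_nonneg fun w _ => wt_nonneg hσ w
    have h5 : (0 : ℝ) ≤ 1 / 2 ^ I' := by positivity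
    have h6 : 0 ≤ ∑ w ∈ words I k, wt σ w := sum_nonneg fun w _ => wt_nonneg hσ w
    calc _ ≤ (1 : ℝ) / 2 ^ I' * 1 + 1 * (k / 2 ^ I') :=
          add_le_add (mul_le_mul h2 hM h6 h5) (mul_le_mul h3 ih h4 zero_le_one)
      _ = ((k + 1 : ℕ) : ℝ) / 2 ^ I' := by push_cast; ring

/-- the numerical constant -/
theorem tail_const {σ : ℝ} (h0 : 0 ≤ σ) (h1 : σ ≤ 1 / 100) :
    √3 * ((2 * Real.exp σ - 1) / (2 * (Real.exp σ * √2) - 1)) ≤ 97 / 100 := by
  have he1 : Real.exp σ ≤ 1.0102 := by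
    have h2 : Real.exp σ * (1 - σ) ≤ 1 := by
      have h5 := Real.add_one_le_exp (-σ)
      have h6 : Real.exp σ * Real.exp (-σ) = 1 := by rw [← Real.exp_add]; simp
      calc Real.exp σ * (1 - σ) ≤ Real.exp σ * Real.exp (-σ) :=
            mul_le_mul_of_nonneg_left (by linarith) (Real.exp_pos σ).le
        _ = 1 := h6
    have h3 := Real.exp_pos σ
    nlinarith
  have he0 : 1 ≤ Real.exp σ := Real.one_le_exp h0
  have h3 : √3 ≤ 1.7321 := by
    rw [Real.sqrt_le_left (by norm_num)]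
    norm_num
  have h2 : (1.4142 : ℝ) ≤ √2 := by
    apply Real.le_sqrt_of_sq_le
    norm_num
  have hs3 : 0 ≤ √3 := Real.sqrt_nonneg 3
  have hden : 0 < 2 * (Real.exp σ * √2) - 1 := by nlinarith
  rw [← mul_div_assoc, div_le_iff₀ hden]
  have h4 : √3 * (2 * Real.exp σ - 1) ≤ 1.7321 * (2 * Real.exp σ - 1) :=
    mul_le_mul_of_nonneg_right h3 (by linarith)
  have h5 : Real.exp σ * 1.4142 ≤ Real.exp σ * √2 := mul_le_mul_of_nonneg_left h2 (by linarith)
  nlinarith

theorem thm_Tail : St_Tail := by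
  classical
  intro σ h0 h1 I k
  have hl2 : 0 < Real.log 2 := Real.log_pos (by norm_num)
  have hexp : Real.exp (σ + Real.log 2 / 2) = Real.exp σ * √2 := by
    rw [Real.exp_add, Real.exp_half, Real.exp_log (by norm_num)]
  have hs2 : 1 ≤ √2 := by
    apply Real.le_sqrt_of_sq_le
    norm_num
  have he := Real.one_le_exp h0
  have hmgf := thm_Mgf σ (Real.log 2 / 2) h0 (by rw [hexp]; nlinarith) I k
  rw [hexp] at hmgf
  have hpt : ∀ w ∈ (words I k).filter (fun w => 2 ^ w.sum ≤ 3 ^ k),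
      wt σ w ≤ √3 ^ k * (wt σ w * Real.exp (-(Real.log 2 / 2) * w.sum)) := by
    intro w hw
    rw [mem_filter] at hw
    have hw2 : (2 : ℝ) ^ w.sum ≤ 3 ^ k := by exact_mod_cast hw.2
    have hw3 : √2 ^ w.sum ≤ √3 ^ k := by
      have e2 : √2 ^ w.sum = √(2 ^ w.sum) := by
        rw [Real.sqrt_eq_rpow, Real.sqrt_eq_rpow, ← Real.rpow_natCast, ← Real.rpow_natCast,
          ← Real.rpow_mul (by norm_num), ← Real.rpow_mul (by norm_num), mul_comm]
      have e3 : √3 ^ k = √(3 ^ k) := by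
        rw [Real.sqrt_eq_rpow, Real.sqrt_eq_rpow, ← Real.rpow_natCast, ← Real.rpow_natCast,
          ← Real.rpow_mul (by norm_num), ← Real.rpow_mul (by norm_num), mul_comm]
      rw [e2, e3]
      exact Real.sqrt_le_sqrt hw2
    have e1 : Real.exp (-(Real.log 2 / 2) * w.sum) = (√2 ^ w.sum)⁻¹ := by
      rw [mul_comm, neg_eq_neg_one_mul, ← mul_assoc, mul_comm (w.sum : ℝ) (-1), mul_assoc,
        neg_one_mul, Real.exp_neg, Real.exp_nat_mul, Real.exp_half, Real.exp_log (by norm_num)]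
    rw [e1]
    have hp : 0 < √2 ^ w.sum := by positivity
    have hw0 := wt_nonneg h0 w
    calc wt σ w = wt σ w * (√2 ^ w.sum * (√2 ^ w.sum)⁻¹) := by
          rw [mul_inv_cancel₀ hp.ne', mul_one]
      _ ≤ wt σ w * (√3 ^ k * (√2 ^ w.sum)⁻¹) := by gcongr
      _ = √3 ^ k * (wt σ w * (√2 ^ w.sum)⁻¹) := by ring
  unfold mass
  calc ∑ w ∈ (words I k).filter (fun w => 2 ^ w.sum ≤ 3 ^ k), wt σ w
      ≤ ∑ w ∈ (words I k).filter (fun w => 2 ^ w.sum ≤ 3 ^ k),
          √3 ^ k * (wt σ w * Real.exp (-(Real.log 2 / 2) * w.sum)) := sum_le_sum hpt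
    _ ≤ ∑ w ∈ words I k, √3 ^ k * (wt σ w * Real.exp (-(Real.log 2 / 2) * w.sum)) :=
        sum_le_sum_of_subset_of_nonneg (filter_subset _ _) fun w _ _ => by
          have := wt_nonneg h0 w
          positivity
    _ = √3 ^ k * ∑ w ∈ words I k, wt σ w * Real.exp (-(Real.log 2 / 2) * w.sum) := by
        rw [mul_sum]
    _ ≤ √3 ^ k * ((2 * Real.exp σ - 1) / (2 * (Real.exp σ * √2) - 1)) ^ k :=
        mul_le_mul_of_nonneg_left hmgf (by positivity)
    _ = (√3 * ((2 * Real.exp σ - 1) / (2 * (Real.exp σ * √2) - 1))) ^ k := by rw [mul_pow]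
    _ ≤ (97 / 100) ^ k := by
        apply pow_le_pow_left₀ _ (tail_const h0 h1)
        have h3 : 0 < 2 * (Real.exp σ * √2) - 1 := by nlinarith
        have h4 : 0 ≤ 2 * Real.exp σ - 1 := by linarith
        positivity

end Pool.Agent.UTL
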