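import Pool.Agent.UTL.Cond
import Pool.Agent.Collatz3.VL1

set_option autoImplicit false

/-! The mixing estimate for the sum over all words. -/

namespace Pool.Agent.UTL

open Finset
open Pool.Agent.Collatz3 (cw)
open Pool.Agent.Collatz3.Mix (words mem_words mu ext l1_ext Vn Xw law pw Zs Zs_pos two_pow_mul_inv red
  sum_pw)
open Pool.Agent.Collatz3.PD (rd en Per A S words_add words_length cat)

theorem rd_iff_Xw {N : ℕ} {w : List ℕ} (hw : w.length = N) (x : ℤ) :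
    rd w x ↔ Xw N w = (x : ZMod (3 ^ N)) := by
  have h2 := two_pow_mul_inv N w.sum
  unfold rd Xw
  rw [hw]
  have h1 : (3 : ℤ) ^ N ∣ 2 ^ w.sum * x - cw w ↔
      ((2 ^ w.sum * x - cw w : ℤ) : ZMod (3 ^ N)) = 0 := by
    rw [ZMod.intCast_zmod_eq_zero_iff_dvd]
    push_cast
    rfl
  rw [h1]
  push_cast
  constructor
  · intro h
    linear_combination (-(2⁻¹ : ZMod (3 ^ N)) ^ w.sum) * h + (x : ZMod (3 ^ N)) * h2
  · intro h
    linear_combination (-(2 : ZMod (3 ^ N)) ^ w.sum) * h + (cw w : ZMod (3 ^ N)) * h2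

theorem Zs_zz (σ : ℝ) (I : ℕ) : (2 * Real.exp σ - 1) * Zs (zz σ) I = 1 - zz σ ^ I := by
  have hz := two_exp_zz σ
  induction I with
  | zero => simp [Zs]
  | succ I ih =>
    have h1 : Zs (zz σ) (I + 1) = Zs (zz σ) I + zz σ ^ (I + 1) := by
      unfold Zs
      exact Finset.sum_Icc_succ_top (by omega) _
    rw [h1, mul_add, ih, pow_succ]
    linear_combination (zz σ ^ I) * hz

theorem wt_eq_pw (σ : ℝ) {I : ℕ} (hI : 1 ≤ I) (w : List ℕ) :
    wt σ w = (1 - zz σ ^ I) ^ w.length * pw (zz σ) I w := by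
  have h1 := Zs_pos (zz_pos σ) hI
  unfold wt pw
  rw [← Zs_zz, mul_pow]
  field_simp

theorem mass_words (σ : ℝ) {I : ℕ} (hI : 1 ≤ I) (N : ℕ) :
    mass σ (words I N) = (1 - zz σ ^ I) ^ N := by
  unfold mass
  rw [sum_congr rfl fun w hw => by
    rw [wt_eq_pw σ hI, (mem_words.1 hw).1], ← mul_sum, sum_pw (zz_pos σ) hI, mul_one]

theorem Et_words_eq (σ : ℝ) {I : ℕ} (hI : 1 ≤ I) (N : ℕ) (x : ℤ) :
    Et σ (words I N) (fun _ => 1) x =
      (1 - zz σ ^ I) ^ N * 3 ^ N * mu (zz σ) I N (x : ZMod (3 ^ N)) := by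
  unfold Et mu law
  rw [mul_sum]
  refine sum_congr ?_ fun w hw => ?_
  · ext w
    rw [mem_filter, mem_filter]
    constructor
    · rintro ⟨h1, h2⟩
      exact ⟨h1, (rd_iff_Xw (mem_words.1 h1).1 x).1 h2⟩
    · rintro ⟨h1, h2⟩
      exact ⟨h1, (rd_iff_Xw (mem_words.1 h1).1 x).2 h2⟩
  · rw [mem_filter] at hw
    rw [wt_eq_pw σ hI, (mem_words.1 hw.1).1]
    ring

theorem Ex_full {j : ℕ} {f : ℤ → ℝ} (hf : Per j f) (x : ℤ) : Ex j 0 f x = A j f := by
  unfold Ex A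
  rw [Nat.sub_zero, ← S_shift hf x]
  congr 1
  unfold S
  apply sum_congr rfl
  intro t _
  rw [pow_zero, one_mul, add_comm]

theorem Ex_words (σ : ℝ) {I : ℕ} (hI : 1 ≤ I) (l j : ℕ) (x : ℤ) :
    Ex (l + j) l (Et σ (words I (l + j)) (fun _ => 1)) x =
      (1 - zz σ ^ I) ^ j * Et σ (words I l) (fun _ => 1) x := by
  have hl : ∀ w ∈ words I l, w.length = l := fun w hw => words_length hw
  have hj : ∀ w ∈ words I j, w.length = j := fun w hw => words_length hw
  have hper : Per j (Et σ (words I j) (fun _ => 1)) := Per_one σ hj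
  have h1 : Et σ (words I (l + j)) (fun _ => 1) = Et σ (words I l) (Et σ (words I j) (fun _ => 1)) := by
    funext y
    rw [words_add]
    exact Et_cat hl _ y
  rw [h1, thm_Cond σ (words I l) l l (l + j) _ hl le_rfl (Nat.le_add_right l j)
    (by rw [Nat.add_sub_cancel_left]; exact hper) x, Nat.add_sub_cancel_left, Nat.sub_self]
  have h2 : Ex j 0 (Et σ (words I j) (fun _ => 1)) = fun _ => (1 - zz σ ^ I) ^ j := by
    funext y
    rw [Ex_full hper]
    have h3 := thm_Avg σ (words I j) j 0 (fun _ => 1) hj (fun _ _ => rfl)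
    rw [add_zero] at h3
    rw [h3, mass_words σ hI]
    simp [A, S]
  rw [h2, Et_eq, Et_eq, mul_sum]
  apply sum_congr rfl
  intro w _
  split_ifs <;> ring

theorem ext_int (z : ℝ) (I m j : ℕ) (x : ℤ) :
    ext z I m j (x : ZMod (3 ^ (m + j))) = mu z I m (x : ZMod (3 ^ m)) / 3 ^ j := by
  induction j with
  | zero =>
    rw [pow_zero, div_one]
    rfl
  | succ j ih =>
    show ext z I m j (red (m + j) (x : ZMod (3 ^ (m + j + 1)))) / 3 = _
    rw [map_intCast, ih, pow_succ]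
    field_simp

theorem thm_Mix : St_Mix := by
  intro σ hσ I l j hI
  have hz := zz_pos σ
  have hz1 : zz σ ≤ 1 := (zz_le hσ).trans (by norm_num)
  have hc0 : 0 ≤ 1 - zz σ ^ I := by
    have := pow_le_one₀ (n := I) hz.le hz1
    linarith
  have hc1 : 1 - zz σ ^ I ≤ 1 := by
    have := pow_pos hz I
    linarith
  refine le_trans ?_ (l1_ext hz hI l j)
  unfold A
  rw [S_eq_zmod]
  have h1 : ∀ y : ZMod (3 ^ (l + j)),
      |Et σ (words I (l + j)) (fun _ => 1) ((y.val : ℕ) : ℤ) -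
        Ex (l + j) l (Et σ (words I (l + j)) (fun _ => 1)) ((y.val : ℕ) : ℤ)| =
      (1 - zz σ ^ I) ^ (l + j) * 3 ^ (l + j) *
        |mu (zz σ) I (l + j) y - ext (zz σ) I l j y| := by
    intro y
    have hy : ((((y.val : ℕ) : ℤ)) : ZMod (3 ^ (l + j))) = y := by
      push_cast
      exact ZMod.natCast_zmod_val y
    have he := ext_int (zz σ) I l j ((y.val : ℕ) : ℤ)
    rw [hy] at he
    rw [Ex_words σ hI, Et_words_eq σ hI, Et_words_eq σ hI, hy, he,
      ← abs_of_nonneg (show 0 ≤ (1 - zz σ ^ I) ^ (l + j) * 3 ^ (l + j) by positivity), ← abs_mul]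
    congr 1
    rw [abs_of_nonneg (show 0 ≤ (1 - zz σ ^ I) ^ (l + j) * 3 ^ (l + j) by positivity), pow_add,
      pow_add (3 : ℝ)]
    field_simp
  rw [sum_congr rfl fun y _ => h1 y, ← mul_sum, div_le_iff₀ (by positivity)]
  have h2 : 0 ≤ ∑ y : ZMod (3 ^ (l + j)), |mu (zz σ) I (l + j) y - ext (zz σ) I l j y| :=
    sum_nonneg fun _ _ => abs_nonneg _
  have h3 : (1 - zz σ ^ I) ^ (l + j) ≤ 1 := pow_le_one₀ hc0 hc1
  have h4 : (1 - zz σ ^ I) ^ (l + j) * (3 ^ (l + j) *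
      ∑ y : ZMod (3 ^ (l + j)), |mu (zz σ) I (l + j) y - ext (zz σ) I l j y|) ≤
      1 * (3 ^ (l + j) *
      ∑ y : ZMod (3 ^ (l + j)), |mu (zz σ) I (l + j) y - ext (zz σ) I l j y|) :=
    mul_le_mul_of_nonneg_right h3 (by positivity)
  linarith

end Pool.Agent.UTL
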