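import Pool.Agent.UTL.Alg

set_option autoImplicit false

/-! Numerical inequalities for the exponents. -/

namespace Pool.Agent.UTL

theorem lam_lo : 29 / 46 < Real.log 2 / Real.log 3 := by
  rw [div_lt_div_iff₀ (by norm_num) (Real.log_pos (by norm_num))]
  have h : Real.log (3 ^ 29) < Real.log (2 ^ 46) :=
    Real.log_lt_log (by norm_num) (by norm_num)
  rw [Real.log_pow, Real.log_pow] at h
  push_cast at h
  linarith

theorem lam_hi : Real.log 2 / Real.log 3 < 12 / 19 := by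
  rw [div_lt_div_iff₀ (Real.log_pos (by norm_num)) (by norm_num)]
  have h : Real.log (2 ^ 19) < Real.log (3 ^ 12) :=
    Real.log_lt_log (by norm_num) (by norm_num)
  rw [Real.log_pow, Real.log_pow] at h
  push_cast at h
  linarith

theorem one_lt_log_three : 1 < Real.log 3 := by
  rw [Real.lt_log_iff_exp_lt (by norm_num)]
  exact Real.exp_one_lt_three

theorem th_eq (σ : ℝ) : th σ = Real.log 2 / Real.log 3 * Real.log (2 * Real.exp σ - 1) - σ := by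
  unfold th kap
  ring

theorem thm_Num : St_Num := by
  intro s σ σ' hs hσ hs2 hσ'
  obtain ⟨l, hl⟩ : ∃ l : ℝ, l = Real.log 2 / Real.log 3 := ⟨_, rfl⟩
  have hl1 := lam_lo
  have hl2 := lam_hi
  have hL3 := one_lt_log_three
  rw [← hl] at hl1 hl2
  obtain ⟨D, hD⟩ : ∃ D : ℝ, D = s * (s - 1) * σ ^ 2 + s * σ ^ 3 := ⟨_, rfl⟩
  have hD0 : 0 ≤ D := by
    rw [hD]
    have : 0 ≤ s - 1 := by linarith
    positivity
  have hσD : σ' = s * σ + 3 * D := by rw [hσ', hD]; ring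
  have hsσ : σ ≤ s * σ := by nlinarith
  have hσ1 : σ ≤ 1 / 200 := hsσ.trans hs2
  have hsp : 0 < s * σ := by positivity
  have hD1 : D ≤ s * σ * (11 / 2000) := by
    have e1 : D = s * σ * (s * σ - σ + σ ^ 2) := by rw [hD]; ring
    rw [e1]
    apply mul_le_mul_of_nonneg_left _ hsp.le
    nlinarith
  have hσ0' : 0 ≤ σ' := by rw [hσD]; positivity
  obtain ⟨a1, a2, _⟩ := thm_Alg σ hσ.le
  obtain ⟨b1, b2, _⟩ := thm_Alg σ' hσ0'
  obtain ⟨f, hf⟩ : ∃ f : ℝ, f = Real.log (2 * Real.exp σ - 1) := ⟨_, rfl⟩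
  obtain ⟨g, hg⟩ : ∃ g : ℝ, g = Real.log (2 * Real.exp σ' - 1) := ⟨_, rfl⟩
  rw [← hf] at a1 a2
  rw [← hg] at b1 b2
  refine ⟨?_, ?_, ?_, ?_⟩
  · rw [th_eq, th_eq, ← hl, ← hf, ← hg]
    have e1 : l * (2 * σ' - σ' ^ 2) ≤ l * g := mul_le_mul_of_nonneg_left b1 (by linarith)
    have e2 : l * f ≤ l * (2 * σ - σ ^ 2 + σ ^ 3) := mul_le_mul_of_nonneg_left a2 (by linarith)
    have e3 : s * (l * f) ≤ s * (l * (2 * σ - σ ^ 2 + σ ^ 3)) :=
      mul_le_mul_of_nonneg_left e2 (by linarith)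
    have e4 : l * (2 * σ' - σ' ^ 2) - σ' - (s * (l * (2 * σ - σ ^ 2 + σ ^ 3)) - s * σ) =
        D * (5 * l - 3 - 3 * l * (σ' + s * σ)) := by
      rw [hσD, hD]
      ring
    have e5 : 0 ≤ 5 * l - 3 - 3 * l * (σ' + s * σ) := by
      have h1 : σ' + s * σ ≤ 11 / 1000 := by rw [hσD]; nlinarith
      have h2 : 3 * l * (σ' + s * σ) ≤ 3 * l * (11 / 1000) :=
        mul_le_mul_of_nonneg_left h1 (by linarith)
      nlinarith
    have e6 : 0 ≤ D * (5 * l - 3 - 3 * l * (σ' + s * σ)) := mul_nonneg hD0 e5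
    nlinarith
  · unfold kap
    rw [← hf, ← hg]
    have hs0 : 0 < s := by linarith
    rw [div_div, div_le_iff₀ (by positivity)]
    have e1 : (f / Real.log 3 + 7 * (s - 1) * σ ^ 2 + 8 * σ ^ 3) * (Real.log 3 * s) =
        s * (f + (7 * (s - 1) * σ ^ 2 + 8 * σ ^ 3) * Real.log 3) := by
      field_simp
      ring
    rw [e1]
    have e2 : 7 * (s - 1) * σ ^ 2 + 8 * σ ^ 3 ≤
        (7 * (s - 1) * σ ^ 2 + 8 * σ ^ 3) * Real.log 3 := by
      have : 0 ≤ 7 * (s - 1) * σ ^ 2 + 8 * σ ^ 3 := by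
        have : 0 ≤ s - 1 := by linarith
        positivity
      nlinarith
    have e3 : s * (2 * σ - σ ^ 2 + (7 * (s - 1) * σ ^ 2 + 8 * σ ^ 3)) ≤
        s * (f + (7 * (s - 1) * σ ^ 2 + 8 * σ ^ 3) * Real.log 3) :=
      mul_le_mul_of_nonneg_left (by linarith) hs0.le
    refine b2.trans (le_trans ?_ e3)
    -- 2σ' - σ'^2 + σ'^3 ≤ s (2σ - σ² + 7(s-1)σ² + 8σ³)
    have e4 : (s * σ) ^ 2 ≤ σ' ^ 2 := pow_le_pow_left₀ hsp.le (by rw [hσD]; linarith) 2
    have e5 : σ' ≤ s * σ * (21 / 20) := by rw [hσD]; linarith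
    have e6 : σ' ^ 3 ≤ (s * σ * (21 / 20)) ^ 3 := pow_le_pow_left₀ hσ0' e5 3
    have e7 : (s * σ * (21 / 20)) ^ 3 ≤ 6 / 5 * (s * σ) ^ 3 := by
      have : 0 ≤ (s * σ) ^ 3 := by positivity
      nlinarith
    have e8 : (s * σ) ^ 3 = s * σ ^ 3 + s * (s - 1) * σ ^ 2 * (s * σ + σ) := by ring
    have e9 : s * (s - 1) * σ ^ 2 * (s * σ + σ) ≤ s * (s - 1) * σ ^ 2 * (1 / 100) := by
      apply mul_le_mul_of_nonneg_left (by linarith)
      have : 0 ≤ s - 1 := by linarith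
      positivity
    have e10 : 0 ≤ s * (s - 1) * σ ^ 2 := by
      have : 0 ≤ s - 1 := by linarith
      positivity
    have e11 : 0 ≤ s * σ ^ 3 := by positivity
    have e12 : s * (2 * σ - σ ^ 2 + (7 * (s - 1) * σ ^ 2 + 8 * σ ^ 3)) =
        2 * (s * σ) - s * σ ^ 2 + 7 * (s * (s - 1) * σ ^ 2) + 8 * (s * σ ^ 3) := by ring
    have e13 : (s * σ) ^ 2 = s * σ ^ 2 + s * (s - 1) * σ ^ 2 := by ring
    have e14 : 2 * σ' = 2 * (s * σ) + 6 * (s * (s - 1) * σ ^ 2) + 6 * (s * σ ^ 3) := by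
      rw [hσD, hD]; ring
    rw [e12]
    linarith
  · rw [hσD]
    linarith
  · rw [th_eq, ← hl, ← hf]
    have e1 : l * (2 * σ - σ ^ 2) ≤ l * f := mul_le_mul_of_nonneg_left a1 (by linarith)
    have e2 : 0 < σ * (2 * l - 1 - l * σ) := by
      apply mul_pos hσ
      nlinarith
    nlinarith

end Pool.Agent.UTL
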