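import Pool.Agent.UTL.Equid

set_option autoImplicit false

/-! One stage. -/

namespace Pool.Agent.UTL

open Finset
open Pool.Agent.Collatz3.PD (rd en Per A S S_mono S_nonneg shift_sum_mul)

theorem A_rpow_le {K : ℕ} {f : ℤ → ℝ} (hf : ∀ x, 0 ≤ f x) {e : ℝ} {q : ℕ} (he : 0 < e)
    (heq : e ≤ q) {B : ℝ} (hB : 0 ≤ B) (h : A K (fun x => f x ^ q) ≤ B ^ q) :
    A K (fun x => f x ^ e) ≤ B ^ e := by
  have hq0 : (0 : ℝ) < q := lt_of_lt_of_le he heq
  have h1 := Real.arith_mean_le_rpow_mean (range (3 ^ K)) (fun _ => 1 / (3 : ℝ) ^ K)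
    (fun t => f ((t : ℕ) : ℤ) ^ e) (fun _ _ => by positivity)
    (by
      rw [sum_const, card_range, nsmul_eq_mul]
      push_cast
      field_simp)
    (fun t _ => Real.rpow_nonneg (hf _) e) (p := q / e) (by rw [le_div_iff₀ he]; linarith)
  have e1 : ∑ t ∈ range (3 ^ K), 1 / (3 : ℝ) ^ K * f ((t : ℕ) : ℤ) ^ e =
      A K (fun x => f x ^ e) := by
    unfold A S
    rw [← mul_sum]
    ring
  have e2 : ∑ t ∈ range (3 ^ K), 1 / (3 : ℝ) ^ K * (f ((t : ℕ) : ℤ) ^ e) ^ ((q : ℝ) / e) =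
      A K (fun x => f x ^ q) := by
    unfold A S
    rw [← mul_sum, one_div_mul_eq_div]
    congr 1
    apply sum_congr rfl
    intro t _
    rw [← Real.rpow_mul (hf _), mul_div_cancel₀ _ he.ne', Real.rpow_natCast]
  rw [e1, e2] at h1
  refine h1.trans ?_
  have h2 : (A K (fun x => f x ^ q)) ^ (1 / ((q : ℝ) / e)) ≤ (B ^ q) ^ (1 / ((q : ℝ) / e)) :=
    Real.rpow_le_rpow (A_nonneg fun x => pow_nonneg (hf x) q) h (by positivity)
  refine h2.trans (le_of_eq ?_)
  rw [← Real.rpow_natCast, ← Real.rpow_mul hB]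
  congr 1
  field_simp

/-- two applications of the inequality of Hölder -/
theorem holder_two {ι : Type*} (Q : Finset ι) (w U V : ι → ℝ) {p P : ℝ} (hp : 1 ≤ p)
    (hpP : p < P) (hw0 : ∀ b ∈ Q, 0 ≤ w b) (hU : ∀ b ∈ Q, 0 ≤ U b) (hV : ∀ b ∈ Q, 0 ≤ V b)
    (hw : ∀ b ∈ Q, w b ≤ U b ^ ((P - 1) / P) * V b ^ (1 / P)) :
    ∑ b ∈ Q, w b ^ p ≤ (∑ b ∈ Q, U b ^ (p * (P - 1) / (P - p))) ^ ((P - p) / P) *
      (∑ b ∈ Q, V b) ^ (p / P) := by
  have hP0 : 0 < P := by linarith
  have hPp : 0 < P - p := by linarith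
  have hp0 : 0 < p := by linarith
  have hconj : (P / (P - p)).HolderConjugate (P / p) := by
    rw [Real.holderConjugate_iff]
    constructor
    · rw [lt_div_iff₀ hPp]
      linarith
    · field_simp
      ring
  have h1 : ∀ b ∈ Q, w b ^ p ≤ U b ^ (p * (P - 1) / P) * V b ^ (p / P) := by
    intro b hb
    have e1 : w b ^ p ≤ (U b ^ ((P - 1) / P) * V b ^ (1 / P)) ^ p :=
      Real.rpow_le_rpow (hw0 b hb) (hw b hb) hp0.le
    refine e1.trans (le_of_eq ?_)
    rw [Real.mul_rpow (Real.rpow_nonneg (hU b hb) _) (Real.rpow_nonneg (hV b hb) _),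
      ← Real.rpow_mul (hU b hb), ← Real.rpow_mul (hV b hb)]
    congr 2 <;> ring
  refine (sum_le_sum h1).trans ?_
  have h2 := Real.inner_le_Lp_mul_Lq_of_nonneg (s := Q) (f := fun b => U b ^ (p * (P - 1) / P))
    (g := fun b => V b ^ (p / P)) hconj (fun b hb => Real.rpow_nonneg (hU b hb) _)
    (fun b hb => Real.rpow_nonneg (hV b hb) _)
  have e1 : ∑ b ∈ Q, (U b ^ (p * (P - 1) / P)) ^ (P / (P - p)) =
      ∑ b ∈ Q, U b ^ (p * (P - 1) / (P - p)) := by
    apply sum_congr rfl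
    intro b hb
    rw [← Real.rpow_mul (hU b hb)]
    congr 1
    field_simp
  have e2 : ∑ b ∈ Q, (V b ^ (p / P)) ^ (P / p) = ∑ b ∈ Q, V b := by
    apply sum_congr rfl
    intro b hb
    rw [← Real.rpow_mul (hV b hb)]
    have : p / P * (P / p) = 1 := by field_simp
    rw [this, Real.rpow_one]
  rw [e1, e2, one_div_div, one_div_div] at h2
  exact h2

theorem holder_alg {y' X Q N e s p P : ℝ} (hy : 0 < y') (hX : 0 < X) (hQ : 0 < Q) (hN : 0 ≤ N)
    (hp : 1 ≤ p) (hpP : p < P) (hs : s = P / (P - 1)) (he : e = p * (P - 1) / (P - p)) :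
    (y' * X ^ e) ^ ((P - p) / P) * (Q * y' * N ^ P) ^ (p / P) =
      y' * (X ^ (1 / s) * Q ^ (1 / P) * N) ^ p := by
  have hP0 : 0 < P := by linarith
  have hPp : 0 < P - p := by linarith
  have hP1 : 0 < P - 1 := by linarith
  have hNP : 0 ≤ N ^ P := Real.rpow_nonneg hN _
  rw [Real.mul_rpow hy.le (by positivity), ← Real.rpow_mul hX.le,
    mul_assoc Q, Real.mul_rpow hQ.le (by positivity), Real.mul_rpow hy.le hNP,
    ← Real.rpow_mul hN, Real.mul_rpow (by positivity) hN, Real.mul_rpow (by positivity)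
    (by positivity), ← Real.rpow_mul hX.le, ← Real.rpow_mul hQ.le]
  have e1 : e * ((P - p) / P) = 1 / s * p := by
    rw [he, hs]
    field_simp
  have e2 : P * (p / P) = p := by field_simp
  have e3 : 1 / P * p = p / P := by ring
  have e4 : y' ^ ((P - p) / P) * y' ^ (p / P) = y' := by
    rw [← Real.rpow_add hy]
    have : (P - p) / P + p / P = 1 := by field_simp; ring
    rw [this, Real.rpow_one]
  rw [e1, e2, e3]
  calc y' ^ ((P - p) / P) * X ^ (1 / s * p) * (Q ^ (p / P) * (y' ^ (p / P) * N ^ p))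
      = (y' ^ ((P - p) / P) * y' ^ (p / P)) *
          (X ^ (1 / s * p) * Q ^ (p / P) * N ^ p) := by ring
    _ = _ := by rw [e4]

theorem thm_Step : St_Step := by
  classical
  intro σ σ' s p P y y' N B q K W W' h0 h1 hp hpP hs hq hth hy1 hyy hKy hKy' hW0 hWL hN hWP hB
    hF hW'
  have hP0 : 0 < P := by linarith
  have hPp : 0 < P - p := by linarith
  have hp0 : 0 < p := by linarith
  have hP1 : 0 < P - 1 := by linarith
  have hy'0 : 0 < y' := by linarith
  have hy0 : 0 < y := by linarith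
  have hs0 : 0 < s := by rw [hs]; positivity
  have hkap0 := kap_nonneg h0.le
  obtain ⟨Q, hQ⟩ : ∃ Q : ℝ, Q = y / y' := ⟨_, rfl⟩
  have hQ0 : 0 < Q := by rw [hQ]; positivity
  have hQ1 : 1 ≤ Q := by rw [hQ, le_div_iff₀ hy'0]; linarith
  obtain ⟨I, hI⟩ : ∃ I : ℕ, 4 * 3 ^ K * (y / y') ≤ 2 ^ I := by
    obtain ⟨n, hn⟩ := pow_unbounded_of_one_lt (4 * 3 ^ K * (y / y')) (by norm_num : (1 : ℝ) < 2)
    exact ⟨n, hn.le⟩
  obtain ⟨U, hU⟩ : ∃ U : ℕ → ℝ, U = fun b : ℕ => 32 * Q ^ (1 + kap σ') *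
    (1 + F σ' I K (b : ℤ)) := ⟨_, rfl⟩
  obtain ⟨V, hV⟩ : ∃ V : ℕ → ℝ, V = fun b => ∑ n ∈ Pre y' y K b, W n ^ P := ⟨_, rfl⟩
  have hU0 : ∀ b, 0 ≤ U b := by
    intro b
    rw [hU]
    have := F_nonneg h0.le I K b
    positivity
  have hV0 : ∀ b, 0 ≤ V b := by
    intro b
    rw [hV]
    exact sum_nonneg fun n _ => Real.rpow_nonneg (hW0 n) _
  -- the bound at a fixed point
  have hone : ∀ b ∈ Lv y', W' b ≤ U b ^ ((P - 1) / P) * V b ^ (1 / P) := by
    intro b hb
    refine (hW' b hb).2.trans ?_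
    have hconj : s.HolderConjugate P := by
      rw [Real.holderConjugate_iff, hs]
      constructor
      · rw [lt_div_iff₀ hP1]
        linarith
      · field_simp
        ring
    have e1 := Real.inner_le_Lp_mul_Lq_of_nonneg (s := Pre y' y K b)
      (f := fun n => Real.exp (th σ * tau y' n)) (g := W) hconj
      (fun n _ => (Real.exp_pos _).le) (fun n _ => hW0 n)
    have e2 : 1 / s = (P - 1) / P := by rw [hs, one_div_div]
    rw [e2] at e1
    refine e1.trans ?_
    have e3 : ∑ n ∈ Pre y' y K b, Real.exp (th σ * tau y' n) ^ s ≤ U b := by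
      have e4 : ∑ n ∈ Pre y' y K b, Real.exp (th σ * tau y' n) ^ s ≤
          ∑ n ∈ Pre y' y K b, Real.exp (th σ' * tau y' n) := by
        apply sum_le_sum
        intro n _
        rw [← Real.exp_mul]
        apply Real.exp_le_exp.2
        calc th σ * (tau y' n : ℝ) * s = s * th σ * tau y' n := by ring
          _ ≤ th σ' * tau y' n := mul_le_mul_of_nonneg_right hth (Nat.cast_nonneg _)
      refine e4.trans ((thm_StgB σ' y' y K b I h0 h1 hy1 (by linarith) hKy hb hI).trans ?_)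
      rw [hU, ← hQ]
      have : 0 < Q ^ (1 + kap σ') := by positivity
      simp only
      apply mul_le_mul_of_nonneg_left _ (by positivity)
      linarith
    have e5 : 0 ≤ ∑ n ∈ Pre y' y K b, Real.exp (th σ * tau y' n) ^ s :=
      sum_nonneg fun n _ => Real.rpow_nonneg (Real.exp_pos _).le _
    have e6 : (0 : ℝ) ≤ (P - 1) / P := by positivity
    have e7 : V b = ∑ n ∈ Pre y' y K b, W n ^ P := by rw [hV]
    rw [← e7]
    exact mul_le_mul_of_nonneg_right (Real.rpow_le_rpow e5 e3 e6) (Real.rpow_nonneg (hV0 b) _)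
  have hmain := holder_two (Lv y') W' U V hp hpP (fun b hb => (hW' b hb).1) (fun b _ => hU0 b)
    (fun b _ => hV0 b) hone
  refine hmain.trans ?_
  -- the sum of the V
  have hVs : ∑ b ∈ Lv y', V b ≤ y * N ^ P := by
    have hdisj : ∀ b ∈ Lv y', ∀ b' ∈ Lv y', b ≠ b' →
        Disjoint (Pre y' y K b) (Pre y' y K b') := by
      intro b _ b' _ hbb
      rw [Finset.disjoint_left]
      intro n hn hn'
      rw [mem_Pre hy0.le] at hn hn'
      obtain ⟨_, _, k, hk, _⟩ := hn
      obtain ⟨_, _, k', hk', _⟩ := hn'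
      exact hbb (hk.unique hk').2
    have e1 : ∑ b ∈ Lv y', V b = ∑ n ∈ (Lv y').biUnion (Pre y' y K), W n ^ P := by
      rw [sum_biUnion hdisj, hV]
    rw [e1]
    refine le_trans ?_ hWP
    have e2 : ∑ n ∈ (Lv y').biUnion (Pre y' y K), W n ^ P ≤
        ∑ n ∈ range (⌊y⌋₊ + 1), W n ^ P := by
      apply sum_le_sum_of_subset_of_nonneg _ fun n _ _ => Real.rpow_nonneg (hW0 n) _
      intro n hn
      rw [mem_biUnion] at hn
      obtain ⟨b, _, hn⟩ := hn
      rw [mem_Pre hy0.le] at hn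
      rw [mem_range, Nat.lt_succ_iff, Nat.le_floor_iff hy0.le]
      exact hn.1
    refine e2.trans (le_of_eq ?_)
    symm
    apply sum_subset (filter_subset _ _)
    intro n _ hn
    rw [hWL n hn, Real.zero_rpow hP0.ne']
  -- the sum of the U
  obtain ⟨e, he⟩ : ∃ e : ℝ, e = p * (P - 1) / (P - p) := ⟨_, rfl⟩
  have he1 : 1 ≤ e := by
    rw [he, le_div_iff₀ hPp]
    nlinarith
  have he0 : 0 < e := by linarith
  rw [← he] at hq ⊢
  obtain ⟨C, hC⟩ : ∃ C : ℝ, C = 32 * Q ^ (1 + kap σ') := ⟨_, rfl⟩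
  have hC0 : 0 < C := by rw [hC]; positivity
  have hUs : ∑ b ∈ Lv y', U b ^ e ≤ y' * (C * B) ^ e := by
    have e1 : ∑ b ∈ Lv y', U b ^ e = C ^ e * ∑ b ∈ Lv y', (1 + F σ' I K b) ^ e := by
      rw [mul_sum]
      apply sum_congr rfl
      intro b _
      rw [hU, ← hC]
      exact Real.mul_rpow hC0.le (by have := F_nonneg h0.le I K b; linarith)
    have hP' : Per K (fun x => (1 + F σ' I K x) ^ e) := by
      intro x t
      simp only
      rw [Per_F σ' I K x t]
    have e2 := thm_Equid y' K (fun x => (1 + F σ' I K x) ^ e)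
      (fun x => Real.rpow_nonneg (by have := F_nonneg h0.le I K x; linarith) _) hP' hKy'
    have e3 := A_rpow_le (K := K) (f := fun x => 1 + F σ' I K x)
      (fun x => by have := F_nonneg h0.le I K x; linarith) he0 hq (by linarith) (hF I)
    rw [e1, Real.mul_rpow hC0.le (by linarith)]
    calc C ^ e * ∑ b ∈ Lv y', (1 + F σ' I K b) ^ e
        ≤ C ^ e * (y' * A K fun x => (1 + F σ' I K x) ^ e) :=
          mul_le_mul_of_nonneg_left e2 (by positivity)
      _ ≤ C ^ e * (y' * B ^ e) := by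
          apply mul_le_mul_of_nonneg_left _ (by positivity)
          exact mul_le_mul_of_nonneg_left e3 hy'0.le
      _ = _ := by ring
  have hVs0 : 0 ≤ ∑ b ∈ Lv y', V b := sum_nonneg fun b _ => hV0 b
  have hUs0 : 0 ≤ ∑ b ∈ Lv y', U b ^ e := sum_nonneg fun b _ => Real.rpow_nonneg (hU0 b) _
  have hCB0 : 0 < C * B := by positivity
  have hNP : 0 ≤ N ^ P := Real.rpow_nonneg hN _
  rw [← hQ]
  calc (∑ b ∈ Lv y', U b ^ e) ^ ((P - p) / P) * (∑ b ∈ Lv y', V b) ^ (p / P)
      ≤ (y' * (C * B) ^ e) ^ ((P - p) / P) * (y * N ^ P) ^ (p / P) :=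
        mul_le_mul (Real.rpow_le_rpow hUs0 hUs (by positivity))
          (Real.rpow_le_rpow hVs0 hVs (by positivity)) (Real.rpow_nonneg hVs0 _) (by positivity)
    _ = y' * ((C * B) ^ (1 / s) * Q ^ (1 / P) * N) ^ p := by
        have hyQ : y = Q * y' := by rw [hQ]; field_simp
        rw [hyQ]
        exact holder_alg hy'0 hCB0 hQ0 hN hp hpP hs he
    _ ≤ y' * (32 * B * Q ^ (1 + kap σ' / s) * N) ^ p := by
        apply mul_le_mul_of_nonneg_left _ hy'0.le
        apply Real.rpow_le_rpow (by positivity) _ hp0.le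
        apply mul_le_mul_of_nonneg_right _ hN
        have e1 : C * B = 32 * B * Q ^ (1 + kap σ') := by rw [hC]; ring
        have hs1 : 1 / s ≤ 1 := by
          rw [div_le_one hs0, hs, le_div_iff₀ hP1]
          linarith
        rw [e1, Real.mul_rpow (by positivity) (by positivity), ← Real.rpow_mul hQ0.le, mul_assoc,
          ← Real.rpow_add hQ0]
        have e2 : (1 + kap σ') * (1 / s) + 1 / P = 1 + kap σ' / s := by
          rw [hs]
          field_simp
          ring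
        rw [e2]
        apply mul_le_mul_of_nonneg_right _ (by positivity)
        calc (32 * B) ^ (1 / s) ≤ (32 * B) ^ (1 : ℝ) :=
              Real.rpow_le_rpow_of_exponent_le (by linarith) hs1
          _ = 32 * B := Real.rpow_one _

end Pool.Agent.UTL
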