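import Pool.Agent.UTL.Wrd
import Pool.Agent.UTL.Num
import Pool.Agent.UTL.Cut

set_option autoImplicit false

/-! The exponential moment of one stage at a fixed passage point. -/

namespace Pool.Agent.UTL

open Finset
open Pool.Agent.Collatz3 (cw)
open Pool.Agent.Collatz3.Mix (words mem_words)
open Pool.Agent.Collatz3.PD (rd en rd_append en_append en_spec rd_nil en_nil)
open Pool.Agent.Helper27 (T J two_mul_T J_add)

theorem Pas.tau_eq {y : ℝ} {n k b : ℕ} (h : Pas y n k b) : tau y n = k := by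
  obtain ⟨h1, h2, h3⟩ := h
  unfold tau
  have hl : IsLeast {k : ℕ | (T^[k] n : ℝ) ≤ y} k := by
    constructor
    · change (T^[k] n : ℝ) ≤ y
      rw [h1]
      exact h2
    · intro j hj
      by_contra hc
      push Not at hc
      exact absurd (h3 j hc) (not_lt.2 hj)
  exact hl.csInf_eq

theorem Pas.trans {y y' : ℝ} (hy : y' ≤ y) {n k b k' b' : ℕ} (h : Pas y n k b)
    (h' : Pas y' b k' b') : Pas y' n (k' + k) b' := by
  obtain ⟨h1, h2, h3⟩ := h
  obtain ⟨h4, h5, h6⟩ := h'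
  refine ⟨by rw [Function.iterate_add_apply, h1, h4], h5, ?_⟩
  intro j hj
  rcases lt_or_ge j k with h7 | h7
  · exact hy.trans_lt (h3 j h7)
  · obtain ⟨i, rfl⟩ := Nat.exists_eq_add_of_le h7
    rw [add_comm k i, Function.iterate_add_apply, h1]
    exact h6 i (by omega)

theorem Pas.unique {y : ℝ} {n k b k' b' : ℕ} (h : Pas y n k b) (h' : Pas y n k' b') :
    k = k' ∧ b = b' := by
  have h1 : k = k' := by rw [← h.tau_eq, ← h'.tau_eq]
  refine ⟨h1, ?_⟩
  rw [← h.1, ← h'.1, h1]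

theorem mem_Lv {y : ℝ} {b : ℕ} (hy : 0 ≤ y) : b ∈ Lv y ↔ (b : ℝ) ≤ y ∧ y / 2 < b := by
  unfold Lv
  rw [mem_filter, mem_range, Nat.lt_succ_iff, Nat.le_floor_iff hy]

theorem mem_Pre {y X : ℝ} (hX : 0 ≤ X) {K b n : ℕ} : n ∈ Pre y X K b ↔
    (n : ℝ) ≤ X ∧ 1 ≤ n ∧ ∃ k, Pas y n k b ∧ J k n ≤ K := by
  classical
  unfold Pre
  rw [mem_filter, mem_range, Nat.lt_succ_iff, Nat.le_floor_iff hX]

theorem sum_le_cover {ι κ : Type*} [DecidableEq ι] (P : Finset ι) (Q : Finset κ) (f : ι → ℝ)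
    (g : κ → ℝ) (N : κ → ι) (hg : ∀ p ∈ Q, 0 ≤ g p)
    (h : ∀ n ∈ P, ∃ p ∈ Q, N p = n ∧ f n ≤ g p) : ∑ n ∈ P, f n ≤ ∑ p ∈ Q, g p := by
  have h1 : ∀ n ∈ P, f n ≤ ∑ p ∈ Q, if N p = n then g p else 0 := by
    intro n hn
    obtain ⟨p, hp, hN, hf⟩ := h n hn
    refine hf.trans ?_
    have h2 := single_le_sum (f := fun p => if N p = n then g p else 0) (s := Q)
      (fun p hp => by
        split_ifs
        exacts [hg p hp, le_rfl]) hp
    rwa [if_pos hN] at h2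
  refine (sum_le_sum h1).trans ?_
  rw [sum_comm]
  apply sum_le_sum
  intro p hp
  rw [sum_ite_eq]
  split_ifs
  exacts [le_rfl, hg p hp]

theorem kap_nonneg {σ : ℝ} (h : 0 ≤ σ) : 0 ≤ kap σ :=
  div_nonneg (Real.log_nonneg (two_exp_sub_one_pos h)) (Real.log_nonneg (by norm_num))

theorem kap_le_one {σ : ℝ} (h0 : 0 ≤ σ) (h1 : σ ≤ 1 / 100) : kap σ ≤ 1 := by
  unfold kap
  rw [div_le_one (by linarith [one_lt_log_three])]
  have := (thm_Alg σ h0).2.2
  linarith [one_lt_log_three]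

theorem three_pow_kap {σ : ℝ} (h : 0 ≤ σ) (j : ℕ) :
    ((3 : ℝ) ^ j) ^ kap σ = (2 * Real.exp σ - 1) ^ j := by
  have h1 := two_exp_sub_one_pos h
  have h3 : (0 : ℝ) < Real.log 3 := by linarith [one_lt_log_three]
  rw [← Real.rpow_natCast, ← Real.rpow_mul (by norm_num), Real.rpow_def_of_pos (by norm_num),
    ← Real.rpow_natCast, Real.rpow_def_of_pos (by linarith)]
  congr 1
  unfold kap
  field_simp

theorem exp_th_le {σ Q : ℝ} (h0 : 0 ≤ σ) {k j S z : ℕ} (hk : S + z = k)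
    (hQ : 0 < Q) (h : (2 : ℝ) ^ k ≤ 4 * 3 ^ j * Q) :
    Real.exp (th σ * k) ≤ 4 ^ (1 + kap σ) * Q ^ (1 + kap σ) *
      (3 ^ j * ((2 * Real.exp σ - 1) ^ j * zz σ ^ S)) * zz σ ^ z := by
  have hkap := kap_nonneg h0
  have h1 := two_exp_sub_one_pos h0
  have hzz := zz_pos σ
  have e1 : Real.exp (th σ * k) = ((2 : ℝ) ^ k) ^ kap σ * ((2 : ℝ) ^ k * zz σ ^ k) := by
    rw [← mul_pow]
    have : 2 * zz σ = Real.exp (-σ) := by unfold zz; ring
    rw [this, ← Real.exp_nat_mul, ← Real.rpow_natCast, ← Real.rpow_mul (by norm_num),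
      Real.rpow_def_of_pos (by norm_num), ← Real.exp_add]
    congr 1
    unfold th
    ring
  have e2 : ((2 : ℝ) ^ k) ^ kap σ ≤ (4 * 3 ^ j * Q) ^ kap σ :=
    Real.rpow_le_rpow (by positivity) h hkap
  have e3 : (4 * 3 ^ j * Q) ^ kap σ = 4 ^ kap σ * (2 * Real.exp σ - 1) ^ j * Q ^ kap σ := by
    rw [Real.mul_rpow (by positivity) hQ.le, Real.mul_rpow (by norm_num) (by positivity),
      three_pow_kap h0]
  have e4 : (4 : ℝ) ^ (1 + kap σ) = 4 * 4 ^ kap σ := by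
    rw [Real.rpow_add (by norm_num), Real.rpow_one]
  have e5 : Q ^ (1 + kap σ) = Q * Q ^ kap σ := by
    rw [Real.rpow_add hQ, Real.rpow_one]
  rw [e1]
  calc ((2 : ℝ) ^ k) ^ kap σ * ((2 : ℝ) ^ k * zz σ ^ k)
      ≤ (4 ^ kap σ * (2 * Real.exp σ - 1) ^ j * Q ^ kap σ) * ((4 * 3 ^ j * Q) * zz σ ^ k) := by
        rw [← e3]
        exact mul_le_mul e2 (mul_le_mul_of_nonneg_right h (by positivity)) (by positivity)
          (by positivity)
    _ = _ := by
        rw [e4, e5, ← hk, pow_add]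
        ring

theorem sum_geom_le {η : ℝ} (h0 : 0 ≤ η) (h1 : η < 1) (n : ℕ) :
    ∑ r ∈ range n, η ^ r ≤ 1 / (1 - η) := by
  rw [le_div_iff₀ (by linarith)]
  have h := geom_sum_mul η n
  have h2 : 0 ≤ η ^ n := pow_nonneg h0 n
  nlinarith

theorem sum_zz_le {σ : ℝ} (h0 : 0 ≤ σ) (n : ℕ) : ∑ z ∈ range n, zz σ ^ z ≤ 2 := by
  have h1 := sum_geom_le (zz_pos σ).le (lt_of_le_of_lt (zz_le h0) (by norm_num)) n
  refine h1.trans ?_
  have h2 := zz_le h0
  rw [div_le_iff₀ (by linarith)]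
  linarith

theorem thm_StgB : St_StgB := by
  classical
  intro σ y X K b I h0 h1 hy hyX hK hb hI
  have hy0 : 0 < y := by linarith
  have hX0 : 0 < X := by linarith
  rw [mem_Lv hy0.le] at hb
  obtain ⟨hb1, hb2⟩ := hb
  have hb0 : (0 : ℝ) < b := by linarith
  obtain ⟨Q, hQ⟩ : ∃ Q : ℝ, Q = X / y := ⟨_, rfl⟩
  have hQ0 : 0 < Q := by rw [hQ]; positivity
  rw [← hQ] at hI ⊢
  obtain ⟨G, hG⟩ : ∃ G : Finset (List ℕ), G = (range (K + 1)).biUnion
    fun j => (BW I j).filter (fun w => rd w b) := ⟨_, rfl⟩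
  have hkap0 := kap_nonneg h0.le
  have hkap1 := kap_le_one h0.le h1
  obtain ⟨C, hC⟩ : ∃ C : ℝ, C = 4 ^ (1 + kap σ) * Q ^ (1 + kap σ) := ⟨_, rfl⟩
  have hC0 : 0 ≤ C := by rw [hC]; positivity
  have hcov := sum_le_cover (Pre y X K b) (G ×ˢ range (I + 1))
    (fun n => Real.exp (th σ * tau y n))
    (fun p => C * (3 ^ p.1.length * wt σ p.1) * zz σ ^ p.2)
    (fun p => ((2 : ℤ) ^ p.2 * en p.1 b).toNat)
    (fun p _ => by
      have := wt_nonneg h0.le p.1
      have := zz_pos σ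
      positivity) (by
      intro n hn
      rw [mem_Pre hX0.le] at hn
      obtain ⟨hn1, hn2, k, hP, hJ⟩ := hn
      obtain ⟨w, z, w1, w2, w3, w4, w5, w6, w7⟩ := thm_Wrd y n k b hn2 hP
        (le_trans (by exact_mod_cast hJ) hK)
      have hk : (2 : ℝ) ^ k ≤ 4 * 3 ^ (J k n) * Q := by
        have e1 : (2 : ℝ) ^ k * (y / 2) ≤ 2 * 3 ^ (J k n) * X := by
          calc (2 : ℝ) ^ k * (y / 2) ≤ 2 ^ k * b := mul_le_mul_of_nonneg_left hb2.le (by positivity)
            _ ≤ 2 * 3 ^ (J k n) * n := w7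
            _ ≤ 2 * 3 ^ (J k n) * X := mul_le_mul_of_nonneg_left hn1 (by positivity)
        rw [hQ, ← mul_div_assoc, le_div_iff₀ hy0]
        linarith
      have hkI : k ≤ I := by
        have e1 : (2 : ℝ) ^ k ≤ 2 ^ I := by
          refine hk.trans (le_trans ?_ hI)
          apply mul_le_mul_of_nonneg_right _ hQ0.le
          apply mul_le_mul_of_nonneg_left _ (by norm_num)
          exact pow_le_pow_right₀ (by norm_num) hJ
        exact (pow_le_pow_iff_right₀ (by norm_num)).1 e1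
      refine ⟨(w, z), ?_, ?_, ?_⟩
      · rw [mem_product, hG, mem_biUnion, mem_range]
        refine ⟨⟨w.length, ?_, ?_⟩, by simp only; omega⟩
        · rw [mem_range, w1]
          omega
        · rw [mem_filter, mem_BW, mem_words]
          refine ⟨⟨⟨rfl, fun i hi => ⟨w2 i hi, ?_⟩⟩, w6⟩, w4⟩
          have h9 : i ≤ w.sum := List.single_le_sum (fun _ _ => Nat.zero_le _) i hi
          omega
      · simp only
        rw [w5]
        simp
      · simp only
        rw [hP.tau_eq, hC, w1]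
        unfold wt
        rw [w1]
        exact exp_th_le h0.le w3 hQ0 hk)
  refine hcov.trans ?_
  rw [sum_product]
  have h2 : ∀ w ∈ G, ∑ z ∈ range (I + 1), C * (3 ^ w.length * wt σ w) * zz σ ^ z ≤
      C * 2 * (3 ^ w.length * wt σ w) := by
    intro w _
    rw [← mul_sum]
    have := wt_nonneg h0.le w
    calc C * (3 ^ w.length * wt σ w) * ∑ z ∈ range (I + 1), zz σ ^ z
        ≤ C * (3 ^ w.length * wt σ w) * 2 :=
          mul_le_mul_of_nonneg_left (sum_zz_le h0.le _) (by positivity)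
      _ = _ := by ring
  refine (sum_le_sum h2).trans ?_
  rw [← mul_sum]
  have h3 : ∑ w ∈ G, 3 ^ w.length * wt σ w ≤ F σ I K b := by
    rw [hG]
    refine (sum_biUnion_le' _ _ _ fun w => mul_nonneg (by positivity) (wt_nonneg h0.le w)).trans ?_
    unfold F Z Et
    apply le_of_eq
    apply sum_congr rfl
    intro j _
    apply sum_congr rfl
    intro w _
    rw [mul_one]
  have h4 : C * 2 ≤ 32 * Q ^ (1 + kap σ) := by
    have e1 : (4 : ℝ) ^ (1 + kap σ) ≤ 16 := by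
      calc (4 : ℝ) ^ (1 + kap σ) ≤ 4 ^ (2 : ℝ) :=
            Real.rpow_le_rpow_of_exponent_le (by norm_num) (by linarith)
        _ = 16 := by norm_num
    have e2 : 0 < Q ^ (1 + kap σ) := by positivity
    rw [hC]
    nlinarith
  have hF0 : 0 ≤ F σ I K b := sum_nonneg fun j _ => Z_nonneg h0.le _ _ _
  calc C * 2 * ∑ w ∈ G, 3 ^ w.length * wt σ w ≤ C * 2 * F σ I K b :=
        mul_le_mul_of_nonneg_left h3 (by positivity)
    _ ≤ _ := mul_le_mul_of_nonneg_right h4 hF0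

end Pool.Agent.UTL
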