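import Pool.Agent.UTL.Block

set_option autoImplicit false

/-! The upper bound. -/

namespace Pool.Agent.UTL

open Finset
open Pool.Agent.Helper27 (T J)

/-- `log (4/3)` -/
noncomputable def aA : ℝ := Real.log (4 / 3)

theorem aA_eq : aA = 2 * Real.log 2 - Real.log 3 := by
  unfold aA
  rw [Real.log_div (by norm_num) (by norm_num)]
  have : Real.log 4 = 2 * Real.log 2 := by
    rw [show (4 : ℝ) = 2 ^ 2 by norm_num, Real.log_pow]
    norm_num
  rw [this]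

theorem aA_pos : 0 < aA := Real.log_pos (by norm_num)

theorem aA_lt : aA < 1 := by
  unfold aA
  have := Real.log_le_sub_one_of_pos (by norm_num : (0 : ℝ) < 4 / 3)
  linarith

theorem VV_eq : VV = 2 * Real.log 3 ^ 2 / aA ^ 3 := rfl

theorem VV_ge_one : 1 ≤ VV := by
  rw [VV_eq, le_div_iff₀ (pow_pos aA_pos 3), one_mul]
  have h1 : aA ^ 3 ≤ 1 := pow_le_one₀ aA_pos.le aA_lt.le
  have h2 := one_lt_log_three
  nlinarith

theorem exp_th_bound {σ L t : ℝ} (hσ : 0 ≤ σ) (hL : 0 < L) (ht : 0 ≤ t)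
    (hσt : σ = aA ^ 2 / (2 * Real.log 3) * (t / L)) :
    kap σ * L - th σ * (g1 * L + t) ≤ -(t ^ 2 / (2 * VV * L)) + t / L * (t ^ 2 / (2 * VV * L)) := by
  have hA := aA_pos
  have hA1 := aA_lt
  have hl3 : 0 < Real.log 3 := by linarith [one_lt_log_three]
  have hl2 : 0 < Real.log 2 := Real.log_pos (by norm_num)
  obtain ⟨f, hf⟩ : ∃ f : ℝ, f = Real.log (2 * Real.exp σ - 1) := ⟨_, rfl⟩
  have hf1 : 2 * σ - σ ^ 2 ≤ f := by rw [hf]; exact (thm_Alg σ hσ).1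
  have hl3' : Real.log 3 = 2 * Real.log 2 - aA := by rw [aA_eq]; ring
  have hl2' : 2 * Real.log 2 = aA + Real.log 3 := by rw [aA_eq]; ring
  have e1 : kap σ * L - th σ * (g1 * L + t) =
      -f * (L / aA + Real.log 2 / Real.log 3 * t) + σ * (2 * L / aA + t) := by
    have hg : g1 = 2 / aA := rfl
    rw [th_eq, kap, ← hf, hg]
    have : Real.log 2 = (aA + Real.log 3) / 2 := by linarith
    rw [this]
    field_simp
    ring
  have e2 : 0 ≤ L / aA + Real.log 2 / Real.log 3 * t := by positivity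
  have e3 : -f * (L / aA + Real.log 2 / Real.log 3 * t) ≤
      -(2 * σ - σ ^ 2) * (L / aA + Real.log 2 / Real.log 3 * t) :=
    mul_le_mul_of_nonneg_right (by linarith) e2
  have e4 : -(2 * σ - σ ^ 2) * (L / aA + Real.log 2 / Real.log 3 * t) + σ * (2 * L / aA + t) =
      σ ^ 2 * (L / aA) - σ * t * (aA / Real.log 3) + σ ^ 2 * t * (Real.log 2 / Real.log 3) := by
    have : Real.log 2 = (aA + Real.log 3) / 2 := by linarith
    rw [this]
    field_simp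
    ring
  obtain ⟨E, hE⟩ : ∃ E : ℝ, E = t ^ 2 / (2 * VV * L) := ⟨_, rfl⟩
  have hE0 : 0 ≤ E := by
    rw [hE]
    have := VV_ge_one
    positivity
  have hEv : E = aA ^ 3 * t ^ 2 / (4 * Real.log 3 ^ 2 * L) := by
    rw [hE, VV_eq]
    field_simp
    ring
  have e5 : σ ^ 2 * (L / aA) = E := by
    rw [hEv, hσt]
    field_simp
    ring
  have e6 : σ * t * (aA / Real.log 3) = 2 * E := by
    rw [hEv, hσt]
    field_simp
    ring
  have e7 : σ ^ 2 * t * (Real.log 2 / Real.log 3) = t / L * E * (aA * Real.log 2 / Real.log 3) := by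
    rw [← e5]
    field_simp
  have e8 : aA * Real.log 2 / Real.log 3 ≤ 1 := by
    rw [div_le_one hl3]
    have h2 := Real.log_two_lt_d9
    have h3 := one_lt_log_three
    nlinarith
  have e9 : t / L * E * (aA * Real.log 2 / Real.log 3) ≤ t / L * E * 1 :=
    mul_le_mul_of_nonneg_left e8 (by positivity)
  rw [← hE, e1]
  linarith

theorem th_pos {σ : ℝ} (h0 : 0 < σ) (h1 : σ ≤ 1 / 200) : 0 < th σ := by
  have h := (thm_Num 1 σ (1 * σ + 3 * 1 * (1 - 1) * σ ^ 2 + 3 * 1 * σ ^ 3) le_rfl h0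
    (by rw [one_mul]; exact h1) rfl).2.2.2
  exact h

theorem exists_level {x : ℝ} {n : ℕ} (hn : 1 ≤ n) (hx : (n : ℝ) ≤ x) :
    ∃ j : ℕ, (2 : ℝ) ^ j ≤ x ∧ n ∈ Lv (x / 2 ^ j) := by
  classical
  have hn0 : (1 : ℝ) ≤ n := by exact_mod_cast hn
  have hx0 : 0 < x := by linarith
  have hex : ∃ j : ℕ, x / 2 ^ (j + 1) < n := by
    obtain ⟨j, hj⟩ := pow_unbounded_of_one_lt x (by norm_num : (1 : ℝ) < 2)
    refine ⟨j, ?_⟩
    rw [div_lt_iff₀ (by positivity)]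
    have : (2 : ℝ) ^ j ≤ 2 ^ (j + 1) := pow_le_pow_right₀ (by norm_num) (by omega)
    have h2 : (0 : ℝ) < 2 ^ (j + 1) := by positivity
    nlinarith
  obtain ⟨j, hj, hmin⟩ : ∃ j, x / 2 ^ (j + 1) < (n : ℝ) ∧ ∀ j' < j, ¬ x / 2 ^ (j' + 1) < (n : ℝ) :=
    ⟨Nat.find hex, Nat.find_spec hex, fun j' h => Nat.find_min hex h⟩
  have h1 : (n : ℝ) ≤ x / 2 ^ j := by
    rcases j with _ | j
    · simpa using hx
    · exact not_lt.1 (hmin j (by omega))
  refine ⟨j, ?_, ?_⟩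
  · have h2 : (0 : ℝ) < 2 ^ j := by positivity
    rw [le_div_iff₀ h2] at h1
    nlinarith
  · rw [mem_Lv (by positivity)]
    refine ⟨h1, ?_⟩
    rw [div_div, ← pow_succ]
    exact hj

theorem tau_spec {M : ℝ} {n : ℕ} (h : ∃ k : ℕ, (T^[k] n : ℝ) ≤ M) : (T^[tau M n] n : ℝ) ≤ M :=
  Nat.sInf_mem (s := {k : ℕ | (T^[k] n : ℝ) ≤ M}) h

open Classical in
/-- the count in one block -/
theorem block_count {X M s θ b m : ℝ} {G : Finset ℕ} (hθ : 0 ≤ θ)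
    (h1 : ∀ n ∈ G, ∃ k : ℕ, (T^[k] n : ℝ) ≤ M) (h2 : ((Lv X \ G).card : ℝ) ≤ b)
    (h3 : ∑ n ∈ G, Real.exp (θ * tau M n) ≤ m) :
    (((Lv X).filter fun n => ∀ k : ℕ, (k : ℝ) ≤ s → M < (T^[k] n : ℝ)).card : ℝ) ≤
      b + Real.exp (-(θ * s)) * m := by
  have hsub : (Lv X).filter (fun n => ∀ k : ℕ, (k : ℝ) ≤ s → M < (T^[k] n : ℝ)) ⊆
      (Lv X \ G) ∪ G.filter (fun n => ∀ k : ℕ, (k : ℝ) ≤ s → M < (T^[k] n : ℝ)) := by
    intro n hn
    rw [mem_filter] at hn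
    rw [mem_union, mem_sdiff, mem_filter]
    by_cases h : n ∈ G
    · exact Or.inr ⟨h, hn.2⟩
    · exact Or.inl ⟨hn.1, h⟩
  have h4 : (((Lv X).filter fun n => ∀ k : ℕ, (k : ℝ) ≤ s → M < (T^[k] n : ℝ)).card : ℝ) ≤
      ((Lv X \ G).card : ℝ) +
        ((G.filter fun n => ∀ k : ℕ, (k : ℝ) ≤ s → M < (T^[k] n : ℝ)).card : ℝ) := by
    exact_mod_cast (card_le_card hsub).trans (card_union_le _ _)
  refine h4.trans (add_le_add h2 ?_)
  have h5 : ((G.filter fun n => ∀ k : ℕ, (k : ℝ) ≤ s → M < (T^[k] n : ℝ)).card : ℝ) ≤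
      ∑ n ∈ G.filter (fun n => ∀ k : ℕ, (k : ℝ) ≤ s → M < (T^[k] n : ℝ)),
        Real.exp (-(θ * s)) * Real.exp (θ * tau M n) := by
    rw [card_eq_sum_ones]
    push_cast
    apply sum_le_sum
    intro n hn
    rw [mem_filter] at hn
    have h6 := tau_spec (h1 n hn.1)
    have h7 : s < tau M n := by
      by_contra hc
      push Not at hc
      exact absurd (hn.2 _ hc) (not_lt.2 h6)
    rw [← Real.exp_add]
    apply Real.one_le_exp
    have : θ * s ≤ θ * tau M n := mul_le_mul_of_nonneg_left h7.le hθ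
    linarith
  refine h5.trans ?_
  rw [← mul_sum]
  apply mul_le_mul_of_nonneg_left _ (Real.exp_pos _).le
  refine le_trans ?_ h3
  exact sum_le_sum_of_subset_of_nonneg (filter_subset _ _) fun _ _ _ => (Real.exp_pos _).le

open Classical in
/-- the sum over the blocks -/
theorem Nx_le_blocks {x M s Y β : ℝ} (hx : 0 < x) (hY : 0 ≤ Y) (hβ : 0 ≤ β)
    (h : ∀ X : ℝ, Y ≤ X → X ≤ x →
      (((Lv X).filter fun n => ∀ k : ℕ, (k : ℝ) ≤ s → M < (T^[k] n : ℝ)).card : ℝ) ≤ X * β) :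
    (Nx x M s : ℝ) ≤ 2 * x * β + Y := by
  obtain ⟨N, hN⟩ := pow_unbounded_of_one_lt x (by norm_num : (1 : ℝ) < 2)
  obtain ⟨S, hS⟩ : ∃ S : Finset ℕ, S = (range N).filter fun j => Y ≤ x / 2 ^ j := ⟨_, rfl⟩
  obtain ⟨W, hW⟩ : ∃ W : Finset ℕ, W = S.biUnion (fun j => (Lv (x / 2 ^ j)).filter
    fun n => ∀ k : ℕ, (k : ℝ) ≤ s → M < (T^[k] n : ℝ)) ∪ Icc 1 ⌊Y⌋₊ := ⟨_, rfl⟩
  have hsub : {n : ℕ | 1 ≤ n ∧ (n : ℝ) ≤ x ∧ ∀ k : ℕ, (k : ℝ) ≤ s → M < (T^[k] n : ℝ)} ⊆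
      (W : Set ℕ) := by
    rintro n ⟨h1, h2, h3⟩
    rw [mem_coe, hW, mem_union]
    rcases le_or_gt (n : ℝ) Y with h4 | h4
    · right
      rw [mem_Icc, Nat.le_floor_iff hY]
      exact ⟨h1, h4⟩
    · left
      obtain ⟨j, hj1, hj2⟩ := exists_level h1 h2
      rw [mem_biUnion]
      refine ⟨j, ?_, ?_⟩
      · rw [hS, mem_filter, mem_range]
        constructor
        · have h5 : (2 : ℝ) ^ j < 2 ^ N := lt_of_le_of_lt hj1 hN
          exact (pow_lt_pow_iff_right₀ (by norm_num)).1 h5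
        · rw [mem_Lv (by positivity)] at hj2
          linarith [hj2.1]
      · rw [mem_filter]
        exact ⟨hj2, h3⟩
  have h1 : Nx x M s ≤ W.card := by
    unfold Nx
    rw [← Set.ncard_coe_finset]
    exact Set.ncard_le_ncard hsub (Finset.finite_toSet W)
  have h2 : W.card ≤ (∑ j ∈ S, ((Lv (x / 2 ^ j)).filter
      fun n => ∀ k : ℕ, (k : ℝ) ≤ s → M < (T^[k] n : ℝ)).card) + ⌊Y⌋₊ := by
    rw [hW]
    refine (card_union_le _ _).trans ?_
    apply Nat.add_le_add card_biUnion_le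
    rw [Nat.card_Icc]
    omega
  have h3 : (Nx x M s : ℝ) ≤ (∑ j ∈ S, (((Lv (x / 2 ^ j)).filter
      fun n => ∀ k : ℕ, (k : ℝ) ≤ s → M < (T^[k] n : ℝ)).card : ℝ)) + ⌊Y⌋₊ := by
    exact_mod_cast h1.trans h2
  refine h3.trans (add_le_add ?_ (Nat.floor_le hY))
  have h4 : ∀ j ∈ S, (((Lv (x / 2 ^ j)).filter
      fun n => ∀ k : ℕ, (k : ℝ) ≤ s → M < (T^[k] n : ℝ)).card : ℝ) ≤ x * β * (1 / 2) ^ j := by
    intro j hj
    rw [hS, mem_filter] at hj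
    have h5 : x / 2 ^ j ≤ x := div_le_self hx.le (one_le_pow₀ (by norm_num))
    refine (h _ hj.2 h5).trans (le_of_eq ?_)
    rw [one_div, inv_pow]
    field_simp
  refine (sum_le_sum h4).trans ?_
  rw [← mul_sum]
  have h5 : ∑ j ∈ S, (1 / 2 : ℝ) ^ j ≤ 2 := by
    have h6 : ∑ j ∈ S, (1 / 2 : ℝ) ^ j ≤ ∑ j ∈ range N, (1 / 2 : ℝ) ^ j := by
      rw [hS]
      exact sum_le_sum_of_subset_of_nonneg (filter_subset _ _) fun _ _ _ => by positivity
    have h7 := sum_geom_le (η := 1 / 2) (by norm_num) (by norm_num) N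
    refine h6.trans (h7.trans ?_)
    norm_num
  calc x * β * ∑ j ∈ S, (1 / 2 : ℝ) ^ j ≤ x * β * 2 := mul_le_mul_of_nonneg_left h5 (by positivity)
    _ = 2 * x * β := by ring

end Pool.Agent.UTL
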