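import Pool.Agent.UTL.Upper

set_option autoImplicit false

/-! The upper bound, numerical part. -/

namespace Pool.Agent.UTL

open Finset

theorem up1 {C lam L t V E v : ℝ} (hC : 2 ≤ C) (hV : 1 ≤ V) (hlam : 1 ≤ lam) (hL : 1 ≤ L)
    (ht : C * lam * √L ≤ t) (hCt : C * t ^ 2 ≤ v * L) (hE : E = t ^ 2 / (2 * V * L)) :
    C ≤ t ∧ 0 < E ∧ C * lam ^ 2 ≤ 2 * V * E ∧ 2 * V * C * E ≤ v ∧ C ≤ v ∧ 2 * lam ≤ v := by
  have hC0 : 0 < C := by linarith
  have hL0 : 0 < L := by linarith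
  have hV0 : 0 < V := by linarith
  have hsL1 : 1 ≤ √L := by
    rw [Real.le_sqrt' (by norm_num)]
    linarith
  have hsL2 : √L ^ 2 = L := Real.sq_sqrt hL0.le
  have hlam0 : 0 < lam := by linarith
  have h3 : C ≤ t := by
    refine le_trans ?_ ht
    have h4 : 1 ≤ lam * √L := one_le_mul_of_one_le_of_one_le hlam hsL1
    calc C = C * 1 := (mul_one C).symm
      _ ≤ C * (lam * √L) := mul_le_mul_of_nonneg_left h4 hC0.le
      _ = _ := by ring
  have ht0 : 0 < t := by linarith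
  have hEt : t ^ 2 = 2 * V * L * E := by rw [hE]; field_simp
  have hE0 : 0 < E := by rw [hE]; positivity
  have hlam2 : 1 ≤ lam ^ 2 := one_le_pow₀ hlam
  have hlamle : lam ≤ lam ^ 2 := by
    calc lam = lam ^ 1 := (pow_one _).symm
      _ ≤ lam ^ 2 := pow_le_pow_right₀ hlam (by norm_num)
  have hE1 : C ^ 2 * lam ^ 2 ≤ 2 * V * E := by
    have h1 : (C * lam * √L) ^ 2 ≤ t ^ 2 := pow_le_pow_left₀ (by positivity) ht 2
    have h2 : (C ^ 2 * lam ^ 2) * L ≤ (2 * V * E) * L := by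
      calc (C ^ 2 * lam ^ 2) * L = (C * lam * √L) ^ 2 := by rw [mul_pow, mul_pow, hsL2]
        _ ≤ t ^ 2 := h1
        _ = (2 * V * E) * L := by rw [hEt]; ring
    exact le_of_mul_le_mul_right h2 hL0
  have hCC : C ≤ C ^ 2 := by
    calc C = C ^ 1 := (pow_one _).symm
      _ ≤ C ^ 2 := pow_le_pow_right₀ (by linarith) (by norm_num)
  have hE2 : C * lam ^ 2 ≤ 2 * V * E :=
    (mul_le_mul_of_nonneg_right hCC (by positivity)).trans hE1
  have hvE : 2 * V * C * E ≤ v := by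
    have h2 : (2 * V * C * E) * L ≤ v * L := by
      calc (2 * V * C * E) * L = C * t ^ 2 := by rw [hEt]; ring
        _ ≤ v * L := hCt
    exact le_of_mul_le_mul_right h2 hL0
  have hvC : C * (C * lam ^ 2) ≤ v := by
    refine le_trans ?_ hvE
    calc C * (C * lam ^ 2) ≤ C * (2 * V * E) := mul_le_mul_of_nonneg_left hE2 hC0.le
      _ = 2 * V * C * E := by ring
  have hClam : C ≤ C * lam ^ 2 := le_mul_of_one_le_right hC0.le hlam2
  have h5 : C * lam ^ 2 * 2 ≤ C * (C * lam ^ 2) := by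
    rw [mul_comm]
    exact mul_le_mul_of_nonneg_right hC (by positivity)
  have h6 : lam ^ 2 ≤ C * lam ^ 2 := by
    calc lam ^ 2 = 1 * lam ^ 2 := (one_mul _).symm
      _ ≤ C * lam ^ 2 := mul_le_mul_of_nonneg_right (by linarith) (by positivity)
  refine ⟨h3, hE0, hE2, hvE, by linarith, by linarith⟩

theorem up2 {C r L t v u ε δ : ℝ} (hL : 0 < L) (hu : 0 < u) (hε : 0 < ε) (hδ1 : δ < 1)
    (hC : (16 / ε) ^ 2 / (1 - δ) ≤ C) (hr0 : 0 < r) (hrt : t = r * L) (hC0 : 0 < C)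
    (hCt : C * t ^ 2 ≤ v * L) (hvu : v ≤ δ * u) (hLu : (1 - δ) * u ≤ L) : r ≤ ε / 16 := by
  have hδm : 0 < 1 - δ := by linarith
  have h1 : C * r ^ 2 * L ≤ v := by
    have h2 : (C * r ^ 2 * L) * L ≤ v * L := by
      calc (C * r ^ 2 * L) * L = C * t ^ 2 := by rw [hrt]; ring
        _ ≤ v * L := hCt
    exact le_of_mul_le_mul_right h2 hL
  have h3 : C * r ^ 2 * (1 - δ) ≤ 1 := by
    have h4 : (C * r ^ 2 * (1 - δ)) * u ≤ 1 * u := by
      calc (C * r ^ 2 * (1 - δ)) * u = C * r ^ 2 * ((1 - δ) * u) := by ring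
        _ ≤ C * r ^ 2 * L := mul_le_mul_of_nonneg_left hLu (by positivity)
        _ ≤ v := h1
        _ ≤ δ * u := hvu
        _ ≤ 1 * u := mul_le_mul_of_nonneg_right hδ1.le hu.le
    exact le_of_mul_le_mul_right h4 hu
  have h5 : (16 / ε) ^ 2 * r ^ 2 ≤ 1 ^ 2 := by
    rw [div_le_iff₀ hδm] at hC
    calc (16 / ε) ^ 2 * r ^ 2 ≤ (C * (1 - δ)) * r ^ 2 :=
          mul_le_mul_of_nonneg_right hC (by positivity)
      _ = C * r ^ 2 * (1 - δ) := by ring
      _ ≤ 1 ^ 2 := by linarith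
  rw [← mul_pow] at h5
  have h6 := (pow_le_pow_iff_left₀ (by positivity) (by norm_num) (by norm_num)).1 h5
  rw [div_mul_eq_mul_div, div_le_one hε] at h6
  linarith

theorem aA_third : aA ^ 2 / (2 * Real.log 3) ≤ 1 / 18 := by
  have h1 : aA ≤ 1 / 3 := by
    unfold aA
    have := Real.log_le_sub_one_of_pos (by norm_num : (0 : ℝ) < 4 / 3)
    linarith
  have h0 := aA_pos
  have hl3 := one_lt_log_three
  rw [div_le_div_iff₀ (by positivity) (by norm_num)]
  nlinarith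

/-- the choice of the tilt -/
theorem up3 {σ L t r E u δ : ℝ} (hL : 0 < L) (ht : 0 < t) (hr : r = t / L) (hr1 : r ≤ 1 / 16)
    (hσ : σ = aA ^ 2 / (2 * Real.log 3) * (t / L)) (hE : E = t ^ 2 / (2 * VV * L))
    (hδ1 : δ < 1) (huL : u ≤ L / (1 - δ)) : 0 < σ ∧ σ ≤ 1 / 200 ∧ σ ^ 2 * u ≤ E / (1 - δ) := by
  have hA := aA_pos
  have hA1 := aA_lt
  have hl3 : 0 < Real.log 3 := by linarith [one_lt_log_three]
  have hδm : 0 < 1 - δ := by linarith
  have hr0 : 0 < r := by rw [hr]; positivity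
  have hV0 : 0 < VV := by linarith [VV_ge_one]
  have hE0 : 0 < E := by rw [hE]; positivity
  have hσE : σ ^ 2 * L = E * aA := by
    rw [hσ, hE, VV_eq]
    field_simp
  refine ⟨by rw [hσ]; positivity, ?_, ?_⟩
  · rw [hσ, ← hr]
    calc aA ^ 2 / (2 * Real.log 3) * r ≤ 1 / 18 * (1 / 16) :=
          mul_le_mul aA_third hr1 hr0.le (by norm_num)
      _ ≤ 1 / 200 := by norm_num
  · calc σ ^ 2 * u ≤ σ ^ 2 * (L / (1 - δ)) := mul_le_mul_of_nonneg_left huL (by positivity)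
      _ = E * aA / (1 - δ) := by rw [← hσE]; ring
      _ ≤ E / (1 - δ) := by
          apply div_le_div_of_nonneg_right _ hδm.le
          exact mul_le_of_le_one_right hE0.le hA1.le

/-- the error terms -/
theorem up4 {C V E lam CB ε c v : ℝ} (hV : 1 ≤ V) (hε : 0 < ε) (hε1 : ε ≤ 1) (hE0 : 0 < E)
    (hlam : 1 ≤ lam) (hc0 : 0 < c) (hCB : 0 ≤ CB) (c7 : 16 * V * CB / ε ≤ C) (c8 : 1 / c ≤ C)
    (c9 : 8 * V / ε ≤ C) (hE2 : C * lam ^ 2 ≤ 2 * V * E) (hvE : 2 * V * C * E ≤ v) :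
    CB * lam ^ 2 ≤ ε / 8 * E ∧ 4 / ε ≤ E ∧ -(v * c) + lam * CB ≤ -E := by
  have hV0 : 0 < V := by linarith
  have hC0 : 0 < C := lt_of_lt_of_le (by positivity) c8
  have hlamE : CB * lam ^ 2 ≤ ε / 8 * E := by
    rw [div_le_iff₀ hε] at c7
    have h1 : 16 * V * CB * lam ^ 2 ≤ C * ε * lam ^ 2 :=
      mul_le_mul_of_nonneg_right c7 (by positivity)
    have h2 : C * ε * lam ^ 2 ≤ ε * (2 * V * E) := by
      calc C * ε * lam ^ 2 = ε * (C * lam ^ 2) := by ring
        _ ≤ _ := mul_le_mul_of_nonneg_left hE2 hε.le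
    have h3 : V * (CB * lam ^ 2) ≤ V * (ε / 8 * E) := by linarith
    exact le_of_mul_le_mul_left h3 hV0
  have hlam2 : 1 ≤ lam ^ 2 := one_le_pow₀ hlam
  have hlamle : lam ≤ lam ^ 2 := by
    calc lam = lam ^ 1 := (pow_one _).symm
      _ ≤ lam ^ 2 := pow_le_pow_right₀ hlam (by norm_num)
  refine ⟨hlamE, ?_, ?_⟩
  · rw [div_le_iff₀ hε]
    rw [div_le_iff₀ hε] at c9
    have h0 : C ≤ C * lam ^ 2 := le_mul_of_one_le_right hC0.le hlam2
    have h1 : C ≤ 2 * V * E := h0.trans hE2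
    have h2 : 8 * V ≤ 2 * V * E * ε := c9.trans (mul_le_mul_of_nonneg_right h1 hε.le)
    have h3 : V * 4 ≤ V * (E * ε) := by linarith
    exact le_of_mul_le_mul_left h3 hV0
  · have h1 : 2 * E ≤ v * c := by
      rw [div_le_iff₀ hc0] at c8
      calc 2 * E = 2 * 1 * 1 * E := by ring
        _ ≤ 2 * V * (C * c) * E := by
            apply mul_le_mul_of_nonneg_right _ hE0.le
            apply mul_le_mul (by linarith) c8 (by norm_num) (by positivity)
        _ = (2 * V * C * E) * c := by ring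
        _ ≤ v * c := mul_le_mul_of_nonneg_right hvE hc0.le
    have h2 : lam * CB ≤ ε / 8 * E := by
      refine le_trans ?_ hlamE
      rw [mul_comm]
      exact mul_le_mul_of_nonneg_left hlamle hCB
    have h3 : ε / 8 * E ≤ 1 / 8 * E := mul_le_mul_of_nonneg_right (by linarith) hE0.le
    linarith

theorem up5 {E L r ε t V : ℝ} (hV : 1 ≤ V) (hε : 0 < ε) (hE0 : 0 < E) (hL : 0 < L)
    (hr0 : 0 < r) (hr1 : r ≤ 1) (hrt : t = r * L) (hE : E = t ^ 2 / (2 * V * L))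
    (hE4 : 4 / ε ≤ E) : Real.exp (-(L / 2)) ≤ Real.exp (-(1 - ε / 2) * E) ∧
      5 * Real.exp (-(1 - ε / 2) * E) ≤ Real.exp (-(1 - ε) * E) := by
  constructor
  · apply Real.exp_le_exp.2
    have h2 : E ≤ L / 2 := by
      rw [hE, div_le_iff₀ (by positivity), hrt]
      have h3 : r ^ 2 ≤ 1 := pow_le_one₀ hr0.le hr1
      have h4 : 0 < L ^ 2 := by positivity
      calc (r * L) ^ 2 = r ^ 2 * L ^ 2 := by ring
        _ ≤ 1 * L ^ 2 := mul_le_mul_of_nonneg_right h3 h4.le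
        _ ≤ V * L ^ 2 := mul_le_mul_of_nonneg_right hV h4.le
        _ = L / 2 * (2 * V * L) := by ring
    have h3 : 0 ≤ ε / 2 * E := by positivity
    have h5 : -(1 - ε / 2) * E = -E + ε / 2 * E := by ring
    rw [h5]
    linarith
  · have h6 : Real.exp (-(1 - ε) * E) = Real.exp (ε / 2 * E) * Real.exp (-(1 - ε / 2) * E) := by
      rw [← Real.exp_add]
      congr 1
      ring
    have h7 : 5 ≤ Real.exp (ε / 2 * E) := by
      have h8 : 2 ≤ ε / 2 * E := by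
        rw [div_le_iff₀ hε] at hE4
        linarith
      have h9 : Real.exp 2 ≤ Real.exp (ε / 2 * E) := Real.exp_le_exp.2 h8
      have h10 : Real.exp 2 = Real.exp 1 * Real.exp 1 := by rw [← Real.exp_add]; norm_num
      have h11 := Real.exp_one_gt_d9
      nlinarith
    rw [h6]
    exact mul_le_mul_of_nonneg_right h7 (Real.exp_pos _).le

/-- the first condition on the tilt -/
theorem up6 {C t L U σ : ℝ} (hL : 0 < L) (hCt : C ≤ t) (hσ0 : 0 < σ)
    (hσ : σ = aA ^ 2 / (2 * Real.log 3) * (t / L)) (c5 : 4 * Real.log 3 / aA ^ 2 ≤ C)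
    (hU : L / 2 ≤ U) : 1 ≤ σ * U := by
  have hA := aA_pos
  have hl3 : 0 < Real.log 3 := by linarith [one_lt_log_three]
  have h2 : 4 * Real.log 3 ≤ C * aA ^ 2 := by
    rw [div_le_iff₀ (by positivity)] at c5
    exact c5
  calc 1 ≤ C * aA ^ 2 / (4 * Real.log 3) := by
        rw [le_div_iff₀ (by positivity)]
        linarith
    _ ≤ t * aA ^ 2 / (4 * Real.log 3) := by
        apply div_le_div_of_nonneg_right _ (by positivity)
        exact mul_le_mul_of_nonneg_right hCt (by positivity)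
    _ = σ * (L / 2) := by
        rw [hσ]
        field_simp
        ring
    _ ≤ σ * U := mul_le_mul_of_nonneg_left hU hσ0.le

theorem up7 {δ δ' u v U : ℝ} (hδ0 : 0 < δ) (hδ' : δ' = 2 * δ / (1 + δ)) (hvu : v ≤ δ * u)
    (hU : (u + v) / 2 ≤ U) : v ≤ U * δ' := by
  rw [hδ', mul_div_assoc', le_div_iff₀ (by linarith)]
  have h1 : (u + v) / 2 * (2 * δ) ≤ U * (2 * δ) := mul_le_mul_of_nonneg_right hU (by linarith)
  have h2 : (u + v) / 2 * (2 * δ) = δ * u + v * δ := by ring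
  linarith

end Pool.Agent.UTL
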