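import Pool.Agent.UTL.Upper2

set_option autoImplicit false

/-! The upper bound, conclusion. -/

namespace Pool.Agent.UTL

open Finset
open Pool.Agent.Helper27 (T J)

theorem upper_aux (hB : St_Block) : ∀ ε δ : ℝ, 0 < ε → ε ≤ 1 → 0 < δ → δ < 1 →
    ∃ C : ℝ, 1 ≤ C ∧ ∀ x M t : ℝ, C ≤ x → 1 ≤ M → M ≤ x ^ δ →
      C * Real.log (Real.log x) * √(Real.log (x / M)) ≤ t →
        C * t ^ 2 ≤ Real.log M * Real.log (x / M) →
          (Nx x M (g1 * Real.log (x / M) + t) : ℝ) ≤
            x * Real.exp (-(1 - ε) * t ^ 2 / (2 * VV * Real.log (x / M))) := by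
  classical
  obtain ⟨c, hc0, hB⟩ := hB
  intro ε δ hε hε1 hδ hδ1
  have hδm : 0 < 1 - δ := by linarith
  obtain ⟨δ', hδ'⟩ : ∃ δ' : ℝ, δ' = 2 * δ / (1 + δ) := ⟨_, rfl⟩
  have hδ'0 : 0 < δ' := by rw [hδ']; positivity
  have hδ'1 : δ' < 1 := by rw [hδ', div_lt_one (by linarith)]; linarith
  obtain ⟨CB, hCB1, hBl⟩ := hB (ε * (1 - δ) / 8) δ' (by positivity) hδ'0 hδ'1
  have hV1 := VV_ge_one
  have hV0 : 0 < VV := by linarith
  obtain ⟨C, c1, c2, c3, c4, c5, c6, c7, c8, c9⟩ : ∃ C : ℝ, Real.exp 3 ≤ C ∧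
      Real.exp (1 / (1 - δ)) ≤ C ∧ (16 / ε) ^ 2 / (1 - δ) ≤ C ∧ CB ≤ C ∧
      4 * Real.log 3 / aA ^ 2 ≤ C ∧ CB / (1 - δ) ≤ C ∧ 16 * VV * CB / ε ≤ C ∧ 1 / c ≤ C ∧
      8 * VV / ε ≤ C :=
    ⟨max (Real.exp 3) (max (Real.exp (1 / (1 - δ))) (max ((16 / ε) ^ 2 / (1 - δ)) (max CB
      (max (4 * Real.log 3 / aA ^ 2) (max (CB / (1 - δ)) (max (16 * VV * CB / ε)
      (max (1 / c) (8 * VV / ε)))))))), by simp, by simp, by simp, by simp, by simp, by simp,
      by simp, by simp, by simp⟩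
  have hC2 : 2 ≤ C := by
    have := Real.add_one_le_exp (3 : ℝ)
    linarith
  have hC0 : 0 < C := by linarith
  refine ⟨C, by linarith, ?_⟩
  intro x M t hx hM1 hMx ht hCt
  have hx0 : 0 < x := by linarith
  have hM0 : 0 < M := by linarith
  obtain ⟨u, hu⟩ : ∃ u : ℝ, u = Real.log x := ⟨_, rfl⟩
  obtain ⟨v, hv⟩ : ∃ v : ℝ, v = Real.log M := ⟨_, rfl⟩
  obtain ⟨L, hL⟩ : ∃ L : ℝ, L = Real.log (x / M) := ⟨_, rfl⟩
  obtain ⟨lam, hlam⟩ : ∃ lam : ℝ, lam = Real.log u := ⟨_, rfl⟩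
  have hLuv : L = u - v := by rw [hL, hu, hv, Real.log_div hx0.ne' hM0.ne']
  rw [← hu, ← hL, ← hlam] at ht
  rw [← hL, ← hv] at hCt
  rw [← hL]
  have hxu : x = Real.exp u := by rw [hu, Real.exp_log hx0]
  have hMv : M = Real.exp v := by rw [hv, Real.exp_log hM0]
  have hu3 : 3 ≤ u := by
    rw [hu, Real.le_log_iff_exp_le hx0]
    linarith
  have hu0 : 0 < u := by linarith
  have hud : 1 / (1 - δ) ≤ u := by
    rw [hu, Real.le_log_iff_exp_le hx0]
    linarith
  have hvu : v ≤ δ * u := by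
    have h1 := Real.log_le_log hM0 hMx
    rw [Real.log_rpow hx0] at h1
    rw [hu, hv]
    exact h1
  have hv0 : 0 ≤ v := by rw [hv]; exact Real.log_nonneg hM1
  have hLu : (1 - δ) * u ≤ L := by rw [hLuv]; linarith
  have hL1 : 1 ≤ L := by
    refine le_trans ?_ hLu
    rw [div_le_iff₀ hδm] at hud
    linarith
  have hL0 : 0 < L := by linarith
  have huL : u ≤ L / (1 - δ) := by rw [le_div_iff₀ hδm]; linarith
  have hlam1 : 1 ≤ lam := by
    rw [hlam, Real.le_log_iff_exp_le hu0]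
    exact Real.exp_one_lt_three.le.trans hu3
  have hulam : u = Real.exp lam := by rw [hlam, Real.exp_log hu0]
  obtain ⟨E, hE⟩ : ∃ E : ℝ, E = t ^ 2 / (2 * VV * L) := ⟨_, rfl⟩
  obtain ⟨hCt', hE0, hE2, hvE, hvC, hv2⟩ := up1 hC2 hV1 hlam1 hL1 ht hCt hE
  have ht0 : 0 < t := by linarith
  -- the ratio
  obtain ⟨r, hr⟩ : ∃ r : ℝ, r = t / L := ⟨_, rfl⟩
  have hr0 : 0 < r := by rw [hr]; positivity
  have hrt : t = r * L := by rw [hr]; field_simp
  have hr1 : r ≤ ε / 16 := up2 hL0 hu0 hε hδ1 c3 hr0 hrt hC0 hCt hvu hLu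
  obtain ⟨σ, hσ⟩ : ∃ σ : ℝ, σ = aA ^ 2 / (2 * Real.log 3) * (t / L) := ⟨_, rfl⟩
  obtain ⟨hσ0, hσ1, hσu⟩ := up3 hL0 ht0 hr (by linarith) hσ hE hδ1 huL
  have hθ := th_pos hσ0 hσ1
  have hkap := kap_nonneg hσ0.le
  have hexp := exp_th_bound hσ0.le hL0 ht0.le hσ
  rw [← hE, ← hr] at hexp
  obtain ⟨hlamE, hE4, hbadE⟩ := up4 hV1 hε hε1 hE0 hlam1 hc0 (by linarith) c7 c8 c9 hE2 hvE
  -- the two terms
  obtain ⟨e, he⟩ : ∃ e : ℝ, e = Real.exp (-(1 - ε / 2) * E) := ⟨_, rfl⟩
  have he0 : 0 < e := by rw [he]; exact Real.exp_pos _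
  have hεE : 0 < ε * E := by positivity
  have hbad : M ^ (-c) * u ^ CB ≤ e := by
    rw [he, hMv, hulam, ← Real.exp_mul, ← Real.exp_mul, ← Real.exp_add]
    apply Real.exp_le_exp.2
    have h5 : -(1 - ε / 2) * E = -E + ε * E / 2 := by ring
    rw [h5]
    linarith
  have hgood : Real.exp (-(th σ * (g1 * L + t))) *
      Real.exp (kap σ * L + ε * (1 - δ) / 8 * σ ^ 2 * u + CB * lam ^ 2) ≤ e := by
    rw [he, ← Real.exp_add]
    apply Real.exp_le_exp.2
    have h1 : ε * (1 - δ) / 8 * σ ^ 2 * u ≤ ε * E / 8 := by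
      calc ε * (1 - δ) / 8 * σ ^ 2 * u = ε * (1 - δ) / 8 * (σ ^ 2 * u) := by ring
        _ ≤ ε * (1 - δ) / 8 * (E / (1 - δ)) := mul_le_mul_of_nonneg_left hσu (by positivity)
        _ = ε * E / 8 := by field_simp
    have h2 : r * E ≤ ε / 16 * E := mul_le_mul_of_nonneg_right hr1 hE0.le
    have h5 : -(1 - ε / 2) * E = -E + ε * E / 2 := by ring
    rw [h5]
    linarith
  -- the blocks
  have hYpos : 0 < √(x * M) := Real.sqrt_pos.2 (by positivity)
  have hlogY : Real.log √(x * M) = (u + v) / 2 := by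
    rw [Real.log_sqrt (by positivity), Real.log_mul hx0.ne' hM0.ne', hu, hv]
  have hMC : CB ≤ M := by
    have := Real.add_one_le_exp v
    rw [hMv]
    linarith
  have huM : u ^ 2 ≤ M := by
    calc u ^ 2 = Real.exp (2 * lam) := by
          rw [hulam, ← Real.exp_nat_mul]
          norm_num
      _ ≤ M := by
          rw [hMv]
          exact Real.exp_le_exp.2 hv2
  have hCBE : CB * (E / (1 - δ)) ≤ v := by
    calc CB * (E / (1 - δ)) = CB / (1 - δ) * E := by ring
      _ ≤ C * E := mul_le_mul_of_nonneg_right c6 hE0.le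
      _ ≤ 2 * VV * C * E := by
          have h1 : 0 < C * E := by positivity
          have h2 : 2 * VV * C * E = 2 * VV * (C * E) := by ring
          rw [h2]
          exact le_mul_of_one_le_left h1.le (by linarith)
      _ ≤ v := hvE
  have hblocks := Nx_le_blocks (x := x) (M := M) (s := g1 * L + t) (Y := √(x * M)) (β := 2 * e)
    hx0 hYpos.le (by positivity) (by
      intro X hX1 hX2
      have hX0 : 0 < X := by linarith
      obtain ⟨U, hU⟩ : ∃ U : ℝ, U = Real.log X := ⟨_, rfl⟩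
      have hU1 : (u + v) / 2 ≤ U := by
        rw [← hlogY, hU]
        exact Real.log_le_log hYpos hX1
      have hU2 : U ≤ u := by
        rw [hU, hu]
        exact Real.log_le_log hX0 hX2
      have hU3 : 1 ≤ U := by linarith
      have hUlam : Real.log U ≤ lam := by
        rw [hlam]
        exact Real.log_le_log (by linarith) hU2
      have hUlam0 : 0 ≤ Real.log U := Real.log_nonneg hU3
      have b1 : M ≤ X ^ δ' := by
        rw [Real.rpow_def_of_pos hX0, ← hU, hMv]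
        exact Real.exp_le_exp.2 (up7 hδ hδ' hvu hU1)
      have b2 : Real.log X ^ 2 ≤ M := by
        rw [← hU]
        exact (pow_le_pow_left₀ (by linarith) hU2 2).trans huM
      have b3 : 1 ≤ σ * Real.log X := by
        rw [← hU]
        exact up6 hL0 hCt' hσ0 hσ c5 (by linarith)
      have b4 : CB * σ ^ 2 * Real.log X ≤ Real.log M := by
        rw [← hU, ← hv]
        calc CB * σ ^ 2 * U ≤ CB * σ ^ 2 * u :=
              mul_le_mul_of_nonneg_left hU2 (by positivity)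
          _ = CB * (σ ^ 2 * u) := by ring
          _ ≤ CB * (E / (1 - δ)) := mul_le_mul_of_nonneg_left hσu (by linarith)
          _ ≤ v := hCBE
      obtain ⟨G, hG1, hG2, hG3, hG4⟩ := hBl X M σ hX0 hMC b1 b2 hσ0 b3 b4
      rw [← hU] at hG3 hG4
      have hXM : Real.log (X / M) ≤ L := by
        rw [hL]
        apply Real.log_le_log (by positivity)
        exact div_le_div_of_nonneg_right hX2 hM0.le
      have hb : ((Lv X \ G).card : ℝ) ≤ X * e := by
        refine hG3.trans ?_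
        rw [mul_assoc]
        apply mul_le_mul_of_nonneg_left _ hX0.le
        refine le_trans ?_ hbad
        apply mul_le_mul_of_nonneg_left _ (Real.rpow_nonneg hM0.le _)
        exact Real.rpow_le_rpow (by linarith) hU2 (by linarith)
      have hm : ∑ n ∈ G, Real.exp (th σ * tau M n) ≤
          X * Real.exp (kap σ * L + ε * (1 - δ) / 8 * σ ^ 2 * u + CB * lam ^ 2) := by
        refine hG4.trans ?_
        apply mul_le_mul_of_nonneg_left _ hX0.le
        apply Real.exp_le_exp.2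
        have h1 : kap σ * Real.log (X / M) ≤ kap σ * L := mul_le_mul_of_nonneg_left hXM hkap
        have h2 : ε * (1 - δ) / 8 * σ ^ 2 * U ≤ ε * (1 - δ) / 8 * σ ^ 2 * u :=
          mul_le_mul_of_nonneg_left hU2 (by positivity)
        have h3 : CB * Real.log U ^ 2 ≤ CB * lam ^ 2 :=
          mul_le_mul_of_nonneg_left (pow_le_pow_left₀ hUlam0 hUlam 2) (by linarith)
        linarith
      have hcnt := block_count (s := g1 * L + t) hθ.le hG2 hb hm
      refine hcnt.trans ?_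
      have h1 : Real.exp (-(th σ * (g1 * L + t))) *
          (X * Real.exp (kap σ * L + ε * (1 - δ) / 8 * σ ^ 2 * u + CB * lam ^ 2)) ≤ X * e := by
        calc Real.exp (-(th σ * (g1 * L + t))) *
            (X * Real.exp (kap σ * L + ε * (1 - δ) / 8 * σ ^ 2 * u + CB * lam ^ 2))
            = X * (Real.exp (-(th σ * (g1 * L + t))) *
                Real.exp (kap σ * L + ε * (1 - δ) / 8 * σ ^ 2 * u + CB * lam ^ 2)) := by ring
          _ ≤ X * e := mul_le_mul_of_nonneg_left hgood hX0.le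
      linarith)
  refine hblocks.trans ?_
  obtain ⟨h7, h8⟩ := up5 hV1 hε hE0 hL0 hr0 (by linarith) hrt hE hE4
  rw [← he] at h7 h8
  have hY : √(x * M) ≤ x * e := by
    have h1 : √(x * M) = x * Real.exp (-(L / 2)) := by
      rw [← Real.exp_log hYpos, hlogY]
      conv_rhs => rw [hxu]
      rw [← Real.exp_add, hLuv]
      congr 1
      ring
    rw [h1]
    exact mul_le_mul_of_nonneg_left h7 hx0.le
  have h6 : -(1 - ε) * t ^ 2 / (2 * VV * L) = -(1 - ε) * E := by rw [hE]; ring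
  rw [h6]
  calc 2 * x * (2 * e) + √(x * M) ≤ 2 * x * (2 * e) + x * e := by linarith
    _ = x * (5 * e) := by ring
    _ ≤ x * Real.exp (-(1 - ε) * E) := mul_le_mul_of_nonneg_left h8 hx0.le

theorem thm_Upper (hB : St_Block) : St_Upper := by
  intro ε δ hε hδ hδ1
  obtain ⟨C, hC1, h⟩ := upper_aux hB (min ε 1) δ (by positivity) (min_le_right _ _) hδ hδ1
  refine ⟨max C (Real.exp 1), hC1.trans (le_max_left _ _), ?_⟩
  intro x M t hx hM hMx ht hCt
  have hxC : C ≤ x := (le_max_left _ _).trans hx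
  have hxe : Real.exp 1 ≤ x := (le_max_right _ _).trans hx
  have hx0 : 0 < x := by linarith
  have hM0 : 0 < M := by linarith
  have hu1 : 1 ≤ Real.log x := by rw [Real.le_log_iff_exp_le hx0]; exact hxe
  have hlam0 : 0 ≤ Real.log (Real.log x) := Real.log_nonneg hu1
  have hL : 0 < Real.log (x / M) := by
    have h1 := Real.log_le_log hM0 hMx
    rw [Real.log_rpow hx0] at h1
    rw [Real.log_div hx0.ne' hM0.ne']
    nlinarith
  have hV := VV_ge_one
  refine (h x M t hxC hM hMx (le_trans ?_ ht) (le_trans ?_ hCt)).trans ?_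
  · apply mul_le_mul_of_nonneg_right _ (Real.sqrt_nonneg _)
    exact mul_le_mul_of_nonneg_right (le_max_left _ _) hlam0
  · exact mul_le_mul_of_nonneg_right (le_max_left _ _) (sq_nonneg t)
  · apply mul_le_mul_of_nonneg_left _ hx0.le
    apply Real.exp_le_exp.2
    apply div_le_div_of_nonneg_right _ (by positivity)
    apply mul_le_mul_of_nonneg_right _ (sq_nonneg t)
    have := min_le_left ε 1
    linarith

end Pool.Agent.UTL
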