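import Pool.Agent.UTL.Cnt

set_option autoImplicit false

/-! Words and first passages. -/

namespace Pool.Agent.UTL

open Finset
open Pool.Agent.Collatz3 (cw)
open Pool.Agent.Collatz3.PD (rd en rd_append en_append en_spec rd_nil en_nil)
open Pool.Agent.Helper27 (T J two_mul_T)

theorem T_pos {n : ℕ} (h : 1 ≤ n) : 1 ≤ T n := by
  unfold T
  split_ifs with h1 <;> omega

theorem iter_pos {n : ℕ} (h : 1 ≤ n) (k : ℕ) : 1 ≤ T^[k] n := by
  induction k generalizing n with
  | zero => exact h
  | succ k ih => rw [Function.iterate_succ_apply]; exact ih (T_pos h)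

/-- All the points of the path read above `b` along `w`, except `b` itself, are larger than `y`. -/
def AboveY (y : ℝ) (w : List ℕ) (b : ℤ) : Prop :=
  ∀ v u : List ℕ, v ++ u = w → v ≠ [] → y < (en v b : ℝ)

theorem cw_keyY {y : ℝ} (hy : 0 < y) {w : List ℕ} {b : ℤ} (hr : rd w b) (ha : AboveY y w b) :
    ∀ u v : List ℕ, v ++ u = w → (en w b : ℝ) + (cw u : ℝ) / 3 ^ u.length ≤
      (en w b : ℝ) * (1 + 1 / (3 * y)) ^ u.length := by
  intro u
  induction u with
  | nil =>
    intro v _
    simp [cw]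
  | cons a u ih =>
    intro v hv
    have hv' : (v ++ [a]) ++ u = w := by rw [← hv]; simp
    have h1 := ih (v ++ [a]) hv'
    have h2 := ha (v ++ [a]) u hv' (by simp)
    rw [← hv', rd_append] at hr
    obtain ⟨hr1, hr2⟩ := hr
    have h3 := en_spec hr2
    have h4 : en w b = en u (en (v ++ [a]) b) := by rw [← hv', en_append hr1]
    rw [← h4] at h3
    obtain ⟨n, hn⟩ : ∃ n, n = en w b := ⟨_, rfl⟩
    obtain ⟨x, hx⟩ : ∃ x, x = en (v ++ [a]) b := ⟨_, rfl⟩
    rw [← hn] at h1 h3 ⊢
    rw [← hx] at h2 h3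
    have h5 : (3 : ℝ) ^ u.length * (n : ℝ) = 2 ^ u.sum * (x : ℝ) - cw u := by exact_mod_cast h3
    have h3p : (0 : ℝ) < 3 ^ u.length := by positivity
    have h7 : (2 : ℝ) ^ u.sum * y ≤ 3 ^ u.length * (n : ℝ) + cw u := by
      have := mul_le_mul_of_nonneg_left h2.le (by positivity : (0 : ℝ) ≤ 2 ^ u.sum)
      linarith
    have h8 : (2 : ℝ) ^ u.sum / 3 ^ u.length ≤ ((n : ℝ) + (cw u : ℝ) / 3 ^ u.length) / y := by
      rw [div_le_div_iff₀ h3p hy, add_mul, div_mul_cancel₀ _ h3p.ne']
      linarith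
    have h9 : (cw (a :: u) : ℝ) / 3 ^ (a :: u).length =
        (cw u : ℝ) / 3 ^ u.length + (2 : ℝ) ^ u.sum / 3 ^ u.length / 3 := by
      simp only [cw, List.length_cons, pow_succ]
      push_cast
      field_simp
    rw [h9, List.length_cons, pow_succ, ← mul_assoc]
    have h11 : (n : ℝ) + ((cw u : ℝ) / 3 ^ u.length + (2 : ℝ) ^ u.sum / 3 ^ u.length / 3) ≤
        ((n : ℝ) + (cw u : ℝ) / 3 ^ u.length) * (1 + 1 / (3 * y)) := by
      have e1 : ((n : ℝ) + (cw u : ℝ) / 3 ^ u.length) * (1 + 1 / (3 * y)) =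
          ((n : ℝ) + (cw u : ℝ) / 3 ^ u.length) +
            ((n : ℝ) + (cw u : ℝ) / 3 ^ u.length) / y / 3 := by
        field_simp
      rw [e1]
      linarith
    refine h11.trans ?_
    exact mul_le_mul_of_nonneg_right h1 (by positivity)

theorem pow_bound {y : ℝ} {j : ℕ} (hy : 0 < y) (hj : (j : ℝ) ≤ y) :
    (1 + 1 / (3 * y)) ^ j ≤ 2 := by
  have h1 : (1 + 1 / (3 * y)) ^ j ≤ Real.exp (j * (1 / (3 * y))) := by
    rw [Real.exp_nat_mul]
    apply pow_le_pow_left₀ (by positivity)
    have := Real.add_one_le_exp (1 / (3 * y))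
    linarith
  refine h1.trans ?_
  have h2 : j * (1 / (3 * y)) ≤ 1 / 3 := by
    rw [mul_one_div, div_le_iff₀ (by positivity)]
    linarith
  calc Real.exp (j * (1 / (3 * y))) ≤ Real.exp (1 / 3) := Real.exp_le_exp.2 h2
    _ ≤ 2 := by
        have h3 := Real.exp_one_lt_three
        have h4 : Real.exp 1 = Real.exp (1 / 3) ^ 3 := by
          rw [← Real.exp_nat_mul]
          norm_num
        by_contra hc
        push Not at hc
        have h5 : (2 : ℝ) ^ 3 < Real.exp (1 / 3) ^ 3 := pow_lt_pow_left₀ hc (by norm_num) (by norm_num)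
        rw [← h4] at h5
        linarith

theorem en_single {x n : ℤ} {z : ℕ} (h : 2 ^ (z + 1) * x = 3 * n + 1) :
    rd [z + 1] x ∧ en [z + 1] x = n := by
  have hcw : cw [z + 1] = 1 := by simp [cw]
  constructor
  · unfold rd
    rw [hcw]
    simp only [List.length_singleton, pow_one, List.sum_singleton]
    rw [h]
    push_cast
    exact ⟨n, by ring⟩
  · unfold en
    rw [hcw]
    simp only [List.length_singleton, pow_one, List.sum_singleton]
    rw [h]
    push_cast
    omega

theorem read_pass : ∀ (k : ℕ) (y : ℝ) (n b : ℕ), 1 ≤ n → T^[k] n = b →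
    (∀ j < k, y < (T^[j] n : ℝ)) →
    ∃ (w : List ℕ) (z : ℕ), w.length = J k n ∧ (∀ i ∈ w, 1 ≤ i) ∧ w.sum + z = k ∧ rd w b ∧
      (2 : ℤ) ^ z * en w b = n ∧ AboveY y w b := by
  intro k
  induction k with
  | zero =>
    intro y n b _ hb _
    refine ⟨[], 0, by simp [J], by simp, by simp, rd_nil _, ?_, ?_⟩
    · rw [en_nil]
      simp only [Function.iterate_zero, id] at hb
      simp [hb]
    · intro v u hvu hv
      exact absurd (List.append_eq_nil_iff.1 hvu).1 hv
  | succ k ih =>
    intro y n b hn hb hy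
    rw [Function.iterate_succ_apply] at hb
    obtain ⟨w, z, h1, h2, h3, h4, h5, h6⟩ := ih y (T n) b (T_pos hn) hb (by
      intro j hj
      have := hy (j + 1) (by omega)
      rwa [Function.iterate_succ_apply] at this)
    have hT := two_mul_T n
    have hy0 : y < (n : ℝ) := by
      have := hy 0 (by omega)
      simpa using this
    rcases Nat.mod_two_eq_zero_or_one n with h | h
    · rw [h, pow_zero, one_mul, add_zero] at hT
      refine ⟨w, z + 1, by rw [h1, J, h, zero_add], h2, by omega, h4, ?_, h6⟩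
      have h7 : (2 : ℤ) * (T n : ℤ) = n := by exact_mod_cast hT
      rw [pow_succ, ← h7, ← h5]
      ring
    · rw [h, pow_one] at hT
      have h7 : (2 : ℤ) * (T n : ℤ) = 3 * n + 1 := by exact_mod_cast hT
      have h8 : (2 : ℤ) ^ (z + 1) * en w b = 3 * n + 1 := by
        rw [pow_succ, ← h7, ← h5]
        ring
      obtain ⟨hrd, hen⟩ := en_single h8
      refine ⟨w ++ [z + 1], 0, ?_, ?_, ?_, rd_append.2 ⟨h4, hrd⟩, ?_, ?_⟩
      · rw [List.length_append, h1, J, h, List.length_singleton]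
        omega
      · intro i hi
        rw [List.mem_append, List.mem_singleton] at hi
        rcases hi with hi | hi
        · exact h2 i hi
        · omega
      · rw [List.sum_append, List.sum_singleton]
        omega
      · rw [en_append h4, hen]
        simp
      · intro v u hvu hv
        rcases List.eq_nil_or_concat u with rfl | ⟨u', a, rfl⟩
        · rw [List.append_nil] at hvu
          rw [hvu, en_append h4, hen]
          exact_mod_cast hy0
        · have h9 : (v ++ u') ++ [a] = w ++ [z + 1] := by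
            rw [← hvu]
            simp
          have h10 := (List.append_inj' h9 (by simp)).1
          exact h6 v u' h10 hv

theorem thm_Wrd : St_Wrd := by
  intro y n k b hn hP hJ
  obtain ⟨hb, hby, hy⟩ := hP
  obtain ⟨w, z, h1, h2, h3, h4, h5, h6⟩ := read_pass k y n b hn hb hy
  have hbpos : 1 ≤ b := by rw [← hb]; exact iter_pos hn k
  have hb0 : (0 : ℝ) < b := by exact_mod_cast hbpos
  have hy0 : 0 < y := lt_of_lt_of_le hb0 hby
  refine ⟨w, z, h1, h2, h3, h4, h5, ?_, ?_⟩
  · intro v u hvu hv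
    have e1 := h6 v u hvu hv
    have hr : rd v b := by
      rw [← hvu, rd_append] at h4
      exact h4.1
    have e2 := en_spec hr
    have e3 : (3 : ℝ) ^ v.length * (en v b : ℝ) = 2 ^ v.sum * (b : ℝ) - cw v := by
      exact_mod_cast e2
    have e4 : (0 : ℝ) ≤ cw v := Nat.cast_nonneg _
    have e5 : (3 : ℝ) ^ v.length * b < 2 ^ v.sum * b := by
      have : (3 : ℝ) ^ v.length * b < 3 ^ v.length * (en v b : ℝ) :=
        mul_lt_mul_of_pos_left (hby.trans_lt e1) (by positivity)
      linarith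
    have e6 := lt_of_mul_lt_mul_right e5 hb0.le
    exact_mod_cast e6
  · have hn0 : (0 : ℝ) ≤ (en w b : ℝ) := by
      have e1 : (0 : ℤ) < 2 ^ z * en w b := by rw [h5]; exact_mod_cast hn
      have e2 : 0 < en w b := pos_of_mul_pos_right e1 (by positivity)
      exact_mod_cast e2.le
    have e1 := cw_keyY hy0 h4 h6 w [] (by simp)
    have e2 := pow_bound hy0 (by rw [← h1] at hJ; exact hJ : (w.length : ℝ) ≤ y)
    have e3 := en_spec h4
    have e4 : (3 : ℝ) ^ w.length * (en w b : ℝ) = 2 ^ w.sum * (b : ℝ) - cw w := by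
      exact_mod_cast e3
    have e5 : (en w b : ℝ) + (cw w : ℝ) / 3 ^ w.length ≤ (en w b : ℝ) * 2 :=
      e1.trans (mul_le_mul_of_nonneg_left e2 hn0)
    have h3p : (0 : ℝ) < 3 ^ w.length := by positivity
    have e6 : (2 : ℝ) ^ w.sum * b ≤ 3 ^ w.length * ((en w b : ℝ) * 2) := by
      calc (2 : ℝ) ^ w.sum * b = 3 ^ w.length * ((en w b : ℝ) + (cw w : ℝ) / 3 ^ w.length) := by
            rw [mul_add, mul_div_cancel₀ _ h3p.ne', e4]
            ring
        _ ≤ _ := mul_le_mul_of_nonneg_left e5 h3p.le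
    have e7 : (2 : ℝ) ^ z * (en w b : ℝ) = n := by exact_mod_cast h5
    rw [← h1, ← h3, pow_add, ← e7]
    calc (2 : ℝ) ^ w.sum * 2 ^ z * b = 2 ^ z * (2 ^ w.sum * b) := by ring
      _ ≤ 2 ^ z * (3 ^ w.length * ((en w b : ℝ) * 2)) :=
          mul_le_mul_of_nonneg_left e6 (by positivity)
      _ = 2 * 3 ^ w.length * (2 ^ z * (en w b : ℝ)) := by ring

end Pool.Agent.UTL
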